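import Pool.Agent.H63.VC.Cross
import Pool.Agent.H63.VC.EndB
import Pool.Agent.H63.VC.Riem
import Pool.Agent.H63.VC.SlowL
import Pool.Agent.H63.VC.SlowU
import Pool.Agent.H63.VC11.Brac11
import Pool.Agent.H63.VC12.Path12
import Pool.Agent.H63.VC4.Checks
import Pool.Agent.H63.VC4.GeoDefs
import Pool.Agent.S4.Defs
import Pool.Agent.S5.Adm

/-! # The continued fractions with even entries: mixed chains -/

set_option autoImplicit false

namespace Pool.Agent.S5

open Pool.Agent.H63.VC7 Pool.Agent.H63.VC8 Pool.Agent.H63.VC11 Pool.Agent.H63.VC12 Pool.Agent.S4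

/-- The condition on the tail after an edge between twist regions of the same sign. -/
def Big : List ℤ → Prop
  | [] => True
  | [c] => 3 ≤ |c|
  | c :: d :: _ => 3 ≤ |c| ∨ c * d < 0

/-- Mixed lists with entries of absolute value at least `2`. -/
def Mx : List ℤ → Prop
  | [] => True
  | [b] => 2 ≤ |b|
  | b :: c :: l => 2 ≤ |b| ∧ (0 < b * c → Big (c :: l)) ∧ Mx (c :: l)

private theorem Mx.head {b : ℤ} {l : List ℤ} (h : Mx (b :: l)) : 2 ≤ |b| := by
  cases l with
  | nil => exact h
  | cons c l => exact h.1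

private theorem Mx.tail {b : ℤ} {l : List ℤ} (h : Mx (b :: l)) : Mx l := by
  cases l with
  | nil => trivial
  | cons c l => exact h.2.2

/-- The value of a list of nonzero even numbers is larger than `1` in absolute value. -/
private theorem abs_mcf_even : ∀ r : List ℤ, (∀ x ∈ r, x ≠ 0) → r ≠ [] →
    1 < |mcf (r.map fun x => 2 * x)|
  | [], _, h => absurd rfl h
  | a :: r, h, _ => by
    have ha : a ≠ 0 := h a (by simp)
    have h2 : (2 : ℚ) ≤ |((2 * a : ℤ) : ℚ)| := by
      have : (2 : ℤ) ≤ |2 * a| := by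
        rw [abs_mul]
        have : 1 ≤ |a| := Int.one_le_abs ha
        simp
        omega
      exact_mod_cast this
    have h1 : |(mcf (r.map fun x => 2 * x))⁻¹| < 1 := by
      by_cases hr : r = []
      · subst hr
        simp [mcf]
      · have := abs_mcf_even r (fun x hx => h x (by simp [hx])) hr
        rw [abs_inv]
        exact inv_lt_one_of_one_lt₀ this
    have h3 : |((2 * a : ℤ) : ℚ)| - |(mcf (r.map fun x => 2 * x))⁻¹| ≤
        |((2 * a : ℤ) : ℚ) - (mcf (r.map fun x => 2 * x))⁻¹| := abs_sub_abs_le_abs_sub _ _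
    show 1 < |((2 * a : ℤ) : ℚ) - (mcf (r.map fun x => 2 * x))⁻¹|
    linarith only [h3, h1, h2]

private theorem abs_inv_even (r : List ℤ) (h : ∀ x ∈ r, x ≠ 0) :
    |(mcf (r.map fun x => 2 * x))⁻¹| < 1 := by
  by_cases hr : r = []
  · subst hr
    simp [mcf]
  · have := abs_mcf_even r h hr
    rw [abs_inv]
    exact inv_lt_one_of_one_lt₀ this

private theorem eq_nil_of_mcf (r : List ℤ) (h : ∀ x ∈ r, x ≠ 0)
    (h0 : mcf (r.map fun x => 2 * x) = 0) : r = [] := by
  by_contra hr
  have := abs_mcf_even r h hr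
  rw [h0] at this
  simp at this
  linarith only [this]

/-- The value of a mixed list. -/
private theorem sign_mul_mcf : ∀ (b : ℤ) (l : List ℤ), Mx (b :: l) →
    ((|b| : ℤ) : ℚ) - 1 < (b.sign : ℚ) * mcf (b :: l)
  | b, [], h => by
    show ((|b| : ℤ) : ℚ) - 1 < (b.sign : ℚ) * ((b : ℚ) - (mcf [])⁻¹)
    simp only [mcf, inv_zero, sub_zero]
    have : b.sign * b = |b| := Int.sign_mul_self_eq_abs b
    have h2 : (b.sign : ℚ) * (b : ℚ) = ((|b| : ℤ) : ℚ) := by exact_mod_cast this
    rw [h2]
    linarith only []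
  | b, c :: l, h => by
    have ih := sign_mul_mcf c l h.2.2
    have hb : 2 ≤ |b| := h.1
    have hc : 2 ≤ |c| := Mx.head h.2.2
    have hcq : (2 : ℚ) ≤ ((|c| : ℤ) : ℚ) := by exact_mod_cast hc
    have hes : |(b.sign : ℚ)| = 1 := by
      have : b ≠ 0 := by rintro rfl; simp at hb
      rcases lt_or_gt_of_ne this with hb | hb
      · rw [Int.sign_eq_neg_one_of_neg hb]; norm_num
      · rw [Int.sign_eq_one_of_pos hb]; norm_num
    have hcs : |(c.sign : ℚ)| = 1 := by
      have : c ≠ 0 := by rintro rfl; simp at hc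
      rcases lt_or_gt_of_ne this with hb | hb
      · rw [Int.sign_eq_neg_one_of_neg hb]; norm_num
      · rw [Int.sign_eq_one_of_pos hb]; norm_num
    have h1 : 1 < |mcf (c :: l)| := by
      have h2 : (c.sign : ℚ) * mcf (c :: l) ≤ |(c.sign : ℚ) * mcf (c :: l)| := le_abs_self _
      rw [abs_mul, hcs, one_mul] at h2
      linarith only [h2, hcq, ih]
    have h3 : |(b.sign : ℚ) * (mcf (c :: l))⁻¹| < 1 := by
      rw [abs_mul, hes, one_mul, abs_inv]
      exact inv_lt_one_of_one_lt₀ h1
    rw [abs_lt] at h3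
    show ((|b| : ℤ) : ℚ) - 1 < (b.sign : ℚ) * ((b : ℚ) - (mcf (c :: l))⁻¹)
    have : b.sign * b = |b| := Int.sign_mul_self_eq_abs b
    have h2 : (b.sign : ℚ) * (b : ℚ) = ((|b| : ℤ) : ℚ) := by exact_mod_cast this
    rw [mul_sub, h2]
    linarith only [h3.2]

private theorem one_lt_abs_mcf {b : ℤ} {l : List ℤ} (h : Mx (b :: l)) : 1 < |mcf (b :: l)| := by
  have hb := Mx.head h
  have hbq : (2 : ℚ) ≤ ((|b| : ℤ) : ℚ) := by exact_mod_cast hb
  have hes : |(b.sign : ℚ)| = 1 := by
    have : b ≠ 0 := by rintro rfl; simp at hb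
    rcases lt_or_gt_of_ne this with hb | hb
    · rw [Int.sign_eq_neg_one_of_neg hb]; norm_num
    · rw [Int.sign_eq_one_of_pos hb]; norm_num
  have h1 := sign_mul_mcf b l h
  have h2 : (b.sign : ℚ) * mcf (b :: l) ≤ |(b.sign : ℚ) * mcf (b :: l)| := le_abs_self _
  rw [abs_mul, hes, one_mul] at h2
  linarith only [h2, h1, hbq]

/-- The value of a tail after an edge between twist regions of the same sign. -/
private theorem two_lt_of_big : ∀ (c : ℤ) (l : List ℤ), Mx (c :: l) → Big (c :: l) →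
    2 < (c.sign : ℚ) * mcf (c :: l)
  | c, [], h, hb => by
    have hb' : 3 ≤ |c| := hb
    show (2 : ℚ) < (c.sign : ℚ) * ((c : ℚ) - (mcf [])⁻¹)
    simp only [mcf, inv_zero, sub_zero]
    have : c.sign * c = |c| := Int.sign_mul_self_eq_abs c
    have h2 : (c.sign : ℚ) * (c : ℚ) = ((|c| : ℤ) : ℚ) := by exact_mod_cast this
    have h3 : (3 : ℚ) ≤ ((|c| : ℤ) : ℚ) := by exact_mod_cast hb'
    rw [h2]
    linarith only [h3]
  | c, d :: l, h, hb => by
    rcases hb with hb | hb
    · have h1 := sign_mul_mcf c (d :: l) h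
      have h3 : (3 : ℚ) ≤ ((|c| : ℤ) : ℚ) := by exact_mod_cast hb
      linarith only [h3, h1]
    · have hc : 2 ≤ |c| := h.1
      have hd : 2 ≤ |d| := Mx.head h.2.2
      have hcq : (2 : ℚ) ≤ ((|c| : ℤ) : ℚ) := by exact_mod_cast hc
      have hdq : (2 : ℚ) ≤ ((|d| : ℤ) : ℚ) := by exact_mod_cast hd
      have ih := sign_mul_mcf d l h.2.2
      have hsc : c.sign = - d.sign := by
        rcases lt_trichotomy c 0 with hb' | hb' | hb'
        · have hc0 : 0 < d := by (refine lt_of_not_ge fun hng => ?_; linarith only [hng, hb,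
                                   mul_nonneg (sub_nonneg.2 hng) (sub_nonneg.2 (Int.add_one_le_iff.2 hb'))])
          rw [Int.sign_eq_neg_one_of_neg hb', Int.sign_eq_one_of_pos hc0]
        · subst hb'; simp at hb
        · have hc0 : d < 0 := by (refine lt_of_not_ge fun hng => ?_; linarith only [hng, hb,
                                   mul_nonneg (sub_nonneg.2 hng) (sub_nonneg.2 (Int.add_one_le_iff.2 hb'))])
          rw [Int.sign_eq_neg_one_of_neg hc0, Int.sign_eq_one_of_pos hb']; norm_num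
      have hcc : (d.sign : ℚ) * (d.sign : ℚ) = 1 := by
        have : d ≠ 0 := by rintro rfl; simp at hd
        rcases lt_or_gt_of_ne this with hb | hb
        · rw [Int.sign_eq_neg_one_of_neg hb]; norm_num
        · rw [Int.sign_eq_one_of_pos hb]; norm_num
      have hpos : 0 < (d.sign : ℚ) * mcf (d :: l) := by linarith only [ih, hdq]
      have hinv : 0 < (d.sign : ℚ) * (mcf (d :: l))⁻¹ := by
        have h1 : (d.sign : ℚ) * (mcf (d :: l))⁻¹ = ((d.sign : ℚ) * mcf (d :: l))⁻¹ := by
          rw [mul_inv]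
          congr 1
          exact (eq_inv_of_mul_eq_one_left hcc)
        rw [h1]
        exact inv_pos.mpr hpos
      show (2 : ℚ) < (c.sign : ℚ) * ((c : ℚ) - (mcf (d :: l))⁻¹)
      have : c.sign * c = |c| := Int.sign_mul_self_eq_abs c
      have h2 : (c.sign : ℚ) * (c : ℚ) = ((|c| : ℤ) : ℚ) := by exact_mod_cast this
      have h4 : (c.sign : ℚ) = -(d.sign : ℚ) := by rw [hsc]; push_cast; ring
      rw [mul_sub, h2, h4]
      linarith only [hinv, hcq]

private theorem sign_sq {b : ℤ} (h : b ≠ 0) : (b.sign : ℚ) = 1 ∨ (b.sign : ℚ) = -1 := by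
  rcases lt_or_gt_of_ne h with hb | hb
  · right
    rw [Int.sign_eq_neg_one_of_neg hb]
    norm_num
  · left
    rw [Int.sign_eq_one_of_pos hb]
    norm_num

private theorem half_lt : ∀ (b : ℤ) (l : List ℤ), Mx (b :: l) →
    ((|b| : ℤ) : ℚ) - 1 / 2 < (b.sign : ℚ) * mcf (b :: l)
  | b, [], h => by
    show ((|b| : ℤ) : ℚ) - 1 / 2 < (b.sign : ℚ) * ((b : ℚ) - (mcf [])⁻¹)
    simp only [mcf, inv_zero, sub_zero]
    have : b.sign * b = |b| := Int.sign_mul_self_eq_abs b
    have h2 : (b.sign : ℚ) * (b : ℚ) = ((|b| : ℤ) : ℚ) := by exact_mod_cast this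
    rw [h2]
    linarith only []
  | b, c :: l, h => by
    have hb : 2 ≤ |b| := h.1
    have hc : 2 ≤ |c| := Mx.head h.2.2
    have hb0 : b ≠ 0 := by rintro rfl; simp at hb
    have hc0 : c ≠ 0 := by rintro rfl; simp at hc
    have hcq : (2 : ℚ) ≤ ((|c| : ℤ) : ℚ) := by exact_mod_cast hc
    have hsc := sign_mul_mcf c l h.2.2
    have hsq := sign_sq hc0
    have h1 : (c.sign : ℚ) * (mcf (c :: l))⁻¹ = ((c.sign : ℚ) * mcf (c :: l))⁻¹ := by
      rcases hsq with h3 | h3 <;> rw [h3] <;> simp [inv_neg]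
    have key : (b.sign : ℚ) * (mcf (c :: l))⁻¹ < 1 / 2 := by
      rcases lt_or_gt_of_ne (mul_ne_zero hb0 hc0) with hbc | hbc
      · have hs : (b.sign : ℚ) = -(c.sign : ℚ) := by
          rcases lt_or_gt_of_ne hb0 with h3 | h3
          · have h4 : 0 < c := by (refine lt_of_not_ge fun hng => ?_; linarith only [hng, hbc,
                                    mul_nonneg (sub_nonneg.2 hng) (sub_nonneg.2 (Int.add_one_le_iff.2 h3))])
            rw [Int.sign_eq_neg_one_of_neg h3, Int.sign_eq_one_of_pos h4]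
            norm_num
          · have h4 : c < 0 := by (refine lt_of_not_ge fun hng => ?_; linarith only [hng, hbc,
                                    mul_nonneg (sub_nonneg.2 hng) (sub_nonneg.2 (Int.add_one_le_iff.2 h3))])
            rw [Int.sign_eq_neg_one_of_neg h4, Int.sign_eq_one_of_pos h3]
            norm_num
        have h5 : 0 < ((c.sign : ℚ) * mcf (c :: l))⁻¹ := inv_pos.2 (by linarith only [hsc, hcq])
        rw [hs, neg_mul, h1]
        linarith only [h5]
      · have hs : (b.sign : ℚ) = (c.sign : ℚ) := by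
          rcases lt_or_gt_of_ne hb0 with h3 | h3
          · have h4 : c < 0 := by (refine lt_of_not_ge fun hng => ?_; linarith only [hng, hbc,
                                    mul_nonneg (sub_nonneg.2 hng) (sub_nonneg.2 (Int.add_one_le_iff.2 h3))])
            rw [Int.sign_eq_neg_one_of_neg h3, Int.sign_eq_neg_one_of_neg h4]
          · have h4 : 0 < c := by (refine lt_of_not_ge fun hng => ?_; linarith only [hng, hbc,
                                    mul_nonneg (sub_nonneg.2 hng) (sub_nonneg.2 (Int.add_one_le_iff.2 h3))])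
            rw [Int.sign_eq_one_of_pos h3, Int.sign_eq_one_of_pos h4]
        have h5 := two_lt_of_big c l h.2.2 (h.2.1 hbc)
        have h6 := inv_strictAnti₀ (show (0 : ℚ) < 2 by norm_num) h5
        rw [hs, h1]
        linarith only [h6]
    show ((|b| : ℤ) : ℚ) - 1 / 2 < (b.sign : ℚ) * ((b : ℚ) - (mcf (c :: l))⁻¹)
    have : b.sign * b = |b| := Int.sign_mul_self_eq_abs b
    have h2 : (b.sign : ℚ) * (b : ℚ) = ((|b| : ℤ) : ℚ) := by exact_mod_cast this
    rw [mul_sub, h2]
    linarith only [key]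

/-- One step for a twist region with parallel strands. -/
private theorem step_S (e : ℤ) (he : e = 1 ∨ e = -1) (x : ℚ) (hx : 3 / 2 < (e : ℚ) * x) (r : List ℤ)
    (hr : ∀ x ∈ r, x ≠ 0) (h : (mcf (r.map fun x => 2 * x))⁻¹ = x⁻¹ - e) :
    ∃ r', r = -e :: r' ∧ (mcf (r'.map fun x => 2 * x))⁻¹ = (x - e)⁻¹ - e := by
  have heq : (e : ℚ) * (e : ℚ) = 1 := by rcases he with rfl | rfl <;> norm_num
  have hx0 : x ≠ 0 := by rintro rfl; simp at hx; linarith only [hx]
  have hxe : x - e ≠ 0 := by
    intro h0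
    have : x = e := by linarith only [h0]
    rw [this, heq] at hx
    linarith only [hx]
  have he0 : (e : ℚ) ≠ 0 := by intro h0; rw [h0] at heq; simp at heq
  have h1 : x⁻¹ - (e : ℚ) = -((e : ℚ) * (x - e)) / x := by
    rw [eq_div_iff hx0, sub_mul, inv_mul_cancel₀ hx0]
    linear_combination - heq
  have hval : mcf (r.map fun x => 2 * x) = -(e : ℚ) - (x - e)⁻¹ := by
    have : mcf (r.map fun x => 2 * x) = (x⁻¹ - (e : ℚ))⁻¹ := by rw [← h, inv_inv]
    rw [this, h1, inv_div, div_eq_iff (by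
      rw [neg_ne_zero]; exact mul_ne_zero he0 hxe)]
    have h3 : (x - (e : ℚ))⁻¹ * (x - e) = 1 := inv_mul_cancel₀ hxe
    linear_combination (x - e) * (- heq) * (-1) * (-1) - (e : ℚ) * h3 * (-1) * (-1) + 0 * heq
  have hfin : 0 < (e : ℚ) * (x - e) := by
    have : (e : ℚ) * (x - e) = (e : ℚ) * x - 1 := by linear_combination - heq
    rw [this]; linarith only [hx]
  have hinv1 : (e : ℚ) * (x - e)⁻¹ < 2 ∧ 0 < (e : ℚ) * (x - e)⁻¹ := by
    have h2 : (e : ℚ) * (x - e)⁻¹ = ((e : ℚ) * (x - e))⁻¹ := by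
      rw [mul_inv]
      congr 1
      exact (eq_inv_of_mul_eq_one_left heq)
    have h4 : 1 / 2 < (e : ℚ) * (x - e) := by
      have : (e : ℚ) * (x - e) = (e : ℚ) * x - 1 := by linear_combination - heq
      rw [this]; linarith only [hx]
    rw [h2]
    refine ⟨?_, inv_pos.mpr hfin⟩
    have h5 := inv_strictAnti₀ (show (0 : ℚ) < 1 / 2 by norm_num) h4
    rw [one_div, inv_inv] at h5
    exact h5
  cases r with
  | nil =>
    exfalso
    have h0 : (0 : ℚ) = -(e : ℚ) - (x - e)⁻¹ := by simpa [mcf] using hval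
    have h5 : (e : ℚ) * (x - e)⁻¹ = -1 := by linear_combination (e : ℚ) * h0 - heq
    linarith only [h5, hinv1.2]
  | cons a r' =>
    have hr' : ∀ x ∈ r', x ≠ 0 := fun y hy => hr y (by simp [hy])
    have hlt := abs_inv_even r' hr'
    have h6 : ((2 * a : ℤ) : ℚ) - (mcf (r'.map fun x => 2 * x))⁻¹ = -(e : ℚ) - (x - e)⁻¹ := hval
    have h7 : |(e : ℚ) * (mcf (r'.map fun x => 2 * x))⁻¹| < 1 := by
      rw [abs_mul]
      have : |(e : ℚ)| = 1 := by rcases he with rfl | rfl <;> norm_num
      rw [this, one_mul]; exact hlt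
    rw [abs_lt] at h7
    have h8 : ((2 * (e * a) : ℤ) : ℚ) = -1 - (e : ℚ) * (x - e)⁻¹
        + (e : ℚ) * (mcf (r'.map fun x => 2 * x))⁻¹ := by
      push_cast at h6 ⊢
      linear_combination (e : ℚ) * h6 - heq
    have h9 : ((2 * (e * a) : ℤ) : ℚ) < ((0 : ℤ) : ℚ) := by
      rw [h8]; push_cast; linarith only [h7.2, hinv1.2]
    have h10 : ((-4 : ℤ) : ℚ) < ((2 * (e * a) : ℤ) : ℚ) := by
      rw [h8]; push_cast; linarith only [h7.1, hinv1.1]
    have h9' : 2 * (e * a) < 0 := by exact_mod_cast h9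
    have h10' : -4 < 2 * (e * a) := by exact_mod_cast h10
    have h11 : e * a = -1 := by omega
    have h12 : a = -e := by rcases he with rfl | rfl <;> omega
    refine ⟨r', by rw [h12], ?_⟩
    rw [h12] at h6
    push_cast at h6
    linear_combination - h6

/-- The steps for a twist region with parallel strands. -/
private theorem steps_S (e : ℤ) (he : e = 1 ∨ e = -1) : ∀ (n : ℕ) (x : ℚ),
    (n : ℚ) + 1 / 2 < (e : ℚ) * x → ∀ (r : List ℤ), (∀ x ∈ r, x ≠ 0) →
    (mcf (r.map fun x => 2 * x))⁻¹ = x⁻¹ - e →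
    ∃ r', r = List.replicate n (-e) ++ r' ∧
      (mcf (r'.map fun x => 2 * x))⁻¹ = (x - n * e)⁻¹ - e
  | 0, x, _, r, _, h => ⟨r, by simp, by simpa using h⟩
  | n + 1, x, hx, r, hr, h => by
    have heq : (e : ℚ) * (e : ℚ) = 1 := by rcases he with rfl | rfl <;> norm_num
    push_cast at hx
    have hn : (0 : ℚ) ≤ n := by positivity
    obtain ⟨r', h1, h2⟩ := step_S e he x (by linarith only [hx]) r hr h
    have hr' : ∀ x ∈ r', x ≠ 0 := fun y hy => hr y (by rw [h1]; simp [hy])
    obtain ⟨r'', h3, h4⟩ := steps_S e he n (x - e) (by linarith only [hx, heq]) r' hr' h2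
    refine ⟨r'', ?_, ?_⟩
    · rw [h1, h3, List.replicate_succ]; simp
    · rw [h4]
      push_cast
      congr 2
      ring

/-- The statement for a tail of the chain. -/
private def TT (l : List ℤ) : Prop :=
  ∀ (r : List ℤ), (∀ x ∈ r, x ≠ 0) → ∀ k : ℤ,
    (mcf (r.map fun x => 2 * x))⁻¹ - (mcf l)⁻¹ = k →
    ∃ L : List (Bool × ℤ), L.map Prod.snd = l ∧ OkL 0 L ∧ r = exr 0 L ∧ k = -hs L

private theorem TT_nil : TT [] := by
  intro r hr k h
  have h1 := abs_inv_even r hr
  have h2 : (mcf (r.map fun x => 2 * x))⁻¹ = (k : ℚ) := by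
    simpa [mcf] using h
  rw [h2] at h1
  have h3 : |k| < 1 := by exact_mod_cast h1
  have h4 : k = 0 := Int.abs_lt_one_iff.mp h3
  rw [h4] at h2
  have h5 : mcf (r.map fun x => 2 * x) = 0 := by simpa using h2
  have h6 := eq_nil_of_mcf r hr h5
  exact ⟨[], rfl, trivial, by rw [h6]; rfl, by rw [h4]; rfl⟩

/-- A twist region with antiparallel strands. -/
private theorem claim_A (s b : ℤ) (l : List ℤ) (hT : TT l) (hs0 : s = 0 ∨ s = 1 ∨ s = -1)
    (hx : 1 < |mcf (b :: l)|) (r : List ℤ) (hr : ∀ x ∈ r, x ≠ 0)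
    (h : mcf (r.map fun x => 2 * x) = mcf (b :: l) - s) :
    ∃ L' : List (Bool × ℤ), L'.map Prod.snd = l ∧ OkL s ((false, b) :: L') ∧
      r = exr s ((false, b) :: L') := by
  have hs1 : |(s : ℚ)| ≤ 1 := by rcases hs0 with rfl | rfl | rfl <;> norm_num
  cases r with
  | nil =>
    exfalso
    have h0 : (0 : ℚ) = mcf (b :: l) - s := by simpa [mcf] using h
    have h1 : mcf (b :: l) = s := by linarith only [h0]
    rw [h1] at hx
    linarith only [hs1, hx]
  | cons a r' =>
    have hr' : ∀ x ∈ r', x ≠ 0 := fun y hy => hr y (by simp [hy])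
    have h6 : ((2 * a : ℤ) : ℚ) - (mcf (r'.map fun x => 2 * x))⁻¹ = ((b : ℚ) - (mcf l)⁻¹) - s := h
    obtain ⟨L', h1, h2, h3, h4⟩ := hT r' hr' (2 * a - b + s) (by
      push_cast at h6 ⊢
      linear_combination - h6)
    have h5 : b - s - hs L' = 2 * a := by omega
    refine ⟨L', h1, ⟨⟨a, h5⟩, h2⟩, ?_⟩
    show a :: r' = (b - s - hs L') / 2 :: exr 0 L'
    rw [h5, h3, Int.mul_ediv_cancel_left a (by norm_num)]

private theorem TT_all : ∀ (l : List ℤ), Mx l → TT l
  | [], _ => TT_nil
  | b :: l, hA => by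
    have hTl : TT l := TT_all l hA.tail
    intro r hr k h
    have hb2 : 2 ≤ |b| := hA.head
    have hb0 : b ≠ 0 := by rintro rfl; simp at hb2
    have hbq : (2 : ℚ) ≤ ((|b| : ℤ) : ℚ) := by exact_mod_cast hb2
    have hsm := sign_mul_mcf b l hA
    have he : b.sign = 1 ∨ b.sign = -1 := by
      rcases lt_or_gt_of_ne hb0 with hb | hb
      · right; exact Int.sign_eq_neg_one_of_neg hb
      · left; exact Int.sign_eq_one_of_pos hb
    have heq : (b.sign : ℚ) * (b.sign : ℚ) = 1 := by rcases he with h | h <;> rw [h] <;> norm_num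
    have hes : |(b.sign : ℚ)| = 1 := by rcases he with h | h <;> rw [h] <;> norm_num
    set x := mcf (b :: l) with hxdef
    have hx2 : 1 < |x| := by
      have h1 : (b.sign : ℚ) * x ≤ |(b.sign : ℚ) * x| := le_abs_self _
      rw [abs_mul, hes, one_mul] at h1
      linarith only [h1, hsm, hbq]
    have hx0 : x ≠ 0 := by intro h0; rw [h0] at hx2; simp at hx2; linarith only [hx2]
    have hinv : 0 < (b.sign : ℚ) * x⁻¹ ∧ (b.sign : ℚ) * x⁻¹ < 1 := by
      have h2 : (b.sign : ℚ) * x⁻¹ = ((b.sign : ℚ) * x)⁻¹ := by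
        rw [mul_inv]
        congr 1
        exact (eq_inv_of_mul_eq_one_left heq)
      have h3 : 1 < (b.sign : ℚ) * x := by linarith only [hsm, hbq]
      rw [h2]
      refine ⟨inv_pos.mpr (by linarith only [hsm, hbq]), ?_⟩
      exact inv_lt_one_of_one_lt₀ h3
    have hw := abs_inv_even r hr
    have hw2 : |(b.sign : ℚ) * (mcf (r.map fun x => 2 * x))⁻¹| < 1 := by
      rw [abs_mul, hes, one_mul]; exact hw
    rw [abs_lt] at hw2
    have hk1 : ((b.sign * k : ℤ) : ℚ) < ((1 : ℤ) : ℚ) := by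
      push_cast; rw [← h]; linarith only [hw2.2, hinv.1]
    have hk2 : ((-2 : ℤ) : ℚ) < ((b.sign * k : ℤ) : ℚ) := by
      push_cast; rw [← h]; linarith only [hw2.1, hinv.2]
    have hk1' : b.sign * k < 1 := by exact_mod_cast hk1
    have hk2' : -2 < b.sign * k := by exact_mod_cast hk2
    have hk3 : b.sign * k = 0 ∨ b.sign * k = -1 := by omega
    rcases hk3 with hk | hk
    · -- antiparallel
      have hk0 : k = 0 := by rcases he with h | h <;> rw [h] at hk <;> omega
      rw [hk0] at h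
      have h1 : mcf (r.map fun x => 2 * x) = x - (0 : ℤ) := by
        have : (mcf (r.map fun x => 2 * x))⁻¹ = x⁻¹ := by push_cast at h; linarith only [h]
        rw [inv_inj.mp this]; simp
      obtain ⟨L', h2, h3, h4⟩ := claim_A 0 b l hTl (Or.inl rfl) hx2 r hr h1
      exact ⟨(false, b) :: L', by simp [h2], h3, h4, by rw [hk0]; rfl⟩
    · -- parallel
      have hke : k = -b.sign := by rcases he with h | h <;> rw [h] at hk ⊢ <;> omega
      rw [hke] at h
      push_cast at h
      have h1 : (mcf (r.map fun x => 2 * x))⁻¹ = x⁻¹ - b.sign := by linarith only [h]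
      have habs : (b.natAbs : ℤ) = |b| := Int.natCast_natAbs b
      have hn1 : ((b.natAbs - 1 : ℕ) : ℤ) = |b| - 1 := by omega
      have hn1q : ((b.natAbs - 1 : ℕ) : ℚ) = ((|b| : ℤ) : ℚ) - 1 := by
        have : (((b.natAbs - 1 : ℕ) : ℤ) : ℚ) = ((|b| - 1 : ℤ) : ℚ) := by rw [hn1]
        push_cast at this ⊢
        simpa using this
      have hhl := half_lt b l hA
      obtain ⟨r', h2, h3⟩ := steps_S b.sign he (b.natAbs - 1) x (by rw [hn1q]; linarith only [hhl]) r hr h1
      have hr' : ∀ x ∈ r', x ≠ 0 := fun y hy => hr y (by rw [h2]; simp [hy])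
      have hsb : (b.sign : ℚ) * (b : ℚ) = ((|b| : ℤ) : ℚ) := by
        have : b.sign * b = |b| := Int.sign_mul_self_eq_abs b
        exact_mod_cast this
      have hxn : x - ((b.natAbs - 1 : ℕ) : ℚ) * b.sign = b.sign - (mcf l)⁻¹ := by
        have hx3 : x = (b : ℚ) - (mcf l)⁻¹ := rfl
        rw [hx3, hn1q]
        have h5 : (b : ℚ) = (b.sign : ℚ) * ((|b| : ℤ) : ℚ) := by
          rw [← hsb, ← mul_assoc, heq, one_mul]
        linear_combination h5
      rw [hxn] at h3
      cases l with
      | nil =>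
        have h4 : mcf (r'.map fun x => 2 * x) = 0 := by
          have h5 : (mcf (r'.map fun x => 2 * x))⁻¹ = 0 := by
            rw [h3]
            simp only [mcf, inv_zero, sub_zero]
            rw [sub_eq_zero]
            exact (eq_inv_of_mul_eq_one_left heq).symm
          simpa using h5
        have h5 := eq_nil_of_mcf r' hr' h4
        refine ⟨[(true, b)], rfl, ⟨hb0, by simp, trivial⟩, ?_, by rw [hke]; rfl⟩
        rw [h2, h5]
        rfl
      | cons c l' =>
        have hAc : Mx (c :: l') := hA.tail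
        have hTl' : TT l' := TT_all l' hAc.tail
        have hv2 := one_lt_abs_mcf hAc
        set v := mcf (c :: l') with hvdef
        have hv0 : v ≠ 0 := by intro h0; rw [h0] at hv2; simp at hv2; linarith only [hv2, hinv.2,
                                                                        hinv.1]
        have hve : v - b.sign ≠ 0 := by
          intro h0
          have : v = b.sign := by linarith only [h0]
          rw [this, hes] at hv2
          exact lt_irrefl _ hv2
        have hE : (b.sign : ℚ) - v⁻¹ = (b.sign : ℚ) * (v - b.sign) / v := by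
          rw [eq_div_iff hv0, sub_mul, inv_mul_cancel₀ hv0]
          linear_combination heq
        have he0 : (b.sign : ℚ) ≠ 0 := by intro h0; rw [h0] at heq; simp at heq
        have h4 : (mcf (r'.map fun x => 2 * x))⁻¹ = (v - b.sign)⁻¹ := by
          rw [h3, hE, inv_div]
          have h9 : (v - (b.sign : ℚ))⁻¹ * (v - b.sign) = 1 := inv_mul_cancel₀ hve
          rw [div_sub' (mul_ne_zero he0 hve), div_eq_iff (mul_ne_zero he0 hve)]
          linear_combination (- (b.sign : ℚ)) * h9 + (b.sign - v) * heq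
        have h5 : mcf (r'.map fun x => 2 * x) = v - b.sign := inv_inj.mp h4
        obtain ⟨L', h6, h7, h8⟩ := claim_A b.sign c l' hTl' (Or.inr he) hv2 r' hr' h5
        refine ⟨(true, b) :: (false, c) :: L', by simp [h6], ⟨hb0, by simp, h7⟩, ?_,
          by rw [hke]; rfl⟩
        rw [h2, h8]
        rfl
termination_by l => l.length

theorem mx_of (l : List ℤ) (h2 : ∀ x ∈ l, 2 ≤ |x|)
    (hc : ∀ (i : ℕ) (hi : i + 1 < l.length), 0 < l[i] * l[i + 1] →
      3 ≤ |l[i + 1]| ∨ ∃ h : i + 2 < l.length, l[i + 1] * l[i + 2] < 0) : Mx l := by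
  induction l with
  | nil => trivial
  | cons b l ih =>
    have ihl : Mx l := ih (fun x hx => h2 x (by simp [hx])) (fun i hi h3 => by
      have := hc (i + 1) (by rw [List.length_cons]; omega) h3
      rcases this with h4 | ⟨h4, h5⟩
      · exact Or.inl h4
      · exact Or.inr ⟨by rw [List.length_cons] at h4; omega, h5⟩)
    cases l with
    | nil => exact h2 b (by simp)
    | cons c l =>
      refine ⟨h2 b (by simp), fun h3 => ?_, ihl⟩
      have := hc 0 (by simp) h3
      cases l with
      | nil =>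
        rcases this with h4 | ⟨h4, h5⟩
        · exact h4
        · simp at h4
      | cons d l =>
        rcases this with h4 | ⟨h4, h5⟩
        · exact Or.inl h4
        · exact Or.inr h5

theorem types_mx {m p : ℕ} (b : Fin (m + 1) → ℤ) (hA : Mx (List.ofFn b))
    (r : Fin (p + 1) → ℤ) (hr : ∀ i, r i ≠ 0)
    (h : ∃ k : ℤ, (mcf (List.ofFn fun i => 2 * r i))⁻¹ - (mcf (List.ofFn b))⁻¹ = k) :
    ∃ P : Fin (m + 1) → Bool, OkL 0 (List.ofFn fun i => (P i, b i)) ∧
      List.ofFn r = exr 0 (List.ofFn fun i => (P i, b i)) := by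
  obtain ⟨k, hk⟩ := h
  have hr' : ∀ x ∈ List.ofFn r, x ≠ 0 := by
    intro x hx
    rw [List.mem_ofFn] at hx
    obtain ⟨i, rfl⟩ := hx
    exact hr i
  have hmap : (List.ofFn fun i => 2 * r i) = (List.ofFn r).map fun x => 2 * x := by
    rw [List.map_ofFn]; rfl
  rw [hmap] at hk
  obtain ⟨L, h1, h2, h3, _⟩ := TT_all _ hA (List.ofFn r) hr' k hk
  have hlen : L.length = m + 1 := by
    have := congrArg List.length h1
    simpa using this
  have hL : L = List.ofFn fun i : Fin (m + 1) => ((L[(i : ℕ)]'(by rw [hlen]; exact i.2)).1, b i) := by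
    apply List.ext_getElem
    · simp [hlen]
    · intro i hi1 hi2
      rw [List.getElem_ofFn]
      have hi3 : i < m + 1 := by rw [← hlen]; exact hi1
      have h4 : (L.map Prod.snd)[i]'(by simpa using hi1) = (List.ofFn b)[i]'(by simpa using hi3) := by
        simp only [h1]
      rw [List.getElem_map, List.getElem_ofFn] at h4
      exact Prod.ext rfl h4
  refine ⟨fun i => (L[(i : ℕ)]'(by rw [hlen]; exact i.2)).1, ?_, ?_⟩
  · rw [← hL]; exact h2
  · rw [← hL]; exact h3

/-- Admissible chains. -/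
theorem mx_of_adm {R : ℕ} {c : ℕ → ℤ}
    (h : Adm R (fun i => (c i).natAbs) (fun i => decide (0 < c i * c (i + 1)))) :
    Mx (List.ofFn fun i : Fin (R + 1) => c i) := by
  have hne : ∀ i, i ≤ R → c i ≠ 0 := by
    intro i hi h0
    have := h.ha i hi
    rw [h0] at this
    simp at this
  apply mx_of
  · intro x hx
    rw [List.mem_ofFn] at hx
    obtain ⟨i, rfl⟩ := hx
    have := h.ha i (by omega)
    rw [Int.abs_eq_natAbs]
    exact_mod_cast this
  · intro i hi h3
    rw [List.length_ofFn] at hi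
    rw [List.getElem_ofFn, List.getElem_ofFn] at h3
    simp only at h3
    rw [List.getElem_ofFn]
    simp only
    by_cases hiR : i + 1 = R
    · left
      have := h.hlst i hiR (decide_eq_true h3)
      rw [Int.abs_eq_natAbs]
      exact_mod_cast this
    · by_cases h4 : 0 < c (i + 1) * c (i + 2)
      · left
        have := h.hmid i (by omega) (decide_eq_true h3) (decide_eq_true h4)
        rw [Int.abs_eq_natAbs]
        exact_mod_cast this
      · right
        refine ⟨by rw [List.length_ofFn]; omega, ?_⟩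
        rw [List.getElem_ofFn]
        simp only
        have h5 := mul_ne_zero (hne (i + 1) (by omega)) (hne (i + 2) (by omega))
        omega

/-- The types of the twist regions of an admissible chain. -/
theorem types_adm {R p : ℕ} {c : ℕ → ℤ}
    (hc : Adm R (fun i => (c i).natAbs) (fun i => decide (0 < c i * c (i + 1))))
    (r : Fin (p + 1) → ℤ) (hr : ∀ i, r i ≠ 0)
    (h : ∃ k : ℤ, (mcf (List.ofFn fun i => 2 * r i))⁻¹ -
      (mcf (List.ofFn fun i : Fin (R + 1) => c i))⁻¹ = k) :
    ∃ P : Fin (R + 1) → Bool, OkL 0 (List.ofFn fun i => (P i, c i)) ∧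
      List.ofFn r = exr 0 (List.ofFn fun i => (P i, c i)) :=
  types_mx (fun i : Fin (R + 1) => c i) (mx_of_adm hc) r hr h

end Pool.Agent.S5
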