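import Pool.Agent.S5.N.Shift

/-!
# Shifts of order `1 / M` of the arguments of the growth rates of the nodes
-/

set_option autoImplicit false

namespace Pool.Agent.S5

open Complex Filter Topology
open Pool.Agent.S3

/-- `x'` is `x` up to `S / M`. -/
def Nr (S : ℝ) (M : ℕ) {E : Type*} [NormedAddCommGroup E] [NormedSpace ℝ E] (x' x : E) : Prop :=
  ‖(M : ℝ) • (x' - x)‖ ≤ S

/-- The growth functions at close points. -/
def Osc {E : Type*} [NormedAddCommGroup E] [NormedSpace ℝ E] (f : E → ℝ) : Prop :=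
  ∀ R S : ℝ, ∃ C : ℝ, 0 < C ∧ ∀ M : ℕ, 1 ≤ M → ∀ x x' : E, ‖x‖ ≤ R → Nr S M x' x →
    |M * f x' - M * f x| ≤ C * (1 + Real.log M)

section
variable {E : Type*} [NormedAddCommGroup E] [NormedSpace ℝ E]

theorem Nr.ball {S : ℝ} {M : ℕ} (hM : 1 ≤ M) {x' x : E} {R : ℝ} (hx : ‖x‖ ≤ R) (h : Nr S M x' x) :
    ‖x'‖ ≤ R + |S| := by
  have hM1 : (1 : ℝ) ≤ M := by exact_mod_cast hM
  have h1 : ‖x' - x‖ ≤ |S| := by
    have h2 : ‖(M : ℝ) • (x' - x)‖ ≤ |S| := h.trans (le_abs_self S)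
    rw [norm_smul, Real.norm_of_nonneg (by linarith)] at h2
    nlinarith [norm_nonneg (x' - x)]
  have e : x' = x + (x' - x) := by abel
  rw [e]
  exact (norm_add_le _ _).trans (by linarith)

theorem Osc.add {f g : E → ℝ} (hf : Osc f) (hg : Osc g) : Osc fun x => f x + g x := by
  intro R S
  obtain ⟨C, hC, h⟩ := hf R S
  obtain ⟨D, hD, k⟩ := hg R S
  refine ⟨C + D, by linarith, fun M hM x x' hx hx' => ?_⟩
  have h1 := h M hM x x' hx hx'
  have h2 := k M hM x x' hx hx'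
  have h3 := abs_add_le (M * f x' - M * f x) (M * g x' - M * g x)
  rw [show (M : ℝ) * (f x' + g x') - M * (f x + g x) =
    (M * f x' - M * f x) + (M * g x' - M * g x) by ring]
  linarith

theorem Osc.neg {f : E → ℝ} (hf : Osc f) : Osc fun x => -f x := by
  intro R S
  obtain ⟨C, hC, h⟩ := hf R S
  refine ⟨C, hC, fun M hM x x' hx hx' => ?_⟩
  have h1 := h M hM x x' hx hx'
  rwa [show (M : ℝ) * (-f x') - M * (-f x) = -(M * f x' - M * f x) by ring, abs_neg]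

theorem Osc.sub {f g : E → ℝ} (hf : Osc f) (hg : Osc g) : Osc fun x => f x - g x := by
  have := hf.add hg.neg
  simpa only [sub_eq_add_neg] using this

/-- Composition with a continuous linear map. -/
theorem Osc.comp {F : Type*} [NormedAddCommGroup F] [NormedSpace ℝ F] {f : F → ℝ} (hf : Osc f)
    (L : E →L[ℝ] F) (v : F) : Osc fun x => f (L x + v) := by
  intro R S
  obtain ⟨C, hC, h⟩ := hf (‖L‖ * |R| + ‖v‖) (‖L‖ * |S|)
  refine ⟨C, hC, fun M hM x x' hx hx' => h M hM _ _ ?_ ?_⟩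
  · refine (norm_add_le _ _).trans (add_le_add ((L.le_opNorm x).trans ?_) le_rfl)
    exact mul_le_mul_of_nonneg_left (hx.trans (le_abs_self R)) (norm_nonneg _)
  · unfold Nr at hx' ⊢
    rw [add_sub_add_right_eq_sub, ← map_sub, ← map_smul]
    refine (L.le_opNorm _).trans ?_
    exact mul_le_mul_of_nonneg_left (hx'.trans (le_abs_self S)) (norm_nonneg _)

/-- Smooth functions. -/
theorem Osc.smooth [FiniteDimensional ℝ E] {f : E → ℝ} (hf : ContDiff ℝ 1 f) : Osc f := by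
  intro R S
  have hc : IsCompact (Metric.closedBall (0 : E) (R + |S|)) := isCompact_closedBall _ _
  have hcont : Continuous fun x => ‖fderiv ℝ f x‖ := (hf.continuous_fderiv (by norm_num)).norm
  obtain ⟨B, hB⟩ := hc.bddAbove_image hcont.continuousOn
  have hB' : ∀ x ∈ Metric.closedBall (0 : E) (R + |S|), ‖fderiv ℝ f x‖ ≤ |B| := fun x hx =>
    (hB (Set.mem_image_of_mem _ hx)).trans (le_abs_self B)
  refine ⟨|B| * |S| + 1, by positivity, fun M hM x x' hx hx' => ?_⟩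
  have hM1 : (1 : ℝ) ≤ M := by exact_mod_cast hM
  have h1 : x ∈ Metric.closedBall (0 : E) (R + |S|) := by
    rw [mem_closedBall_zero_iff]
    linarith [abs_nonneg S]
  have h2 : x' ∈ Metric.closedBall (0 : E) (R + |S|) := by
    rw [mem_closedBall_zero_iff]
    exact hx'.ball hM hx
  have h3 := (convex_closedBall (0 : E) (R + |S|)).norm_image_sub_le_of_norm_fderiv_le (𝕜 := ℝ)
    (fun y _ => (hf.differentiable (by norm_num)) y) hB' h1 h2
  rw [← mul_sub, abs_mul, abs_of_nonneg (by linarith : (0 : ℝ) ≤ M), ← Real.norm_eq_abs]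
  have h4 : (M : ℝ) * ‖x' - x‖ ≤ |S| := by
    have h5 : ‖(M : ℝ) • (x' - x)‖ ≤ |S| := le_trans hx' (le_abs_self S)
    rwa [norm_smul, Real.norm_of_nonneg (by linarith)] at h5
  calc (M : ℝ) * ‖f x' - f x‖ ≤ M * (|B| * ‖x' - x‖) := by gcongr
    _ = |B| * (M * ‖x' - x‖) := by ring
    _ ≤ |B| * |S| := by gcongr
    _ ≤ |B| * |S| + 1 := by linarith
    _ ≤ _ := le_mul_of_one_le_right (by positivity) (by linarith [Real.log_nonneg hM1])

/-- The exponential of a growth function at close points. -/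
theorem Osc.exp_le {f : E → ℝ} (hf : Osc f) (R S : ℝ) : ∃ A : ℝ, 0 < A ∧ ∃ p : ℕ, ∀ M : ℕ, 1 ≤ M →
    ∀ x x' : E, ‖x‖ ≤ R → Nr S M x' x →
    Real.exp (M * f x') ≤ A * (M : ℝ) ^ p * Real.exp (M * f x) := by
  obtain ⟨C, hC, h⟩ := hf R S
  refine ⟨Real.exp C, Real.exp_pos _, ⌈C⌉₊, fun M hM x x' hx hx' => ?_⟩
  have hM1 : (1 : ℝ) ≤ M := by exact_mod_cast hM
  have h1 := h M hM x x' hx hx'
  have h2 : (M : ℝ) * f x' ≤ C + C * Real.log M + M * f x := by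
    have := (abs_le.1 h1).2
    linarith
  calc Real.exp (M * f x') ≤ Real.exp (C + C * Real.log M + M * f x) := Real.exp_le_exp.2 h2
    _ = Real.exp C * Real.exp (C * Real.log M) * Real.exp (M * f x) := by
        rw [Real.exp_add, Real.exp_add]
    _ ≤ Real.exp C * (M : ℝ) ^ ⌈C⌉₊ * Real.exp (M * f x) := by
        gcongr
        rw [← Real.rpow_natCast, Real.rpow_def_of_pos (by linarith), Real.exp_le_exp, mul_comm]
        exact mul_le_mul_of_nonneg_left (Nat.le_ceil C) (Real.log_nonneg hM1)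
end

theorem Osc_Rf : Osc Rf := by
  intro R S
  obtain ⟨C, hC, h⟩ := Rf_shc R S
  refine ⟨C * (1 + |R|), by positivity, fun M hM x x' hx hx' => ?_⟩
  have hM0 : (0 : ℝ) < M := by exact_mod_cast hM
  have hM1 : (1 : ℝ) ≤ M := by exact_mod_cast hM
  have hMc : (M : ℂ) ≠ 0 := by exact_mod_cast hM0.ne'
  have e : x' = x - ((M : ℝ) • (x - x')) / M := by
    rw [Complex.real_smul]
    push_cast
    field_simp
    ring
  have h1 := h M hM x ((M : ℝ) • (x - x')) ((abs_re_le_norm x).trans hx) (by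
    rw [← norm_neg, ← smul_neg, neg_sub]
    exact hx')
  rw [← e] at h1
  refine h1.trans ?_
  rw [mul_assoc]
  apply mul_le_mul_of_nonneg_left _ hC.le
  have h2 : |x.im| ≤ |R| := (abs_im_le_norm x).trans (hx.trans (le_abs_self R))
  have h3 := Real.log_nonneg hM1
  nlinarith [abs_nonneg R]

theorem Osc_Rf_comp {E : Type*} [NormedAddCommGroup E] [NormedSpace ℝ E] (L : E →L[ℝ] ℂ) (v : ℂ) :
    Osc fun x => Rf (L x + v) := Osc_Rf.comp L v

/-! ### The growth rates of the nodes, as functions of `(z, a, b)` -/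

private noncomputable def Lz : ℂ × ℂ × ℂ →L[ℝ] ℂ := ContinuousLinearMap.fst ℝ ℂ (ℂ × ℂ)

private noncomputable def La : ℂ × ℂ × ℂ →L[ℝ] ℂ :=
  (ContinuousLinearMap.fst ℝ ℂ ℂ).comp (ContinuousLinearMap.snd ℝ ℂ (ℂ × ℂ))

private noncomputable def Lb : ℂ × ℂ × ℂ →L[ℝ] ℂ :=
  (ContinuousLinearMap.snd ℝ ℂ ℂ).comp (ContinuousLinearMap.snd ℝ ℂ (ℂ × ℂ))

private theorem Lz_ap (p : ℂ × ℂ × ℂ) : Lz p = p.1 := rfl

private theorem La_ap (p : ℂ × ℂ × ℂ) : La p = p.2.1 := rfl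

private theorem Lb_ap (p : ℂ × ℂ × ℂ) : Lb p = p.2.2 := rfl

private theorem Osc_lin (L : ℂ × ℂ × ℂ →L[ℝ] ℂ) {f : ℂ × ℂ × ℂ → ℂ} (v : ℂ)
    (h : ∀ p, f p = L p + v) : Osc fun p => Rf (f p) := by
  have := Osc_Rf_comp L v
  simp only [← h] at this
  exact this

private theorem Osc_gC (s : ℤ) {f g : ℂ × ℂ × ℂ → ℂ} (Lf Lg : ℂ × ℂ × ℂ →L[ℝ] ℂ)
    (hf : ∀ p, f p = Lf p) (hg : ∀ p, g p = Lg p) : Osc fun p => gC s (f p) (g p) := by
  unfold gC
  refine Osc.sub (Osc.smooth ?_) (Osc_lin (Lf + Lg) 0 fun p => ?_)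
  · simp only [hf, hg, qC]
    have h1 : ContDiff ℝ 1 fun p : ℂ × ℂ × ℂ => (s : ℂ) * Real.pi * I *
        ((Lf p - Lg p) ^ 2 / 2 + (1 - Lf p - Lg p) / 2) := by fun_prop
    exact Complex.reCLM.contDiff.comp h1
  · simp [hf, hg]

private theorem Osc_gB (s : ℤ) {f g : ℂ × ℂ × ℂ → ℂ} (Lf Lg : ℂ × ℂ × ℂ →L[ℝ] ℂ)
    (hf : ∀ p, f p = Lf p) (hg : ∀ p, g p = Lg p) : Osc fun p => gB s (f p) (g p) := by
  unfold gB
  refine Osc.sub (Osc.smooth ?_) (Osc_lin (Lf - Lg) 0 fun p => ?_)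
  · simp only [hf, hg, qB]
    have h1 : ContDiff ℝ 1 fun p : ℂ × ℂ × ℂ => (s : ℂ) * Real.pi * I *
        ((Lf p + Lg p) ^ 2 / 2 - (Lf p - Lg p) / 2) := by fun_prop
    exact Complex.reCLM.contDiff.comp h1
  · simp [hf, hg]

private theorem Osc_gH (s : ℤ) {f g : ℂ × ℂ × ℂ → ℂ} (Lf Lg : ℂ × ℂ × ℂ →L[ℝ] ℂ)
    (hf : ∀ p, f p = Lf p) (hg : ∀ p, g p = Lg p) : Osc fun p => gH s (f p) (g p) := by
  unfold gH
  refine Osc.sub (Osc.sub (Osc.sub (Osc.smooth ?_) (Osc_lin Lf (1 / 2) fun p => ?_))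
    (Osc_lin Lg (1 / 2) fun p => ?_)) (Osc_lin (Lf + Lg) 0 fun p => ?_)
  · simp only [hf, hg, qH]
    have h1 : ContDiff ℝ 1 fun p : ℂ × ℂ × ℂ => -((s : ℂ) * Real.pi * I *
        ((Lf p + 1 / 2) * (Lg p + 1 / 2))) := by fun_prop
    exact Complex.reCLM.contDiff.comp h1
  · simp [hf]
  · simp [hg]
  · simp [hf, hg]

private theorem Osc_gV (r : ℝ) : Osc fun p : ℂ × ℂ × ℂ => gV r p.1 p.2.1 p.2.2 := by
  unfold gV
  refine Osc.sub (Osc.sub (Osc.sub (Osc.sub (Osc.smooth ?_) (Osc_lin (La - Lz) 0 fun p => ?_))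
    (Osc_lin (La + Lz) 0 fun p => ?_)) (Osc_lin (Lb - Lz) 0 fun p => ?_))
    (Osc_lin (Lb + Lz) 0 fun p => ?_)
  · unfold wr
    have h1 : ContDiff ℝ 1 fun p : ℂ × ℂ × ℂ => 2 * (Real.pi : ℂ) * I * (r * p.1 ^ 2 + p.1) := by
      fun_prop
    exact Complex.reCLM.contDiff.comp h1
  · simp [Lz_ap, La_ap]
  · simp [Lz_ap, La_ap]
  · simp [Lz_ap, Lb_ap]
  · simp [Lz_ap, Lb_ap]

theorem Osc_gN (c : ℤ) (ty : Ty) (fl : Bool) :
    Osc fun p : ℂ × ℂ × ℂ => gN c ty fl p.1 p.2.1 p.2.2 := by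
  unfold gN
  cases ty with
  | cl =>
    exact Osc_gC c.sign (f := fun p : ℂ × ℂ × ℂ => p.2.1) (g := fun p => p.2.2) La Lb
      La_ap Lb_ap
  | zn =>
    by_cases h3 : |c| = 3
    · cases fl with
      | true =>
        simp only [if_pos h3, if_true]
        exact (Osc_gB c.sign (f := fun p : ℂ × ℂ × ℂ => p.2.2) (g := fun p => p.1) Lb Lz Lb_ap
          Lz_ap).add (Osc_gH c.sign (f := fun p : ℂ × ℂ × ℂ => p.1) (g := fun p => p.2.1) Lz La
            Lz_ap La_ap)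
      | false =>
        simp only [if_pos h3, Bool.false_eq_true, if_false]
        exact (Osc_gB c.sign (f := fun p : ℂ × ℂ × ℂ => p.2.1) (g := fun p => p.1) La Lz La_ap
          Lz_ap).add (Osc_gH c.sign (f := fun p : ℂ × ℂ × ℂ => p.1) (g := fun p => p.2.2) Lz Lb
            Lz_ap Lb_ap)
    · cases fl with
      | true =>
        simp only [if_neg h3, if_true]
        exact (Osc_gB c.sign (f := fun p : ℂ × ℂ × ℂ => p.2.2) (g := fun p => p.1) Lb Lz Lb_ap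
          Lz_ap).add (Osc_gC c.sign (f := fun p : ℂ × ℂ × ℂ => p.1) (g := fun p => p.2.1) Lz La
            Lz_ap La_ap)
      | false =>
        simp only [if_neg h3, Bool.false_eq_true, if_false]
        exact (Osc_gB c.sign (f := fun p : ℂ × ℂ × ℂ => p.2.1) (g := fun p => p.1) La Lz La_ap
          Lz_ap).add (Osc_gC c.sign (f := fun p : ℂ × ℂ × ℂ => p.1) (g := fun p => p.2.2) Lz Lb
            Lz_ap Lb_ap)
  | vn => exact Osc_gV ((c : ℝ) / 2)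

/-- **The growth rates of the nodes at close points.** -/
theorem gN_sh (c : ℤ) (ty : Ty) (fl : Bool) (R S : ℝ) : ∃ A : ℝ, 0 < A ∧ ∃ p : ℕ, ∀ M : ℕ, 1 ≤ M →
    ∀ z a b z' a' b' : ℂ, ‖z‖ ≤ R → ‖a‖ ≤ R → ‖b‖ ≤ R → ‖(M : ℂ) * (z' - z)‖ ≤ S →
    ‖(M : ℂ) * (a' - a)‖ ≤ S → ‖(M : ℂ) * (b' - b)‖ ≤ S →
    Real.exp (M * gN c ty fl z' a' b') ≤ A * (M : ℝ) ^ p * Real.exp (M * gN c ty fl z a b) := by
  obtain ⟨A, hA, p, h⟩ := (Osc_gN c ty fl).exp_le R S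
  refine ⟨A, hA, p, fun M hM z a b z' a' b' hz ha hb hz' ha' hb' => ?_⟩
  refine h M hM (z, a, b) (z', a', b') ?_ ?_
  · exact max_le hz (max_le ha hb)
  · unfold Nr
    have e : ∀ x y : ℂ, (M : ℝ) • (x - y) = (M : ℂ) * (x - y) := fun x y => by
      rw [Complex.real_smul]
      push_cast
      rfl
    show max ‖(M : ℝ) • (z' - z)‖ (max ‖(M : ℝ) • (a' - a)‖ ‖(M : ℝ) • (b' - b)‖) ≤ S
    rw [e, e, e]
    exact max_le hz' (max_le ha' hb')

/-- The growth rate of a node `vn` at close points. -/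
theorem gV_sh (r : ℝ) (R S : ℝ) : ∃ A : ℝ, 0 < A ∧ ∃ p : ℕ, ∀ M : ℕ, 1 ≤ M →
    ∀ z a b z' a' b' : ℂ, ‖z‖ ≤ R → ‖a‖ ≤ R → ‖b‖ ≤ R → ‖(M : ℂ) * (z' - z)‖ ≤ S →
    ‖(M : ℂ) * (a' - a)‖ ≤ S → ‖(M : ℂ) * (b' - b)‖ ≤ S →
    Real.exp (M * gV r z' a' b') ≤ A * (M : ℝ) ^ p * Real.exp (M * gV r z a b) := by
  obtain ⟨A, hA, p, h⟩ := (Osc_gV r).exp_le R S
  refine ⟨A, hA, p, fun M hM z a b z' a' b' hz ha hb hz' ha' hb' => ?_⟩
  refine h M hM (z, a, b) (z', a', b') ?_ ?_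
  · exact max_le hz (max_le ha hb)
  · unfold Nr
    have e : ∀ x y : ℂ, (M : ℝ) • (x - y) = (M : ℂ) * (x - y) := fun x y => by
      rw [Complex.real_smul]
      push_cast
      rfl
    show max ‖(M : ℝ) • (z' - z)‖ (max ‖(M : ℝ) • (a' - a)‖ ‖(M : ℝ) • (b' - b)‖) ≤ S
    rw [e, e, e]
    exact max_le hz' (max_le ha' hb')

/-- The growth rate of an edge at close points. -/
theorem gw_sh (R S : ℝ) : ∃ A : ℝ, 0 < A ∧ ∃ p : ℕ, ∀ M : ℕ, 1 ≤ M → ∀ y y' : ℂ, ‖y‖ ≤ R →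
    ‖(M : ℂ) * (y' - y)‖ ≤ S →
    Real.exp (M * Rf (y' + 1 / 2)) ≤ A * (M : ℝ) ^ p * Real.exp (M * Rf (y + 1 / 2)) := by
  have h0 : Osc fun y : ℂ => Rf (y + 1 / 2) := Osc_Rf_comp (ContinuousLinearMap.id ℝ ℂ) (1 / 2)
  obtain ⟨A, hA, p, h⟩ := h0.exp_le R S
  refine ⟨A, hA, p, fun M hM y y' hy hy' => h M hM y y' hy ?_⟩
  unfold Nr
  rw [Complex.real_smul]
  push_cast
  exact hy'

end Pool.Agent.S5
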