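import Pool.Agent.S5.N.VB
import Pool.Agent.S5.S.Krn

/-!
# Nodes of antiparallel strands with an integration variable: lattice sums
-/

set_option autoImplicit false

namespace Pool.Agent.S5

open Pool.Agent.H63.VC hiding ext
open Pool.Agent.H63.VC3 Pool.Agent.H63.VC7 Pool.Agent.S3 Pool.Agent.S4 Complex Filter Topology

/-- The first half of the product of a slot. -/
private noncomputable def p1 (M n t : ℕ) (u : ℂ) : ℂ := ∏ i ∈ Finset.range t, fs M (u + be n + i)

/-- The second half of the product of a slot. -/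
private noncomputable def p2 (M n t : ℕ) (u : ℂ) : ℂ := ∏ i ∈ Finset.range t, fs M (u - be n - i)

private theorem pt_pp (M n t : ℕ) (u : ℂ) : pt M n t u = p1 M n t u * p2 M n t u := by
  rw [pt, p1, p2, Finset.prod_mul_distrib]

private theorem p1_diff (M n t : ℕ) : Differentiable ℂ (p1 M n t) := by
  unfold p1
  exact Differentiable.fun_finsetProd fun i _ => (fs_diff M).comp (by fun_prop)

private theorem p2_diff (M n t : ℕ) : Differentiable ℂ (p2 M n t) := by
  unfold p2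
  exact Differentiable.fun_finsetProd fun i _ => (fs_diff M).comp (by fun_prop)

private theorem p2_zero {M n t X : ℕ} (h : X < t) : p2 M n t ((X : ℂ) + be n) = 0 := by
  rw [p2]
  refine Finset.prod_eq_zero (Finset.mem_range.2 h) ?_
  have : (X : ℂ) + be n - be n - X = 0 := by ring
  rw [this, fs_zero]

private theorem p1_zero {M n t X : ℕ} (hM : 0 < M) (hX : X + n ≤ M + 1) (h : M + 1 - n - X < t) :
    p1 M n t ((X : ℂ) + be n) = 0 := by
  rw [p1]
  refine Finset.prod_eq_zero (Finset.mem_range.2 h) ?_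
  have e : (X : ℂ) + be n + be n + ((M + 1 - n - X : ℕ) : ℂ) = M := by
    rw [Nat.sub_sub, Nat.cast_sub (by omega), be]
    push_cast
    ring
  rw [e, fs_M hM]

/-- The factor of a slot with its centered product. -/
private noncomputable def Q0 (M n t : ℕ) (v : ℂ) : ℂ := Wd M (n - 2) v * q4 M (n - 2) t v

private theorem Q0_eq {M n : ℕ} (hM : 0 < M) (hn : 2 ≤ n) (t : ℕ) : Q0 M n t = fun v =>
    p2 M n t (M * (v + 1 / 2)) * (1 / M * Aw M n (M * (v + 1 / 2)) * p1 M n t (M * (v + 1 / 2))) := by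
  funext v
  rw [Q0, Wd_Aw hM hn, q4_pt hM hn, pt_pp]
  ring

private theorem q4_df (M d t : ℕ) : Differentiable ℂ (q4 M d t) := by
  have e : q4 M d t = fun v => 1 / (M : ℂ) * ∏ i ∈ Finset.range t,
      (4 * (cos (Real.pi * (v + ((i : ℂ) + (d + 1) / 2) / M)) *
        cos (Real.pi * (v - ((i : ℂ) + (d + 1) / 2) / M)))) := rfl
  rw [e]
  refine (Differentiable.fun_finsetProd fun i _ => ?_).const_mul _
  fun_prop

private theorem Q0_df (M n t : ℕ) : Differentiable ℂ (Q0 M n t) :=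
  (Wd_df M _).mul (q4_df M _ t)

private theorem vl_u {M : ℕ} (hM : 0 < M) (n X : ℕ) :
    (M : ℂ) * (((vl n M X : ℝ) : ℂ) + 1 / 2) = (X : ℂ) + be n := by
  have hM' : (M : ℂ) ≠ 0 := by exact_mod_cast hM.ne'
  rw [vl, ← bt_be]
  push_cast
  field_simp
  ring

private theorem Q0_zero {M n t X : ℕ} (hM : 0 < M) (hn : 2 ≤ n) (h : X < t) :
    Q0 M n t ((vl n M X : ℝ) : ℂ) = 0 := by
  rw [Q0_eq hM hn]
  simp only
  rw [vl_u hM, p2_zero h, zero_mul]

private theorem Q0_double {M n t X : ℕ} (hM : 0 < M) (hn : 2 ≤ n) (h : X < t) (hX : X + n ≤ M + 1)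
    (h' : M + 1 - n - X < t) : deriv (Q0 M n t) ((vl n M X : ℝ) : ℂ) = 0 := by
  rw [Q0_eq hM hn]
  refine deriv_double ?_ ?_ ?_ ?_
  · exact ((p2_diff M n t).comp (by fun_prop)) _
  · refine DifferentiableAt.mul (DifferentiableAt.mul (by fun_prop) ?_) ?_
    · exact ((Aw_diff M n).comp (by fun_prop)) _
    · exact ((p1_diff M n t).comp (by fun_prop)) _
  · rw [vl_u hM, p2_zero h]
  · rw [vl_u hM, p1_zero hM hX h', mul_zero]

private theorem Wd_vl_ne {M n h X : ℕ} (hM : 0 < M) (hh : 1 ≤ h) (hn : 2 * h ≤ n) (hnM : n ≤ M + 1)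
    (hX : X < M + 2 - n) : Wd M (n - 2 * h) ((vl n M X : ℝ) : ℂ) ≠ 0 := by
  rw [Wd_Dw hM, vl_u hM]
  exact Dw_lat hh hn hnM hX

private theorem Wd_even {M : ℕ} (hM : 0 < M) (d : ℕ) (v : ℂ) : Wd M d (-v) = Wd M d v := by
  rw [Wd_Dw hM, Wd_Dw hM, ← Dw_refl hM d (M * (v + 1 / 2))]
  congr 1
  ring

private theorem q4_even {M : ℕ} (d t : ℕ) (v : ℂ) : q4 M d t (-v) = q4 M d t v := by
  unfold q4
  congr 1
  refine Finset.prod_congr rfl fun i _ => ?_
  have e1 : cos (Real.pi * (-v + ((i : ℂ) + (d + 1) / 2) / M)) =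
      cos (Real.pi * (v - ((i : ℂ) + (d + 1) / 2) / M)) := by
    rw [← cos_neg]
    congr 1
    ring
  have e2 : cos (Real.pi * (-v - ((i : ℂ) + (d + 1) / 2) / M)) =
      cos (Real.pi * (v + ((i : ℂ) + (d + 1) / 2) / M)) := by
    rw [← cos_neg]
    congr 1
    ring
  rw [e1, e2]
  ring

private theorem NA_odd {M : ℕ} (hM : 0 < M) (r : ℝ) (n d : ℕ) (σ : ℤ) (k l : ℕ) (v : ℂ) :
    NA r n d M σ k l (-v) = -NA r n d M σ k l v := by
  have e1 : 2 * (Real.pi : ℂ) * -v = -(2 * Real.pi * v) := by ring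
  rw [NA, NA, e1, sin_neg, neg_sq, Wd_even hM, Wd_even hM, q4_even, q4_even]
  ring

private theorem NA_deriv_neg {M : ℕ} (hM : 0 < M) (r : ℝ) (n d : ℕ) (σ : ℤ) (k l : ℕ) (v : ℂ) :
    deriv (NA r n d M σ k l) (-v) = deriv (NA r n d M σ k l) v := by
  have e : (fun w => NA r n d M σ k l (-w)) = fun w => -NA r n d M σ k l w :=
    funext fun w => NA_odd hM r n d σ k l w
  have h1 := congrArg (fun f : ℂ → ℂ => deriv f v) e
  rw [deriv_comp_neg, deriv.fun_neg] at h1
  exact neg_injective h1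

private theorem vl_rf {M n X : ℕ} (hM : 0 < M) (hX : X + n ≤ M + 1) :
    ((vl n M (M + 1 - n - X) : ℝ) : ℂ) = -((vl n M X : ℝ) : ℂ) := by
  have hM' : (M : ℝ) ≠ 0 := by exact_mod_cast hM.ne'
  rw [← ofReal_neg]
  congr 1
  unfold vl bt
  rw [Nat.sub_sub, Nat.cast_sub (by omega)]
  push_cast
  field_simp
  ring

theorem DA_comm (r : ℝ) (n d M : ℕ) (σ : ℤ) (k l : ℕ) : DA r n d M σ k l = DA r n d M σ l k := by
  have : NA r n d M σ k l = NA r n d M σ l k := by
    funext v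
    rw [NA, NA, mul_comm (q4 M (n - 2) (M + 1 - n - k) v)]
  rw [DA, DA, this]

/-- The derivative of the function of a node at a lattice point where a slot vanishes. -/
private theorem NA_deriv (r : ℝ) {n h M : ℕ} (hM : 0 < M) (hh : 1 ≤ h) (hn : 2 * h ≤ n)
    (hnM : n ≤ M + 1) (σ : ℤ) {k l X : ℕ} (hX : X < M + 2 - n) (hX' : X < M + 1 - n - k) :
    deriv (NA r n (n - 2 * h) M σ k l) ((vl n M X : ℝ) : ℂ) =
      exp (2 * Real.pi * I * r * M * ((vl n M X : ℝ) : ℂ) ^ 2) *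
        (2 * sin (2 * Real.pi * ((vl n M X : ℝ) : ℂ))) * Wd M (n - 2 * h) ((vl n M X : ℝ) : ℂ) ^ σ *
      (deriv (Q0 M n (M + 1 - n - k)) ((vl n M X : ℝ) : ℂ) *
        Q0 M n (M + 1 - n - l) ((vl n M X : ℝ) : ℂ)) := by
  have hn2 : 2 ≤ n := by omega
  have e : NA r n (n - 2 * h) M σ k l = fun v => Q0 M n (M + 1 - n - k) v *
      (exp (2 * Real.pi * I * r * M * v ^ 2) * (2 * sin (2 * Real.pi * v)) *
        Wd M (n - 2 * h) v ^ σ * Q0 M n (M + 1 - n - l) v) := by
    funext v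
    rw [NA, Q0, Q0]
    ring
  have hne := Wd_vl_ne hM hh hn hnM hX
  have hW : DifferentiableAt ℂ (fun v => Wd M (n - 2 * h) v ^ σ) ((vl n M X : ℝ) : ℂ) :=
    ((Wd_df M _) _).zpow (Or.inl hne)
  have hQ := Q0_df M n (M + 1 - n - l)
  rw [e, deriv_single ((Q0_df M n _) _) ?_ (Q0_zero hM hn2 hX')]
  · ring
  · refine DifferentiableAt.mul (DifferentiableAt.mul ?_ hW) (hQ _)
    fun_prop

/-- The factor of a node at an edge with small index. -/
theorem DA_half_sum (r : ℝ) {n h M : ℕ} (hh : 1 ≤ h) (hn : 2 * h ≤ n) (σ : ℤ) {k l t : ℕ}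
    (hk : k + n < M) (ht : M + 1 - n - k = t) (hkt : k < t) :
    DA r n (n - 2 * h) M σ k l = ∑ X ∈ Finset.range (k + 1),
      2 * deriv (NA r n (n - 2 * h) M σ k l) ((vl n M X : ℝ) : ℂ) := by
  have hM : 0 < M := by omega
  have hn2 : 2 ≤ n := by omega
  obtain ⟨f, hf⟩ : ∃ f : ℕ → ℂ, f = fun X => deriv (NA r n (n - 2 * h) M σ k l)
      ((vl n M X : ℝ) : ℂ) := ⟨_, rfl⟩
  have hfr : ∀ X, X + n ≤ M + 1 → f (M + 1 - n - X) = f X := by
    intro X hX
    rw [hf]
    simp only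
    rw [vl_rf hM hX, NA_deriv_neg hM]
  have hS : DA r n (n - 2 * h) M σ k l = ∑ X ∈ Finset.range (M + 2 - n), f X := by
    rw [DA, hf]
  have h1 : ∑ X ∈ Finset.range (M + 2 - n), f X = ∑ X ∈ Finset.range (k + 1), f X +
      ∑ X ∈ Finset.Ico (k + 1) t, f X + ∑ X ∈ Finset.Ico t (M + 2 - n), f X := by
    rw [Finset.range_eq_Ico, Finset.range_eq_Ico,
      Finset.sum_Ico_consecutive _ (Nat.zero_le _) (by omega),
      Finset.sum_Ico_consecutive _ (Nat.zero_le _) (by omega)]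
  have h2 : ∑ X ∈ Finset.Ico (k + 1) t, f X = 0 := by
    refine Finset.sum_eq_zero fun X hX => ?_
    rw [Finset.mem_Ico] at hX
    rw [hf]
    simp only
    rw [NA_deriv r hM hh hn (by omega) σ (by omega) (by omega),
      Q0_double hM hn2 (by omega) (by omega) (by omega), zero_mul, mul_zero]
  have h3 : ∑ X ∈ Finset.Ico t (M + 2 - n), f X = ∑ X ∈ Finset.range (k + 1), f X := by
    rw [Finset.sum_Ico_eq_sum_range]
    have e1 : M + 2 - n - t = k + 1 := by omega
    rw [e1, ← Finset.sum_range_reflect]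
    refine Finset.sum_congr rfl fun X hX => ?_
    rw [Finset.mem_range] at hX
    rw [← hfr X (by omega)]
    congr 1
    omega
  rw [hS, h1, h2, h3, add_zero, ← two_mul, Finset.mul_sum, hf]

/-- The factor of a node at an edge with small index, as a sum over lattice points. -/
theorem DA_lat (r : ℝ) {n h M : ℕ} (hh : 1 ≤ h) (hn : 2 * h ≤ n) (σ : ℤ) {κ κ' : ℕ}
    (hM : 2 * n + 8 ≤ M) (h0 : n - 2 ≤ κ) (h0' : n - 2 ≤ κ') (h1 : κ < kq M) (h1' : κ' < M) :
    DA r n (n - 2 * h) M σ (κ - (n - 2)) (κ' - (n - 2)) =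
      ∑ X ∈ Finset.range M, latA r n h M σ κ X (yM M κ') := by
  have hM0 : 0 < M := by omega
  have hn2 : 2 ≤ n := by omega
  have hq : κ < M / 4 + 1 := h1
  have hsub : Finset.range (κ - (n - 2) + 1) ⊆ Finset.range M :=
    Finset.range_subset_range.2 (by omega)
  rw [DA_half_sum r hh hn σ (t := M - 1 - κ) (by omega) (by omega) (by omega),
    ← Finset.sum_subset hsub]
  · refine Finset.sum_congr rfl fun X hX => ?_
    have hX' := Finset.mem_range.1 hX
    have hv := vl_abs_le hM0 hn2 (X := X) (by omega)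
    have hv' : |(((vl n M X : ℝ) : ℂ)).re| ≤ 1 / 2 := by
      rw [ofReal_re]
      exact hv
    rw [NA_deriv r hM0 hh hn (by omega) σ (by omega) (by omega), latA,
      if_pos (by omega), qS_slot hn2 h0' h1' hv', ql4, nn, dd]
    simp only [Bool.false_eq_true, if_false]
    rw [if_pos (by omega)]
    have e1 : M + 1 - n - (κ - (n - 2)) = M - 1 - κ := by omega
    have e2 : Q0 M n (M - 1 - κ) = fun v => Wd M (n - 2) v * q4 M (n - 2) (M - 1 - κ) v := rfl
    rw [e1, e2]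
    rw [Q0]
    ring
  · intro X _ hX
    rw [Finset.mem_range, not_lt] at hX
    rw [latA, if_neg (by omega)]

/-- The factor of a node with two edges with small indices vanishes. -/
theorem DA_two_small (r : ℝ) {n h M : ℕ} (hh : 1 ≤ h) (hn : 2 * h ≤ n) (σ : ℤ) {κ κ' : ℕ}
    (hM : 2 * n + 8 ≤ M) (h0 : n - 2 ≤ κ) (h0' : n - 2 ≤ κ') (h1 : κ < kq M) (h1' : κ' < kq M) :
    DA r n (n - 2 * h) M σ (κ - (n - 2)) (κ' - (n - 2)) = 0 := by
  have hM0 : 0 < M := by omega
  have hn2 : 2 ≤ n := by omega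
  have hq : κ < M / 4 + 1 := h1
  have hq' : κ' < M / 4 + 1 := h1'
  rw [DA_half_sum r hh hn σ (t := M - 1 - κ) (by omega) (by omega) (by omega)]
  refine Finset.sum_eq_zero fun X hX => ?_
  have hX' := Finset.mem_range.1 hX
  rw [NA_deriv r hM0 hh hn (by omega) σ (by omega) (by omega),
    Q0_zero hM0 hn2 (t := M + 1 - n - (κ' - (n - 2))) (by omega)]
  ring

end Pool.Agent.S5
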