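import Pool.Agent.S4.G.FB
import Pool.Agent.S4.G.LatBa
import Pool.Agent.S5.N.ShG
import Pool.Agent.S5.N.VC
import Pool.Agent.S5.S.BdV

/-!
# Nodes of antiparallel strands with an integration variable: bounds
-/

set_option autoImplicit false

namespace Pool.Agent.S5

open Pool.Agent.H63.VC hiding ext
open Pool.Agent.H63.VC3 Pool.Agent.H63.VC7 Pool.Agent.S3 Pool.Agent.S4 Complex Filter Topology

/-! ### The centered product -/

private theorem vd_cos_low {z : ℂ} {M : ℕ} (hM : 1 ≤ M) (h : |z.re| ≤ 1 / 2 - 1 / (2 * M)) :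
    1 / (M : ℝ) ≤ ‖cos (Real.pi * z)‖ := by
  have hM0 : (0 : ℝ) < M := by exact_mod_cast hM
  have hpi := Real.pi_pos
  have e : cos (Real.pi * z) =
      sin (Real.pi * (((z.re + 1 / 2 : ℝ) : ℂ) + (z.im : ℝ) * I)) := by
    have : (Real.pi : ℂ) * (((z.re + 1 / 2 : ℝ) : ℂ) + (z.im : ℝ) * I) =
        Real.pi * z + Real.pi / 2 := by
      conv_rhs => rw [← re_add_im z]
      push_cast
      ring
    rw [this, sin_add_pi_div_two]
  have h1 : 1 / (M : ℝ) ≤ Real.sin (Real.pi * (z.re + 1 / 2)) := by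
    have e2 : Real.sin (Real.pi * (z.re + 1 / 2)) = Real.cos (Real.pi * |z.re|) := by
      have : Real.pi * (z.re + 1 / 2) = Real.pi * z.re + Real.pi / 2 := by ring
      rw [this, Real.sin_add_pi_div_two]
      rcases abs_cases z.re with ⟨h1, -⟩ | ⟨h1, -⟩
      · rw [h1]
      · rw [h1, mul_neg, Real.cos_neg]
    rw [e2]
    have h3 := Real.one_sub_mul_le_cos (x := Real.pi * |z.re|) (by positivity) (by
      have : |z.re| ≤ 1 / 2 := by
        have : 0 < 1 / (2 * (M : ℝ)) := by positivity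
        linarith only [h, this]
      linarith only [mul_nonneg (sub_nonneg.2 hpi.le) (sub_nonneg.2 this)])
    refine le_trans ?_ h3
    have e3 : 2 / Real.pi * (Real.pi * |z.re|) = 2 * |z.re| := by
      field_simp
    rw [e3]
    have e4 : 1 / (M : ℝ) = 2 * (1 / (2 * M)) := by
      field_simp
    rw [e4]
    linarith only [h]
  have h0 : (0 : ℝ) ≤ 1 / M := by positivity
  rw [e]
  refine (sq_le_sq₀ h0 (norm_nonneg _)).1 ?_
  rw [norm_sin_pi_sq]
  have h2 : (1 / (M : ℝ)) ^ 2 ≤ Real.sin (Real.pi * (z.re + 1 / 2)) ^ 2 :=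
    pow_le_pow_left₀ h0 h1 2
  have h3 : 0 ≤ Real.sinh (Real.pi * z.im) ^ 2 := sq_nonneg _
  linarith only [h2, h3]

private theorem vd_cos_high (z : ℂ) : ‖cos (Real.pi * z)‖ ≤ Real.exp (Real.pi * |z.im|) := by
  have e : cos (Real.pi * z) =
      sin (Real.pi * (((z.re + 1 / 2 : ℝ) : ℂ) + (z.im : ℝ) * I)) := by
    have : (Real.pi : ℂ) * (((z.re + 1 / 2 : ℝ) : ℂ) + (z.im : ℝ) * I) =
        Real.pi * z + Real.pi / 2 := by
      conv_rhs => rw [← re_add_im z]
      push_cast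
      ring
    rw [this, sin_add_pi_div_two]
  rw [e]
  refine (norm_sin_le _ _).trans ((cosh_le_exp_abs _).trans_eq ?_)
  rw [abs_mul, abs_of_pos Real.pi_pos]

private theorem vd_re (n M : ℕ) (x : ℝ) (v : ℂ) : (lamN n M * v + (x : ℂ)).re =
    (1 - ((n : ℝ) - 2) / M) * v.re + x := by
  rw [add_re, ofReal_re, lam_re]

/-- The centered product at the points used. -/
theorem Wd_low {n h M : ℕ} (hh : 1 ≤ h) (hn : 2 * h ≤ n) (hM : n ≤ M) {v : ℂ}
    (hv : |v.re| ≤ 1 / 2) : (1 / (M : ℝ)) ^ (n - 2 * h) ≤ ‖Wd M (n - 2 * h) (lamN n M * v)‖ := by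
  have hM1 : 1 ≤ M := by omega
  have hM0 : (0 : ℝ) < M := by exact_mod_cast hM1
  have hnM : (n : ℝ) ≤ M := by exact_mod_cast hM
  have hn2 : (2 : ℝ) ≤ n := by exact_mod_cast (show 2 ≤ n by omega)
  unfold Wd
  rw [_root_.norm_prod]
  calc (1 / (M : ℝ)) ^ (n - 2 * h) = ∏ _j ∈ Finset.range (n - 2 * h), (1 / (M : ℝ)) := by
        rw [Finset.prod_const, Finset.card_range]
    _ ≤ _ := by
        refine Finset.prod_le_prod (fun _ _ => by positivity) fun j hj => ?_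
        have hj' := Finset.mem_range.1 hj
        have e : (((j : ℂ) + 1 / 2 - ((n - 2 * h : ℕ) : ℂ) / 2) / M) =
            ((((j : ℝ) + 1 / 2 - ((n - 2 * h : ℕ) : ℝ) / 2) / M : ℝ) : ℂ) := by
          push_cast
          rfl
        rw [norm_mul, norm_ofNat, e]
        have hx : |((j : ℝ) + 1 / 2 - ((n - 2 * h : ℕ) : ℝ) / 2) / M| ≤ ((n : ℝ) - 3) / 2 / M := by
          rw [abs_div, abs_of_pos hM0]
          refine div_le_div_of_nonneg_right ?_ hM0.le
          have h1 : (j : ℝ) + 1 ≤ ((n - 2 * h : ℕ) : ℝ) := by exact_mod_cast hj'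
          have h2 : ((n - 2 * h : ℕ) : ℝ) ≤ n - 2 := by
            have : ((n - 2 * h : ℕ) : ℝ) + 2 ≤ n := by exact_mod_cast (show n - 2 * h + 2 ≤ n by omega)
            linarith only [this]
          have h3 : (0 : ℝ) ≤ j := Nat.cast_nonneg j
          rw [abs_le]
          constructor <;> linarith
        have hc := vd_cos_low (z := lamN n M * v +
          ((((j : ℝ) + 1 / 2 - ((n - 2 * h : ℕ) : ℝ) / 2) / M : ℝ) : ℂ)) hM1 (by
            rw [vd_re]
            have h1 : |(1 - ((n : ℝ) - 2) / M) * v.re| ≤ (1 - ((n : ℝ) - 2) / M) * (1 / 2) := by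
              have h4 : 0 ≤ 1 - ((n : ℝ) - 2) / M := by
                have : ((n : ℝ) - 2) / M ≤ 1 := by
                  rw [div_le_one hM0]
                  linarith only [hnM]
                linarith only [this]
              rw [abs_mul, abs_of_nonneg h4]
              exact mul_le_mul_of_nonneg_left hv h4
            refine (abs_add_le _ _).trans ?_
            have h5 : (1 - ((n : ℝ) - 2) / M) * (1 / 2) + ((n : ℝ) - 3) / 2 / M =
                1 / 2 - 1 / (2 * M) := by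
              field_simp
              ring
            linarith only [hx, h1, h5])
        have h1M : (0 : ℝ) ≤ 1 / M := by positivity
        linarith only [hc, h1M]

/-- The centered product is bounded. -/
theorem Wd_high {n M : ℕ} (hn : 2 ≤ n) (hM : n ≤ M) (d : ℕ) {v : ℂ} {B : ℝ} (hv : |v.im| ≤ B) :
    ‖Wd M d (lamN n M * v)‖ ≤ (2 * Real.exp (Real.pi * B)) ^ d := by
  have hM1 : 1 ≤ M := by omega
  have hM0 : (0 : ℝ) < M := by exact_mod_cast hM1
  have hnM : (n : ℝ) ≤ M := by exact_mod_cast hM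
  have hn2 : (2 : ℝ) ≤ n := by exact_mod_cast hn
  have him : |(lamN n M * v).im| ≤ B := by
    have h4 : 0 ≤ 1 - ((n : ℝ) - 2) / M := by
      have : ((n : ℝ) - 2) / M ≤ 1 := by
        rw [div_le_one hM0]
        linarith only [hnM]
      linarith only [this]
    rw [lam_im, abs_mul, abs_of_nonneg h4]
    calc (1 - ((n : ℝ) - 2) / M) * |v.im| ≤ 1 * |v.im| :=
          mul_le_mul_of_nonneg_right (lamN_le hn) (abs_nonneg _)
      _ ≤ B := by rw [one_mul]; exact hv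
  unfold Wd
  rw [_root_.norm_prod]
  calc ∏ j ∈ Finset.range d, ‖2 * cos (Real.pi * (lamN n M * v + ((j : ℂ) + 1 / 2 - d / 2) / M))‖
      ≤ ∏ _j ∈ Finset.range d, (2 * Real.exp (Real.pi * B)) := by
        refine Finset.prod_le_prod (fun _ _ => norm_nonneg _) fun j _ => ?_
        have e : (((j : ℂ) + 1 / 2 - (d : ℂ) / 2) / M) =
            ((((j : ℝ) + 1 / 2 - (d : ℝ) / 2) / M : ℝ) : ℂ) := by
          push_cast
          rfl
        rw [norm_mul, norm_ofNat, e]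
        refine mul_le_mul_of_nonneg_left ((vd_cos_high _).trans ?_) (by norm_num)
        rw [add_im, ofReal_im, add_zero]
        exact Real.exp_le_exp.2 (mul_le_mul_of_nonneg_left him Real.pi_pos.le)
    _ = _ := by rw [Finset.prod_const, Finset.card_range]

/-- The factor with the sign. -/
theorem Wd_zpow {n h M : ℕ} (hh : 1 ≤ h) (hn : 2 * h ≤ n) (hM : n ≤ M) {σ : ℤ}
    (hσ : σ = 0 ∨ σ = 1 ∨ σ = -1) {v : ℂ} {B : ℝ} (hB : 0 ≤ B) (hv : |v.re| ≤ 1 / 2)
    (hvi : |v.im| ≤ B) : ‖Wd M (n - 2 * h) (lamN n M * v) ^ σ‖ ≤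
      (2 * Real.exp (Real.pi * B)) ^ n * (M : ℝ) ^ n := by
  have hM1 : 1 ≤ M := by omega
  have hMr : (1 : ℝ) ≤ M := by exact_mod_cast hM1
  have hM0 : (0 : ℝ) < M := by linarith only [hMr]
  have h1 : 1 ≤ 2 * Real.exp (Real.pi * B) := by
    have := Real.one_le_exp (show 0 ≤ Real.pi * B by have := Real.pi_pos; positivity)
    linarith only [this]
  have h2 : (1 : ℝ) ≤ (2 * Real.exp (Real.pi * B)) ^ n := one_le_pow₀ h1
  have h3 : (1 : ℝ) ≤ (M : ℝ) ^ n := one_le_pow₀ hMr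
  rcases hσ with rfl | rfl | rfl
  · rw [zpow_zero, norm_one]
    linarith only [mul_nonneg (sub_nonneg.2 h2) (sub_nonneg.2 h3), h2, h3]
  · rw [zpow_one]
    calc ‖Wd M (n - 2 * h) (lamN n M * v)‖ ≤ (2 * Real.exp (Real.pi * B)) ^ (n - 2 * h) :=
          Wd_high (by omega) hM _ hvi
      _ ≤ (2 * Real.exp (Real.pi * B)) ^ n := pow_le_pow_right₀ h1 (by omega)
      _ ≤ _ := le_mul_of_one_le_right (by positivity) h3
  · rw [zpow_neg, zpow_one, norm_inv]
    have h4 := Wd_low hh hn hM hv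
    have h5 : (0 : ℝ) < (1 / (M : ℝ)) ^ (n - 2 * h) := by positivity
    calc ‖Wd M (n - 2 * h) (lamN n M * v)‖⁻¹ ≤ ((1 / (M : ℝ)) ^ (n - 2 * h))⁻¹ :=
          inv_anti₀ h5 h4
      _ = (M : ℝ) ^ (n - 2 * h) := by rw [one_div, inv_pow, inv_inv]
      _ ≤ (M : ℝ) ^ n := pow_le_pow_right₀ hMr (by omega)
      _ ≤ _ := le_mul_of_one_le_left (by positivity) h2

/-! ### On the contours -/

private theorem vd_dm {M : ℕ} {d : ℝ} {a : ℂ} (ha : a ∈ Dm M 0 d) : |a.re| ≤ 1 / 2 := by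
  obtain ⟨h1, h2, -⟩ := ha
  unfold al yR at h1
  have h3 : 0 ≤ (((0 : ℕ) : ℝ) - 1 / 2 + 1) / M := by
    apply div_nonneg _ (Nat.cast_nonneg M)
    norm_num
  rw [abs_le]
  constructor <;> linarith

theorem dm_norm {M h0 : ℕ} {d : ℝ} {a : ℂ} (ha : a ∈ Dm M h0 d) : ‖a‖ ≤ 1 + |d| := by
  obtain ⟨h1, h2, h3⟩ := ha
  unfold al yR at h1
  have h4 : -(1 / 2) / (M : ℝ) ≤ (((h0 : ℕ) : ℝ) - 1 / 2 + 1) / M := by
    refine div_le_div_of_nonneg_right ?_ (Nat.cast_nonneg M)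
    have : (0 : ℝ) ≤ h0 := Nat.cast_nonneg h0
    linarith only []
  have h5 : -(1 / 2) ≤ -(1 / 2) / (M : ℝ) := by
    rcases Nat.eq_zero_or_pos M with rfl | hM
    · norm_num
    · have hM1 : (1 : ℝ) ≤ M := by exact_mod_cast hM
      rw [neg_div, neg_le_neg_iff]
      exact div_le_self (by norm_num) hM1
  have h6 : |a.re| ≤ 1 := by
    rw [abs_le]
    constructor <;> linarith
  refine (norm_le_abs_re_add_abs_im a).trans ?_
  have : |a.im| ≤ |d| := h3.trans (le_abs_self d)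
  linarith only [h6, this]

private theorem vd_lam_norm {n M : ℕ} (hn : 2 ≤ n) (hM : n ≤ M) : ‖lamN n M‖ ≤ 1 := by
  have hM1 : 1 ≤ M := by omega
  have hM0 : (0 : ℝ) < M := by exact_mod_cast hM1
  have h1 := lamN_pos (n := n) (M := M) (by omega) (by omega)
  rw [lamN_real, norm_real, Real.norm_eq_abs, abs_of_pos h1]
  exact lamN_le hn

private theorem vd_lam_sub {n M : ℕ} (hM : 0 < M) (v : ℂ) :
    (M : ℂ) * (lamN n M * v - v) = -((n : ℂ) - 2) * v := by
  have hM' : (M : ℂ) ≠ 0 := by exact_mod_cast hM.ne'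
  rw [lamN]
  field_simp
  ring

private theorem vd_s_sub {n M : ℕ} (hM : 0 < M) (a : ℂ) :
    (M : ℂ) * (a - sN n M - a) = -(((n : ℂ) - 2) / 2) := by
  have hM' : (M : ℂ) ≠ 0 := by exact_mod_cast hM.ne'
  rw [sN]
  field_simp
  ring

private theorem vd_n2 {n : ℕ} (hn : 2 ≤ n) : ‖(n : ℂ) - 2‖ ≤ n := by
  have : (n : ℂ) - 2 = ((n - 2 : ℕ) : ℂ) := by
    rw [Nat.cast_sub hn]
    norm_num
  rw [this, norm_natCast]
  exact_mod_cast (Nat.sub_le n 2)

/-- **The bound on the contours.** -/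
theorem bd_kVA (r : ℝ) {n h : ℕ} (hh : 1 ≤ h) (hn : 2 * h ≤ n) {σ : ℤ}
    (hσ : σ = 0 ∨ σ = 1 ∨ σ = -1) (d κ B : ℝ) (hκ : 0 < κ) : ∃ A : ℝ, 0 < A ∧ ∃ p : ℕ,
    ∀ᶠ M : ℕ in atTop, ∀ v a b : ℂ, 0 < v.im → v.im ≤ B → |v.re| ≤ 1 / 2 →
    κ * (1 / 2 - |v.re|) ≤ v.im → a ∈ Dm M (n - 2) d → b ∈ Dm M (n - 2) d →
    ‖kVA r n h M σ v a b‖ ≤ A * (M : ℝ) ^ p * Real.exp (M * gV r v a b) := by
  have hn2 : 2 ≤ n := by omega
  have hpi := Real.pi_pos
  obtain ⟨C, hC, hob⟩ := om_bound hκ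
  set R : ℝ := 1 + |B| + |d| with hR
  have hR1 : 1 ≤ R := by
    have := abs_nonneg B
    have := abs_nonneg d
    linarith [this]
  obtain ⟨A0, hA0, p0, hs⟩ := gV_sh r R (n * R)
  refine ⟨2 * Real.exp (2 * Real.pi * |B|) * (2 * Real.exp (Real.pi * |B|)) ^ n * C * 256 ^ 2 * A0,
    by positivity, n + p0, ?_⟩
  filter_upwards [eventually_ge_atTop n] with M hM v a b h0 hB h1 h2 ha hb
  have hM1 : 1 ≤ M := by omega
  have hMr : (1 : ℝ) ≤ M := by exact_mod_cast hM1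
  have hM0 : (0 : ℝ) < M := by linarith only [hMr]
  have hn0 : (0 : ℝ) ≤ n := Nat.cast_nonneg n
  have hBa : B ≤ |B| := le_abs_self B
  have hvi : |v.im| ≤ |B| := by
    rw [abs_of_pos h0]
    linarith only [hB, hBa]
  have hv' := lam_re_le (M := M) (by omega) hn2 (by omega) h1
  have ha' := vd_dm (dm_sN hn2 ha)
  have hb' := vd_dm (dm_sN hn2 hb)
  have him : (lamN n M * v).im = (1 - ((n : ℝ) - 2) / M) * v.im := lam_im n M v
  have himp : 0 < (lamN n M * v).im := by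
    rw [him]
    exact mul_pos (lamN_pos (by omega) (by omega)) h0
  have himB : |(lamN n M * v).im| ≤ |B| := by
    rw [abs_of_pos himp, him]
    calc (1 - ((n : ℝ) - 2) / M) * v.im ≤ 1 * v.im :=
          mul_le_mul_of_nonneg_right (lamN_le hn2) h0.le
      _ ≤ |B| := by linarith only [hB, hBa]
  have ho : ‖om n M (lamN n M * v)‖ ≤ C * Real.exp (-(2 * Real.pi * (M * (lamN n M * v).im))) := by
    rw [om_scale (by omega) (by omega)]
    refine (hob (M + 2 - n) v h0.le h1 h2).trans_eq ?_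
    congr 3
    rw [him, Nat.cast_sub (by omega)]
    push_cast
    field_simp
    ring
  have hsn := norm_two_sin_le (lamN n M * v)
  have hsn' : Real.exp (2 * Real.pi * |(lamN n M * v).im|) ≤ Real.exp (2 * Real.pi * |B|) := by
    gcongr
  have hW := Wd_zpow hh hn hM hσ (abs_nonneg B) h1 hvi
  have h256 : 256 / (M : ℝ) ≤ 256 := div_le_self (by norm_num) hMr
  have qa : ‖qS M (a - sN n M) (lamN n M * v)‖ ≤ 256 * Real.exp (-(M *
      (Rf (a - sN n M - lamN n M * v) + Rf (a - sN n M + lamN n M * v)))) :=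
    (qS_bound hM1 ha' hv').trans (mul_le_mul_of_nonneg_right h256 (Real.exp_pos _).le)
  have qb : ‖qS M (b - sN n M) (lamN n M * v)‖ ≤ 256 * Real.exp (-(M *
      (Rf (b - sN n M - lamN n M * v) + Rf (b - sN n M + lamN n M * v)))) :=
    (qS_bound hM1 hb' hv').trans (mul_le_mul_of_nonneg_right h256 (Real.exp_pos _).le)
  have e := exp_wr r M (lamN n M * v)
  have hsh := hs M hM1 v a b (lamN n M * v) (a - sN n M) (b - sN n M) (by
      refine (norm_le_abs_re_add_abs_im v).trans ?_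
      have := abs_nonneg d
      linarith only [h1, hvi, this]) ((dm_norm ha).trans (by
        have := abs_nonneg B
        linarith only [h0, hB, hBa])) ((dm_norm hb).trans (by
        have := abs_nonneg B
        linarith only [h0, hB, hBa])) (by
      rw [vd_lam_sub (by omega), norm_mul, norm_neg]
      have h3 : ‖v‖ ≤ R := by
        refine (norm_le_abs_re_add_abs_im v).trans ?_
        have := abs_nonneg d
        linarith only [h1, hvi, this]
      exact mul_le_mul (vd_n2 hn2) h3 (norm_nonneg _) hn0) (by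
      rw [vd_s_sub (by omega), norm_neg, norm_div, norm_ofNat]
      have h3 := vd_n2 hn2
      exact le_trans (by linarith only [h3, hn0]) (le_mul_of_one_le_right hn0 hR1)) (by
      rw [vd_s_sub (by omega), norm_neg, norm_div, norm_ofNat]
      have h3 := vd_n2 hn2
      exact le_trans (by linarith only [h3, hn0]) (le_mul_of_one_le_right hn0 hR1))
  have hlam := vd_lam_norm hn2 hM
  unfold kVA
  rw [norm_mul, norm_mul (lamN n M), norm_mul (exp _ * _ * _), norm_mul (exp _ * _),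
    norm_mul (exp _), norm_mul (qS M (a - sN n M) _)]
  set E1 := ‖exp (2 * Real.pi * I * r * M * (lamN n M * v) ^ 2)‖ with hE1
  set W := ‖Wd M (n - 2 * h) (lamN n M * v) ^ σ‖ with hW'
  calc ‖lamN n M‖ * (E1 * ‖2 * sin (2 * Real.pi * (lamN n M * v))‖ * W *
        ‖om n M (lamN n M * v)‖) *
        (‖qS M (a - sN n M) (lamN n M * v)‖ * ‖qS M (b - sN n M) (lamN n M * v)‖)
      ≤ 1 * (E1 * (2 * Real.exp (2 * Real.pi * |B|)) *
        ((2 * Real.exp (Real.pi * |B|)) ^ n * (M : ℝ) ^ n) *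
        (C * Real.exp (-(2 * Real.pi * (M * (lamN n M * v).im))))) *
        ((256 * Real.exp (-(M * (Rf (a - sN n M - lamN n M * v) + Rf (a - sN n M + lamN n M * v))))) *
          (256 * Real.exp (-(M * (Rf (b - sN n M - lamN n M * v) +
            Rf (b - sN n M + lamN n M * v)))))) := by
        gcongr
        exact hsn.trans (by gcongr)
    _ = 2 * Real.exp (2 * Real.pi * |B|) * (2 * Real.exp (Real.pi * |B|)) ^ n * C * 256 ^ 2 *
        (M : ℝ) ^ n * ((E1 * Real.exp (-(2 * Real.pi * (M * (lamN n M * v).im)))) *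
        (Real.exp (-(M * (Rf (a - sN n M - lamN n M * v) + Rf (a - sN n M + lamN n M * v)))) *
          Real.exp (-(M * (Rf (b - sN n M - lamN n M * v) + Rf (b - sN n M + lamN n M * v)))))) := by
        ring
    _ = 2 * Real.exp (2 * Real.pi * |B|) * (2 * Real.exp (Real.pi * |B|)) ^ n * C * 256 ^ 2 *
        (M : ℝ) ^ n * Real.exp (M * gV r (lamN n M * v) (a - sN n M) (b - sN n M)) := by
        rw [hE1, e, ← Real.exp_add, ← Real.exp_add]
        congr 2
        unfold gV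
        ring
    _ ≤ 2 * Real.exp (2 * Real.pi * |B|) * (2 * Real.exp (Real.pi * |B|)) ^ n * C * 256 ^ 2 *
        (M : ℝ) ^ n * (A0 * (M : ℝ) ^ p0 * Real.exp (M * gV r v a b)) := by
        gcongr
    _ = _ := by
        rw [pow_add]
        ring

/-! ### Lattice points -/

private theorem vd_vl (n M X : ℕ) : vl n M X = (X + (n - 1) / 2) / M - 1 / 2 := rfl

private theorem vd_vl_pos {n M X κ : ℕ} (hn : 2 ≤ n) (hκ : κ < kq M) (hM : 2 * n + 8 ≤ M)
    (hX : X + (n - 2) ≤ κ) : -(1 / 2) < vl n M X ∧ vl n M X < 1 / 2 ∧ vl n M X ≤ yR M κ := by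
  have hM0 : (0 : ℝ) < M := by exact_mod_cast (show 0 < M by omega)
  have hn' : (2 : ℝ) ≤ n := by exact_mod_cast hn
  have hX0 : (0 : ℝ) ≤ X := Nat.cast_nonneg X
  have hXr : (X : ℝ) + n ≤ κ + 2 := by exact_mod_cast (show X + n ≤ κ + 2 by omega)
  have hq : κ < M / 4 + 1 := hκ
  have hκr : (κ : ℝ) + 2 ≤ M := by exact_mod_cast (show κ + 2 ≤ M by omega)
  have h1 : vl n M X ≤ yR M κ := by
    rw [vd_vl, yR]
    have : ((X : ℝ) + (n - 1) / 2) / M ≤ (κ + 1) / M :=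
      div_le_div_of_nonneg_right (by linarith only [hn', hXr]) hM0.le
    linarith only [this]
  refine ⟨?_, ?_, h1⟩
  · have : 0 < ((X : ℝ) + (n - 1) / 2) / M := div_pos (by linarith only [hn']) hM0
    rw [vd_vl]
    linarith only [this]
  · refine lt_of_le_of_lt h1 ?_
    rw [yR]
    have : ((κ : ℝ) + 1) / M < 1 := by
      rw [div_lt_one hM0]
      linarith only [hκr]
    linarith only [this]

/-- The slot of the edge with the small index. -/
private theorem vd_ql {n h M κ X : ℕ} (hn : 2 ≤ n) (h0 : n - 2 ≤ κ) (hκ : κ < kq M)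
    (hM : 2 * n + 8 ≤ M) (hX : X + (n - 2) ≤ κ) : ‖ql4 n h false M κ X‖ ≤
      Real.exp 11 * Real.exp (-(M * (Rf (yM M κ - sN n M - ((vl n M X : ℝ) : ℂ)) +
        Rf (yM M κ - sN n M + ((vl n M X : ℝ) : ℂ))))) := by
  have hM1 : 1 ≤ M := by omega
  have hM0 : (0 : ℝ) < M := by exact_mod_cast hM1
  have hMc : (M : ℂ) ≠ 0 := by exact_mod_cast hM0.ne'
  have hq : κ < M / 4 + 1 := hκ
  have hκM : κ < M := by omega
  obtain ⟨hv0, hv1, -⟩ := vd_vl_pos hn hκ hM hX
  set v : ℝ := vl n M X with hv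
  have hvv : v = (X + (n - 1) / 2) / M - 1 / 2 := vd_vl n M X
  have hev : (fun w : ℂ => Wd M (n - 2) w * q4 M (n - 2) (M - 1 - κ) w) =ᶠ[𝓝 (v : ℂ)]
      fun w => qS M (yM M κ - sN n M) w := by
    have ho : IsOpen {w : ℂ | |w.re| < 1 / 2} := isOpen_lt (by fun_prop) continuous_const
    have hmem : (v : ℂ) ∈ {w : ℂ | |w.re| < 1 / 2} := by
      rw [Set.mem_ofPred_eq, ofReal_re, abs_lt]
      constructor <;> linarith
    filter_upwards [ho.mem_nhds hmem] with w hw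
    have hw' : |w.re| < 1 / 2 := hw
    have e1 : M + 1 - n - (κ - (n - 2)) = M - 1 - κ := by omega
    rw [qS_slot hn h0 hκM hw'.le, e1]
  have ea : ((κ - X - (n - 2) : ℕ) : ℂ) = κ - X - (n - 2) := by
    rw [Nat.cast_sub (by omega), Nat.cast_sub (by omega), Nat.cast_sub hn]
    norm_num
  have e1 : (M : ℂ) * (yM M κ - sN n M - (v : ℂ)) - 1 / 2 = ((κ - X - (n - 2) : ℕ) : ℂ) := by
    rw [ea, hvv, yM, sN]
    push_cast
    field_simp
    ring
  have e2 : (M : ℂ) * (yM M κ - sN n M + (v : ℂ)) - 1 / 2 = ((κ + X + 1 : ℕ) : ℂ) - M := by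
    rw [hvv, yM, sN]
    push_cast
    field_simp
    ring
  have ha : κ - X - (n - 2) < M := by omega
  have hb : κ + X + 1 < M := by omega
  have r1 := LL_Rf hM1 (z := ((κ - X - (n - 2) : ℕ) : ℂ)) (by
    rw [natCast_re]
    have : (0 : ℝ) ≤ ((κ - X - (n - 2) : ℕ) : ℝ) := Nat.cast_nonneg _
    linarith only []) (by
    rw [natCast_re]
    have : ((κ - X - (n - 2) : ℕ) : ℝ) + 1 ≤ M := by exact_mod_cast ha
    linarith only [this])
  have r2 := LL_Rf hM1 (z := ((κ + X + 1 : ℕ) : ℂ)) (by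
    rw [natCast_re]
    have : (0 : ℝ) ≤ ((κ + X + 1 : ℕ) : ℝ) := Nat.cast_nonneg _
    linarith only []) (by
    rw [natCast_re]
    have : ((κ + X + 1 : ℕ) : ℝ) + 1 ≤ M := by exact_mod_cast hb
    linarith only [this])
  have c1 : (((κ - X - (n - 2) : ℕ) : ℂ) + 1 / 2) / M = yM M κ - sN n M - (v : ℂ) := by
    rw [← e1]
    field_simp
    ring
  have c2 : (((κ + X + 1 : ℕ) : ℂ) + 1 / 2) / M = yM M κ - sN n M + (v : ℂ) + 1 := by
    have : ((κ + X + 1 : ℕ) : ℂ) = (M : ℂ) * (yM M κ - sN n M + (v : ℂ)) - 1 / 2 + M := by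
      rw [e2]
      ring
    rw [this]
    field_simp
    ring
  have him : (yM M κ - sN n M + (v : ℂ)).im = 0 := by
    have : yM M κ - sN n M + (v : ℂ) = (((κ + 1) / M - 1 / 2 - ((n : ℝ) - 2) / 2 / M + v : ℝ) : ℂ) := by
      rw [yM, sN]
      push_cast
      ring
    rw [this, ofReal_im]
  rw [c1] at r1
  rw [c2, Rf_add_one, him, abs_zero, mul_zero, add_zero] at r2
  rw [abs_le] at r1 r2
  have hp : 2 * Real.pi ≤ Real.exp 7 := by
    have := Real.add_one_le_exp (7 : ℝ)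
    have := Real.pi_lt_d2
    linarith [this]
  have hql : ql4 n h false M κ X = deriv (fun w => Wd M (n - 2) w * q4 M (n - 2) (M - 1 - κ) w)
      (v : ℂ) := by
    rw [ql4, S4.nn, dd]
    simp only [Bool.false_eq_true, if_false]
    rw [if_pos (by omega)]
  have hMl : (M : ℝ) = Real.exp (Real.log M) := (Real.exp_log hM0).symm
  rw [hql, hev.deriv_eq, lb_qS_deriv ha hb e1 e2]
  calc 2 * Real.pi * M * Real.exp (-(LL M ((κ - X - (n - 2) : ℕ) : ℂ)).re -
        (LL M ((κ + X + 1 : ℕ) : ℂ)).re)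
      ≤ Real.exp 7 * Real.exp (Real.log M) * Real.exp (-(LL M ((κ - X - (n - 2) : ℕ) : ℂ)).re -
        (LL M ((κ + X + 1 : ℕ) : ℂ)).re) := by
        rw [← hMl]
        gcongr
    _ = Real.exp (7 + Real.log M + (-(LL M ((κ - X - (n - 2) : ℕ) : ℂ)).re -
        (LL M ((κ + X + 1 : ℕ) : ℂ)).re)) := by
        rw [Real.exp_add, Real.exp_add]
    _ ≤ Real.exp (11 + -(M * (Rf (yM M κ - sN n M - (v : ℂ)) +
        Rf (yM M κ - sN n M + (v : ℂ))))) := by
        apply Real.exp_le_exp.2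
        linarith only [r1.1, r2.1]
    _ = _ := by rw [Real.exp_add]

private theorem vd_exp_real (r : ℝ) (M : ℕ) (x : ℝ) :
    ‖exp (2 * Real.pi * I * r * M * (x : ℂ) ^ 2)‖ = 1 := by
  have : 2 * Real.pi * I * r * M * (x : ℂ) ^ 2 = ((2 * Real.pi * r * M * x ^ 2 : ℝ) : ℂ) * I := by
    push_cast
    ring
  rw [this, norm_exp_ofReal_mul_I]

private theorem vd_sin_real (x : ℝ) : ‖2 * sin (2 * Real.pi * (x : ℂ))‖ ≤ 2 := by
  have h2 : ‖sin (2 * Real.pi * (x : ℂ))‖ ≤ 1 := by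
    have : (2 * Real.pi * (x : ℂ) : ℂ) = ((2 * Real.pi * x : ℝ) : ℂ) := by
      push_cast
      ring
    rw [this, ← ofReal_sin, norm_real, Real.norm_eq_abs]
    exact Real.abs_sin_le_one _
  rw [norm_mul, norm_ofNat]
  linarith only [h2]

/-- **The bound at the lattice points.** -/
theorem bd_latA (r : ℝ) {n h : ℕ} (hh : 1 ≤ h) (hn : 2 * h ≤ n) {σ : ℤ}
    (hσ : σ = 0 ∨ σ = 1 ∨ σ = -1) (d : ℝ) : ∃ A : ℝ, 0 < A ∧ ∃ p : ℕ, ∀ᶠ M : ℕ in atTop,
    ∀ κ X : ℕ, n - 2 ≤ κ → κ < kq M → ∀ b ∈ Dm M (n - 2) d, latA r n h M σ κ X b = 0 ∨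
      ∃ v : ℝ, v ≤ 1 / 2 ∧ -(yR M κ) ≤ v ∧ ‖latA r n h M σ κ X b‖ ≤ A * (M : ℝ) ^ p *
        Real.exp (M * gV r v (yM M κ) b) := by
  have hn2 : 2 ≤ n := by omega
  have hpi := Real.pi_pos
  set R : ℝ := 1 + |d| with hR
  have hR1 : 1 ≤ R := by
    have := abs_nonneg d
    linarith only [this]
  obtain ⟨A0, hA0, p0, hs⟩ := gV_sh r R (n * R)
  refine ⟨2 * (2 * 2 ^ n) * (Real.exp 11 * 256) * A0, by positivity, n + p0, ?_⟩
  filter_upwards [eventually_ge_atTop (2 * n + 8)] with M hM κ X h0 hκ b hb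
  by_cases hX : κ < M ∧ X + (n - 2) ≤ κ
  swap
  · left
    rw [latA, if_neg hX]
  right
  have hM1 : 1 ≤ M := by omega
  have hMr : (1 : ℝ) ≤ M := by exact_mod_cast hM1
  have hM0 : (0 : ℝ) < M := by linarith only [hMr]
  have hn0 : (0 : ℝ) ≤ n := Nat.cast_nonneg n
  obtain ⟨hv0, hv1, hvy⟩ := vd_vl_pos hn2 hκ hM hX.2
  refine ⟨-vl n M X, by linarith only [hv0], by linarith only [hvy], ?_⟩
  have hW : ‖Wd M (n - 2 * h) ((vl n M X : ℝ) : ℂ) ^ σ‖ ≤ 2 ^ n * (M : ℝ) ^ n := by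
    have hq : κ < M / 4 + 1 := hκ
    have hv2 := vl_abs_le (n := 2) (M := M + 2 - n) (X := X) (by omega) le_rfl (by omega)
    have h3 := Wd_zpow (n := n) (h := h) (M := M) hh hn (by omega) hσ le_rfl
      (v := ((vl 2 (M + 2 - n) X : ℝ) : ℂ)) (by rw [ofReal_re]; exact hv2)
      (by rw [ofReal_im, abs_zero])
    rw [vl_scale (by omega) (by omega), mul_zero, Real.exp_zero, mul_one] at h3
    exact h3
  have hb' := vd_dm (dm_sN hn2 hb)
  have hv' : |(((vl n M X : ℝ) : ℂ)).re| ≤ 1 / 2 := by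
    rw [ofReal_re, abs_le]
    constructor <;> linarith
  have h256 : 256 / (M : ℝ) ≤ 256 := div_le_self (by norm_num) hMr
  have qb : ‖qS M (b - sN n M) ((vl n M X : ℝ) : ℂ)‖ ≤ 256 * Real.exp (-(M *
      (Rf (b - sN n M - ((vl n M X : ℝ) : ℂ)) + Rf (b - sN n M + ((vl n M X : ℝ) : ℂ))))) :=
    (qS_bound hM1 hb' hv').trans (mul_le_mul_of_nonneg_right h256 (Real.exp_pos _).le)
  have qq := vd_ql (h := h) hn2 h0 hκ hM hX.2
  have hyn : ‖yM M κ‖ ≤ R := by
    have hq : κ < M / 4 + 1 := hκ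
    have e : yM M κ = ((yR M κ : ℝ) : ℂ) := by
      rw [yM, yR]
      push_cast
      ring
    rw [e, norm_real, Real.norm_eq_abs, yR, abs_le]
    have h3 : 0 ≤ ((κ : ℝ) + 1) / M := by positivity
    have h4 : ((κ : ℝ) + 1) / M ≤ 1 := by
      rw [div_le_one hM0]
      exact_mod_cast (show κ + 1 ≤ M by omega)
    constructor <;> linarith
  have hsh := hs M hM1 ((-vl n M X : ℝ) : ℂ) (yM M κ) b ((-vl n M X : ℝ) : ℂ) (yM M κ - sN n M)
    (b - sN n M) (by
      rw [norm_real, Real.norm_eq_abs, abs_neg, abs_le]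
      constructor <;> linarith) hyn (dm_norm hb) (by
      rw [sub_self, mul_zero, norm_zero]
      positivity) (by
      rw [vd_s_sub (by omega), norm_neg, norm_div, norm_ofNat]
      have h3 := vd_n2 hn2
      exact le_trans (by linarith only [h3, hn0]) (le_mul_of_one_le_right hn0 hR1)) (by
      rw [vd_s_sub (by omega), norm_neg, norm_div, norm_ofNat]
      have h3 := vd_n2 hn2
      exact le_trans (by linarith only [h3, hn0]) (le_mul_of_one_le_right hn0 hR1))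
  have hw : (wr r ((-vl n M X : ℝ) : ℂ)).re = 0 := by
    rw [wr_re]
    have : (((-vl n M X : ℝ) : ℂ) ^ 2).im = 0 := by
      rw [← ofReal_pow, ofReal_im]
    rw [this, ofReal_im]
    ring
  have hg : gV r ((-vl n M X : ℝ) : ℂ) (yM M κ - sN n M) (b - sN n M) =
      -(Rf (yM M κ - sN n M - ((vl n M X : ℝ) : ℂ)) +
        Rf (yM M κ - sN n M + ((vl n M X : ℝ) : ℂ))) -
        (Rf (b - sN n M - ((vl n M X : ℝ) : ℂ)) + Rf (b - sN n M + ((vl n M X : ℝ) : ℂ))) := by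
    unfold gV
    rw [hw, ofReal_neg, sub_neg_eq_add, sub_neg_eq_add, ← sub_eq_add_neg, ← sub_eq_add_neg]
    ring
  rw [latA, if_pos hX, norm_mul, norm_mul, norm_mul (exp _ * _), norm_mul (exp _),
    norm_mul (ql4 _ _ _ _ _ _), norm_ofNat, vd_exp_real]
  have hsn := vd_sin_real (vl n M X)
  set W := ‖Wd M (n - 2 * h) ((vl n M X : ℝ) : ℂ) ^ σ‖ with hW'
  calc 2 * (1 * ‖2 * sin (2 * Real.pi * ((vl n M X : ℝ) : ℂ))‖ * W) *
        (‖ql4 n h false M κ X‖ * ‖qS M (b - sN n M) ((vl n M X : ℝ) : ℂ)‖)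
      ≤ 2 * (1 * 2 * (2 ^ n * (M : ℝ) ^ n)) * ((Real.exp 11 *
        Real.exp (-(M * (Rf (yM M κ - sN n M - ((vl n M X : ℝ) : ℂ)) +
          Rf (yM M κ - sN n M + ((vl n M X : ℝ) : ℂ)))))) *
        (256 * Real.exp (-(M * (Rf (b - sN n M - ((vl n M X : ℝ) : ℂ)) +
          Rf (b - sN n M + ((vl n M X : ℝ) : ℂ))))))) := by
        gcongr
    _ = 2 * (2 * 2 ^ n) * (Real.exp 11 * 256) * (M : ℝ) ^ n *
        (Real.exp (-(M * (Rf (yM M κ - sN n M - ((vl n M X : ℝ) : ℂ)) +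
          Rf (yM M κ - sN n M + ((vl n M X : ℝ) : ℂ))))) *
        Real.exp (-(M * (Rf (b - sN n M - ((vl n M X : ℝ) : ℂ)) +
          Rf (b - sN n M + ((vl n M X : ℝ) : ℂ)))))) := by ring
    _ = 2 * (2 * 2 ^ n) * (Real.exp 11 * 256) * (M : ℝ) ^ n *
        Real.exp (M * gV r ((-vl n M X : ℝ) : ℂ) (yM M κ - sN n M) (b - sN n M)) := by
        rw [← Real.exp_add, hg]
        congr 2
        ring
    _ ≤ 2 * (2 * 2 ^ n) * (Real.exp 11 * 256) * (M : ℝ) ^ n *
        (A0 * (M : ℝ) ^ p0 * Real.exp (M * gV r ((-vl n M X : ℝ) : ℂ) (yM M κ) b)) := by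
        gcongr
    _ = _ := by
        rw [pow_add]
        ring

end Pool.Agent.S5
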