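import Pool.Agent.S5.N.VA
import Pool.Agent.S5.S.LmA

/-!
# Nodes with an integration variable for `SU(n)`: limits at the critical point
-/

set_option autoImplicit false

namespace Pool.Agent.S5

open Complex Filter Topology
open Pool.Agent.S3 (Rf fe rS qS wr fdom)
open Pool.Agent.S4 (Wd)
open Pool.Agent.H63.VC3 (LL ff Cc om yk)

variable {α : Type*} {l : Filter α} {M : α → ℕ}

theorem lm_close (hM : Tendsto M l atTop) {ζ ζ' : α → ℂ} {ζ0 c : ℂ} (hζ : Tendsto ζ l (𝓝 ζ0))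
    (hd : Tendsto (fun x => (M x : ℂ) * (ζ' x - ζ x)) l (𝓝 c)) : Tendsto ζ' l (𝓝 ζ0) := by
  have h1 : Tendsto (fun x => (1 : ℂ) / (M x : ℂ)) l (𝓝 0) :=
    (tendsto_const_div_atTop_nhds_zero_nat 1).comp hM
  have h2 := hζ.add (h1.mul hd)
  rw [zero_mul, add_zero] at h2
  refine h2.congr' ?_
  filter_upwards [hM.eventually (eventually_ge_atTop 1)] with x hx
  have hMx : (M x : ℂ) ≠ 0 := by
    have : (0 : ℝ) < M x := by exact_mod_cast hx
    exact_mod_cast this.ne'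
  field_simp
  ring

/-- `fe` at close points. -/
theorem lm_fe_sh (hM : Tendsto M l atTop) {ζ ζ' : α → ℂ} {ζ0 c : ℂ} (hζ : Tendsto ζ l (𝓝 ζ0))
    (hd : Tendsto (fun x => (M x : ℂ) * (ζ' x - ζ x)) l (𝓝 c)) (h : fdom ζ0) :
    Tendsto (fun x => (M x : ℂ) * (fe (ζ' x) - fe (ζ x))) l (𝓝 (c * Pool.Agent.S3.he ζ0)) := by
  have hs : HasStrictDerivAt fe (Pool.Agent.S3.he ζ0) ζ0 := by
    have h1 := (Pool.Agent.S3.fe_an h).hasStrictDerivAt
    rwa [(Pool.Agent.S3.fe_hasDerivAt h).deriv] at h1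
  have h2 : Tendsto (fun x => (ζ' x, ζ x)) l (𝓝 (ζ0, ζ0)) :=
    (lm_close hM hζ hd).prodMk_nhds hζ
  have h3 := hs.isLittleO.comp_tendsto h2
  have h5 : (fun x => (M x : ℂ) * (fe (ζ' x) - fe (ζ x) -
      (ζ' x - ζ x) • Pool.Agent.S3.he ζ0)) =o[l] (fun x => (M x : ℂ) * (ζ' x - ζ x)) :=
    (Asymptotics.isBigO_refl _ _).mul_isLittleO h3
  have h6 : (fun x => (M x : ℂ) * (ζ' x - ζ x)) =O[l] (fun _ => (1 : ℂ)) := hd.isBigO_one ℂ
  have h7 := (Asymptotics.isLittleO_one_iff ℂ).mp (h5.trans_isBigO h6)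
  have h8 := h7.add (hd.mul_const (Pool.Agent.S3.he ζ0))
  rw [zero_add] at h8
  refine h8.congr fun x => ?_
  rw [smul_eq_mul]
  ring

/-- The potential of a node at close points. -/
theorem lm_pV_sh (r : ℝ) (hM : Tendsto M l atTop) {v a b v' a' b' : α → ℂ} {v0 a0 b0 cv ca cb : ℂ}
    (hv : Tendsto v l (𝓝 v0)) (ha : Tendsto a l (𝓝 a0)) (hb : Tendsto b l (𝓝 b0))
    (hv' : Tendsto (fun x => (M x : ℂ) * (v' x - v x)) l (𝓝 cv))
    (ha' : Tendsto (fun x => (M x : ℂ) * (a' x - a x)) l (𝓝 ca))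
    (hb' : Tendsto (fun x => (M x : ℂ) * (b' x - b x)) l (𝓝 cb))
    (hd : ∀ c ∈ ({a0, b0} : Set ℂ), fdom (c - v0) ∧ |(c - v0).re| < 1 ∧ fdom (c + v0) ∧
      |(c + v0).re| < 1) : ∃ A : ℂ, A ≠ 0 ∧ Tendsto (fun x =>
      exp ((M x : ℂ) * (pV r (v' x) (a' x) (b' x) - pV r (v x) (a x) (b x)))) l (𝓝 A) := by
  obtain ⟨d1, -, d3, -⟩ := hd a0 (by simp)
  obtain ⟨d5, -, d7, -⟩ := hd b0 (by simp)
  have tv := lm_close hM hv hv'
  have g1 := lm_fe_sh (ζ' := fun x => a' x - v' x) hM (ha.sub hv) (c := ca - cv)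
    ((ha'.sub hv').congr fun x => by ring) d1
  have g2 := lm_fe_sh (ζ' := fun x => a' x + v' x) hM (ha.add hv) (c := ca + cv)
    ((ha'.add hv').congr fun x => by ring) d3
  have g3 := lm_fe_sh (ζ' := fun x => b' x - v' x) hM (hb.sub hv) (c := cb - cv)
    ((hb'.sub hv').congr fun x => by ring) d5
  have g4 := lm_fe_sh (ζ' := fun x => b' x + v' x) hM (hb.add hv) (c := cb + cv)
    ((hb'.add hv').congr fun x => by ring) d7
  have g5 : Tendsto (fun x => (M x : ℂ) * (wr r (v' x) - wr r (v x))) l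
      (𝓝 (2 * Real.pi * I * (r * ((v0 + v0) * cv) + cv))) := by
    have h1 := ((((tv.add hv).mul hv').const_mul (r : ℂ)).add hv').const_mul
      (2 * Real.pi * I : ℂ)
    refine h1.congr fun x => ?_
    unfold wr
    ring
  refine ⟨_, exp_ne_zero _, ((continuous_exp.tendsto _).comp
    (g5.sub ((g1.add g2).add (g3.add g4)))).congr fun x => ?_⟩
  simp only [Function.comp_apply]
  congr 1
  unfold pV
  ring

private theorem vl_half {n : ℕ} (hn : 1 ≤ n) :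
    (((n : ℝ) ^ (-1 / 2 : ℝ) : ℝ) : ℂ) = ((√(n : ℝ) : ℝ) : ℂ)⁻¹ := by
  have hM0 : (0 : ℝ) ≤ n := Nat.cast_nonneg n
  rw [show (-1 / 2 : ℝ) = -(1 / 2) by norm_num, Real.rpow_neg hM0, ← Real.sqrt_eq_rpow]
  push_cast
  rfl

private theorem vl_sq {n : ℕ} : (((√(n : ℝ) : ℝ) : ℂ)) ^ 2 = n := by
  have h : √(n : ℝ) ^ 2 = n := Real.sq_sqrt (Nat.cast_nonneg n)
  exact_mod_cast congrArg (fun t : ℝ => (t : ℂ)) h

private theorem vl_sne {n : ℕ} (hn : 1 ≤ n) : ((√(n : ℝ) : ℝ) : ℂ) ≠ 0 := by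
  have hM0 : (0 : ℝ) < n := by exact_mod_cast hn
  exact_mod_cast (Real.sqrt_pos.mpr hM0).ne'

private theorem vl_two {n : ℕ} : (((n : ℝ) ^ (2 : ℝ) : ℝ) : ℂ) = ((√(n : ℝ) : ℝ) : ℂ) ^ 4 := by
  rw [show (4 : ℕ) = 2 * 2 from rfl, pow_mul, vl_sq]
  rw [show (2 : ℝ) = ((2 : ℕ) : ℝ) by norm_num, Real.rpow_natCast]
  push_cast
  rfl

private theorem vl_mtwo {n : ℕ} : (((n : ℝ) ^ (-2 : ℝ) : ℝ) : ℂ) = (((√(n : ℝ) : ℝ) : ℂ) ^ 4)⁻¹ := by
  rw [Real.rpow_neg (Nat.cast_nonneg n), ← vl_two]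
  push_cast
  rfl

private theorem vl_sin {v0 : ℂ} (h0 : 0 < v0.im) : sin (2 * Real.pi * v0) ≠ 0 := by
  rw [sin_ne_zero_iff]
  intro k hk
  have h3 := congrArg Complex.im hk
  have e1 : (2 * Real.pi * v0 : ℂ).im = 2 * Real.pi * v0.im := by
    have : (2 * Real.pi * v0 : ℂ) = ((2 * Real.pi : ℝ) : ℂ) * v0 := by push_cast; ring
    rw [this, im_ofReal_mul]
  have e2 : ((k : ℂ) * Real.pi).im = 0 := by
    have : ((k : ℂ) * Real.pi) = ((k * Real.pi : ℝ) : ℂ) := by push_cast; ring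
    rw [this, ofReal_im]
  rw [e1, e2] at h3
  have : 0 < 2 * Real.pi * v0.im := by
    have := Real.pi_pos
    positivity
  linarith

private theorem vl_cos {v0 : ℂ} (h0 : 0 < v0.im) : cos (Real.pi * v0) ≠ 0 := by
  intro hc
  refine vl_sin h0 ?_
  rw [mul_assoc, sin_two_mul, hc, mul_zero]

/-- The limit of a node, with an arbitrary factor `O`. -/
theorem lm_gen (r : ℝ) (hM : Tendsto M l atTop) {v a b O : α → ℂ} {v0 a0 b0 B : ℂ}
    (hv : Tendsto v l (𝓝 v0)) (ha : Tendsto a l (𝓝 a0)) (hb : Tendsto b l (𝓝 b0))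
    (h0 : 0 < v0.im) (hd : ∀ c ∈ ({a0, b0} : Set ℂ), fdom (c - v0) ∧ |(c - v0).re| < 1 ∧
      fdom (c + v0) ∧ |(c + v0).re| < 1)
    (hO : Tendsto (fun x => O x * exp (-(2 * Real.pi * I * M x * v x))) l (𝓝 B)) (hB : B ≠ 0) :
    ∃ A : ℂ, A ≠ 0 ∧ Tendsto (fun x => exp (2 * Real.pi * I * r * M x * v x ^ 2) *
      (2 * sin (2 * Real.pi * v x)) * O x * (qS (M x) (a x) (v x) * qS (M x) (b x) (v x)) *
      exp (-(M x * pV r (v x) (a x) (b x))) / (((M x : ℝ) ^ (-2 : ℝ) : ℝ) : ℂ)) l (𝓝 A) := by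
  have hM1 : ∀ᶠ x in l, 1 ≤ M x := hM.eventually (eventually_ge_atTop 1)
  obtain ⟨d1, d2, d3, d4⟩ := hd a0 (by simp)
  obtain ⟨d5, d6, d7, d8⟩ := hd b0 (by simp)
  obtain ⟨A1, hA1, g1⟩ := lm_rS hM (-1 / 2) (ha.sub hv) d1 d2
  obtain ⟨A2, hA2, g2⟩ := lm_rS hM (-1 / 2) (ha.add hv) d3 d4
  obtain ⟨A3, hA3, g3⟩ := lm_rS hM (-1 / 2) (hb.sub hv) d5 d6
  obtain ⟨A4, hA4, g4⟩ := lm_rS hM (-1 / 2) (hb.add hv) d7 d8
  have g6 : Tendsto (fun x => 2 * sin (2 * Real.pi * v x)) l (𝓝 (2 * sin (2 * Real.pi * v0))) :=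
    ((continuous_sin.tendsto _).comp (hv.const_mul (2 * Real.pi : ℂ))).const_mul 2
  refine ⟨2 * sin (2 * Real.pi * v0) * B * (A1 * A2 * (A3 * A4)),
    mul_ne_zero (mul_ne_zero (mul_ne_zero two_ne_zero (vl_sin h0)) hB)
      (mul_ne_zero (mul_ne_zero hA1 hA2) (mul_ne_zero hA3 hA4)), ?_⟩
  have h5 := (g6.mul hO).mul ((g1.mul g2).mul (g3.mul g4))
  refine h5.congr' ?_
  filter_upwards [hM1] with x hx
  have hs := vl_sne hx
  have e1 : exp (2 * Real.pi * I * r * M x * v x ^ 2) * exp (-(M x * pV r (v x) (a x) (b x))) =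
      exp (-(2 * Real.pi * I * M x * v x)) * (exp (-(M x * -fe (a x - v x))) *
        exp (-(M x * -fe (a x + v x))) * (exp (-(M x * -fe (b x - v x))) *
          exp (-(M x * -fe (b x + v x))))) := by
    rw [← exp_add, ← exp_add, ← exp_add, ← exp_add, ← exp_add]
    congr 1
    unfold pV wr
    ring
  unfold qS
  have c1 : ∀ t : ℂ, (M x : ℂ) * t + -1 / 2 = M x * t - 1 / 2 := fun t => by ring
  rw [c1, c1, c1, c1, vl_half hx, vl_mtwo]
  generalize rS (M x) (M x * (a x - v x) - 1 / 2) = R1 at *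
  generalize rS (M x) (M x * (a x + v x) - 1 / 2) = R2 at *
  generalize rS (M x) (M x * (b x - v x) - 1 / 2) = R3 at *
  generalize rS (M x) (M x * (b x + v x) - 1 / 2) = R4 at *
  generalize exp (-(M x * -fe (a x - v x))) = E1 at *
  generalize exp (-(M x * -fe (a x + v x))) = E2 at *
  generalize exp (-(M x * -fe (b x - v x))) = E3 at *
  generalize exp (-(M x * -fe (b x + v x))) = E4 at *
  generalize exp (2 * Real.pi * I * r * M x * v x ^ 2) = E5 at *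
  generalize exp (-(M x * pV r (v x) (a x) (b x))) = E6 at *
  generalize exp (-(2 * Real.pi * I * M x * v x)) = E7 at *
  generalize ((√(M x : ℝ) : ℝ) : ℂ) = q at *
  generalize O x = O at *
  generalize sin (2 * Real.pi * v x) = S at *
  have e2 : E5 * (2 * S) * O * (R1 * R2 * (R3 * R4)) * E6 / (q ^ 4)⁻¹ =
      (E5 * E6) * (2 * S) * O * (R1 * R2 * (R3 * R4)) / (q ^ 4)⁻¹ := by ring
  rw [e2, e1]
  simp only [div_inv_eq_mul]
  ring

/-- The centered product tends to a power of the cosine. -/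
theorem lm_Wd (hM : Tendsto M l atTop) (d : ℕ) {v : α → ℂ} {v0 : ℂ} (hv : Tendsto v l (𝓝 v0)) :
    Tendsto (fun x => Wd (M x) d (v x)) l (𝓝 ((2 * cos (Real.pi * v0)) ^ d)) := by
  unfold Wd
  have h1 : (2 * cos (Real.pi * v0)) ^ d = ∏ _j ∈ Finset.range d, (2 * cos (Real.pi * v0)) := by
    rw [Finset.prod_const, Finset.card_range]
  rw [h1]
  refine tendsto_finsetProd _ fun j _ => ?_
  refine Tendsto.const_mul 2 ((continuous_cos.tendsto _).comp (Tendsto.const_mul _ ?_))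
  have h2 : Tendsto (fun x => ((j : ℂ) + 1 / 2 - d / 2) / (M x : ℂ)) l (𝓝 0) :=
    (tendsto_const_div_atTop_nhds_zero_nat ((j : ℂ) + 1 / 2 - d / 2)).comp hM
  have h3 := hv.add h2
  rwa [add_zero] at h3

/-- **The limit of a node of antiparallel strands.** -/
theorem lm_kVA (r : ℝ) {n h : ℕ} (hn : 2 ≤ n) (σ : ℤ) (hM : Tendsto M l atTop)
    {v a b : α → ℂ} {v0 a0 b0 : ℂ} (hv : Tendsto v l (𝓝 v0)) (ha : Tendsto a l (𝓝 a0))
    (hb : Tendsto b l (𝓝 b0)) (h0 : 0 < v0.im)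
    (hd : ∀ c ∈ ({a0, b0} : Set ℂ), fdom (c - v0) ∧ |(c - v0).re| < 1 ∧ fdom (c + v0) ∧
      |(c + v0).re| < 1) : ∃ A : ℂ, A ≠ 0 ∧
    Tendsto (fun x => (-1) ^ (M x + n + 1) * kVA r n h (M x) σ (v x) (a x) (b x) *
      exp (-(M x * pV r (v x) (a x) (b x))) / (((M x : ℝ) ^ (-2 : ℝ) : ℝ) : ℂ)) l (𝓝 A) := by
  have hMn : ∀ᶠ x in l, n ≤ M x := hM.eventually (eventually_ge_atTop n)
  have hinv : ∀ c : ℂ, Tendsto (fun x => c / (M x : ℂ)) l (𝓝 0) := fun c =>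
    (tendsto_const_div_atTop_nhds_zero_nat c).comp hM
  have tlam : Tendsto (fun x => lamN n (M x)) l (𝓝 1) := by
    have h1 := (hinv ((n : ℂ) - 2)).const_sub 1
    rw [sub_zero] at h1
    exact h1
  have dv : Tendsto (fun x => (M x : ℂ) * (lamN n (M x) * v x - v x)) l
      (𝓝 (-((n : ℂ) - 2) * v0)) := by
    refine (hv.const_mul (-((n : ℂ) - 2))).congr' ?_
    filter_upwards [hMn] with x hx
    have hMx : (M x : ℂ) ≠ 0 := by
      have : (0 : ℝ) < M x := by exact_mod_cast (show 0 < M x by omega)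
      exact_mod_cast this.ne'
    rw [lamN]
    field_simp
    ring
  have ds : ∀ c : α → ℂ, Tendsto (fun x => (M x : ℂ) * (c x - sN n (M x) - c x)) l
      (𝓝 (-(((n : ℂ) - 2) / 2))) := by
    intro c
    refine tendsto_const_nhds.congr' ?_
    filter_upwards [hMn] with x hx
    have hMx : (M x : ℂ) ≠ 0 := by
      have : (0 : ℝ) < M x := by exact_mod_cast (show 0 < M x by omega)
      exact_mod_cast this.ne'
    rw [sN]
    field_simp
    ring
  have tv := lm_close hM hv dv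
  have ta := lm_close hM ha (ds a)
  have tb := lm_close hM hb (ds b)
  have hW := lm_Wd hM (n - 2 * h) tv
  have hcos : (2 * cos (Real.pi * v0)) ^ (n - 2 * h) ≠ 0 :=
    pow_ne_zero _ (mul_ne_zero two_ne_zero (vl_cos h0))
  have hWz := hW.zpow₀ σ (Or.inl hcos)
  have hM' : Tendsto (fun x => M x + 2 - n) l atTop := by
    refine tendsto_atTop_mono' l ?_ ((tendsto_sub_atTop_nat n).comp hM)
    filter_upwards [hMn] with x hx
    simp only [Function.comp_apply]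
    omega
  have hom := Pool.Agent.S3.om_lim hM' hv h0
  obtain ⟨A, hA, h1⟩ := lm_gen r hM (O := fun x => (-1) ^ (M x + n + 1) * (lamN n (M x) *
    (Wd (M x) (n - 2 * h) (lamN n (M x) * v x) ^ σ * om n (M x) (lamN n (M x) * v x))))
    (B := 1 * (((2 * cos (Real.pi * v0)) ^ (n - 2 * h)) ^ σ * 1)) tv ta tb h0 hd (by
      refine (tlam.mul (hWz.mul hom)).congr' ?_
      filter_upwards [hMn] with x hx
      have hMx : 0 < M x := by omega
      have e1 : 2 * Real.pi * I * M x * (lamN n (M x) * v x) =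
          2 * Real.pi * I * ((M x + 2 - n : ℕ) : ℂ) * v x := by
        rw [← lamN_eq hMx (by omega)]
        ring
      have e2 : (-1 : ℂ) ^ (M x + n + 1) = (-1) ^ (M x + 2 - n + 1) := by
        have : M x + n + 1 = (M x + 2 - n + 1) + 2 * (n - 1) := by omega
        rw [this, pow_add, pow_mul, neg_one_sq, one_pow, mul_one]
      rw [e1, e2, om_scale hMx (by omega)]
      ring) (by
      rw [one_mul, mul_one]
      exact zpow_ne_zero _ hcos)
  obtain ⟨A2, hA2, h2⟩ := lm_pV_sh r hM hv ha hb dv (ds a) (ds b) hd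
  refine ⟨A * A2, mul_ne_zero hA hA2, (h1.mul h2).congr fun x => ?_⟩
  have e3 : exp (-(M x * pV r (lamN n (M x) * v x) (a x - sN n (M x)) (b x - sN n (M x)))) *
      exp ((M x : ℂ) * (pV r (lamN n (M x) * v x) (a x - sN n (M x)) (b x - sN n (M x)) -
        pV r (v x) (a x) (b x))) = exp (-(M x * pV r (v x) (a x) (b x))) := by
    rw [← exp_add]
    congr 1
    ring
  rw [← e3, kVA]
  ring

/-- **The limit of a node of parallel strands.** -/
theorem lm_kVP (r : ℝ) (sa sb : ℂ) (hM : Tendsto M l atTop)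
    {v a b : α → ℂ} {v0 a0 b0 : ℂ} (hv : Tendsto v l (𝓝 v0)) (ha : Tendsto a l (𝓝 a0))
    (hb : Tendsto b l (𝓝 b0)) (h0 : 0 < v0.im) (h1 : |v0.re| < 1 / 2)
    (hd : ∀ c ∈ ({a0, b0} : Set ℂ), fdom (c - v0) ∧ |(c - v0).re| < 1 ∧ fdom (c + v0) ∧
      |(c + v0).re| < 1) : ∃ A : ℂ, A ≠ 0 ∧
    Tendsto (fun x => (-1) ^ (M x + 1) * kV r (M x) (v x) (a x - sa / M x) (b x - sb / M x) *
      exp (-(M x * pV r (v x) (a x) (b x))) / (((M x : ℝ) ^ (-2 : ℝ) : ℝ) : ℂ)) l (𝓝 A) := by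
  have hM1 : ∀ᶠ x in l, 1 ≤ M x := hM.eventually (eventually_ge_atTop 1)
  have dv : Tendsto (fun x => (M x : ℂ) * (v x - v x)) l (𝓝 0) := by
    refine tendsto_const_nhds.congr fun x => ?_
    rw [sub_self, mul_zero]
  have ds : ∀ (s : ℂ) (c : α → ℂ), Tendsto (fun x => (M x : ℂ) * (c x - s / M x - c x)) l
      (𝓝 (-s)) := by
    intro s c
    refine tendsto_const_nhds.congr' ?_
    filter_upwards [hM1] with x hx
    have hMx : (M x : ℂ) ≠ 0 := by
      have : (0 : ℝ) < M x := by exact_mod_cast hx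
      exact_mod_cast this.ne'
    field_simp
    ring
  obtain ⟨A, hA, h3⟩ := lm_kV r hM hv (lm_close hM ha (ds sa a)) (lm_close hM hb (ds sb b)) h0 h1 hd
  obtain ⟨A2, hA2, h2⟩ := lm_pV_sh r hM hv ha hb dv (ds sa a) (ds sb b) hd
  refine ⟨A * A2, mul_ne_zero hA hA2, (h3.mul h2).congr fun x => ?_⟩
  have e3 : exp (-(M x * pV r (v x) (a x - sa / M x) (b x - sb / M x))) *
      exp ((M x : ℂ) * (pV r (v x) (a x - sa / M x) (b x - sb / M x) -
        pV r (v x) (a x) (b x))) = exp (-(M x * pV r (v x) (a x) (b x))) := by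
    rw [← exp_add]
    congr 1
    ring
  rw [← e3]
  ring

end Pool.Agent.S5
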