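import Pool.Agent.S5.N.Inst
import Pool.Agent.S5.N.VD
import Pool.Agent.S5.N.VL

/-!
# The kernels for `SU(n)`: the nodes with integration variables
-/

set_option autoImplicit false

namespace Pool.Agent.S5

open Complex Filter Topology MeasureTheory
open Pool.Agent.S3 (Rf fe rS qS wr fdom gl ql Ctr)
open Pool.Agent.S4 (nn et)
open Pool.Agent.H63.VC3 (LL ff Cc om yk vl)

variable {m : ℕ}

/-! ### Small facts -/

theorem sg5_cases (P : Fin (m + 1) → Bool) (i : Fin (m + 1)) :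
    sg5 P i = 0 ∨ sg5 P i = 1 ∨ sg5 P i = -1 := by
  have h2 := gc_le (et P) (i : ℕ)
  have h3 := gc_le (et P) ((i : ℕ) + 1)
  rw [sg5_eq]
  split_ifs <;> omega

theorem siL_le {n h : ℕ} (hh : 1 ≤ h) (hn : 2 * h ≤ n) (i : ℕ) : siL n h i ≤ n - 2 := by
  unfold siL
  split_ifs <;> omega

theorem siR_le {n h : ℕ} (hh : 1 ≤ h) (hn : 2 * h ≤ n) (i : ℕ) : siR n h i ≤ n - 2 := by
  unfold siR
  split_ifs <;> omega

/-- The shift of a variable by an integer. -/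
theorem dm_nat {n M s : ℕ} (hs : s ≤ n - 2) {d : ℝ} {z : ℂ} (hz : z ∈ Dm M (n - 2) d) :
    z - (s : ℂ) / M ∈ Dm M 0 d := by
  obtain ⟨h1, h2, h3⟩ := hz
  have e0 : (s : ℂ) / M = (((s : ℝ) / M : ℝ) : ℂ) := by
    push_cast
    rfl
  have e1 : (z - (s : ℂ) / M).re = z.re - (s : ℝ) / M := by
    rw [e0, sub_re, ofReal_re]
  have e2 : (z - (s : ℂ) / M).im = z.im := by
    rw [e0, sub_im, ofReal_im, sub_zero]
  have hs0 : 0 ≤ (s : ℝ) / M := by positivity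
  refine ⟨?_, ?_, ?_⟩
  · rw [e1]
    unfold al yR at h1 ⊢
    have h4 : (((0 : ℕ) : ℝ) - 1 / 2 + 1) / M + (s : ℝ) / M ≤
        (((n - 2 : ℕ) : ℝ) - 1 / 2 + 1) / M := by
      rw [← add_div]
      refine div_le_div_of_nonneg_right ?_ (Nat.cast_nonneg M)
      have : (s : ℝ) ≤ ((n - 2 : ℕ) : ℝ) := by exact_mod_cast hs
      push_cast
      linarith only [this]
    linarith only [h4, h1]
  · rw [e1]
    linarith only [hs0, h2]
  · rw [e2]
    exact h3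

theorem yM_sub {M κ s : ℕ} (hs : s ≤ κ) : yM M κ - (s : ℂ) / M = yM M (κ - s) := by
  rw [yM, yM, Nat.cast_sub hs]
  ring

private theorem vk_gn {c : ℤ} {ty : Ty} (h : ty = Ty.vn) (fl : Bool) (z a b : ℂ) :
    gN c ty fl z a b = gV ((c : ℝ) / 2) z a b := by
  rw [h]
  rfl

private theorem vk_pn {c : ℤ} {ty : Ty} (h : ty = Ty.vn) (fl : Bool) (z a b : ℂ) :
    pN c ty fl z a b = pV ((c : ℝ) / 2) z a b := by
  rw [h]
  rfl

private theorem vk_kT {C : Ch m} {P : Fin (m + 1) → Bool} {i : Fin (m + 1)} (hi : C.ty i = Ty.vn)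
    (hP : P i = true) (n h M : ℕ) (z a b : ℂ) : kI C P n h i M z a b =
      kV ((C.c i : ℝ) / 2) M z (a - (siL n h i : ℕ) / M) (b - (siR n h i : ℕ) / M) := by
  rw [kI, if_pos hi, if_pos hP]

private theorem vk_kF {C : Ch m} {P : Fin (m + 1) → Bool} {i : Fin (m + 1)} (hi : C.ty i = Ty.vn)
    (hP : P i = false) (n h M : ℕ) (z a b : ℂ) : kI C P n h i M z a b =
      kVA ((C.c i : ℝ) / 2) n h M (sg5 P i) z a b := by
  rw [kI, if_pos hi, if_neg (by rw [hP]; exact Bool.false_ne_true)]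

private theorem vk_gT {C : Ch m} {P : Fin (m + 1) → Bool} {i : Fin (m + 1)} (hi : C.ty i = Ty.vn)
    (hP : P i = true) {n h : ℕ} (hh : 1 ≤ h) (hn : 2 * h ≤ n) {M κ κ' : ℕ} (h0 : n - 2 ≤ κ)
    (h0' : n - 2 ≤ κ') : gI C P n h i M κ κ' =
      D2 ((C.c i : ℝ) / 2) M (κ - siL n h i) (κ' - siR n h i) := by
  rw [gI, hi]
  show N5 ((C.c i : ℝ) / 2) n h M P i (κ - (n - 2)) (κ' - (n - 2)) = _
  rw [N5, if_pos hP]
  unfold siL siR
  congr 1
  · split_ifs <;> omega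
  · split_ifs <;> omega

private theorem vk_gF {C : Ch m} {P : Fin (m + 1) → Bool} {i : Fin (m + 1)} (hi : C.ty i = Ty.vn)
    (hP : P i = false) (n h M κ κ' : ℕ) : gI C P n h i M κ κ' =
      DA ((C.c i : ℝ) / 2) n (n - 2 * h) M (sg5 P i) (κ - (n - 2)) (κ' - (n - 2)) := by
  rw [gI, hi]
  show N5 ((C.c i : ℝ) / 2) n h M P i (κ - (n - 2)) (κ' - (n - 2)) = _
  rw [N5, if_neg (by rw [hP]; exact Bool.false_ne_true)]

private theorem vk_vl (M X : ℕ) : vl 2 M X = (X + 1 / 2) / M - 1 / 2 := by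
  unfold vl Pool.Agent.H63.VC3.bt
  norm_num

private theorem vk_sub {M s : ℕ} (hM : 0 < M) (a : ℂ) :
    (M : ℂ) * (a - (s : ℂ) / M - a) = -(s : ℂ) := by
  have hM' : (M : ℂ) ≠ 0 := by exact_mod_cast hM.ne'
  field_simp
  ring

/-! ### Bounds -/

theorem krN_v_bd (C : Ch m) (P : Fin (m + 1) → Bool) {n h : ℕ} (hh : 1 ≤ h) (hn : 2 * h ≤ n)
    {i : Fin (m + 1)} (hi : C.ty i = Ty.vn) (d κ B : ℝ) (hκ : 0 < κ) : ∃ A : ℝ, 0 < A ∧ ∃ p : ℕ,
    ∀ᶠ M : ℕ in atTop, ∀ v a b : ℂ, 0 < v.im → v.im ≤ B → |v.re| ≤ 1 / 2 →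
    κ * (1 / 2 - |v.re|) ≤ v.im → a ∈ Dm M (krN C P n h).h0 d → b ∈ Dm M (krN C P n h).h0 d →
    ‖(krN C P n h).k i M v a b‖ ≤ A * (M : ℝ) ^ p * Real.exp (M * C.gn i v a b) := by
  show ∃ A : ℝ, 0 < A ∧ ∃ p : ℕ,
    ∀ᶠ M : ℕ in atTop, ∀ v a b : ℂ, 0 < v.im → v.im ≤ B → |v.re| ≤ 1 / 2 →
    κ * (1 / 2 - |v.re|) ≤ v.im → a ∈ Dm M (n - 2) d → b ∈ Dm M (n - 2) d →
    ‖kI C P n h i M v a b‖ ≤ A * (M : ℝ) ^ p *
      Real.exp (M * gN (C.c i) (C.ty i) (C.fl i) v a b)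
  have hn2 : 2 ≤ n := by omega
  cases hP : P i with
  | false =>
    obtain ⟨A, hA, p, hp⟩ := bd_kVA ((C.c i : ℝ) / 2) hh hn (sg5_cases P i) d κ B hκ
    refine ⟨A, hA, p, hp.mono fun M hM v a b h1 h2 h3 h4 h5 h6 => ?_⟩
    rw [vk_kF hi hP, vk_gn hi]
    exact hM v a b h1 h2 h3 h4 h5 h6
  | true =>
    obtain ⟨A, hA, p, hp⟩ := bd_kV ((C.c i : ℝ) / 2) d κ B hκ
    set R : ℝ := 1 + |B| + |d| with hR
    have hB0 := abs_nonneg B
    have hd0 := abs_nonneg d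
    obtain ⟨A0, hA0, p0, hs⟩ := gV_sh ((C.c i : ℝ) / 2) R n
    refine ⟨A * A0, mul_pos hA hA0, p + p0, ?_⟩
    filter_upwards [eventually_ge_atTop 1] with M hM v a b h1 h2 h3 h4 h5 h6
    have hM0 : (0 : ℝ) < M := by exact_mod_cast hM
    have hsn : ∀ s : ℕ, s ≤ n - 2 → ‖-(s : ℂ)‖ ≤ (n : ℝ) := by
      intro s hs
      rw [norm_neg, norm_natCast]
      exact_mod_cast (show s ≤ n by omega)
    rw [vk_kT hi hP, vk_gn hi]
    have g1 := hp M hM v h1.le h2 h3 h4 _ (dm_nat (siL_le hh hn i) h5) _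
      (dm_nat (siR_le hh hn i) h6)
    have g2 := hs M hM v a b v (a - (siL n h i : ℕ) / M) (b - (siR n h i : ℕ) / M) (by
        refine (norm_le_abs_re_add_abs_im v).trans ?_
        have : |v.im| ≤ |B| := by
          rw [abs_of_pos h1]
          exact h2.trans (le_abs_self B)
        linarith only [this, h3, hd0]) ((dm_norm h5).trans (by linarith only [hB0])) ((dm_norm h6).trans (by linarith only [hB0]))
      (by
        rw [sub_self, mul_zero, norm_zero]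
        exact Nat.cast_nonneg n)
      (by
        rw [vk_sub (by omega)]
        exact hsn _ (siL_le hh hn i))
      (by
        rw [vk_sub (by omega)]
        exact hsn _ (siR_le hh hn i))
    refine g1.trans ?_
    calc A * (M : ℝ) ^ p * Real.exp (M * gV ((C.c i : ℝ) / 2) v (a - (siL n h i : ℕ) / M)
          (b - (siR n h i : ℕ) / M))
        ≤ A * (M : ℝ) ^ p * (A0 * (M : ℝ) ^ p0 * Real.exp (M * gV ((C.c i : ℝ) / 2) v a b)) := by
          gcongr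
      _ = _ := by
          rw [pow_add]
          ring

private theorem vk_lat (r d : ℝ) {n s s' : ℕ} (hs : s ≤ n - 2) (hs' : s' ≤ n - 2) :
    ∃ A : ℝ, 0 < A ∧ ∃ p : ℕ, ∀ᶠ M : ℕ in atTop, ∀ κ X : ℕ, n - 2 ≤ κ → κ < kq M →
    ∀ b ∈ Dm M (n - 2) d,
    gl r M X * (ql M (κ - s) X * qS M (b - (s' : ℂ) / M) (vl 2 M X : ℝ)) = 0 ∨
      ∃ v : ℝ, v ≤ 1 / 2 ∧ -(yR M κ) ≤ v ∧
      ‖gl r M X * (ql M (κ - s) X * qS M (b - (s' : ℂ) / M) (vl 2 M X : ℝ))‖ ≤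
        A * (M : ℝ) ^ p * Real.exp (M * gV r v (yM M κ) b) := by
  obtain ⟨A, hA, p, hp⟩ := bd_lat r d
  set R : ℝ := 1 + |d| with hR
  have hd0 := abs_nonneg d
  obtain ⟨A0, hA0, p0, hsh⟩ := gV_sh r R n
  refine ⟨A * A0, mul_pos hA hA0, p + p0, ?_⟩
  filter_upwards [eventually_ge_atTop 4] with M hM κ X h0 hκ b hb
  have hM1 : 1 ≤ M := by omega
  have hM0 : (0 : ℝ) < M := by exact_mod_cast hM1
  have hq : κ < M / 4 + 1 := hκ
  by_cases hX : X ≤ κ - s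
  swap
  · left
    unfold ql
    rw [if_neg hX, zero_mul, mul_zero]
  right
  have hXr : (X : ℝ) ≤ κ := by exact_mod_cast (show X ≤ κ by omega)
  have hX0 : (0 : ℝ) ≤ X := Nat.cast_nonneg X
  have hv0 : -(1 / 2) ≤ vl 2 M X := by
    rw [vk_vl]
    have : (0 : ℝ) ≤ ((X : ℝ) + 1 / 2) / M := by positivity
    linarith only [this]
  have hvy : vl 2 M X ≤ yR M κ := by
    rw [vk_vl, yR]
    have h1 : ((X : ℝ) + 1 / 2) / M ≤ ((κ : ℝ) + 1) / M :=
      div_le_div_of_nonneg_right (by linarith only [hXr]) hM0.le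
    linarith only [h1]
  have hy1 : yR M κ ≤ 1 / 2 := by
    rw [yR]
    have : ((κ : ℝ) + 1) / M ≤ 1 := by
      rw [div_le_one hM0]
      exact_mod_cast (show κ + 1 ≤ M by omega)
    linarith only [this]
  have hy0 : -(1 / 2) ≤ yR M κ := hv0.trans hvy
  have hyn : ‖yM M κ‖ ≤ R := by
    have e : yM M κ = ((yR M κ : ℝ) : ℂ) := by
      rw [yM, yR]
      push_cast
      ring
    rw [e, norm_real, Real.norm_eq_abs, abs_le]
    constructor <;> linarith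
  have hsn : ∀ s : ℕ, s ≤ n - 2 → ‖-(s : ℂ)‖ ≤ (n : ℝ) := by
    intro s hs
    rw [norm_neg, norm_natCast]
    exact_mod_cast (show s ≤ n by omega)
  refine ⟨-vl 2 M X, by linarith only [hv0], by linarith only [hvy], ?_⟩
  have g1 := hp M hM1 (κ - s) X (by omega) hX _ (dm_nat hs' hb)
  have g2 := hsh M hM1 ((-vl 2 M X : ℝ) : ℂ) (yM M κ) b ((-vl 2 M X : ℝ) : ℂ)
    (yM M κ - (s : ℂ) / M) (b - (s' : ℂ) / M) (by
      rw [norm_real, Real.norm_eq_abs, abs_neg, abs_le]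
      constructor <;> linarith) hyn ((dm_norm hb).trans (by linarith only [])) (by
      rw [sub_self, mul_zero, norm_zero]
      exact Nat.cast_nonneg n) (by
      rw [vk_sub (by omega)]
      exact hsn _ hs) (by
      rw [vk_sub (by omega)]
      exact hsn _ hs')
  rw [yM_sub (by omega)] at g2
  refine g1.trans ?_
  calc A * (M : ℝ) ^ p * Real.exp (M * gV r ((-vl 2 M X : ℝ) : ℂ) (yM M (κ - s))
        (b - (s' : ℂ) / M))
      ≤ A * (M : ℝ) ^ p * (A0 * (M : ℝ) ^ p0 *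
        Real.exp (M * gV r ((-vl 2 M X : ℝ) : ℂ) (yM M κ) b)) := by
        gcongr
    _ = _ := by
        rw [pow_add]
        ring

theorem krN_lat_bd (C : Ch m) (P : Fin (m + 1) → Bool) {n h : ℕ} (hh : 1 ≤ h) (hn : 2 * h ≤ n)
    {i : Fin (m + 1)} (hi : C.ty i = Ty.vn) (d : ℝ) : ∃ A : ℝ, 0 < A ∧ ∃ p : ℕ,
    ∀ᶠ M : ℕ in atTop, ∀ (sd : Bool) (κ X : ℕ), (krN C P n h).h0 ≤ κ → κ < kq M →
    ∀ b ∈ Dm M (krN C P n h).h0 d, (krN C P n h).lat i sd M κ X b = 0 ∨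
      ∃ v : ℝ, v ≤ 1 / 2 ∧ -(yR M κ) - (krN C P n h).sh / M ≤ v ∧
        ‖(krN C P n h).lat i sd M κ X b‖ ≤ A * (M : ℝ) ^ p *
          Real.exp (M * C.gn i v (if sd then b else yM M κ) (if sd then yM M κ else b)) := by
  show ∃ A : ℝ, 0 < A ∧ ∃ p : ℕ,
    ∀ᶠ M : ℕ in atTop, ∀ (sd : Bool) (κ X : ℕ), n - 2 ≤ κ → κ < kq M →
    ∀ b ∈ Dm M (n - 2) d, latI C P n h i sd M κ X b = 0 ∨
      ∃ v : ℝ, v ≤ 1 / 2 ∧ -(yR M κ) - ((0 : ℕ) : ℝ) / M ≤ v ∧
        ‖latI C P n h i sd M κ X b‖ ≤ A * (M : ℝ) ^ p *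
          Real.exp (M * gN (C.c i) (C.ty i) (C.fl i) v (if sd then b else yM M κ)
            (if sd then yM M κ else b))
  have hn2 : 2 ≤ n := by omega
  have hsw : ∀ (sd : Bool) (v : ℂ) (M κ : ℕ) (b : ℂ), gN (C.c i) (C.ty i) (C.fl i) v
      (if sd then b else yM M κ) (if sd then yM M κ else b) =
      gV ((C.c i : ℝ) / 2) v (yM M κ) b := by
    intro sd v M κ b
    rw [vk_gn hi]
    cases sd
    · rfl
    · exact gV_swap _ _ _ _
  cases hP : P i with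
  | false =>
    obtain ⟨A, hA, p, hp⟩ := bd_latA ((C.c i : ℝ) / 2) hh hn (sg5_cases P i) d
    refine ⟨A, hA, p, hp.mono fun M hM sd κ X h1 h2 b hb => ?_⟩
    have e : latI C P n h i sd M κ X b = latA ((C.c i : ℝ) / 2) n h M (sg5 P i) κ X b := by
      rw [latI, if_neg (by rw [hP]; exact Bool.false_ne_true)]
    rw [e, Nat.cast_zero, zero_div, sub_zero]
    simp only [hsw]
    exact hM κ X h1 h2 b hb
  | true =>
    obtain ⟨A1, hA1, p1, hp1⟩ := vk_lat ((C.c i : ℝ) / 2) d (siL_le hh hn i) (siR_le hh hn i)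
    obtain ⟨A2, hA2, p2, hp2⟩ := vk_lat ((C.c i : ℝ) / 2) d (siR_le hh hn i) (siL_le hh hn i)
    refine ⟨A1 + A2, by positivity, p1 + p2, ?_⟩
    filter_upwards [hp1, hp2, eventually_ge_atTop 1] with M hM1 hM2 hM sd κ X h1 h2 b hb
    have hMr : (1 : ℝ) ≤ M := by exact_mod_cast hM
    have hb1 : A1 * (M : ℝ) ^ p1 ≤ (A1 + A2) * (M : ℝ) ^ (p1 + p2) := by
      have : (M : ℝ) ^ p1 ≤ (M : ℝ) ^ (p1 + p2) := pow_le_pow_right₀ hMr (by omega)
      gcongr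
      linarith only [hA2]
    have hb2 : A2 * (M : ℝ) ^ p2 ≤ (A1 + A2) * (M : ℝ) ^ (p1 + p2) := by
      have : (M : ℝ) ^ p2 ≤ (M : ℝ) ^ (p1 + p2) := pow_le_pow_right₀ hMr (by omega)
      gcongr
      linarith only [hA1]
    rw [Nat.cast_zero, zero_div, sub_zero]
    simp only [hsw]
    cases sd with
    | false =>
      have e : latI C P n h i false M κ X b = gl ((C.c i : ℝ) / 2) M X * (ql M (κ - siL n h i) X *
          qS M (b - ((siR n h i : ℕ) : ℂ) / M) (vl 2 M X : ℝ)) := by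
        rw [latI, if_pos hP]
        rfl
      rw [e]
      rcases hM1 κ X h1 h2 b hb with h3 | ⟨v, h3, h4, h5⟩
      · exact Or.inl h3
      · exact Or.inr ⟨v, h3, h4, h5.trans (mul_le_mul_of_nonneg_right hb1 (Real.exp_pos _).le)⟩
    | true =>
      have e : latI C P n h i true M κ X b = gl ((C.c i : ℝ) / 2) M X * (ql M (κ - siR n h i) X *
          qS M (b - ((siL n h i : ℕ) : ℂ) / M) (vl 2 M X : ℝ)) := by
        rw [latI, if_pos hP]
        rfl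
      rw [e]
      rcases hM2 κ X h1 h2 b hb with h3 | ⟨v, h3, h4, h5⟩
      · exact Or.inl h3
      · exact Or.inr ⟨v, h3, h4, h5.trans (mul_le_mul_of_nonneg_right hb2 (Real.exp_pos _).le)⟩

/-! ### Differentiability -/

theorem krN_df_v (C : Ch m) (P : Fin (m + 1) → Bool) {n h : ℕ} (hh : 1 ≤ h) (hn : 2 * h ≤ n)
    {i : Fin (m + 1)} (hi : C.ty i = Ty.vn) (d : ℝ) : ∀ᶠ M : ℕ in atTop, ∀ z a b : ℂ,
    (C.ty i = Ty.zn → z ∈ Dm M (krN C P n h).h0 d) →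
    (C.ty i = Ty.vn → 0 < z.im ∧ |z.re| ≤ 1 / 2) → a ∈ Dm M (krN C P n h).h0 d →
    b ∈ Dm M (krN C P n h).h0 d →
    DifferentiableAt ℂ (fun p : ℂ × ℂ × ℂ => (krN C P n h).k i M p.1 p.2.1 p.2.2) (z, a, b) := by
  filter_upwards [eventually_ge_atTop (n + 2)] with M hM z a b _ hv ha hb
  have hv' := hv hi
  have hn2 : 2 ≤ n := by omega
  show DifferentiableAt ℂ (fun p : ℂ × ℂ × ℂ => kI C P n h i M p.1 p.2.1 p.2.2) (z, a, b)
  have d1 : DifferentiableAt ℂ (fun p : ℂ × ℂ × ℂ => p.1) (z, a, b) := differentiableAt_fst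
  have d2 : DifferentiableAt ℂ (fun p : ℂ × ℂ × ℂ => p.2.1) (z, a, b) :=
    differentiableAt_fst.comp _ differentiableAt_snd
  have d3 : DifferentiableAt ℂ (fun p : ℂ × ℂ × ℂ => p.2.2) (z, a, b) :=
    differentiableAt_snd.comp _ differentiableAt_snd
  cases hP : P i with
  | false =>
    simp only [vk_kF hi hP]
    exact kVA_df ((C.c i : ℝ) / 2) (h := h) hn2 (by omega) (by omega) (sg5 P i) (d := d)
      (f := fun p : ℂ × ℂ × ℂ => p.1) (g := fun p : ℂ × ℂ × ℂ => p.2.1)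
      (g' := fun p : ℂ × ℂ × ℂ => p.2.2) d1 d2 d3 ha hb hv'
  | true =>
    simp only [vk_kT hi hP]
    exact kN_df (M := M) (by omega) (C.c i) Ty.vn (C.fl i) (d := d)
      (f := fun p : ℂ × ℂ × ℂ => p.1) (g := fun p : ℂ × ℂ × ℂ => p.2.1 - (siL n h i : ℕ) / M)
      (h := fun p : ℂ × ℂ × ℂ => p.2.2 - (siR n h i : ℕ) / M) (p := (z, a, b)) d1
      (d2.sub_const _) (d3.sub_const _) (dm_nat (siL_le hh hn i) ha) (dm_nat (siR_le hh hn i) hb)
      (fun h => Ty.noConfusion h) (fun _ => hv')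

theorem krN_lat_df (C : Ch m) (P : Fin (m + 1) → Bool) {n h : ℕ} (hh : 1 ≤ h) (hn : 2 * h ≤ n)
    (i : Fin (m + 1)) (d : ℝ) : ∀ᶠ M : ℕ in atTop, ∀ (sd : Bool) (κ X : ℕ), X < M →
    ∀ b ∈ Dm M (krN C P n h).h0 d, DifferentiableAt ℂ ((krN C P n h).lat i sd M κ X) b := by
  filter_upwards [eventually_ge_atTop 2] with M hM sd κ X hX b hb
  have hn2 : 2 ≤ n := by omega
  show DifferentiableAt ℂ (fun b => latI C P n h i sd M κ X b) b
  cases hP : P i with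
  | false =>
    have e : (fun b => latI C P n h i sd M κ X b) =
        latA ((C.c i : ℝ) / 2) n h M (sg5 P i) κ X := by
      funext b
      rw [latI, if_neg (by rw [hP]; exact Bool.false_ne_true)]
    rw [e]
    exact latA_df _ hn2 hM _ κ X hb
  | true =>
    have h1 : |(((vl 2 M X : ℝ) : ℂ)).re| ≤ 1 / 2 := vl_abs_le (by omega) le_rfl (by omega)
    have hs : (if sd then siL n h i else siR n h i : ℕ) ≤ n - 2 := by
      split_ifs
      · exact siL_le hh hn i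
      · exact siR_le hh hn i
    have e : (fun b => latI C P n h i sd M κ X b) = fun b => gl ((C.c i : ℝ) / 2) M X *
        (ql M (κ - (if sd then siR n h i else siL n h i)) X *
        qS M (b - ((if sd then siL n h i else siR n h i : ℕ) : ℂ) / M) (vl 2 M X : ℝ)) := by
      funext b
      rw [latI, if_pos hP]
    rw [e]
    exact (((qS_df hM (f := fun _ : ℂ => ((vl 2 M X : ℝ) : ℂ))
      (g := fun x : ℂ => x - ((if sd then siL n h i else siR n h i : ℕ) : ℂ) / M) (p := b)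
      (differentiableAt_const _) (differentiableAt_id.sub_const _) (dm_nat hs hb) h1).const_mul
        _).const_mul _)

/-! ### Exact values -/

theorem krN_g_vn (C : Ch m) (P : Fin (m + 1) → Bool) {n h : ℕ} (hh : 1 ≤ h) (hn : 2 * h ≤ n)
    {i : Fin (m + 1)} (hi : C.ty i = Ty.vn) : ∀ᶠ M : ℕ in atTop, ∀ k k' : ℕ,
    (krN C P n h).h0 ≤ k → (krN C P n h).h0 ≤ k' → k < M → k' < M →
    ∀ γ γ' : ℝ → ℂ, Ctr γ γ' → (∀ x, |(γ x).re| ≤ 1 / 2) →
    Integrable (fun x => (krN C P n h).k i M (γ x) (yM M k) (yM M k') * γ' x) ∧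
    (krN C P n h).g i M k k' = (krN C P n h).cv * M ^ 2 *
      ∫ x, (krN C P n h).k i M (γ x) (yM M k) (yM M k') * γ' x := by
  filter_upwards [eventually_ge_atTop n] with M hM k k' h0 h0' hk hk' γ γ' hγ hre
  have h1 : n - 2 ≤ k := h0
  have h1' : n - 2 ≤ k' := h0'
  show Integrable (fun x => kI C P n h i M (γ x) (yM M k) (yM M k') * γ' x) ∧
    gI C P n h i M k k' = -(4 * Real.pi * I) * M ^ 2 *
      ∫ x, kI C P n h i M (γ x) (yM M k) (yM M k') * γ' x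
  cases hP : P i with
  | false =>
    simp only [vk_kF hi hP]
    rw [vk_gF hi hP]
    exact DA_ctr _ hh hn (by omega) (sg5_cases P i) h1 h1' hk hk' hγ hre
  | true =>
    have hsL := siL_le hh hn i
    have hsR := siR_le hh hn i
    simp only [vk_kT hi hP]
    rw [vk_gT hi hP hh hn h1 h1', yM_sub (by omega), yM_sub (by omega)]
    exact nG_ctr _ (by omega) (by omega) hγ hre

theorem krN_g_lat (C : Ch m) (P : Fin (m + 1) → Bool) {n h : ℕ} (hh : 1 ≤ h) (hn : 2 * h ≤ n)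
    {i : Fin (m + 1)} (hi : C.ty i = Ty.vn) : ∀ᶠ M : ℕ in atTop, ∀ k k' : ℕ,
    (krN C P n h).h0 ≤ k → (krN C P n h).h0 ≤ k' → k < kq M → k' < M →
    (krN C P n h).g i M k k' = ∑ X ∈ Finset.range M, (krN C P n h).lat i false M k X (yM M k') ∧
    (krN C P n h).g i M k' k = ∑ X ∈ Finset.range M, (krN C P n h).lat i true M k X (yM M k') := by
  filter_upwards [eventually_ge_atTop (2 * n + 8)] with M hM k k' h0 h0' hk hk'
  have h1 : n - 2 ≤ k := h0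
  have h1' : n - 2 ≤ k' := h0'
  have hq : k < M / 4 + 1 := hk
  show gI C P n h i M k k' = ∑ X ∈ Finset.range M, latI C P n h i false M k X (yM M k') ∧
    gI C P n h i M k' k = ∑ X ∈ Finset.range M, latI C P n h i true M k X (yM M k')
  cases hP : P i with
  | false =>
    have e : ∀ (sd : Bool) (X : ℕ) (b : ℂ), latI C P n h i sd M k X b =
        latA ((C.c i : ℝ) / 2) n h M (sg5 P i) k X b := by
      intro sd X b
      rw [latI, if_neg (by rw [hP]; exact Bool.false_ne_true)]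
    simp only [e]
    rw [vk_gF hi hP, vk_gF hi hP, DA_comm _ _ _ _ _ (k' - (n - 2))]
    exact ⟨DA_lat _ hh hn _ hM h1 h1' hk hk', DA_lat _ hh hn _ hM h1 h1' hk hk'⟩
  | true =>
    have hsL := siL_le hh hn i
    have hsR := siR_le hh hn i
    have e1 : ∀ X : ℕ, latI C P n h i false M k X (yM M k') = gl ((C.c i : ℝ) / 2) M X *
        (ql M (k - siL n h i) X * qS M (yM M (k' - siR n h i)) (vl 2 M X : ℝ)) := by
      intro X
      rw [latI, if_pos hP, ← yM_sub (by omega)]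
      rfl
    have e2 : ∀ X : ℕ, latI C P n h i true M k X (yM M k') = gl ((C.c i : ℝ) / 2) M X *
        (ql M (k - siR n h i) X * qS M (yM M (k' - siL n h i)) (vl 2 M X : ℝ)) := by
      intro X
      rw [latI, if_pos hP, ← yM_sub (by omega)]
      rfl
    simp only [e1, e2]
    rw [vk_gT hi hP hh hn h1 h1', vk_gT hi hP hh hn h1' h1]
    exact ⟨nG_lat _ (by omega) (by omega), nG_lat' _ (by omega) (by omega)⟩

theorem krN_g_two (C : Ch m) (P : Fin (m + 1) → Bool) {n h : ℕ} (hh : 1 ≤ h) (hn : 2 * h ≤ n)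
    {i : Fin (m + 1)} (hi : C.ty i = Ty.vn) : ∀ᶠ M : ℕ in atTop, ∀ k k' : ℕ,
    (krN C P n h).h0 ≤ k → (krN C P n h).h0 ≤ k' → k < kq M → k' < kq M →
    (krN C P n h).g i M k k' = 0 := by
  filter_upwards [eventually_ge_atTop (2 * n + 8)] with M hM k k' h0 h0' hk hk'
  have h1 : n - 2 ≤ k := h0
  have h1' : n - 2 ≤ k' := h0'
  have hq : k < M / 4 + 1 := hk
  have hq' : k' < M / 4 + 1 := hk'
  show gI C P n h i M k k' = 0
  cases hP : P i with
  | false =>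
    rw [vk_gF hi hP]
    exact DA_two_small _ hh hn _ hM h1 h1' hk hk'
  | true =>
    rw [vk_gT hi hP hh hn h1 h1']
    exact nG_two _ (by omega) (by omega)

/-! ### The limits -/

theorem krN_lm_v (C : Ch m) (P : Fin (m + 1) → Bool) (K : Cn m) {n h : ℕ} (hh : 1 ≤ h)
    (hn : 2 * h ≤ n) (hK : Cn.OK C K) (hR : Rg C K) {i : Fin (m + 1)} (hi : C.ty i = Ty.vn) :
    ∃ A : ℂ, A ≠ 0 ∧ Tendsto (fun p : ℕ × (ℂ × ℂ × ℂ) => (krN C P n h).sg i p.1 *
    (krN C P n h).k i p.1 p.2.1 p.2.2.1 p.2.2.2 *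
      exp (-(p.1 * C.pn i p.2.1 p.2.2.1 p.2.2.2)) /
      (((p.1 : ℝ) ^ (krN C P n h).ek i : ℝ) : ℂ))
    (atTop ×ˢ 𝓝 (if C.ty i = Ty.cl then 0 else K.oc i, ye K.yc i, ye K.yc (i + 1))) (𝓝 A) := by
  show ∃ A : ℂ, A ≠ 0 ∧ Tendsto (fun p : ℕ × (ℂ × ℂ × ℂ) =>
    (if C.ty i = Ty.vn then (-1) ^ (p.1 + nn n (P i) + 1) else 1 : ℂ) *
    kI C P n h i p.1 p.2.1 p.2.2.1 p.2.2.2 *
      exp (-(p.1 * pN (C.c i) (C.ty i) (C.fl i) p.2.1 p.2.2.1 p.2.2.2)) /
      (((p.1 : ℝ) ^ eN (C.c i) (C.ty i) : ℝ) : ℂ))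
    (atTop ×ˢ 𝓝 (if C.ty i = Ty.cl then 0 else K.oc i, ye K.yc i, ye K.yc (i + 1))) (𝓝 A)
  obtain ⟨l, hl⟩ : ∃ l : Filter (ℕ × (ℂ × ℂ × ℂ)), l =
    atTop ×ˢ 𝓝 (if C.ty i = Ty.cl then 0 else K.oc i, ye K.yc i, ye K.yc (i + 1)) := ⟨_, rfl⟩
  rw [← hl]
  have tM : Tendsto (fun p : ℕ × (ℂ × ℂ × ℂ) => p.1) l atTop := by
    rw [hl]
    exact tendsto_fst
  have t2 : Tendsto (fun p : ℕ × (ℂ × ℂ × ℂ) => p.2) l
      (𝓝 (if C.ty i = Ty.cl then 0 else K.oc i, ye K.yc i, ye K.yc (i + 1))) := by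
    rw [hl]
    exact tendsto_snd
  have tz : Tendsto (fun p : ℕ × (ℂ × ℂ × ℂ) => p.2.1) l
      (𝓝 (if C.ty i = Ty.cl then 0 else K.oc i)) :=
    (continuous_fst.tendsto _).comp t2
  have ta : Tendsto (fun p : ℕ × (ℂ × ℂ × ℂ) => p.2.2.1) l (𝓝 (ye K.yc i)) :=
    ((continuous_fst.comp continuous_snd).tendsto _).comp t2
  have tb : Tendsto (fun p : ℕ × (ℂ × ℂ × ℂ) => p.2.2.2) l (𝓝 (ye K.yc (i + 1))) :=
    ((continuous_snd.comp continuous_snd).tendsto _).comp t2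
  have hz1 : ¬ C.ty i = Ty.cl := by rw [hi]; exact fun h => Ty.noConfusion h
  rw [if_neg hz1] at tz
  have hx := hK.x1 i hi
  have hv := hK.v1 i hi
  have he : eN (C.c i) (C.ty i) = -2 := by
    rw [hi]
    rfl
  cases hP : P i with
  | false =>
    obtain ⟨A, hA, h1⟩ := lm_kVA ((C.c i : ℝ) / 2) (h := h) (show 2 ≤ n by omega) (sg5 P i) tM tz
      ta tb (hK.v0 i hi) (hR.vn i hi)
    refine ⟨A, hA, h1.congr fun p => ?_⟩
    rw [if_pos hi, vk_kF hi hP, vk_pn hi, he]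
    rfl
  | true =>
    obtain ⟨A, hA, h1⟩ := lm_kVP ((C.c i : ℝ) / 2) (siL n h i : ℕ) (siR n h i : ℕ) tM tz ta tb
      (hK.v0 i hi) (hv.trans hx) (hR.vn i hi)
    refine ⟨A, hA, h1.congr fun p => ?_⟩
    have e2 : (-1 : ℂ) ^ (p.1 + nn n true + 1) = (-1) ^ (p.1 + 1) := by
      have : nn n true = 2 := rfl
      rw [this, show p.1 + 2 + 1 = (p.1 + 1) + 2 by ring, pow_add, neg_one_sq, mul_one]
    rw [if_pos hi, vk_kT hi hP, vk_pn hi, he, e2]

end Pool.Agent.S5
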