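import Pool.Agent.S5.N.OkN
import Pool.Agent.S5.N.VK

/-!
# `SU(n)`: the properties of the kernels
-/

set_option autoImplicit false

namespace Pool.Agent.S5

variable {m : ℕ}

/-- The properties of the nodes with integration variables. -/
theorem krN_vnOK (C : Ch m) (P : Fin (m + 1) → Bool) {n h : ℕ} (hh : 1 ≤ h) (hn : 2 * h ≤ n)
    {i : Fin (m + 1)} (hi : C.ty i = Ty.vn) : VnOK C P n h i where
  v_bd := fun d κ B hκ => krN_v_bd C P hh hn hi d κ B hκ
  lat_bd := fun d => krN_lat_bd C P hh hn hi d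
  k_df := fun d => (krN_df_v C P hh hn hi d).mono fun M hM z a b hz hz' ha hb =>
    hM z a b (fun h => by
      rw [hi] at h
      exact Ty.noConfusion h) (fun _ => ⟨hz, hz'⟩) ha hb
  lat_df := fun d => krN_lat_df C P hh hn i d
  g_vn := krN_g_vn C P hh hn hi
  g_lat := krN_g_lat C P hh hn hi
  g_two := krN_g_two C P hh hn hi

/-- **The properties of the kernels.** -/
theorem krN_ok (C : Ch m) (P : Fin (m + 1) → Bool) {n h : ℕ} (hh : 1 ≤ h) (hn : 2 * h ≤ n) :
    (krN C P n h).OK :=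
  krN_ok_of C P hh hn fun _ hi => krN_vnOK C P hh hn hi

/-- **The limits of the kernels.** -/
theorem krN_lm (C : Ch m) (P : Fin (m + 1) → Bool) {n h : ℕ} (hh : 1 ≤ h) (hn : 2 * h ≤ n)
    {K : Cn m} (hC : C.OK) (hK : Cn.OK C K) (hR : Rg C K) : (krN C P n h).Lm K :=
  krN_lm_of C P n h hC hK hR fun _ hi => krN_lm_v C P K hh hn hK hR hi

end Pool.Agent.S5
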