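import Pool.Agent.S5.N.FB

/-!
# Nodes of antiparallel strands: the Bailey step
-/

namespace Pool.Agent.S5

open Pool.Agent.H63.VC hiding ext
open Pool.Agent.H63.VC3 Pool.Agent.H63.VC7 Pool.Agent.S3 Pool.Agent.S4 Complex Filter Topology

/-! ### Generic `q` -/

theorem pa_add' (q : ℂ) (n t u l : ℕ) : pa q n (t + u) l = pa q n t l *
    ∏ i ∈ Finset.range u, (br q ((n : ℤ) + l + (t + i) - 1) * br q ((l : ℤ) - (t + i))) := by
  rw [pa, Finset.prod_range_add, ← pa]
  push_cast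
  rfl

theorem pa_zero' (q : ℂ) (n : ℕ) {t l : ℕ} (h : l < t) : pa q n t l = 0 := by
  refine Finset.prod_eq_zero (Finset.mem_range.2 h) ?_
  simp [br]

/-- The coefficients of the Bailey step. -/
noncomputable def cN (q : ℂ) (n t u : ℕ) : ℂ :=
  q ^ (2 * t * (t + n - 1) + u * (2 * t + n) + u * (u - 1) / 2) / bf q u

theorem twA_sq_pa {n : ℕ} (hn : 1 ≤ n) (L : ℕ) (q : ℂ) (hq : q ≠ 0) (hb : ∀ u ≤ L, bf q u ≠ 0)
    (t l : ℕ) (hl : l ≤ L) :
    twA q n l ^ 2 * pa q n t l =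
      ∑ u ∈ Finset.range (L + 1 - t), cN q n t u * pa q n (t + u) l := by
  by_cases hlt : l < t
  · rw [pa_zero' q n hlt, mul_zero]
    symm
    refine Finset.sum_eq_zero fun u _ => ?_
    rw [pa_zero' q n (by omega), mul_zero]
  · obtain ⟨k, rfl⟩ := Nat.exists_eq_add_of_le (not_lt.1 hlt)
    have h1 : ∑ u ∈ Finset.range (L + 1 - t), cN q n t u * pa q n (t + u) (t + k) =
        ∑ u ∈ Finset.range (k + 1), cN q n t u * pa q n (t + u) (t + k) := by
      symm
      refine Finset.sum_subset (Finset.range_mono (by omega)) fun u _ hu => ?_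
      rw [Finset.mem_range, not_lt] at hu
      rw [pa_zero' q n (by omega), mul_zero]
    rw [h1]
    have h2 := gb_pow ((q ^ 2)⁻¹) ((q ^ 2) ^ (k + (2 * t + n - 1))) k
    have h3 : twA q n (t + k) ^ 2 = q ^ (2 * t * (t + n - 1)) *
        ((q ^ 2) ^ (k + (2 * t + n - 1))) ^ k := by
      obtain ⟨m, rfl⟩ := Nat.exists_eq_add_of_le' hn
      have e : (((t + k : ℕ) : ℤ)) * (((t + k : ℕ) : ℤ) + ((m + 1 : ℕ) : ℤ) - 1) =
          (((t + k) * (t + k + m) : ℕ) : ℤ) := by
        push_cast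
        ring
      rw [twA, e, zpow_natCast, mul_pow, ← pow_mul, mul_comm (t + k) 2, pow_mul (-1 : ℂ) 2,
        neg_one_sq, one_pow, one_mul, ← pow_mul, ← pow_mul, ← pow_mul, ← pow_add]
      congr 1
      have e1 : t + (m + 1) - 1 = t + m := by omega
      have e2 : 2 * t + (m + 1) - 1 = 2 * t + m := by omega
      rw [e1, e2]
      ring
    rw [h3, h2, Finset.mul_sum, Finset.sum_mul]
    refine Finset.sum_congr rfl fun u hu => ?_
    have hu' : u < k + 1 := Finset.mem_range.1 hu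
    rw [gb_br q hq (2 * t + n - 1) k u (by omega) (hb u (by omega)), cN, pa_add']
    have h4 : ∏ i ∈ Finset.range u, (br q ((n : ℤ) + ((t + k : ℕ) : ℤ) + (t + i) - 1) *
        br q (((t + k : ℕ) : ℤ) - (t + i))) = ∏ i ∈ Finset.range u,
        (br q ((k : ℤ) + ((2 * t + n - 1 : ℕ) : ℤ) + i) * br q ((k : ℤ) - i)) := by
      refine Finset.prod_congr rfl fun i _ => ?_
      rw [Nat.cast_sub (by omega : 1 ≤ 2 * t + n)]
      push_cast
      congr 2 <;> ring
    rw [h4, pow_add, pow_add, pow_add]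
    have h5 : u * (2 * t + n - 1 + 1) = u * (2 * t + n) := by
      congr 1
      omega
    rw [h5]
    ring

/-! ### The derivative at the lattice points -/

theorem first_order {f : ℂ × ℂ → ℂ} {M : ℕ} (hM : 0 < M) {x y : ℂ} (hxy : y = M - x)
    (hf : DifferentiableAt ℂ f (0, x)) (h1 : ∀ᶠ e in 𝓝 (0 : ℂ), f (e, x) = 0)
    (h2 : ∀ᶠ e in 𝓝 (0 : ℂ), f (e, M / (1 + e) - y) = 0) :
    deriv (fun z => f (0, z)) x = 0 := by
  have hM' : (M : ℂ) ≠ 0 := by exact_mod_cast hM.ne'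
  have hc1 : HasDerivAt (fun e : ℂ => (e, x)) ((1 : ℂ), (0 : ℂ)) 0 :=
    (hasDerivAt_id (0 : ℂ)).prodMk (hasDerivAt_const (0 : ℂ) x)
  have hd1 : HasDerivAt (fun e => f (e, x)) (fderiv ℂ f (0, x) (1, 0)) 0 :=
    hf.hasFDerivAt.comp_hasDerivAt (0 : ℂ) hc1
  have hz1 : fderiv ℂ f (0, x) (1, 0) = 0 := by
    have h3 : HasDerivAt (fun e => f (e, x)) 0 0 :=
      (hasDerivAt_const (0 : ℂ) (0 : ℂ)).congr_of_eventuallyEq h1
    exact hd1.unique h3
  have hg : HasDerivAt (fun e : ℂ => (M : ℂ) / (1 + e) - y) (-(M : ℂ)) 0 := by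
    have h3 : HasDerivAt (fun e : ℂ => 1 + e) 1 0 := (hasDerivAt_id (0 : ℂ)).const_add 1
    have h4 := ((hasDerivAt_const (0 : ℂ) (M : ℂ)).div h3 (by simp)).sub_const y
    simpa using h4
  have hc2 : HasDerivAt (fun e : ℂ => (e, (M : ℂ) / (1 + e) - y)) ((1 : ℂ), -(M : ℂ)) 0 :=
    (hasDerivAt_id (0 : ℂ)).prodMk hg
  have hpt : ((0 : ℂ), (M : ℂ) / (1 + 0) - y) = (0, x) := by
    rw [hxy]
    simp
  have hfd : HasFDerivAt f (fderiv ℂ f (0, x)) ((0 : ℂ), (M : ℂ) / (1 + 0) - y) := by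
    rw [hpt]
    exact hf.hasFDerivAt
  have hd2 : HasDerivAt (fun e : ℂ => f (e, (M : ℂ) / (1 + e) - y))
      (fderiv ℂ f (0, x) (1, -(M : ℂ))) 0 :=
    HasFDerivAt.comp_hasDerivAt (0 : ℂ) hfd hc2
  have hz2 : fderiv ℂ f (0, x) (1, -(M : ℂ)) = 0 := by
    have h3 : HasDerivAt (fun e => f (e, (M : ℂ) / (1 + e) - y)) 0 0 :=
      (hasDerivAt_const (0 : ℂ) (0 : ℂ)).congr_of_eventuallyEq h2
    exact hd2.unique h3
  have h4 : ((1 : ℂ), -(M : ℂ)) = (1, 0) + (-(M : ℂ)) • ((0 : ℂ), (1 : ℂ)) := by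
    ext <;> simp
  rw [h4, map_add, map_smul, hz1, zero_add, smul_eq_mul] at hz2
  have h5 : fderiv ℂ f (0, x) (0, 1) = 0 := (mul_eq_zero.1 hz2).resolve_left (neg_ne_zero.2 hM')
  have hc : HasDerivAt (fun z : ℂ => ((0 : ℂ), z)) ((0 : ℂ), (1 : ℂ)) x :=
    (hasDerivAt_const x (0 : ℂ)).prodMk (hasDerivAt_id x)
  have h6 : HasDerivAt (fun z => f (0, z)) (fderiv ℂ f (0, x) (0, 1)) x :=
    hf.hasFDerivAt.comp_hasDerivAt x hc
  rw [h6.deriv, h5]

/-- `2 sin (π (1 + e) z / M)`. -/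
noncomputable def se (M : ℕ) (e z : ℂ) : ℂ := 2 * sin (Real.pi * (1 + e) * z / M)

/-- The product of the factors of a slot. -/
noncomputable def ptE (M n t : ℕ) (e u : ℂ) : ℂ :=
  ∏ i ∈ Finset.range t, (se M e (u + be n + i) * se M e (u - be n - i))

/-- `q = exp (π i (1 + e) / M)`. -/
noncomputable def qE (M : ℕ) (e : ℂ) : ℂ := exp (Real.pi * I * (1 + e) / M)

/-- The Gaussian factor. -/
noncomputable def TE (M : ℕ) (e u : ℂ) : ℂ :=
  exp (2 * Real.pi * I * (M / (1 + e)) * (u * (1 + e) / M - 1 / 2) ^ 2)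

/-- The constant between the Gaussian factor and the half twists. -/
noncomputable def KE (M n : ℕ) (e : ℂ) : ℂ :=
  exp (2 * Real.pi * I * (be n ^ 2 * (1 + e) / M - be n + M / (4 * (1 + e))))

/-- The difference of the two sides. -/
noncomputable def RE (M n L t : ℕ) (p : ℂ × ℂ) : ℂ :=
  TE M p.1 p.2 * ptE M n t p.1 p.2 - ∑ u ∈ Finset.range (L + 1 - t),
    KE M n p.1 * ((-1) ^ u * cN (qE M p.1) n t u) * ptE M n (t + u) p.1 p.2

theorem qE_ne (M : ℕ) (e : ℂ) : qE M e ≠ 0 := exp_ne_zero _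

theorem qE_zpow (M : ℕ) (e : ℂ) (k : ℤ) : qE M e ^ k = exp (Real.pi * I * (1 + e) * k / M) := by
  rw [qE, ← exp_int_mul]
  refine congrArg exp ?_
  ring

theorem br_qE (M : ℕ) (e : ℂ) (k : ℤ) : br (qE M e) k = I * se M e k := by
  rw [br, qE_zpow, qE_zpow, se, sin]
  push_cast
  have e1 : (Real.pi : ℂ) * (1 + e) * k / M * I = Real.pi * I * (1 + e) * k / M := by ring
  have e2 : -((Real.pi : ℂ) * (1 + e) * k / M) * I = Real.pi * I * (1 + e) * -(k : ℂ) / M := by ring
  rw [e1, e2]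
  linear_combination (-(exp (Real.pi * I * (1 + e) * -(k : ℂ) / M)) +
    exp (Real.pi * I * (1 + e) * k / M)) * I_mul_I

theorem pa_ptE (M n t l : ℕ) (e : ℂ) :
    pa (qE M e) n t l = (-1) ^ t * ptE M n t e ((l : ℂ) + be n) := by
  rw [pa, ptE]
  have : ∀ t : ℕ, ∏ i ∈ Finset.range t, (br (qE M e) ((n : ℤ) + l + i - 1) *
      br (qE M e) ((l : ℤ) - i)) = (-1) ^ t * ∏ i ∈ Finset.range t,
        (se M e ((l : ℂ) + be n + be n + i) * se M e ((l : ℂ) + be n - be n - i)) := by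
    intro t
    induction t with
    | zero => simp
    | succ t ih =>
      rw [Finset.prod_range_succ, ih, Finset.prod_range_succ, br_qE, br_qE]
      have e1 : (((n : ℤ) + l + t - 1 : ℤ) : ℂ) = (l : ℂ) + be n + be n + t := by
        rw [be]
        push_cast
        ring
      have e2 : (((l : ℤ) - t : ℤ) : ℂ) = (l : ℂ) + be n - be n - t := by
        push_cast
        ring
      rw [e1, e2, pow_succ]
      linear_combination ((-1) ^ t * (∏ i ∈ Finset.range t,
        (se M e ((l : ℂ) + be n + be n + i) * se M e ((l : ℂ) + be n - be n - i))) *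
        (se M e ((l : ℂ) + be n + be n + t) * se M e ((l : ℂ) + be n - be n - t))) * I_mul_I
  exact this t

theorem TE_lat {M : ℕ} (hM : 0 < M) (n l : ℕ) {e : ℂ} (he : 1 + e ≠ 0) :
    TE M e ((l : ℂ) + be n) = KE M n e * twA (qE M e) n l ^ 2 := by
  have hM' : (M : ℂ) ≠ 0 := by exact_mod_cast hM.ne'
  have h1 : twA (qE M e) n l ^ 2 = exp (2 * (Real.pi * I * (1 + e) *
      ((l : ℂ) * ((l : ℂ) + n - 1)) / M)) := by
    rw [twA, mul_pow, ← pow_mul, mul_comm l 2, pow_mul, neg_one_sq, one_pow, one_mul, qE_zpow,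
      ← exp_nat_mul]
    push_cast
    rfl
  rw [h1, TE, KE, ← exp_add, exp_eq_exp_iff_exists_int]
  refine ⟨-(l : ℤ), ?_⟩
  rw [be]
  push_cast
  field_simp
  ring

theorem se_refl {M : ℕ} (hM : 0 < M) {e : ℂ} (he : 1 + e ≠ 0) (z : ℂ) :
    se M e (M / (1 + e) - z) = se M e z := by
  have hM' : (M : ℂ) ≠ 0 := by exact_mod_cast hM.ne'
  have e1 : (Real.pi : ℂ) * (1 + e) * (M / (1 + e) - z) / M =
      Real.pi - Real.pi * (1 + e) * z / M := by
    field_simp
  rw [se, se, e1, sin_pi_sub]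

theorem ptE_refl {M : ℕ} (hM : 0 < M) (n t : ℕ) {e : ℂ} (he : 1 + e ≠ 0) (u : ℂ) :
    ptE M n t e (M / (1 + e) - u) = ptE M n t e u := by
  rw [ptE, ptE]
  refine Finset.prod_congr rfl fun i _ => ?_
  have e1 : (M : ℂ) / (1 + e) - u + be n + i = M / (1 + e) - (u - be n - i) := by ring
  have e2 : (M : ℂ) / (1 + e) - u - be n - i = M / (1 + e) - (u + be n + i) := by ring
  rw [e1, e2, se_refl hM he, se_refl hM he, mul_comm]

theorem TE_refl {M : ℕ} (hM : 0 < M) {e : ℂ} (he : 1 + e ≠ 0) (u : ℂ) :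
    TE M e (M / (1 + e) - u) = TE M e u := by
  have hM' : (M : ℂ) ≠ 0 := by exact_mod_cast hM.ne'
  rw [TE, TE]
  refine congrArg exp ?_
  field_simp
  ring

theorem RE_refl {M : ℕ} (hM : 0 < M) (n L t : ℕ) {e : ℂ} (he : 1 + e ≠ 0) (u : ℂ) :
    RE M n L t (e, M / (1 + e) - u) = RE M n L t (e, u) := by
  rw [RE, RE]
  dsimp only
  rw [TE_refl hM he, ptE_refl hM n t he]
  refine congrArg (fun t : ℂ => _ - t) (Finset.sum_congr rfl fun j _ => ?_)
  rw [ptE_refl hM n (t + j) he]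

theorem qE_zero (M : ℕ) : qE M 0 = q0 M := by
  rw [qE, q0]
  refine congrArg exp ?_
  ring

theorem bf_qE0 {M u : ℕ} (h : u < M) : bf (qE M 0) u ≠ 0 := by
  obtain ⟨N, rfl⟩ : ∃ N, M = N + 1 := ⟨M - 1, by omega⟩
  have : qE (N + 1) 0 = xi N := by
    rw [qE, xi]
    refine congrArg exp ?_
    ring
  rw [this]
  exact bf_ne (by omega)

theorem bf_diff (M u : ℕ) : Differentiable ℂ (fun e => bf (qE M e) u) := by
  unfold bf
  refine Differentiable.fun_finsetProd fun i _ => ?_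
  simp only [br_qE, se]
  fun_prop

theorem RE_lat {M : ℕ} (hM : 0 < M) {n : ℕ} (hn : 1 ≤ n) {L : ℕ} (hL : L < M) (t l : ℕ)
    (hl : l ≤ L) : ∀ᶠ e in 𝓝 (0 : ℂ), RE M n L t (e, (l : ℂ) + be n) = 0 := by
  have h1 : ∀ᶠ e in 𝓝 (0 : ℂ), 1 + e ≠ 0 := by
    have : ContinuousAt (fun e : ℂ => 1 + e) 0 := by fun_prop
    exact this.eventually_ne (by norm_num)
  have h2 : ∀ᶠ e in 𝓝 (0 : ℂ), ∀ u ∈ Finset.range (L + 1), bf (qE M e) u ≠ 0 := by
    rw [Filter.eventually_all_finset]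
    intro u hu
    have hu' := Finset.mem_range.1 hu
    exact (bf_diff M u).continuous.continuousAt.eventually_ne (bf_qE0 (by omega))
  filter_upwards [h1, h2] with e he hb
  have h3 := twA_sq_pa hn L (qE M e) (qE_ne M e)
    (fun u hu => hb u (Finset.mem_range.2 (by omega))) t l hl
  rw [RE]
  dsimp only
  rw [TE_lat hM n l he, sub_eq_zero]
  have h4 : ∑ u ∈ Finset.range (L + 1 - t), KE M n e * ((-1) ^ u * cN (qE M e) n t u) *
      ptE M n (t + u) e ((l : ℂ) + be n) = KE M n e * (-1) ^ t *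
      ∑ u ∈ Finset.range (L + 1 - t), cN (qE M e) n t u * pa (qE M e) n (t + u) l := by
    rw [Finset.mul_sum]
    refine Finset.sum_congr rfl fun u _ => ?_
    rw [pa_ptE, pow_add]
    have : ((-1 : ℂ) ^ t) * (-1) ^ t = 1 := by
      rw [← mul_pow]
      simp
    linear_combination (-(KE M n e * ((-1) ^ u * cN (qE M e) n t u) *
      ptE M n (t + u) e ((l : ℂ) + be n))) * this
  rw [h4, ← h3, pa_ptE]
  have : ((-1 : ℂ) ^ t) * (-1) ^ t = 1 := by
    rw [← mul_pow]
    simp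
  linear_combination (-(KE M n e * twA (qE M e) n l ^ 2 * ptE M n t e ((l : ℂ) + be n))) * this

theorem ptE_diff (M n t : ℕ) : Differentiable ℂ (fun p : ℂ × ℂ => ptE M n t p.1 p.2) := by
  induction t with
  | zero =>
    simp only [ptE, Finset.range_zero, Finset.prod_empty]
    fun_prop
  | succ t ih =>
    have : (fun p : ℂ × ℂ => ptE M n (t + 1) p.1 p.2) = fun p => ptE M n t p.1 p.2 *
        (se M p.1 (p.2 + be n + t) * se M p.1 (p.2 - be n - t)) := by
      funext p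
      rw [ptE, Finset.prod_range_succ, ← ptE]
    rw [this]
    refine Differentiable.fun_mul ih ?_
    unfold se
    fun_prop

theorem fst_diff {g : ℂ → ℂ} (hg : DifferentiableAt ℂ g 0) (x : ℂ) :
    DifferentiableAt ℂ (fun p : ℂ × ℂ => g p.1) (0, x) :=
  DifferentiableAt.comp (g := g) (f := fun p : ℂ × ℂ => p.1) ((0 : ℂ), x) hg (by fun_prop)

theorem RE_diffAt {M : ℕ} (hM : 0 < M) (n : ℕ) {L : ℕ} (hL : L < M) (t : ℕ) (x : ℂ) :
    DifferentiableAt ℂ (RE M n L t) (0, x) := by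
  unfold RE
  refine DifferentiableAt.fun_sub ?_ ?_
  · refine DifferentiableAt.fun_mul ?_ (ptE_diff M n t _)
    unfold TE
    refine DifferentiableAt.cexp ?_
    have h1 : DifferentiableAt ℂ (fun e : ℂ => (M : ℂ) / (1 + e)) 0 :=
      DifferentiableAt.fun_div (by fun_prop) (by fun_prop) (by simp)
    have h : DifferentiableAt ℂ (fun p : ℂ × ℂ => (M : ℂ) / (1 + p.1)) (0, x) :=
      fst_diff h1 x
    fun_prop
  · refine DifferentiableAt.fun_sum fun u hu => ?_
    have hu' := Finset.mem_range.1 hu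
    refine DifferentiableAt.fun_mul (DifferentiableAt.fun_mul ?_ ?_) (ptE_diff M n (t + u) _)
    · unfold KE
      refine DifferentiableAt.cexp ?_
      have h1 : DifferentiableAt ℂ (fun e : ℂ => (M : ℂ) / (4 * (1 + e))) 0 :=
        DifferentiableAt.fun_div (by fun_prop) (by fun_prop) (by simp)
      have h : DifferentiableAt ℂ (fun p : ℂ × ℂ => (M : ℂ) / (4 * (1 + p.1))) (0, x) :=
        fst_diff h1 x
      fun_prop
    · refine DifferentiableAt.const_mul ?_ _
      have h1 : DifferentiableAt ℂ (fun e : ℂ => cN (qE M e) n t u) 0 := by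
        unfold cN
        refine DifferentiableAt.fun_div ?_ (bf_diff M u _) (bf_qE0 (by omega))
        unfold qE
        fun_prop
      exact fst_diff h1 x

theorem se_zero (M : ℕ) (z : ℂ) : se M 0 z = fs M z := by
  rw [se, fs, add_zero, mul_one]

theorem ptE_zero (M n t : ℕ) (u : ℂ) : ptE M n t 0 u = pt M n t u := by
  rw [ptE, pt]
  simp only [se_zero]

theorem TE_zero (M : ℕ) (u : ℂ) : TE M 0 u = Eg 1 M u := by
  rw [TE, Eg]
  refine congrArg exp ?_
  ring

/-- The coefficients of the Bailey step at the root of unity. -/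
noncomputable def bN (M n t u : ℕ) : ℂ := KE M n 0 * ((-1) ^ u * cN (qE M 0) n t u)

theorem RE_zero (M n L t : ℕ) (z : ℂ) : RE M n L t (0, z) = Eg 1 M z * pt M n t z -
    ∑ u ∈ Finset.range (L + 1 - t), bN M n t u * pt M n (t + u) z := by
  rw [RE]
  dsimp only
  rw [TE_zero, ptE_zero]
  refine congrArg (fun t : ℂ => _ - t) (Finset.sum_congr rfl fun u _ => ?_)
  rw [ptE_zero, bN]

/-- The Bailey step, to the first order at the lattice points. -/
theorem bailey_lat {M n L : ℕ} (hn : 2 ≤ n) (hM : M + 1 = n + L) (t : ℕ) {H : ℂ → ℂ}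
    (hH : Differentiable ℂ H) {X : ℕ} (hX : X ≤ L) :
    deriv (fun z => (Eg 1 M z * pt M n t z) * H z) ((X : ℂ) + be n) =
      ∑ u ∈ Finset.range (L + 1 - t), bN M n t u *
        deriv (fun z => pt M n (t + u) z * H z) ((X : ℂ) + be n) := by
  have hM0 : 0 < M := by omega
  set x : ℂ := (X : ℂ) + be n with hx
  have hv : RE M n L t (0, x) = 0 := (RE_lat hM0 (by omega) (by omega) t X hX).self_of_nhds
  have hd : deriv (fun z => RE M n L t (0, z)) x = 0 := by
    refine first_order hM0 (y := ((L - X : ℕ) : ℂ) + be n) ?_ (RE_diffAt hM0 n (by omega) t x)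
      (RE_lat hM0 (by omega) (by omega) t X hX) ?_
    · have hM2 : (M : ℂ) + 1 = n + L := by exact_mod_cast hM
      rw [hx, be, Nat.cast_sub hX]
      linear_combination -hM2
    · have h1 : ∀ᶠ e in 𝓝 (0 : ℂ), 1 + e ≠ 0 := by
        have : ContinuousAt (fun e : ℂ => 1 + e) 0 := by fun_prop
        exact this.eventually_ne (by norm_num)
      filter_upwards [h1, RE_lat hM0 (by omega : 1 ≤ n) (by omega : L < M) t (L - X)
        (Nat.sub_le _ _)] with e he h2
      rw [RE_refl hM0 n L t he, h2]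
  have hRd : DifferentiableAt ℂ (fun z => RE M n L t (0, z)) x :=
    (RE_diffAt hM0 n (by omega) t x).comp x (by fun_prop)
  have hprod : deriv (fun z => RE M n L t (0, z) * H z) x = 0 := by
    rw [deriv_fun_mul hRd (hH x), hd, hv]
    ring
  have e1 : (fun z => RE M n L t (0, z) * H z) = fun z => (Eg 1 M z * pt M n t z) * H z -
      ∑ u ∈ Finset.range (L + 1 - t), bN M n t u * (pt M n (t + u) z * H z) := by
    funext z
    rw [RE_zero, sub_mul, Finset.sum_mul]
    exact congrArg (fun t : ℂ => _ - t) (Finset.sum_congr rfl fun u _ => by ring)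
  rw [e1, deriv_fun_sub, sub_eq_zero] at hprod
  · rw [hprod, deriv_fun_sum]
    · refine Finset.sum_congr rfl fun u _ => ?_
      rw [deriv_const_mul_field]
    · intro u _
      exact (((pt_diff M n (t + u)).mul hH).const_mul _) _
  · exact (((Eg_diff 1 M).mul (pt_diff M n t)).mul hH) _
  · refine DifferentiableAt.fun_sum fun u _ => ?_
    exact (((pt_diff M n (t + u)).mul hH).const_mul _) _

theorem Eg_add (r r' : ℂ) (M : ℕ) (u : ℂ) : Eg (r + r') M u = Eg r M u * Eg r' M u := by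
  rw [Eg, Eg, Eg, ← exp_add]
  refine congrArg exp ?_
  ring

/-- The Bailey step. -/
theorem SL_bailey {M n L : ℕ} (hn : 2 ≤ n) (hM : M + 1 = n + L) (r : ℂ) {B : ℂ → ℂ}
    (hB : Differentiable ℂ B) (t t' : ℕ) :
    SL M n (FB (r + 1) M n B t t') = ∑ u ∈ Finset.range (L + 1 - t), bN M n t u *
      SL M n (FB r M n B (t + u) t') := by
  simp only [SL, Finset.mul_sum]
  rw [Finset.sum_comm]
  refine Finset.sum_congr rfl fun X hX => ?_
  have hX' := Finset.mem_range.1 hX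
  have hH : Differentiable ℂ (fun z => Eg r M z * (-fs M (2 * z)) * (Aw M n z * B z) *
      pt M n t' z) :=
    (((Eg_diff r M).mul ((fs_diff M).comp (by fun_prop)).neg).mul
      ((Aw_diff M n).mul hB)).mul (pt_diff M n t')
  have h := bailey_lat hn hM t hH (X := X) (by omega)
  have e1 : FB (r + 1) M n B t t' = fun z => (Eg 1 M z * pt M n t z) *
      (Eg r M z * (-fs M (2 * z)) * (Aw M n z * B z) * pt M n t' z) := by
    funext z
    rw [FB, Eg_add]
    ring
  rw [e1, h]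
  refine Finset.sum_congr rfl fun u _ => ?_
  congr 2
  funext z
  rw [FB]
  ring

end Pool.Agent.S5
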