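import Pool.Agent.S5.N.Inst
import Pool.Agent.S5.N.ShG

/-!
# `SU(n)`: bounds of the weights and of the kernels of the nodes without integration variable
-/

set_option autoImplicit false

namespace Pool.Agent.S5

open Complex Filter Topology
open Pool.Agent.S3 (Rf fe rS qS wr fdom)
open Pool.Agent.S4 (et)
open Pool.Agent.H63.VC3 (LL ff Cc om yk)

variable {m : ℕ}

/-! ### The functions `rS` and `LL` at shifted arguments -/

private theorem close_of {M : ℕ} (hM : 1 ≤ M) {ζ : ℂ} {t S : ℝ} (ht : |t| ≤ S) :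
    Nr S M (ζ - (t : ℂ) / M) ζ := by
  have hM0 : (0 : ℝ) < M := by exact_mod_cast hM
  have hMc : (M : ℂ) ≠ 0 := by exact_mod_cast hM0.ne'
  unfold Nr
  have e : (M : ℝ) • (ζ - (t : ℂ) / M - ζ) = -(t : ℂ) := by
    rw [Complex.real_smul]
    push_cast
    field_simp
    ring
  rw [e, norm_neg, Complex.norm_real, Real.norm_eq_abs]
  exact ht

theorem bd_rSt (R S : ℝ) : ∃ A : ℝ, 0 < A ∧ ∃ p : ℕ, ∀ M : ℕ, 1 ≤ M → ∀ (ζ : ℂ) (t : ℝ), ‖ζ‖ ≤ R →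
    |t| ≤ S → -(M : ℝ) - 1 / 2 ≤ M * ζ.re - t → M * ζ.re - t ≤ M - 1 / 2 →
    ‖rS M (M * ζ - t)‖ ≤ A * (M : ℝ) ^ p * Real.exp (-(M * Rf ζ)) := by
  obtain ⟨A, hA, p, h⟩ := Osc_Rf.neg.exp_le R (S + 1 / 2)
  refine ⟨16 * A, by positivity, p, fun M hM ζ t hζ ht h0 h1 => ?_⟩
  have hM0 : (0 : ℝ) < M := by exact_mod_cast hM
  have hM1 : (1 : ℝ) ≤ M := by exact_mod_cast hM
  have hMc : (M : ℂ) ≠ 0 := by exact_mod_cast hM0.ne'
  have hre : ((M : ℂ) * ζ - t).re = M * ζ.re - t := by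
    rw [sub_re, ← ofReal_natCast, re_ofReal_mul, ofReal_re]
  have h2 := Pool.Agent.S3.rS_bound hM (z := M * ζ - t) (by rw [hre]; exact h0) (by rw [hre]; exact h1)
  have e1 : ((M : ℂ) * ζ - t + 1 / 2) / M = ζ - ((t - 1 / 2 : ℝ) : ℂ) / M := by
    push_cast
    field_simp
    ring
  rw [e1] at h2
  have h3 := h M hM ζ (ζ - ((t - 1 / 2 : ℝ) : ℂ) / M) hζ (close_of hM (by
    have := abs_sub t (1 / 2)
    rw [abs_of_pos (by norm_num : (0 : ℝ) < 1 / 2)] at this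
    linarith only [this, ht]))
  rw [mul_neg, mul_neg] at h3
  have h4 : 16 / √(M : ℝ) ≤ 16 := div_le_self (by norm_num) (Real.one_le_sqrt.2 hM1)
  refine h2.trans ?_
  calc 16 / √(M : ℝ) * Real.exp (-(M * Rf (ζ - ((t - 1 / 2 : ℝ) : ℂ) / M))) ≤
        16 * (A * (M : ℝ) ^ p * Real.exp (-(M * Rf ζ))) := by gcongr
    _ = _ := by ring

theorem bd_LLt (R S : ℝ) : ∃ A : ℝ, 0 < A ∧ ∃ p : ℕ, ∀ M : ℕ, 1 ≤ M → ∀ (ζ : ℂ) (t : ℝ), ‖ζ‖ ≤ R →
    |t| ≤ S → -1 / 2 ≤ M * ζ.re - t → M * ζ.re - t ≤ M - 1 / 2 →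
    ‖exp (LL M (M * ζ - t))‖ ≤ A * (M : ℝ) ^ p * Real.exp (M * Rf ζ) ∧
    ‖exp (-LL M (M * ζ - t))‖ ≤ A * (M : ℝ) ^ p * Real.exp (-(M * Rf ζ)) := by
  obtain ⟨A, hA, p, h⟩ := Osc_Rf.exp_le R (S + 1 / 2)
  obtain ⟨B, hB, q, k⟩ := Osc_Rf.neg.exp_le R (S + 1 / 2)
  refine ⟨Real.exp 2 * (A + B), by positivity, p + q + 1, fun M hM ζ t hζ ht h0 h1 => ?_⟩
  have hM0 : (0 : ℝ) < M := by exact_mod_cast hM
  have hM1 : (1 : ℝ) ≤ M := by exact_mod_cast hM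
  have hMc : (M : ℂ) ≠ 0 := by exact_mod_cast hM0.ne'
  have hl : 0 ≤ Real.log M := Real.log_nonneg hM1
  have hre : ((M : ℂ) * ζ - t).re = M * ζ.re - t := by
    rw [sub_re, ← ofReal_natCast, re_ofReal_mul, ofReal_re]
  have h2 := Pool.Agent.S3.LL_Rf hM (z := M * ζ - t) (by rw [hre]; exact h0) (by rw [hre]; exact h1)
  have e1 : ((M : ℂ) * ζ - t + 1 / 2) / M = ζ - ((t - 1 / 2 : ℝ) : ℂ) / M := by
    push_cast
    field_simp
    ring
  rw [e1, abs_le] at h2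
  have hc : Nr (S + 1 / 2) M (ζ - ((t - 1 / 2 : ℝ) : ℂ) / M) ζ := close_of hM (by
    have := abs_sub t (1 / 2)
    rw [abs_of_pos (by norm_num : (0 : ℝ) < 1 / 2)] at this
    linarith only [this, ht])
  have h3 := h M hM ζ _ hζ hc
  have h4 := k M hM ζ _ hζ hc
  rw [mul_neg, mul_neg] at h4
  have e2 : Real.exp (Real.log M) = M := Real.exp_log hM0
  have hpq : (M : ℝ) ^ p * M ≤ (M : ℝ) ^ (p + q + 1) := by
    rw [← pow_succ]
    exact pow_le_pow_right₀ hM1 (by omega)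
  have hq : (M : ℝ) ^ q ≤ (M : ℝ) ^ (p + q + 1) := pow_le_pow_right₀ hM1 (by omega)
  constructor
  · rw [norm_exp]
    calc Real.exp (LL M (M * ζ - t)).re ≤
          Real.exp (2 + Real.log M + M * Rf (ζ - ((t - 1 / 2 : ℝ) : ℂ) / M)) :=
          Real.exp_le_exp.2 (by linarith only [h2.2, hl])
      _ = Real.exp 2 * M * Real.exp (M * Rf (ζ - ((t - 1 / 2 : ℝ) : ℂ) / M)) := by
          rw [Real.exp_add, Real.exp_add, e2]
      _ ≤ Real.exp 2 * M * (A * (M : ℝ) ^ p * Real.exp (M * Rf ζ)) := by gcongr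
      _ = Real.exp 2 * A * ((M : ℝ) ^ p * M) * Real.exp (M * Rf ζ) := by ring
      _ ≤ Real.exp 2 * (A + B) * (M : ℝ) ^ (p + q + 1) * Real.exp (M * Rf ζ) := by
          gcongr
          linarith only [hB]
  · rw [norm_exp, neg_re]
    calc Real.exp (-(LL M (M * ζ - t)).re) ≤
          Real.exp (2 + -(M * Rf (ζ - ((t - 1 / 2 : ℝ) : ℂ) / M))) :=
          Real.exp_le_exp.2 (by linarith only [h2.1, hl])
      _ = Real.exp 2 * Real.exp (-(M * Rf (ζ - ((t - 1 / 2 : ℝ) : ℂ) / M))) := by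
          rw [Real.exp_add]
      _ ≤ Real.exp 2 * (B * (M : ℝ) ^ q * Real.exp (-(M * Rf ζ))) := by gcongr
      _ = Real.exp 2 * B * (M : ℝ) ^ q * Real.exp (-(M * Rf ζ)) := by ring
      _ ≤ Real.exp 2 * (A + B) * (M : ℝ) ^ (p + q + 1) * Real.exp (-(M * Rf ζ)) := by
          gcongr
          linarith only [hA]

/-! ### The domains -/

theorem Dm_bd {M k0 : ℕ} {d : ℝ} {z : ℂ} (hM : 1 ≤ M) (hz : z ∈ Dm M k0 d) :
    (k0 : ℝ) + 1 / 2 ≤ M * (z.re + 1 / 2) ∧ M * (z.re + 1 / 2) ≤ M ∧ |z.im| ≤ d ∧ 0 ≤ d ∧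
      ‖z‖ ≤ 1 / 2 + d ∧ -(1 / 2) ≤ z.re := by
  obtain ⟨h1, h2, h3⟩ := hz
  have hM0 : (0 : ℝ) < M := by exact_mod_cast hM
  have h4 : ((k0 : ℝ) + 1 / 2) / M - 1 / 2 ≤ z.re := by
    refine le_trans (le_of_eq ?_) h1
    unfold al yR
    field_simp
    ring
  have h5 : ((k0 : ℝ) + 1 / 2) / M ≤ z.re + 1 / 2 := by linarith only [h4]
  rw [div_le_iff₀ hM0] at h5
  have h6 : -(1 / 2) ≤ z.re := by
    have : (0 : ℝ) ≤ ((k0 : ℝ) + 1 / 2) / M := by positivity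
    linarith only [this, h4]
  refine ⟨by linarith only [h5], by nlinarith, h3, (abs_nonneg _).trans h3, ?_, h6⟩
  refine (Complex.norm_le_abs_re_add_abs_im z).trans ?_
  have : |z.re| ≤ 1 / 2 := abs_le.2 ⟨by linarith only [h6], by linarith only [h2]⟩
  linarith only [this, h3]

theorem Dm_sh {M k0 : ℕ} {d : ℝ} {z : ℂ} (hM : 1 ≤ M) (hz : z ∈ Dm M k0 d) {s : ℝ} (h0 : 0 ≤ s)
    (h1 : s ≤ k0) : z - (s : ℂ) / M ∈ Dm M 0 d := by
  have hM0 : (0 : ℝ) < M := by exact_mod_cast hM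
  obtain ⟨h2, h3, h4⟩ := Dm_bd hM hz
  have hre : (z - (s : ℂ) / M).re = z.re - s / M := by
    rw [sub_re, Complex.div_natCast_re, ofReal_re]
  have him : (z - (s : ℂ) / M).im = z.im := by
    rw [sub_im, Complex.div_natCast_im, ofReal_im, zero_div, sub_zero]
  have h5 : (0 : ℝ) ≤ s / M := by positivity
  refine ⟨?_, ?_, ?_⟩
  · rw [hre]
    unfold al yR
    have h6 : (1 / 2 : ℝ) / M ≤ z.re + 1 / 2 - s / M := by
      rw [div_le_iff₀ hM0, sub_mul, div_mul_cancel₀ _ hM0.ne']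
      linarith only [h2, h1]
    have h7 : ((((0 : ℕ) : ℝ) + 1) / M - 1 / 2 : ℝ) - 1 / (2 * M) = (1 / 2 : ℝ) / M - 1 / 2 := by
      push_cast
      field_simp
      ring
    linarith only [h6]
  · rw [hre]
    have := hz.2.1
    linarith only [this, h5]
  · rw [him]
    exact hz.2.2

theorem sh_close {M : ℕ} (hM : 1 ≤ M) (z : ℂ) {s S : ℝ} (hs : |s| ≤ S) :
    ‖(M : ℂ) * (z - (s : ℂ) / M - z)‖ ≤ S := by
  have := close_of hM (ζ := z) hs
  unfold Nr at this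
  rw [Complex.real_smul] at this
  push_cast at this
  exact this

/-! ### Parameters -/

theorem siL_bd {n h : ℕ} (hh : 1 ≤ h) (hn : 2 * h ≤ n) (i : ℕ) : siL n h i ≤ n - 2 := by
  unfold siL
  split_ifs <;> omega

theorem siR_bd {n h : ℕ} (hh : 1 ≤ h) (hn : 2 * h ≤ n) (i : ℕ) : siR n h i ≤ n - 2 := by
  unfold siR
  split_ifs <;> omega

theorem shL_bd {n h : ℕ} (hh : 1 ≤ h) (hn : 2 * h ≤ n) (P : Bool) (i : ℕ) :
    0 ≤ shL n h P i ∧ shL n h P i ≤ (n - 2 : ℕ) := by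
  have h2 : ((n - 2 : ℕ) : ℝ) = (n : ℝ) - 2 := by
    rw [Nat.cast_sub (by omega)]
    norm_num
  have h3 : (0 : ℝ) ≤ ((n - 2 : ℕ) : ℝ) := Nat.cast_nonneg _
  unfold shL
  split_ifs
  · exact ⟨Nat.cast_nonneg _, by exact_mod_cast siL_bd hh hn i⟩
  · rw [h2] at h3 ⊢
    constructor <;> linarith only [h2]

theorem shR_bd {n h : ℕ} (hh : 1 ≤ h) (hn : 2 * h ≤ n) (P : Bool) (i : ℕ) :
    0 ≤ shR n h P i ∧ shR n h P i ≤ (n - 2 : ℕ) := by
  have h2 : ((n - 2 : ℕ) : ℝ) = (n : ℝ) - 2 := by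
    rw [Nat.cast_sub (by omega)]
    norm_num
  have h3 : (0 : ℝ) ≤ ((n - 2 : ℕ) : ℝ) := Nat.cast_nonneg _
  unfold shR
  split_ifs
  · exact ⟨Nat.cast_nonneg _, by exact_mod_cast siR_bd hh hn i⟩
  · rw [h2] at h3 ⊢
    constructor <;> linarith only [h2]

theorem shZ_bd {n h : ℕ} (hh : 1 ≤ h) (hn : 2 * h ≤ n) (P fl : Bool) (i : ℕ) :
    0 ≤ shZ n h P fl i ∧ shZ n h P fl i ≤ (n - 2 : ℕ) := by
  unfold shZ
  split_ifs
  · exact shR_bd hh hn P i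
  · exact shL_bd hh hn P i

private theorem e_bd {n h : ℕ} (_hh : 1 ≤ h) (hn : 2 * h ≤ n) {σ : ℤ} (hσ : |σ| ≤ 1) :
    |esN n h σ| ≤ ((n : ℝ) - 2) / 2 := by
  have h1 : (0 : ℝ) ≤ (n : ℝ) - 2 * h := by
    have : ((2 * h : ℕ) : ℝ) ≤ n := by exact_mod_cast hn
    push_cast at this
    linarith only [this]
  have h2 : (1 : ℝ) ≤ h := by exact_mod_cast _hh
  have h3 : |(σ : ℝ)| ≤ 1 := by exact_mod_cast hσ
  unfold esN
  rw [abs_div, abs_mul, abs_of_nonneg h1, abs_two]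
  apply div_le_div_of_nonneg_right _ (by norm_num)
  nlinarith

/-- The arguments of `LL` in the closed kernels. -/
theorem eL_bd {n h : ℕ} (hh : 1 ≤ h) (hn : 2 * h ≤ n) (P : Bool) {σ : ℤ} (hσ : |σ| ≤ 1) (i : ℕ) :
    0 ≤ shL n h P i + eI n h P σ ∧ shL n h P i + eI n h P σ ≤ (n - 2 : ℕ) := by
  unfold eI
  split_ifs with hP
  · rw [add_zero]
    exact shL_bd hh hn P i
  · have h1 := abs_le.1 (e_bd hh hn hσ)
    have h2 : ((n - 2 : ℕ) : ℝ) = (n : ℝ) - 2 := by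
      rw [Nat.cast_sub (by omega)]
      norm_num
    unfold shL
    rw [if_neg hP, h2]
    constructor <;> linarith [h1.1, h1.2]

theorem eR_bd {n h : ℕ} (hh : 1 ≤ h) (hn : 2 * h ≤ n) (P : Bool) {σ : ℤ} (hσ : |σ| ≤ 1) (i : ℕ) :
    0 ≤ shR n h P i + eI n h P σ ∧ shR n h P i + eI n h P σ ≤ (n - 2 : ℕ) := by
  unfold eI
  split_ifs with hP
  · rw [add_zero]
    exact shR_bd hh hn P i
  · have h1 := abs_le.1 (e_bd hh hn hσ)
    have h2 : ((n - 2 : ℕ) : ℝ) = (n : ℝ) - 2 := by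
      rw [Nat.cast_sub (by omega)]
      norm_num
    unfold shR
    rw [if_neg hP, h2]
    constructor <;> linarith [h1.1, h1.2]

theorem eZ_bd {n h : ℕ} (hh : 1 ≤ h) (hn : 2 * h ≤ n) (P fl : Bool) {σ : ℤ} (hσ : |σ| ≤ 1) (i : ℕ) :
    0 ≤ shZ n h P fl i + eI n h P σ ∧ shZ n h P fl i + eI n h P σ ≤ (n - 2 : ℕ) := by
  unfold shZ
  split_ifs
  · exact eR_bd hh hn P hσ i
  · exact eL_bd hh hn P hσ i

theorem sg5_abs (P : Fin (m + 1) → Bool) (i : Fin (m + 1)) : |sg5 P i| ≤ 1 := by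
  have h2 := gc_le (et P) (i : ℕ)
  have h3 := gc_le (et P) ((i : ℕ) + 1)
  rw [sg5_eq, abs_le]
  split_ifs <;> omega

/-! ### The weights -/

theorem bd_wI {n h : ℕ} (hh : 1 ≤ h) (hn : 2 * h ≤ n) (e l : Bool) (d : ℝ) :
    ∃ A : ℝ, 0 < A ∧ ∃ p : ℕ, ∀ M : ℕ, 1 ≤ M → ∀ y ∈ Dm M (n - 2) d,
    ‖wI n h e l M y‖ ≤ A * (M : ℝ) ^ p * Real.exp (M * (4 * Rf (y + 1 / 2))) := by
  obtain ⟨A, hA, p, h1⟩ := bd_LLt (1 + d) n
  refine ⟨A ^ 4, by positivity, 4 * p, fun M hM y hy => ?_⟩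
  obtain ⟨y1, y2, y3, y4, y5, y6⟩ := Dm_bd hM hy
  have hM0 : (0 : ℝ) < M := by exact_mod_cast hM
  have hy' : ‖y + 1 / 2‖ ≤ 1 + d := by
    refine (norm_add_le _ _).trans ?_
    have : ‖(1 / 2 : ℂ)‖ = 1 / 2 := by norm_num
    linarith only [this, y5]
  have key : ∀ t : ℕ, t ≤ n - 2 → ‖exp (LL M (M * (y + 1 / 2) - 1 - (t : ℕ)))‖ ≤
      A * (M : ℝ) ^ p * Real.exp (M * Rf (y + 1 / 2)) := by
    intro t ht
    have ht' : (t : ℝ) ≤ (n - 2 : ℕ) := by exact_mod_cast ht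
    have h2 : ((n - 2 : ℕ) : ℝ) = (n : ℝ) - 2 := by
      rw [Nat.cast_sub (by omega)]
      norm_num
    have hre : (y + 1 / 2).re = y.re + 1 / 2 := by simp
    have h3 := (h1 M hM (y + 1 / 2) (1 + t) hy' (by
      rw [abs_of_nonneg (by positivity)]
      linarith only [h2, ht']) (by rw [hre]; linarith only [ht', y1]) (by
        rw [hre]
        linarith only [y2])).1
    have e1 : (M : ℂ) * (y + 1 / 2) - 1 - (t : ℕ) = M * (y + 1 / 2) - ((1 + t : ℝ) : ℂ) := by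
      push_cast
      ring
    rw [e1]
    exact h3
  have k0 := key 0 (Nat.zero_le _)
  rw [Nat.cast_zero, sub_zero] at k0
  have k1 := key (n - 2) le_rfl
  have k2 := key (tw1 n h l) (by unfold tw1; split_ifs <;> omega)
  have k3 := key (tw2 n h e l) (by unfold tw2 tw1; split_ifs <;> omega)
  unfold wI
  rw [norm_mul, norm_mul, norm_mul]
  have e4 : Real.exp (M * (4 * Rf (y + 1 / 2))) = Real.exp (M * Rf (y + 1 / 2)) ^ 4 := by
    rw [← Real.exp_nat_mul]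
    congr 1
    push_cast
    ring
  calc _ ≤ (A * (M : ℝ) ^ p * Real.exp (M * Rf (y + 1 / 2))) *
        (A * (M : ℝ) ^ p * Real.exp (M * Rf (y + 1 / 2))) *
        ((A * (M : ℝ) ^ p * Real.exp (M * Rf (y + 1 / 2))) *
          (A * (M : ℝ) ^ p * Real.exp (M * Rf (y + 1 / 2)))) := by gcongr
    _ = _ := by
        rw [e4]
        ring

/-! ### The closed kernel with one half twist -/

private theorem BdA_re' (s : ℝ) (X : ℂ) : ((s : ℂ) * Real.pi * I * X).re = -(s * Real.pi * X.im) := by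
  simp [mul_re, mul_im]

theorem bd_kHe (e : ℝ) (s : ℤ) (d : ℝ) : ∃ A : ℝ, 0 < A ∧ ∃ p : ℕ, ∀ M : ℕ, 1 ≤ M →
    ∀ z ∈ Dm M 0 d, ∀ b ∈ Dm M 0 d, 1 / 2 ≤ M * (z.re + 1 / 2) - e → M * (z.re + 1 / 2) - e ≤ M →
    1 / 2 ≤ M * (b.re + 1 / 2) - e → M * (b.re + 1 / 2) - e ≤ M →
    ‖kHe e s M z b‖ ≤ A * (M : ℝ) ^ p * Real.exp (M * gH s z b) := by
  obtain ⟨A, hA, p, h1⟩ := bd_LLt (1 + d) (1 + |e|)
  obtain ⟨B, hB, q, h2⟩ := bd_rSt (1 + 2 * d) 1
  obtain ⟨K, hK⟩ : ∃ K : ℝ, K = |(s : ℝ)| * Real.pi * |1 + e| * (2 * |d|) := ⟨_, rfl⟩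
  refine ⟨Real.exp K * (A * A * B), by positivity, p + p + q,
    fun M hM z hz b hb hz0 hz1 hb0 hb1 => ?_⟩
  obtain ⟨z1, z2, z3, z4, z5, z6⟩ := Dm_bd hM hz
  obtain ⟨b1, b2, b3, b4, b5, b6⟩ := Dm_bd hM hb
  have hM0 : (0 : ℝ) < M := by exact_mod_cast hM
  have hhalf : ‖(1 / 2 : ℂ)‖ = 1 / 2 := by norm_num
  have hrh : ∀ w : ℂ, (w + 1 / 2).re = w.re + 1 / 2 := fun w => by simp
  have ha : |1 + e| ≤ 1 + |e| := by
    have := abs_add_le 1 e
    rwa [abs_one] at this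
  have kz := (h1 M hM (z + 1 / 2) (1 + e) (by
    refine (norm_add_le _ _).trans ?_
    linarith only [hhalf, z5]) ha (by rw [hrh]; linarith only [hz0]) (by rw [hrh]; linarith only [hz1])).2
  have kb := (h1 M hM (b + 1 / 2) (1 + e) (by
    refine (norm_add_le _ _).trans ?_
    linarith only [hhalf, b5]) ha (by rw [hrh]; linarith only [hb0]) (by rw [hrh]; linarith only [hb1])).2
  have z7 := hz.2.1
  have b7 := hb.2.1
  have kr := h2 M hM (z + b) 1 (by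
    refine (norm_add_le _ _).trans ?_
    linarith only [b5, z5]) (by norm_num) (by
      rw [add_re]
      norm_num at z1 b1 ⊢
      linarith only [b1, z1]) (by
      rw [add_re]
      linarith only [b2, z2])
  have e1 : ‖exp (-(s * Real.pi * I * (M * (z + 1 / 2) * (b + 1 / 2) - (1 + e) * (z + b))))‖ ≤
      Real.exp K * Real.exp (M * (qH s z b).re) := by
    rw [norm_exp, ← Real.exp_add]
    apply Real.exp_le_exp.2
    unfold qH
    have e2 := BdA_re' (s : ℝ) (M * (z + 1 / 2) * (b + 1 / 2) - (1 + e) * (z + b))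
    have e3 := BdA_re' (s : ℝ) ((z + 1 / 2) * (b + 1 / 2))
    have e4 : ((s : ℝ) : ℂ) = (s : ℂ) := by push_cast; rfl
    rw [e4] at e2 e3
    rw [neg_re, neg_re, e2, e3, sub_im]
    have e5 : ((M : ℂ) * (z + 1 / 2) * (b + 1 / 2)).im = (M : ℝ) * ((z + 1 / 2) * (b + 1 / 2)).im := by
      rw [mul_assoc, ← ofReal_natCast, im_ofReal_mul]
    have e6 : ((1 + (e : ℂ)) * (z + b)).im = (1 + e) * (z.im + b.im) := by
      have : (1 + (e : ℂ)) = ((1 + e : ℝ) : ℂ) := by push_cast; rfl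
      rw [this, im_ofReal_mul, add_im]
    rw [e5, e6]
    have h7 : -(s * Real.pi * ((1 + e) * (z.im + b.im))) ≤ K := by
      refine (neg_le_abs _).trans ?_
      rw [hK, abs_mul, abs_mul, abs_mul, abs_of_pos Real.pi_pos]
      have e10 : |(s : ℝ)| * Real.pi * |1 + e| * (2 * |d|) =
        |(s : ℝ)| * Real.pi * (|1 + e| * (2 * |d|)) := by ring
      rw [e10]
      have h8 : |z.im + b.im| ≤ 2 * |d| := by
        have := abs_add_le z.im b.im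
        have h9 := le_abs_self d
        linarith only [h9, this, b3, z3]
      have hpi := Real.pi_pos
      gcongr
    linarith only [h7]
  have e8 : (M : ℂ) * (z + 1 / 2) - 1 - e = M * (z + 1 / 2) - ((1 + e : ℝ) : ℂ) := by
    push_cast
    ring
  have e9 : (M : ℂ) * (b + 1 / 2) - 1 - e = M * (b + 1 / 2) - ((1 + e : ℝ) : ℂ) := by
    push_cast
    ring
  unfold kHe
  rw [norm_mul, norm_mul, norm_mul, e8, e9]
  rw [ofReal_one] at kr
  calc _ ≤ (Real.exp K * Real.exp (M * (qH s z b).re)) *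
        ((A * (M : ℝ) ^ p * Real.exp (-(M * Rf (z + 1 / 2)))) *
          (A * (M : ℝ) ^ p * Real.exp (-(M * Rf (b + 1 / 2))))) *
        (B * (M : ℝ) ^ q * Real.exp (-(M * Rf (z + b)))) := by gcongr
    _ = Real.exp K * (A * A * B) * (M : ℝ) ^ (p + p + q) * (Real.exp (M * (qH s z b).re) *
        Real.exp (-(M * Rf (z + 1 / 2))) * Real.exp (-(M * Rf (b + 1 / 2))) *
          Real.exp (-(M * Rf (z + b)))) := by
        rw [pow_add, pow_add]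
        ring
    _ = _ := by
        rw [← Real.exp_add, ← Real.exp_add, ← Real.exp_add]
        congr 2
        unfold gH
        ring

end Pool.Agent.S5
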