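import Pool.Agent.S5.N.OkC
import Pool.Agent.S5.X.Nod

/-!
# `SU(n)`: the state sum in terms of the kernels
-/

set_option autoImplicit false

namespace Pool.Agent.S5

open Pool.Agent.H63.VC hiding ext
open Complex
open Pool.Agent.S3 (Rf fe rS qS wr fdom gl ql)
open Pool.Agent.S4 (et nn JG4 OkL)
open Pool.Agent.H63.VC3 (LL ff Cc om yk LL_nat)

variable {m : ℕ}

/-- The constant of the node `i`. -/
noncomputable def cst (C : Ch m) (P : Fin (m + 1) → Bool) (n h : ℕ) (i : Fin (m + 1)) (M : ℕ) : ℂ :=
  match C.ty i with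
  | .cl => (-1) ^ nn n (P i) * ph2 (C.c i).sign M * (4 * Real.pi)
  | .zn => if |C.c i| = 3 then
      (-1) ^ nn n (P i) * ph3e (eI n h (P i) (sg5 P i)) (C.c i).sign M * (4 * Real.pi * M)
    else (-1) ^ nn n (P i) * ph4 (C.c i).sign M * (4 * Real.pi)
  | .vn => 1

/-! ### Positions -/

private theorem yM_sh {M : ℕ} (hM : 0 < M) {k s : ℕ} (h : s ≤ k) :
    yM M k - ((s : ℝ) : ℂ) / M = yM M (k - s) := by
  have hMc : (M : ℂ) ≠ 0 := by exact_mod_cast hM.ne'
  unfold yM
  rw [Nat.cast_sub h]
  push_cast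
  field_simp
  ring

private theorem yM_yN {n M : ℕ} (hM : 0 < M) (hn : 2 ≤ n) (x : ℕ) :
    yM M (x + (n - 2)) - ((((n : ℝ) - 2) / 2 : ℝ) : ℂ) / M = yN n M x := by
  have hMc : (M : ℂ) ≠ 0 := by exact_mod_cast hM.ne'
  unfold yM yN
  rw [Nat.cast_add, Nat.cast_sub hn]
  push_cast
  field_simp
  ring

private theorem kHe_zero (s : ℤ) (M : ℕ) (z b : ℂ) : kHe ((0 : ℝ) : ℂ) s M z b = kH s M z b := by
  unfold kHe kH
  rw [ofReal_zero, sub_zero, sub_zero, add_zero]
  congr 3
  ring

private theorem sum_sh {M n s t : ℕ} (hst : s + t = n - 2) (hnM : n ≤ M) (G : ℕ → ℂ)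
    (h1 : ∀ z, z < t → G z = 0) (h2 : ∀ z, M - s ≤ z → z < M → G z = 0) :
    ∑ l ∈ Finset.Ico (n - 2) M, G (l - s) = ∑ z ∈ Finset.range M, G z := by
  have e1 : ∑ l ∈ Finset.Ico (n - 2) M, G (l - s) = ∑ z ∈ Finset.Ico t (M - s), G z := by
    rw [Finset.sum_Ico_eq_sum_range, Finset.sum_Ico_eq_sum_range]
    have e2 : M - (n - 2) = M - s - t := by omega
    rw [e2]
    refine Finset.sum_congr rfl fun z _ => ?_
    congr 1
    omega
  rw [e1, Finset.range_eq_Ico]
  refine Finset.sum_subset (Finset.Ico_subset_Ico (Nat.zero_le _) (by omega)) fun z hz hz' => ?_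
  rw [Finset.mem_Ico] at hz hz'
  rcases lt_or_ge z t with h | h
  · exact h1 z h
  · exact h2 z (by omega) hz.2

private theorem rS_sum0 {M k l : ℕ} (hk : k < M) (hl : l < M) (h : k + l + 1 < M) :
    rS M (M * (yM M k + yM M l) - 1) = 0 := by
  rw [yM_sum (by omega), rS_sum hk hl, if_neg (by omega)]

private theorem rS_dif0 {M k l : ℕ} (hk : k < M) (h : k < l) : rS M (M * (yM M k - yM M l)) = 0 := by
  rw [yM_dif (by omega), rS_dif hk, if_neg (by omega)]

/-- The sum over the own variable at a node of parallel strands; `a` and `b` are the shifts of the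
slots. -/
private theorem sum_true {M n a b : ℕ} (hab : a + b = n - 2) (hnM : n ≤ M) (_hn : 2 ≤ n) (s : ℤ)
    {κ κ' : ℕ} (hκ : n - 2 ≤ κ) (hκ' : n - 2 ≤ κ') (hM : κ < M) (hM' : κ' < M)
    (F : ℂ → ℂ → ℂ) (hF : ∀ z k : ℕ, z < M → k < M → z + k + 1 < M → F (yM M z) (yM M k) = 0) :
    ∑ l ∈ Finset.Ico (n - 2) M, kB s M (yM M κ - ((a : ℝ) : ℂ) / M) (yM M l - ((a : ℝ) : ℂ) / M) *
      F (yM M l - ((a : ℝ) : ℂ) / M) (yM M κ' - ((b : ℝ) : ℂ) / M) =
    ∑ z ∈ Finset.range M, kB s M (yM M (κ - a)) (yM M z) * F (yM M z) (yM M (κ' - b)) := by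
  have hM0 : 0 < M := by omega
  rw [← sum_sh (s := a) (t := b) hab hnM (fun z => kB s M (yM M (κ - a)) (yM M z) *
    F (yM M z) (yM M (κ' - b)))]
  · refine Finset.sum_congr rfl fun l hl => ?_
    rw [Finset.mem_Ico] at hl
    rw [yM_sh hM0 (show a ≤ κ by omega), yM_sh hM0 (show a ≤ l by omega),
      yM_sh hM0 (show b ≤ κ' by omega)]
  · intro z hz
    rw [hF z (κ' - b) (by omega) (by omega) (by omega), mul_zero]
  · intro z hz hz'
    have : kB s M (yM M (κ - a)) (yM M z) = 0 := by
      unfold kB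
      rw [rS_dif0 (by omega) (by omega), mul_zero]
    rw [this, zero_mul]

private theorem hF_H (s : ℤ) {M : ℕ} (z k : ℕ) (hz : z < M) (hk : k < M) (h : z + k + 1 < M) :
    kH s M (yM M z) (yM M k) = 0 := by
  unfold kH
  rw [rS_sum0 hz hk h, mul_zero]

private theorem hF_C (s : ℤ) {M : ℕ} (z k : ℕ) (hz : z < M) (hk : k < M) (h : z + k + 1 < M) :
    kC s M (yM M z) (yM M k) = 0 := by
  unfold kC
  rw [rS_sum0 hz hk h, mul_zero]

private theorem DA_comm (r : ℝ) (n d M : ℕ) (σ : ℤ) (k l : ℕ) : DA r n d M σ k l = DA r n d M σ l k := by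
  have h1 : NA r n d M σ k l = NA r n d M σ l k := by
    funext v
    unfold NA
    ring
  rw [DA, DA, h1]

/-! ### The weights -/

theorem w5_wI {n h M : ℕ} (hh : 1 ≤ h) (hn : 2 * h ≤ n) (hM : n ≤ M) (e l : Bool) {k : ℕ}
    (hk : k < M + 2 - n) : (w5 n h e l M k : ℂ) = wI n h e l M (yM M (k + (n - 2))) := by
  have hM0 : 0 < M := by omega
  have e0 : (M : ℂ) * (yM M (k + (n - 2)) + 1 / 2) - 1 = ((k + (n - 2) : ℕ) : ℂ) := yM_half hM0 _
  have key : ∀ t : ℕ, t ≤ n - 2 →
      exp (LL M (M * (yM M (k + (n - 2)) + 1 / 2) - 1 - (t : ℕ))) = (S M (k + (n - 2) - t) : ℂ) := by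
    intro t ht
    rw [e0, ← Nat.cast_sub (by omega), LL_nat M _ (by omega)]
  have k0 := key 0 (Nat.zero_le _)
  rw [Nat.cast_zero, sub_zero, Nat.sub_zero] at k0
  have k1 := key (n - 2) le_rfl
  have k2 := key (tw1 n h l) (by unfold tw1; split_ifs <;> omega)
  have k3 := key (tw2 n h e l) (by unfold tw2 tw1; split_ifs <;> omega)
  unfold wI w5
  rw [k0, k1, k2, k3]
  have e1 : k + (n - 2) - (n - 2) = k := by omega
  have e2 : k + n - 2 = k + (n - 2) := by omega
  have e3 : k + (if l then n - h else h) - 1 = k + (n - 2) - tw1 n h l := by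
    unfold tw1
    split_ifs <;> omega
  have e4 : k + (if e then (if l then n - h else h) else n - h) - 1 = k + (n - 2) - tw2 n h e l := by
    unfold tw2 tw1
    split_ifs <;> omega
  rw [e1, e2, e3, e4]
  push_cast
  ring

/-! ### The nodes -/

private theorem c_two {c : ℤ} (h : |c| = 2) : (c.sign = 1 ∨ c.sign = -1) ∧ (c : ℝ) / 2 = c.sign := by
  rcases abs_eq (by norm_num) |>.1 h with rfl | rfl
  · refine ⟨Or.inl (by decide), ?_⟩
    rw [show Int.sign 2 = 1 by decide]
    norm_num
  · refine ⟨Or.inr (by decide), ?_⟩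
    rw [show Int.sign (-2) = -1 by decide]
    norm_num

private theorem c_three {c : ℤ} (h : |c| = 3) :
    (c.sign = 1 ∨ c.sign = -1) ∧ (c : ℝ) / 2 = 3 * c.sign / 2 := by
  rcases abs_eq (by norm_num) |>.1 h with rfl | rfl
  · refine ⟨Or.inl (by decide), ?_⟩
    rw [show Int.sign 3 = 1 by decide]
    norm_num
  · refine ⟨Or.inr (by decide), ?_⟩
    rw [show Int.sign (-3) = -1 by decide]
    norm_num

private theorem c_four {c : ℤ} (h : |c| = 4) :
    (c.sign = 1 ∨ c.sign = -1) ∧ (c : ℝ) / 2 = 2 * c.sign := by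
  rcases abs_eq (by norm_num) |>.1 h with rfl | rfl
  · refine ⟨Or.inl (by decide), ?_⟩
    rw [show Int.sign 4 = 1 by decide]
    norm_num
  · refine ⟨Or.inr (by decide), ?_⟩
    rw [show Int.sign (-4) = -1 by decide]
    norm_num

private theorem kI_eq {C : Ch m} {P : Fin (m + 1) → Bool} {n h : ℕ} {i : Fin (m + 1)}
    (hi : C.ty i ≠ Ty.vn) (M : ℕ) (z a b : ℂ) : kI C P n h i M z a b =
    kNe (eI n h (P i) (sg5 P i)) (C.c i) (C.ty i) (C.fl i) M (z - (shZ n h (P i) (C.fl i) i : ℝ) / M)
    (a - (shL n h (P i) i : ℝ) / M) (b - (shR n h (P i) i : ℝ) / M) := by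
  unfold kI
  rw [if_neg hi]

private theorem N5_true {r : ℝ} {n h M : ℕ} (hh : 1 ≤ h) (hn : 2 * h ≤ n) {P : Fin (m + 1) → Bool}
    {i : Fin (m + 1)} (hP : P i = true) (x y : ℕ) : N5 r n h M P i x y =
    D2 r M (x + (n - 2) - siL n h i) (y + (n - 2) - siR n h i) := by
  unfold N5
  rw [if_pos hP]
  congr 1
  · unfold siL
    split_ifs <;> omega
  · unfold siR
    split_ifs <;> omega

private theorem siLR {n h : ℕ} (hh : 1 ≤ h) (hn : 2 * h ≤ n) (i : ℕ) :
    siL n h i + siR n h i = n - 2 := by
  unfold siL siR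
  split_ifs <;> omega

/-- The factors of the nodes. -/
theorem N5_gI {C : Ch m} (hC : C.OK) {P : Fin (m + 1) → Bool}
    (hP : OkL 0 (List.ofFn fun i => (P i, C.c i))) {n h M : ℕ} (hh : 1 ≤ h) (hn : 2 * h ≤ n)
    (hM : n ≤ M) (i : Fin (m + 1)) {x y : ℕ} (hx : x < M + 2 - n) (hy : y < M + 2 - n) :
    N5 ((C.c i : ℝ) / 2) n h M P i x y =
      cst C P n h i M * gI C P n h i M (x + (n - 2)) (y + (n - 2)) := by
  have hM0 : 0 < M := by omega
  have hn2 : 2 ≤ n := by omega
  obtain ⟨L, hL⟩ : ∃ L, M + 1 = n + L := ⟨M + 1 - n, by omega⟩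
  have hL1 : 1 ≤ L := by omega
  have hxL : x ≤ L := by omega
  have hyL : y ≤ L := by omega
  have hLL : L + 1 = M - (n - 2) := by omega
  have hshL : P i = false → ∀ w : ℕ, yM M (w + (n - 2)) - (shL n h (P i) i : ℝ) / M = yN n M w := by
    intro hPi w
    rw [← yM_yN hM0 hn2 w]
    unfold shL
    rw [if_neg (by rw [hPi]; exact Bool.noConfusion)]
  have hshR : P i = false → ∀ w : ℕ, yM M (w + (n - 2)) - (shR n h (P i) i : ℝ) / M = yN n M w := by
    intro hPi w
    rw [← yM_yN hM0 hn2 w]
    unfold shR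
    rw [if_neg (by rw [hPi]; exact Bool.noConfusion)]
  have hshZ : P i = false → ∀ (fl : Bool) (w : ℕ),
      yM M (w + (n - 2)) - (shZ n h (P i) fl i : ℝ) / M = yN n M w := by
    intro hPi fl w
    unfold shZ
    split_ifs
    · exact hshR hPi w
    · exact hshL hPi w
  rcases h1 : C.ty i with _ | _ | _
  · -- closed nodes
    have hi : C.ty i ≠ Ty.vn := by rw [h1]; exact fun h => Ty.noConfusion h
    obtain ⟨hs, hc⟩ := c_two (hC.cl i h1)
    have e1 : gI C P n h i M (x + (n - 2)) (y + (n - 2)) =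
        kI C P n h i M 0 (yM M (x + (n - 2))) (yM M (y + (n - 2))) := by
      unfold gI
      rw [h1]
    have e2 : cst C P n h i M = (-1) ^ nn n (P i) * ph2 (C.c i).sign M * (4 * Real.pi) := by
      unfold cst
      rw [h1]
    rw [e1, e2, kI_eq hi, h1, hc]
    show _ = _ * kC (C.c i).sign M _ _
    cases hPi : P i
    · have hσ : sg5 P i = 0 := sg5_even P C.c hP hPi (by
        have := hC.cl i h1
        rcases abs_eq (by norm_num) |>.1 this with h | h <;> rw [h] <;> decide)
      rw [← hPi, hshL hPi, hshR hPi, hPi]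
      unfold N5
      rw [if_neg (by rw [hPi]; exact Bool.noConfusion), hσ, DA_two hs hh hn hL1 hL hxL hyL]
      rfl
    · rw [N5_true hh hn hPi, D2_two hs (by omega) (by omega)]
      have e3 : shL n h true i = ((siL n h i : ℕ) : ℝ) := rfl
      have e4 : shR n h true i = ((siR n h i : ℕ) : ℝ) := rfl
      rw [e3, e4, yM_sh hM0 (by have := siL_bd hh hn i; omega),
        yM_sh hM0 (by have := siR_bd hh hn i; omega)]
      unfold nn
      rw [if_pos rfl]
      ring
  · -- lattice nodes
    have hi : C.ty i ≠ Ty.vn := by rw [h1]; exact fun h => Ty.noConfusion h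
    have e1 : gI C P n h i M (x + (n - 2)) (y + (n - 2)) = ∑ l ∈ Finset.Ico (n - 2) M,
        kI C P n h i M (yM M l) (yM M (x + (n - 2))) (yM M (y + (n - 2))) := by
      unfold gI
      rw [h1]
    have e2 : cst C P n h i M = if |C.c i| = 3 then
        (-1) ^ nn n (P i) * ph3e (eI n h (P i) (sg5 P i)) (C.c i).sign M * (4 * Real.pi * M)
        else (-1) ^ nn n (P i) * ph4 (C.c i).sign M * (4 * Real.pi) := by
      unfold cst
      rw [h1]
    rw [e1, e2]
    simp only [kI_eq hi, h1]
    have siL' := siL_bd hh hn i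
    have siR' := siR_bd hh hn i
    have hLR := siLR hh hn i
    by_cases h3 : |C.c i| = 3
    · obtain ⟨hs, hc⟩ := c_three h3
      rw [if_pos h3, hc]
      cases hPi : P i
      · have hσ : sg5 P i = 1 ∨ sg5 P i = -1 := sg5_odd P C.c hP hPi (by
          rcases abs_eq (by norm_num) |>.1 h3 with h | h <;> rw [h] <;> decide)
        have e4 : ∀ (b : Bool), (∑ l ∈ Finset.Ico (n - 2) M, kNe (eI n h false (sg5 P i)) (C.c i) Ty.zn b M
            (yM M l - (shZ n h false b i : ℝ) / M) (yM M (x + (n - 2)) - (shL n h false i : ℝ) / M)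
            (yM M (y + (n - 2)) - (shR n h false i : ℝ) / M)) =
            ∑ z ∈ Finset.range (L + 1), kNe (esN n h (sg5 P i)) (C.c i) Ty.zn b M
              (yN n M z) (yN n M x) (yN n M y) := by
          intro b
          rw [Finset.sum_Ico_eq_sum_range, hLL]
          refine Finset.sum_congr rfl fun z _ => ?_
          rw [add_comm (n - 2) z, ← hPi, hshZ hPi, hshL hPi, hshR hPi, hPi]
          rfl
        rw [e4]
        unfold N5
        rw [if_neg (by rw [hPi]; exact Bool.noConfusion)]
        cases C.fl i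
        · rw [DA_three hs hh hn hL1 hL hσ hxL hyL]
          unfold kNe
          simp only [if_pos h3, Bool.false_eq_true, if_false]
          rfl
        · rw [DA_comm, DA_three hs hh hn hL1 hL hσ hyL hxL]
          unfold kNe
          simp only [if_pos h3, if_true]
          rfl
      · rw [N5_true hh hn hPi]
        have e3 : shL n h true i = ((siL n h i : ℕ) : ℝ) := rfl
        have e4 : shR n h true i = ((siR n h i : ℕ) : ℝ) := rfl
        have e5 : eI n h true (sg5 P i) = 0 := rfl
        have hph : ∀ s : ℤ, (-1) ^ nn n true * ph3e (0 : ℝ) s M = ph3 s M := by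
          intro s
          unfold nn ph3e ph3
          rw [if_pos rfl]
          simp
        rw [e5, hph]
        cases C.fl i
        · have e7 : shZ n h true false i = ((siL n h i : ℕ) : ℝ) := rfl
          rw [D2_three hs (by omega) (by omega)]
          congr 1
          rw [← sum_true hLR hM hn2 (C.c i).sign (κ := x + (n - 2)) (κ' := y + (n - 2)) (by omega)
            (by omega) (by omega) (by omega) (kH (C.c i).sign M) (hF_H _)]
          refine Finset.sum_congr rfl fun l _ => ?_
          rw [e3, e4, e7]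
          unfold kNe
          simp only [if_pos h3, Bool.false_eq_true, if_false, kHe_zero]
        · have e7 : shZ n h true true i = ((siR n h i : ℕ) : ℝ) := rfl
          rw [D2_comm, D2_three hs (by omega) (by omega)]
          congr 1
          rw [← sum_true (a := siR n h i) (b := siL n h i) (by omega) hM hn2 (C.c i).sign
            (κ := y + (n - 2)) (κ' := x + (n - 2)) (by omega)
            (by omega) (by omega) (by omega) (kH (C.c i).sign M) (hF_H _)]
          refine Finset.sum_congr rfl fun l _ => ?_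
          rw [e3, e4, e7]
          unfold kNe
          simp only [if_pos h3, if_true, kHe_zero]
    · have h4 : |C.c i| = 4 := (hC.zn i h1).resolve_left h3
      obtain ⟨hs, hc⟩ := c_four h4
      rw [if_neg h3, hc]
      cases hPi : P i
      · have hσ : sg5 P i = 0 := sg5_even P C.c hP hPi (by
          rcases abs_eq (by norm_num) |>.1 h4 with h | h <;> rw [h] <;> decide)
        have e4 : ∀ (b : Bool), (∑ l ∈ Finset.Ico (n - 2) M, kNe (eI n h false (sg5 P i)) (C.c i) Ty.zn b M
            (yM M l - (shZ n h false b i : ℝ) / M) (yM M (x + (n - 2)) - (shL n h false i : ℝ) / M)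
            (yM M (y + (n - 2)) - (shR n h false i : ℝ) / M)) =
            ∑ z ∈ Finset.range (L + 1), kNe (esN n h (sg5 P i)) (C.c i) Ty.zn b M
              (yN n M z) (yN n M x) (yN n M y) := by
          intro b
          rw [Finset.sum_Ico_eq_sum_range, hLL]
          refine Finset.sum_congr rfl fun z _ => ?_
          rw [add_comm (n - 2) z, ← hPi, hshZ hPi, hshL hPi, hshR hPi, hPi]
          rfl
        rw [e4]
        unfold N5
        rw [if_neg (by rw [hPi]; exact Bool.noConfusion), hσ]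
        cases C.fl i
        · rw [DA_four hs hh hn hL1 hL hxL hyL]
          unfold kNe
          simp only [if_neg h3, Bool.false_eq_true, if_false]
          rfl
        · rw [DA_comm, DA_four hs hh hn hL1 hL hyL hxL]
          unfold kNe
          simp only [if_neg h3, if_true]
          rfl
      · rw [N5_true hh hn hPi]
        have e3 : shL n h true i = ((siL n h i : ℕ) : ℝ) := rfl
        have e4 : shR n h true i = ((siR n h i : ℕ) : ℝ) := rfl
        have hph : ∀ s : ℤ, (-1) ^ nn n true * ph4 s M = ph4 s M := by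
          intro s
          unfold nn
          rw [if_pos rfl]
          simp
        rw [hph]
        cases C.fl i
        · have e7 : shZ n h true false i = ((siL n h i : ℕ) : ℝ) := rfl
          rw [D2_four hs (by omega) (by omega)]
          congr 1
          rw [← sum_true hLR hM hn2 (C.c i).sign (κ := x + (n - 2)) (κ' := y + (n - 2)) (by omega)
            (by omega) (by omega) (by omega) (kC (C.c i).sign M) (hF_C _)]
          refine Finset.sum_congr rfl fun l _ => ?_
          rw [e3, e4, e7]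
          unfold kNe
          simp only [if_neg h3, Bool.false_eq_true, if_false]
        · have e7 : shZ n h true true i = ((siR n h i : ℕ) : ℝ) := rfl
          rw [D2_comm, D2_four hs (by omega) (by omega)]
          congr 1
          rw [← sum_true (a := siR n h i) (b := siL n h i) (by omega) hM hn2 (C.c i).sign
            (κ := y + (n - 2)) (κ' := x + (n - 2)) (by omega)
            (by omega) (by omega) (by omega) (kC (C.c i).sign M) (hF_C _)]
          refine Finset.sum_congr rfl fun l _ => ?_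
          rw [e3, e4, e7]
          unfold kNe
          simp only [if_neg h3, if_true]
  · have e1 : gI C P n h i M (x + (n - 2)) (y + (n - 2)) =
        N5 ((C.c i : ℝ) / 2) n h M P i (x + (n - 2) - (n - 2)) (y + (n - 2) - (n - 2)) := by
      unfold gI
      rw [h1]
    have e2 : cst C P n h i M = 1 := by
      unfold cst
      rw [h1]
    rw [e1, e2, one_mul]
    congr 1 <;> omega

/-- **The state sum in terms of the kernels.** -/
theorem JG4_krN {C : Ch m} (hC : C.OK) {P : Fin (m + 1) → Bool}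
    (hP : OkL 0 (List.ofFn fun i => (P i, C.c i))) {n h M : ℕ} (hh : 1 ≤ h) (hn : 2 * h ≤ n)
    (hM : n ≤ M) : JG4 P (fun i => (C.c i : ℝ) / 2) n h M =
      (M : ℂ) ^ 2 * (∏ i, cst C P n h i M) * (krN C P n h).J M := by
  rw [JG4_path hC.m1 (by omega) hh hn hM P _ (okl_adj m 0 P C.c hP), mul_assoc]
  congr 1
  unfold Krn.J Krn.JR
  rw [Finset.mul_sum]
  refine Finset.sum_bij' (fun k _ j => k j + (n - 2)) (fun κ _ j => κ j - (n - 2)) ?_ ?_ ?_ ?_ ?_
  · intro k hk
    rw [Fintype.mem_piFinset] at hk ⊢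
    intro j
    have h1 := Finset.mem_range.1 (hk j)
    have e1 : (krN C P n h).h0 = n - 2 := rfl
    rw [e1]
    exact Finset.mem_Ico.2 ⟨by omega, by omega⟩
  · intro k hk
    rw [Fintype.mem_piFinset] at hk ⊢
    intro j
    have h1 := Finset.mem_Ico.1 (hk j)
    have e1 : (krN C P n h).h0 = n - 2 := rfl
    rw [e1] at h1
    exact Finset.mem_range.2 (by omega)
  · intro k _
    funext j
    exact Nat.add_sub_cancel _ _
  · intro k hk
    rw [Fintype.mem_piFinset] at hk
    funext j
    have h1 := Finset.mem_Ico.1 (hk j)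
    have e1 : (krN C P n h).h0 = n - 2 := rfl
    rw [e1] at h1
    show k j - (n - 2) + (n - 2) = k j
    omega
  · intro k hk
    rw [Fintype.mem_piFinset] at hk
    have hk' : ∀ j, k j < M + 2 - n := fun j => Finset.mem_range.1 (hk j)
    have hke : ∀ p, keN (M + 1 - n) k p < M + 2 - n := by
      intro p
      unfold keN
      split_ifs
      · exact hk' _
      · omega
    have hke' : ∀ p, keN (M + 1 - n) k p + (n - 2) = ke M (fun j => k j + (n - 2)) p := by
      intro p
      unfold keN ke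
      split_ifs
      · rfl
      · omega
    have e1 : ∏ j, (w5 n h (et P j) (la P j) M (k j) : ℂ) =
        ∏ j, (krN C P n h).w j M (yM M (k j + (n - 2))) :=
      Finset.prod_congr rfl fun j _ => w5_wI hh hn hM _ _ (hk' j)
    have e2 : ∏ i, N5 ((C.c i : ℝ) / 2) n h M P i (keN (M + 1 - n) k i)
        (keN (M + 1 - n) k ((i : ℕ) + 1)) = (∏ i, cst C P n h i M) *
        ∏ i, (krN C P n h).g i M (ke M (fun j => k j + (n - 2)) i)
          (ke M (fun j => k j + (n - 2)) (i + 1)) := by
      rw [← Finset.prod_mul_distrib]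
      refine Finset.prod_congr rfl fun i _ => ?_
      rw [N5_gI hC hP hh hn hM i (hke _) (hke _), hke', hke']
      rfl
    rw [e1, e2]
    ring

end Pool.Agent.S5
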