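import Pool.Agent.S5.N.Conv2
import Pool.Agent.S5.X.Nod

/-!
# Nodes of antiparallel strands in closed form, by the kernels `kC`, `kB`, `kHe`
-/

namespace Pool.Agent.S5

open Pool.Agent.H63.VC hiding ext
open Pool.Agent.H63.VC3 Pool.Agent.H63.VC7 Pool.Agent.S3 Pool.Agent.S4 Complex Filter Topology
open scoped ComplexConjugate

/-! ### Positions -/

theorem yN_dif {M : ℕ} (hM : 0 < M) (n k l : ℕ) :
    (M : ℂ) * (yN n M k - yN n M l) = (k : ℂ) - l := by
  have : (M : ℂ) ≠ 0 := by exact_mod_cast hM.ne'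
  rw [yN, yN]
  field_simp
  ring

theorem yN_sum {M : ℕ} (hM : 0 < M) (n k l : ℕ) :
    (M : ℂ) * (yN n M k + yN n M l) - 1 = (k : ℂ) + l + n - 1 - M := by
  have : (M : ℂ) ≠ 0 := by exact_mod_cast hM.ne'
  rw [yN, yN]
  field_simp
  ring

theorem conj_yN (n M k : ℕ) : conj (yN n M k) = yN n M k := by
  have c2 : (starRingEnd ℂ) 2 = 2 := by simpa using Complex.conj_ofReal 2
  rw [yN]
  simp [c2]

/-! ### The opposite twist -/

theorem Wd_conj (M d : ℕ) (v : ℂ) : Wd M d (conj v) = conj (Wd M d v) := by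
  have c2 : (starRingEnd ℂ) 2 = 2 := by simpa using Complex.conj_ofReal 2
  rw [Wd, Wd, map_prod]
  refine Finset.prod_congr rfl fun j _ => ?_
  rw [map_mul, ← cos_conj]
  simp [c2]

theorem q4_conj (M d t : ℕ) (v : ℂ) : q4 M d t (conj v) = conj (q4 M d t v) := by
  have c2 : (starRingEnd ℂ) 2 = 2 := by simpa using Complex.conj_ofReal 2
  have c4 : (starRingEnd ℂ) 4 = 4 := by simpa using Complex.conj_ofReal 4
  rw [q4, q4, map_mul, map_prod]
  congr 1
  · simp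
  · refine Finset.prod_congr rfl fun j _ => ?_
    rw [map_mul, map_mul, ← cos_conj, ← cos_conj]
    simp [c2, c4]

theorem NA_conj (r : ℝ) (n d M : ℕ) (σ : ℤ) (k l : ℕ) (v : ℂ) :
    NA (-r) n d M σ k l (conj v) = conj (NA r n d M σ k l v) := by
  have c2 : (starRingEnd ℂ) 2 = 2 := by simpa using Complex.conj_ofReal 2
  rw [NA, NA, Wd_conj, Wd_conj, q4_conj, q4_conj]
  simp only [map_mul, map_pow, map_zpow₀, ← exp_conj, ← sin_conj, c2, conj_I, conj_ofReal,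
    conj_natCast, ofReal_neg]
  congr 4
  ring

theorem DA_neg {M n h : ℕ} (hM : 0 < M) (hh : 1 ≤ h) (hn : 2 * h ≤ n) (hnM : n ≤ M + 1) (r : ℝ)
    {σ : ℤ} (hσ : σ = 0 ∨ σ = 1 ∨ σ = -1) (k l : ℕ) :
    DA (-r) n (n - 2 * h) M σ k l = conj (DA r n (n - 2 * h) M σ k l) := by
  rw [DA, DA, map_sum]
  refine Finset.sum_congr rfl fun X hX => ?_
  have hX' := Finset.mem_range.1 hX
  set x : ℂ := ((vl n M X : ℝ) : ℂ) with hx
  have e1 : (M : ℂ) * (x + 1 / 2) = (X : ℂ) + be n := by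
    have hM' : (M : ℂ) ≠ 0 := by exact_mod_cast hM.ne'
    rw [hx, vl, ← bt_be]
    push_cast
    field_simp
    ring
  have hd : DifferentiableAt ℂ (NA r n (n - 2 * h) M σ k l) x := by
    have hc : ContinuousAt (fun v : ℂ => Dw M (n - 2 * h) (M * (v + 1 / 2))) x :=
      ((Dw_diff M _).continuous.comp (by fun_prop)).continuousAt
    have hne : Dw M (n - 2 * h) (M * (x + 1 / 2)) ≠ 0 := by
      rw [e1]
      exact Dw_lat hh hn hnM hX'
    have hev : NA r n (n - 2 * h) M σ k l =ᶠ[𝓝 x] fun v => 1 / M ^ 2 *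
        FB r M n (BB M n h σ) (M + 1 - n - k) (M + 1 - n - l) (M * (v + 1 / 2)) := by
      filter_upwards [hc.eventually_ne hne] with v hv
      exact NA_FB hM hh hn r hσ k l hv
    refine DifferentiableAt.congr_of_eventuallyEq ?_ hev
    refine DifferentiableAt.const_mul ?_ _
    exact DifferentiableAt.comp (g := FB r M n (BB M n h σ) (M + 1 - n - k) (M + 1 - n - l))
      (f := fun v : ℂ => (M : ℂ) * (v + 1 / 2)) x
      (FB_diff r M n (BB_diff M n h σ) (M + 1 - n - k) (M + 1 - n - l) _) (by fun_prop)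
  have h1 := hd.hasDerivAt.conj_conj
  rw [hx, Complex.conj_ofReal, ← hx] at h1
  have h2 : (conj ∘ NA r n (n - 2 * h) M σ k l ∘ conj : ℂ → ℂ) = NA (-r) n (n - 2 * h) M σ k l := by
    funext v
    simp only [Function.comp]
    rw [← NA_conj, Complex.conj_conj]
  rw [h2] at h1
  exact h1.deriv

/-! ### The Bailey step -/

theorem bN_kB {M n L k z : ℕ} (hn : 2 ≤ n) (hM : M + 1 = n + L) (hk : k ≤ L) (hz : z ≤ k) :
    bN M n (L - k) (k - z) =
      exp (Real.pi * I / (2 * M)) * kB 1 M (yN n M k) (yN n M z) := by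
  have hM0 : 0 < M := by omega
  have hM' : (M : ℂ) ≠ 0 := by exact_mod_cast hM0.ne'
  have hM2 : (M : ℂ) = n + L - 1 := by
    have : (M : ℂ) + 1 = n + L := by exact_mod_cast hM
    linear_combination this
  obtain ⟨N, rfl⟩ : ∃ N, M = N + 1 := ⟨M - 1, by omega⟩
  have hxi : qE (N + 1) 0 = xi N := by
    rw [qE, xi]
    congr 1
    ring
  have hp : (S (N + 1) (k - z) : ℂ) ≠ 0 := by
    exact_mod_cast (S_pos (show k - z < N + 1 by omega)).ne'
  have hI : (I : ℂ) ^ (k - z) ≠ 0 := pow_ne_zero _ I_ne_zero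
  rw [bN, cN, hxi, bf_xi, KE, kB, yN_dif hM0, rS_dif (by omega), if_pos hz]
  have h2 : xi N ^ (2 * (L - k) * (L - k + n - 1) + (k - z) * (2 * (L - k) + n) +
      (k - z) * (k - z - 1) / 2) = exp (Real.pi * I * (2 * ((L : ℂ) - k) * (L - k + n - 1) +
      ((k : ℂ) - z) * (2 * (L - k) + n) + ((k : ℂ) - z) * (((k : ℂ) - z) - 1) / 2) /
        ((N + 1 : ℕ) : ℂ)) := by
    rw [← zpow_natCast, xi_zpow]
    congr 1
    have e1 : (((2 * (L - k) * (L - k + n - 1) + (k - z) * (2 * (L - k) + n) +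
      (k - z) * (k - z - 1) / 2 : ℕ) : ℤ) : ℂ) = 2 * ((L : ℂ) - k) * (L - k + n - 1) +
      ((k : ℂ) - z) * (2 * (L - k) + n) + ((k : ℂ) - z) * (((k : ℂ) - z) - 1) / 2 := by
      rw [Int.cast_natCast, Nat.cast_add, Nat.cast_add, cast_tri]
      rw [Nat.cast_mul, Nat.cast_mul, Nat.cast_mul, Nat.cast_add, Nat.cast_mul,
        Nat.cast_sub (show 1 ≤ L - k + n by omega), Nat.cast_add, Nat.cast_sub hk,
        Nat.cast_sub hz]
      push_cast
      ring
    rw [e1]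
  rw [h2]
  have h3 : ((-1 : ℂ)) ^ (k - z) = I ^ (k - z) * I ^ (k - z) := by
    rw [← mul_pow, Complex.I_mul_I]
  have e2 : (I : ℂ) ^ (k - z) = exp (Real.pi * I * ((k : ℂ) - z) / 2) := by
    have e3 : (k : ℂ) - z = ((k - z : ℕ) : ℂ) := by rw [Nat.cast_sub hz]
    rw [e3, show (Real.pi : ℂ) * I * ((k - z : ℕ) : ℂ) / 2 =
      ((k - z : ℕ) : ℂ) * (Real.pi / 2 * I) by ring, exp_nat_mul, exp_pi_div_two_mul_I]
  have e4 : exp (2 * Real.pi * I * (be n ^ 2 * (1 + 0) / ((N + 1 : ℕ) : ℂ) - be n +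
      ((N + 1 : ℕ) : ℂ) / (4 * (1 + 0)))) * (exp (Real.pi * I * ((k : ℂ) - z) / 2) *
      exp (Real.pi * I * (2 * ((L : ℂ) - k) * (L - k + n - 1) +
      ((k : ℂ) - z) * (2 * (L - k) + n) + ((k : ℂ) - z) * (((k : ℂ) - z) - 1) / 2) /
        ((N + 1 : ℕ) : ℂ))) = exp (Real.pi * I / (2 * ((N + 1 : ℕ) : ℂ))) *
      exp (((1 : ℤ) : ℂ) * Real.pi * I * (((N + 1 : ℕ) : ℂ) * ((yN n (N + 1) k +
        yN n (N + 1) z) ^ 2 / 2 - (yN n (N + 1) k - yN n (N + 1) z) / 2) -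
          (yN n (N + 1) k + 3 * yN n (N + 1) z) / 2)) := by
    rw [← exp_add, ← exp_add, ← exp_add, exp_eq_exp_iff_exists_int]
    have hL2 : (L : ℂ) = ((N + 1 : ℕ) : ℂ) + 1 - n := by
      rw [hM2]
      ring
    refine ⟨(N : ℤ) + 2 - n - z, ?_⟩
    rw [hL2, yN, yN, be]
    push_cast
    push_cast at hM'
    field_simp
    ring
  rw [h3]
  have e5 : exp (2 * Real.pi * I * (be n ^ 2 * (1 + 0) / ((N + 1 : ℕ) : ℂ) - be n +
      ((N + 1 : ℕ) : ℂ) / (4 * (1 + 0)))) * (I ^ (k - z) * I ^ (k - z) *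
      (exp (Real.pi * I * (2 * ((L : ℂ) - k) * (L - k + n - 1) +
      ((k : ℂ) - z) * (2 * (L - k) + n) + ((k : ℂ) - z) * (((k : ℂ) - z) - 1) / 2) /
        ((N + 1 : ℕ) : ℂ)) / (I ^ (k - z) * (S (N + 1) (k - z) : ℂ)))) =
      (exp (2 * Real.pi * I * (be n ^ 2 * (1 + 0) / ((N + 1 : ℕ) : ℂ) - be n +
      ((N + 1 : ℕ) : ℂ) / (4 * (1 + 0)))) * (I ^ (k - z) *
      exp (Real.pi * I * (2 * ((L : ℂ) - k) * (L - k + n - 1) +
      ((k : ℂ) - z) * (2 * (L - k) + n) + ((k : ℂ) - z) * (((k : ℂ) - z) - 1) / 2) /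
        ((N + 1 : ℕ) : ℂ)))) * (1 / (S (N + 1) (k - z) : ℂ)) := by
    field_simp
  rw [e5, e2, e4, mul_assoc]

/-- The Bailey step. -/
theorem DA_bailey {M n h L : ℕ} (hh : 1 ≤ h) (hn : 2 * h ≤ n) (hM : M + 1 = n + L) (r : ℝ)
    {σ : ℤ} (hσ : σ = 0 ∨ σ = 1 ∨ σ = -1) {k : ℕ} (hk : k ≤ L) (l : ℕ) :
    DA (r + 1) n (n - 2 * h) M σ k l = exp (Real.pi * I / (2 * M)) *
      ∑ z ∈ Finset.range (L + 1), kB 1 M (yN n M k) (yN n M z) *
        DA r n (n - 2 * h) M σ z l := by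
  have hM0 : 0 < M := by omega
  have hn2 : 2 ≤ n := by omega
  rw [DA_SL hM0 hh hn (by omega) _ hσ]
  have e0 : ((r + 1 : ℝ) : ℂ) = (r : ℂ) + 1 := by push_cast; rfl
  have e1 : M + 1 - n - k = L - k := by omega
  rw [e0, e1, SL_bailey hn2 hM (r : ℂ) (BB_diff M n h σ) (L - k)]
  have e2 : L + 1 - (L - k) = k + 1 := by omega
  rw [e2, ← Finset.sum_range_reflect, Finset.mul_sum, Finset.mul_sum]
  have h1 : ∑ z ∈ Finset.range (L + 1), exp (Real.pi * I / (2 * M)) *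
      (kB 1 M (yN n M k) (yN n M z) * DA r n (n - 2 * h) M σ z l) =
      ∑ z ∈ Finset.range (k + 1), exp (Real.pi * I / (2 * M)) *
      (kB 1 M (yN n M k) (yN n M z) * DA r n (n - 2 * h) M σ z l) := by
    symm
    refine Finset.sum_subset (Finset.range_mono (by omega)) fun z _ hz => ?_
    rw [Finset.mem_range, not_lt] at hz
    rw [kB, yN_dif hM0, rS_dif (by omega), if_neg (by omega)]
    ring
  rw [h1]
  refine Finset.sum_congr rfl fun z hz => ?_
  have hz' : z ≤ k := Nat.lt_succ_iff.1 (Finset.mem_range.1 hz)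
  have e3 : k + 1 - 1 - z = k - z := by omega
  have e4 : L - k + (k - z) = M + 1 - n - z := by omega
  rw [e3, e4, bN_kB hn2 hM hk hz', DA_SL hM0 hh hn (by omega) r hσ z l]
  ring

/-! ### Two half twists -/

theorem DA_zero {M n h L : ℕ} (hh : 1 ≤ h) (hn : 2 * h ≤ n) (hL : 1 ≤ L) (hM : M + 1 = n + L)
    {k l : ℕ} (hk : k ≤ L) (hl : l ≤ L) :
    DA 0 n (n - 2 * h) M 0 k l = if k + l = L then (-1) ^ L * (4 * (Real.pi : ℂ)) else 0 := by
  have hM0 : 0 < M := by omega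
  have hM' : (M : ℂ) ≠ 0 := by exact_mod_cast hM0.ne'
  rw [DA_SL hM0 hh hn (by omega) 0 (Or.inl rfl), BB_zero, ofReal_zero,
    SL0_val (by omega) hL hM (by omega) (by omega)]
  by_cases h1 : k + l = L
  · rw [if_pos h1, if_pos (by omega)]
    field_simp
  · rw [if_neg h1, if_neg (by omega), mul_zero]

theorem kC_kB {M n L : ℕ} (hn : 2 ≤ n) (hM : M + 1 = n + L) {k l : ℕ} (hl : l ≤ L) :
    exp (Real.pi * I / (2 * M)) * kB 1 M (yN n M k) (yN n M (L - l)) * (-1) ^ L =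
      (-1) ^ n * ph2 1 M * kC 1 M (yN n M k) (yN n M l) := by
  have hM0 : 0 < M := by omega
  have hM' : (M : ℂ) ≠ 0 := by exact_mod_cast hM0.ne'
  have hM2 : (M : ℂ) + 1 = n + L := by exact_mod_cast hM
  have e1 : (M : ℂ) * (yN n M k - yN n M (L - l)) = M * (yN n M k + yN n M l) - 1 := by
    rw [yN_dif hM0, yN_sum hM0, Nat.cast_sub hl]
    linear_combination hM2
  have e2 : yN n M (L - l) = 1 / M - yN n M l := by
    rw [yN, yN, Nat.cast_sub hl]
    field_simp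
    linear_combination (-2) * hM2
  have e3 : ((-1 : ℂ)) ^ L = (-1) ^ n * (-1) ^ (M + 1) := by
    rw [hM, ← pow_add, show n + (n + L) = 2 * n + L by ring, pow_add, pow_mul]
    norm_num
  rw [kB, kC, ph2, e1, e3]
  have e4 : exp (Real.pi * I / (2 * M)) * exp (((1 : ℤ) : ℂ) * Real.pi * I *
      (M * ((yN n M k + yN n M (L - l)) ^ 2 / 2 - (yN n M k - yN n M (L - l)) / 2) -
        (yN n M k + 3 * yN n M (L - l)) / 2)) =
      exp (((1 : ℤ) : ℂ) * Real.pi * I * (1 - M / 2 - 1 / (2 * M))) *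
      exp (((1 : ℤ) : ℂ) * Real.pi * I * (M * ((yN n M k - yN n M l) ^ 2 / 2 +
        (1 - yN n M k - yN n M l) / 2) - (1 - yN n M k - yN n M l) / 2)) := by
    rw [← exp_add, ← exp_add, e2]
    congr 1
    push_cast
    field_simp
    ring
  linear_combination (rS M (M * (yN n M k + yN n M l) - 1) * ((-1) ^ n * (-1) ^ (M + 1))) * e4

theorem DA_two_pos {M n h L : ℕ} (hh : 1 ≤ h) (hn : 2 * h ≤ n) (hL : 1 ≤ L) (hM : M + 1 = n + L)
    {k l : ℕ} (hk : k ≤ L) (hl : l ≤ L) :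
    DA 1 n (n - 2 * h) M 0 k l =
      (-1) ^ n * ph2 1 M * (4 * Real.pi) * kC 1 M (yN n M k) (yN n M l) := by
  have h1 := DA_bailey hh hn hM 0 (Or.inl rfl : (0 : ℤ) = 0 ∨ (0 : ℤ) = 1 ∨ (0 : ℤ) = -1) hk l
  rw [zero_add] at h1
  rw [h1, Finset.sum_eq_single (L - l)]
  · rw [DA_zero hh hn hL hM (by omega) hl, if_pos (by omega)]
    have := kC_kB (k := k) (show 2 ≤ n by omega) hM hl
    linear_combination (4 * (Real.pi : ℂ)) * this
  · intro z hz hzl
    have hz' := Finset.mem_range.1 hz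
    rw [DA_zero hh hn hL hM (by omega) hl, if_neg (by omega), mul_zero]
  · intro hz
    exact absurd (Finset.mem_range.2 (by omega)) hz

theorem conj_kCN (s : ℤ) (n M k l : ℕ) :
    conj (kC s M (yN n M k) (yN n M l)) = kC (-s) M (yN n M k) (yN n M l) := by
  have c2 : (starRingEnd ℂ) 2 = 2 := by simpa using Complex.conj_ofReal 2
  rw [kC, kC, map_mul, ← rS_conj, conj_exp_s]
  · simp [conj_yN]
  · simp [conj_yN, c2]

theorem conj_kBN (s : ℤ) (n M k l : ℕ) :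
    conj (kB s M (yN n M k) (yN n M l)) = kB (-s) M (yN n M k) (yN n M l) := by
  have c2 : (starRingEnd ℂ) 2 = 2 := by simpa using Complex.conj_ofReal 2
  have c3 : (starRingEnd ℂ) 3 = 3 := by simpa using Complex.conj_ofReal 3
  rw [kB, kB, map_mul, ← rS_conj, conj_exp_s]
  · simp [conj_yN]
  · simp [conj_yN, c2, c3]

theorem conj_neg_one_pow (n : ℕ) : conj ((-1 : ℂ) ^ n) = (-1) ^ n := by simp

/-- Two half twists. -/
theorem DA_two {s : ℤ} (hs : s = 1 ∨ s = -1) {M n h L : ℕ} (hh : 1 ≤ h) (hn : 2 * h ≤ n)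
    (hL : 1 ≤ L) (hM : M + 1 = n + L) {k l : ℕ} (hk : k ≤ L) (hl : l ≤ L) :
    DA s n (n - 2 * h) M 0 k l =
      (-1) ^ n * ph2 s M * (4 * Real.pi) * kC s M (yN n M k) (yN n M l) := by
  rcases hs with rfl | rfl
  · have := DA_two_pos hh hn hL hM hk hl
    push_cast
    exact this
  · have h1 : (((-1 : ℤ) : ℝ)) = -1 := by norm_num
    rw [h1, DA_neg (by omega) hh hn (by omega) 1 (Or.inl rfl), DA_two_pos hh hn hL hM hk hl,
      map_mul, map_mul, map_mul, conj_ph2, conj_kCN, conj_fourpi, conj_neg_one_pow]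

/-- Four half twists. -/
theorem DA_four {s : ℤ} (hs : s = 1 ∨ s = -1) {M n h L : ℕ} (hh : 1 ≤ h) (hn : 2 * h ≤ n)
    (hL : 1 ≤ L) (hM : M + 1 = n + L) {k l : ℕ} (hk : k ≤ L) (hl : l ≤ L) :
    DA (2 * s) n (n - 2 * h) M 0 k l = (-1) ^ n * ph4 s M * (4 * Real.pi) *
      ∑ z ∈ Finset.range (L + 1), kB s M (yN n M k) (yN n M z) *
        kC s M (yN n M z) (yN n M l) := by
  have hpos : DA 2 n (n - 2 * h) M 0 k l = (-1) ^ n * ph4 1 M * (4 * Real.pi) *
      ∑ z ∈ Finset.range (L + 1), kB 1 M (yN n M k) (yN n M z) *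
        kC 1 M (yN n M z) (yN n M l) := by
    have h1 := DA_bailey hh hn hM 1 (Or.inl rfl : (0 : ℤ) = 0 ∨ (0 : ℤ) = 1 ∨ (0 : ℤ) = -1) hk l
    have e0 : (1 : ℝ) + 1 = 2 := by norm_num
    rw [e0] at h1
    rw [h1]
    have e3 : ∀ z ∈ Finset.range (L + 1), kB 1 M (yN n M k) (yN n M z) *
        DA 1 n (n - 2 * h) M 0 z l = ((-1) ^ n * ph2 1 M * (4 * Real.pi)) *
          (kB 1 M (yN n M k) (yN n M z) * kC 1 M (yN n M z) (yN n M l)) := by
      intro z hz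
      have hz' := Finset.mem_range.1 hz
      rw [DA_two_pos hh hn hL hM (by omega) hl]
      ring
    rw [Finset.sum_congr rfl e3, ← Finset.mul_sum]
    have hM' : (M : ℂ) ≠ 0 := by exact_mod_cast (show 0 < M by omega).ne'
    have e4 : exp (Real.pi * I / (2 * M)) * ph2 1 M = ph4 1 M := by
      rw [ph2, ph4, mul_left_comm, ← exp_add]
      congr 2
      push_cast
      field_simp
      ring
    rw [← e4]
    ring
  rcases hs with rfl | rfl
  · have e : (2 * ((1 : ℤ) : ℝ)) = 2 := by norm_num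
    rw [e, hpos]
  · have e : (2 * ((-1 : ℤ) : ℝ)) = -2 := by norm_num
    rw [e, DA_neg (by omega) hh hn (by omega) 2 (Or.inl rfl), hpos, map_mul, map_mul, map_mul,
      conj_ph4, conj_fourpi, conj_neg_one_pow, map_sum]
    congr 1
    refine Finset.sum_congr rfl fun z _ => ?_
    rw [map_mul, conj_kBN, conj_kCN]

end Pool.Agent.S5
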