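import Pool.Agent.S5.N.Cl

/-!
# Nodes of antiparallel strands in closed form: one and three half twists
-/

namespace Pool.Agent.S5

open Pool.Agent.H63.VC hiding ext
open Pool.Agent.H63.VC3 Pool.Agent.H63.VC7 Pool.Agent.S3 Pool.Agent.S4 Complex Filter Topology
open scoped ComplexConjugate

/-- The shift of the kernel of a node with an odd number of half twists. -/
noncomputable def esN (n h : ℕ) (σ : ℤ) : ℝ := σ * ((n : ℝ) - 2 * h) / 2

theorem cnB_esN {n h : ℕ} (hn : 2 * h ≤ n) {σ : ℤ} (hσ : σ = 1 ∨ σ = -1) :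
    ((cnB n h σ : ℕ) : ℂ) = n / 2 + ((esN n h σ : ℝ) : ℂ) := by
  rcases hσ with rfl | rfl
  · rw [cnB, if_neg (by norm_num), esN, Nat.cast_sub (by omega)]
    push_cast
    ring
  · rw [cnB, if_pos rfl, esN]
    push_cast
    ring

theorem S_big {M j : ℕ} (hM : 0 < M) (h : M ≤ j) : S M j = 0 := by
  rw [S]
  refine Finset.prod_eq_zero (i := M) (Finset.mem_Ico.2 ⟨by omega, by omega⟩) ?_
  have hM' : (M : ℝ) ≠ 0 := by exact_mod_cast hM.ne'
  rw [sg, mul_div_assoc, div_self hM', mul_one, Real.sin_pi, mul_zero]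

theorem rS_sumN {M n k l : ℕ} (hn : 1 ≤ n) (hkl : k + l + n < M + M + 1) :
    rS M ((k : ℂ) + l + n - 1 - M) =
      if M ≤ k + l + n - 1 then 1 / (S M (k + l + n - 1 - M) : ℂ) else 0 := by
  split_ifs with h
  · have e : (k : ℂ) + l + n - 1 - M = ((k + l + n - 1 - M : ℕ) : ℂ) := by
      rw [Nat.cast_sub h, Nat.cast_sub (by omega)]
      push_cast
      ring
    rw [e, rS_nat (by omega)]
  · have e : (k : ℂ) + l + n - 1 - M = -((M - (k + l + n - 1) : ℕ) : ℂ) := by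
      rw [Nat.cast_sub (by omega), Nat.cast_sub (by omega)]
      push_cast
      ring
    rw [e, rS_neg_nat (by omega) (by omega)]

theorem DA_half_pos {M n h L : ℕ} (hh : 1 ≤ h) (hn : 2 * h ≤ n) (hL : 1 ≤ L) (hM : M + 1 = n + L)
    {σ : ℤ} (hσ : σ = 1 ∨ σ = -1) {k l : ℕ} (hk : k ≤ L) (hl : l ≤ L) :
    DA (1 / 2) n (n - 2 * h) M σ k l = (-1) ^ n * ph1e (esN n h σ) 1 M * (4 * Real.pi * M) *
      kHe (esN n h σ) 1 M (yN n M k) (yN n M l) := by
  have hM0 : 0 < M := by omega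
  have hM' : (M : ℂ) ≠ 0 := by exact_mod_cast hM0.ne'
  have hn2 : 2 ≤ n := by omega
  have hc := cnB_esN hn hσ
  have hc1 : 1 ≤ cnB n h σ := by
    rw [cnB]
    split_ifs <;> omega
  have hc2 : cnB n h σ < n := by
    rw [cnB]
    split_ifs <;> omega
  set c : ℕ := cnB n h σ with hcdef
  set e : ℝ := esN n h σ with hedef
  have hσ' : σ = 0 ∨ σ = 1 ∨ σ = -1 := Or.inr hσ
  have e1 : M + 1 - n - k = L - k := by omega
  have e2 : M + 1 - n - l = L - l := by omega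
  have e3 : (((1 / 2 : ℝ)) : ℂ) = 1 / 2 := by push_cast; rfl
  rw [DA_SL hM0 hh hn (by omega) _ hσ', e1, e2, e3, SL1_val hn2 hL hM hc1 hc2 (BB_diff M n h σ)
    (BB_refl hM0 hn2 h σ) (BB_shift hh hn hσ) (BB_be (by omega) hh hn hσ), RR]
  -- the values of `S`
  have k1 : (S M (L - k + c - 1) : ℂ) = M / (S M (k + n - c - 1) : ℂ) := by
    have hs : (S M (k + n - c - 1) : ℂ) ≠ 0 := by
      exact_mod_cast (S_pos (show k + n - c - 1 < M by omega)).ne'
    have h := S_mul (M := M) (k := k + n - c - 1) (by omega)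
    have h2 : M - 1 - (k + n - c - 1) = L - k + c - 1 := by omega
    rw [h2] at h
    rw [eq_div_iff hs, mul_comm]
    exact_mod_cast h
  have k2 : (S M (L - l + c - 1) : ℂ) = M / (S M (l + n - c - 1) : ℂ) := by
    have hs : (S M (l + n - c - 1) : ℂ) ≠ 0 := by
      exact_mod_cast (S_pos (show l + n - c - 1 < M by omega)).ne'
    have h := S_mul (M := M) (k := l + n - c - 1) (by omega)
    have h2 : M - 1 - (l + n - c - 1) = L - l + c - 1 := by omega
    rw [h2] at h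
    rw [eq_div_iff hs, mul_comm]
    exact_mod_cast h
  have k3 : (S M (L - k + (L - l) + n - 2) : ℂ) = M * rS M (M * (yN n M k + yN n M l) - 1) := by
    rw [yN_sum hM0, rS_sumN (by omega) (by omega)]
    split_ifs with h
    · have hs : (S M (k + l + n - 1 - M) : ℂ) ≠ 0 := by
        exact_mod_cast (S_pos (show k + l + n - 1 - M < M by omega)).ne'
      have h1 := S_mul (M := M) (k := k + l + n - 1 - M) (by omega)
      have h2 : M - 1 - (k + l + n - 1 - M) = L - k + (L - l) + n - 2 := by omega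
      rw [h2] at h1
      rw [mul_one_div, eq_div_iff hs, mul_comm]
      exact_mod_cast h1
    · rw [S_big hM0 (by omega)]
      simp
  have k4 : exp (-LL M (M * (yN n M k + 1 / 2) - 1 - (e : ℂ))) =
      1 / (S M (k + n - c - 1) : ℂ) := by
    have e4 : (M : ℂ) * (yN n M k + 1 / 2) - 1 - (e : ℂ) = ((k + n - c - 1 : ℕ) : ℂ) := by
      rw [yN, Nat.cast_sub (by omega), Nat.cast_sub (by omega), hc]
      push_cast
      field_simp
      ring
    rw [e4, exp_neg, LL_nat M _ (by omega), one_div]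
  have k5 : exp (-LL M (M * (yN n M l + 1 / 2) - 1 - (e : ℂ))) =
      1 / (S M (l + n - c - 1) : ℂ) := by
    have e4 : (M : ℂ) * (yN n M l + 1 / 2) - 1 - (e : ℂ) = ((l + n - c - 1 : ℕ) : ℂ) := by
      rw [yN, Nat.cast_sub (by omega), Nat.cast_sub (by omega), hc]
      push_cast
      field_simp
      ring
    rw [e4, exp_neg, LL_nat M _ (by omega), one_div]
  rw [kHe, k1, k2, k3, k4, k5, ph1e]
  -- the phases
  have hM2 : (M : ℂ) + 1 = n + L := by exact_mod_cast hM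
  have p1 : (-1 : ℂ) ^ (L - k + (L - l)) = exp (Real.pi * I * (2 * L - k - l)) := by
    rw [show (Real.pi : ℂ) * I * (2 * L - k - l) = ((L - k + (L - l) : ℕ) : ℂ) *
      (Real.pi * I) by rw [Nat.cast_add, Nat.cast_sub hk, Nat.cast_sub hl]; ring,
      exp_nat_mul, exp_pi_mul_I]
  have p2 : (-1 : ℂ) ^ n = exp (Real.pi * I * n) := by
    rw [show (Real.pi : ℂ) * I * n = (n : ℂ) * (Real.pi * I) by ring, exp_nat_mul, exp_pi_mul_I]
  have p3 : (-1 : ℂ) ^ (M + 1) = exp (Real.pi * I * (M + 1)) := by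
    rw [show (Real.pi : ℂ) * I * (M + 1) = ((M + 1 : ℕ) : ℂ) * (Real.pi * I) by
      push_cast; ring, exp_nat_mul, exp_pi_mul_I]
  have p4 : Eg (1 / 2) M (be n) * ze M (c * L) * ((-1) ^ (L - k + (L - l)) *
      ze M (-((c : ℂ) * (((L - k : ℕ) : ℂ) + ((L - l : ℕ) : ℂ)) +
        ((L - k : ℕ) : ℂ) * ((L - l : ℕ) : ℂ)))) =
      (-1) ^ n * ((-1) ^ (M + 1) * exp (((1 : ℤ) : ℂ) * Real.pi * I *
        (M / 4 + 1 / 2 - (3 + 4 * e) / (4 * M)))) *
      exp (-(((1 : ℤ) : ℂ) * Real.pi * I * (M * (yN n M k + 1 / 2) * (yN n M l + 1 / 2) -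
        (1 + e) * (yN n M k + yN n M l)))) := by
    rw [p1, p2, p3, Eg, ze, ze, ← exp_add, ← exp_add, ← exp_add, ← exp_add, ← exp_add,
      ← exp_add, exp_eq_exp_iff_exists_int, Nat.cast_sub hk, Nat.cast_sub hl]
    refine ⟨-(n : ℤ), ?_⟩
    have hL2 : (L : ℂ) = M + 1 - n := by linear_combination (-1 : ℂ) * hM2
    rw [hc, hL2, yN, yN, be]
    push_cast
    field_simp
    ring
  have e5 : 1 / (M : ℂ) * (4 * Real.pi / M * Eg (1 / 2) M (be n) * ze M (c * L) *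
      ((-1) ^ (L - k + (L - l)) * ze M (-((c : ℂ) * (((L - k : ℕ) : ℂ) + ((L - l : ℕ) : ℂ)) +
        ((L - k : ℕ) : ℂ) * ((L - l : ℕ) : ℂ))) *
        (M / (S M (k + n - c - 1) : ℂ) * (M / (S M (l + n - c - 1) : ℂ)) *
          (M * rS M (M * (yN n M k + yN n M l) - 1))))) =
      (Eg (1 / 2) M (be n) * ze M (c * L) * ((-1) ^ (L - k + (L - l)) *
      ze M (-((c : ℂ) * (((L - k : ℕ) : ℂ) + ((L - l : ℕ) : ℂ)) +
        ((L - k : ℕ) : ℂ) * ((L - l : ℕ) : ℂ))))) * (4 * Real.pi * M) *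
        (1 / (S M (k + n - c - 1) : ℂ) * (1 / (S M (l + n - c - 1) : ℂ)) *
          rS M (M * (yN n M k + yN n M l) - 1)) := by
    field_simp
  rw [e5, p4]
  ring

theorem conj_kHe (e : ℝ) (s : ℤ) (n M k l : ℕ) :
    conj (kHe e s M (yN n M k) (yN n M l)) = kHe e (-s) M (yN n M k) (yN n M l) := by
  have c2 : (starRingEnd ℂ) 2 = 2 := by simpa using Complex.conj_ofReal 2
  rw [kHe, kHe, map_mul, map_mul, map_mul, ← rS_conj, ← exp_conj, ← exp_conj, ← exp_conj]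
  congr 2
  · congr 1
    simp [conj_yN, c2]
  · rw [map_neg, map_neg, ← LL_conj, ← LL_conj]
    simp [conj_yN, c2]
  · simp [conj_yN]

theorem conj_ph1e (e : ℝ) (s : ℤ) (M : ℕ) : conj (ph1e e s M) = ph1e e (-s) M := by
  have c2 : (starRingEnd ℂ) 2 = 2 := by simpa using Complex.conj_ofReal 2
  have c3 : (starRingEnd ℂ) 3 = 3 := by simpa using Complex.conj_ofReal 3
  have c4 : (starRingEnd ℂ) 4 = 4 := by simpa using Complex.conj_ofReal 4
  rw [ph1e, ph1e, map_mul, conj_exp_s]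
  · simp
  · simp [c2, c3, c4]

theorem conj_ph3e (e : ℝ) (s : ℤ) (M : ℕ) : conj (ph3e e s M) = ph3e e (-s) M := by
  have c2 : (starRingEnd ℂ) 2 = 2 := by simpa using Complex.conj_ofReal 2
  have c4 : (starRingEnd ℂ) 4 = 4 := by simpa using Complex.conj_ofReal 4
  rw [ph3e, ph3e, map_mul, conj_exp_s]
  · simp
  · simp [c2, c4]

theorem DA_three_pos {M n h L : ℕ} (hh : 1 ≤ h) (hn : 2 * h ≤ n) (hL : 1 ≤ L)
    (hM : M + 1 = n + L) {σ : ℤ} (hσ : σ = 1 ∨ σ = -1) {k l : ℕ} (hk : k ≤ L) (hl : l ≤ L) :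
    DA (3 / 2) n (n - 2 * h) M σ k l = (-1) ^ n * ph3e (esN n h σ) 1 M * (4 * Real.pi * M) *
      ∑ z ∈ Finset.range (L + 1), kB 1 M (yN n M k) (yN n M z) *
        kHe (esN n h σ) 1 M (yN n M z) (yN n M l) := by
  have h1 := DA_bailey hh hn hM (1 / 2) (Or.inr hσ : σ = 0 ∨ σ = 1 ∨ σ = -1) hk l
  have e0 : (1 / 2 : ℝ) + 1 = 3 / 2 := by norm_num
  rw [e0] at h1
  rw [h1]
  have e3 : ∀ z ∈ Finset.range (L + 1), kB 1 M (yN n M k) (yN n M z) *
      DA (1 / 2) n (n - 2 * h) M σ z l = ((-1) ^ n * ph1e (esN n h σ) 1 M * (4 * Real.pi * M)) *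
        (kB 1 M (yN n M k) (yN n M z) * kHe (esN n h σ) 1 M (yN n M z) (yN n M l)) := by
    intro z hz
    have hz' := Finset.mem_range.1 hz
    rw [DA_half_pos hh hn hL hM hσ (by omega) hl]
    ring
  rw [Finset.sum_congr rfl e3, ← Finset.mul_sum]
  have hM' : (M : ℂ) ≠ 0 := by exact_mod_cast (show 0 < M by omega).ne'
  have e4 : exp (Real.pi * I / (2 * M)) * ph1e (esN n h σ) 1 M = ph3e (esN n h σ) 1 M := by
    rw [ph1e, ph3e, mul_left_comm, ← exp_add]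
    congr 2
    push_cast
    field_simp
    ring
  rw [← e4]
  ring

/-- One half twist. -/
theorem DA_half {s : ℤ} (hs : s = 1 ∨ s = -1) {M n h L : ℕ} (hh : 1 ≤ h) (hn : 2 * h ≤ n)
    (hL : 1 ≤ L) (hM : M + 1 = n + L) {σ : ℤ} (hσ : σ = 1 ∨ σ = -1) {k l : ℕ} (hk : k ≤ L)
    (hl : l ≤ L) :
    DA (s / 2) n (n - 2 * h) M σ k l = (-1) ^ n * ph1e (esN n h σ) s M * (4 * Real.pi * M) *
      kHe (esN n h σ) s M (yN n M k) (yN n M l) := by
  rcases hs with rfl | rfl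
  · have e : (((1 : ℤ) : ℝ) / 2) = 1 / 2 := by norm_num
    rw [e, DA_half_pos hh hn hL hM hσ hk hl]
  · have e : (((-1 : ℤ) : ℝ) / 2) = -(1 / 2) := by norm_num
    rw [e, DA_neg (by omega) hh hn (by omega) (1 / 2) (Or.inr hσ), DA_half_pos hh hn hL hM hσ hk hl,
      map_mul, map_mul, map_mul, conj_ph1e, conj_neg_one_pow, conj_kHe, map_mul, conj_fourpi,
      conj_natCast]

/-- Three half twists. -/
theorem DA_three {s : ℤ} (hs : s = 1 ∨ s = -1) {M n h L : ℕ} (hh : 1 ≤ h) (hn : 2 * h ≤ n)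
    (hL : 1 ≤ L) (hM : M + 1 = n + L) {σ : ℤ} (hσ : σ = 1 ∨ σ = -1) {k l : ℕ} (hk : k ≤ L)
    (hl : l ≤ L) :
    DA (3 * s / 2) n (n - 2 * h) M σ k l = (-1) ^ n * ph3e (esN n h σ) s M * (4 * Real.pi * M) *
      ∑ z ∈ Finset.range (L + 1), kB s M (yN n M k) (yN n M z) *
        kHe (esN n h σ) s M (yN n M z) (yN n M l) := by
  rcases hs with rfl | rfl
  · have e : (3 * ((1 : ℤ) : ℝ) / 2) = 3 / 2 := by norm_num
    rw [e, DA_three_pos hh hn hL hM hσ hk hl]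
  · have e : (3 * ((-1 : ℤ) : ℝ) / 2) = -(3 / 2) := by norm_num
    rw [e, DA_neg (by omega) hh hn (by omega) (3 / 2) (Or.inr hσ), DA_three_pos hh hn hL hM hσ hk hl,
      map_mul, map_mul, map_mul, conj_ph3e, conj_neg_one_pow, map_mul, conj_fourpi, conj_natCast,
      map_sum]
    congr 1
    refine Finset.sum_congr rfl fun z _ => ?_
    rw [map_mul, conj_kBN, conj_kHe]

/-! ### The constants -/

theorem ph1e_norm (e : ℝ) (s : ℤ) (M : ℕ) : ‖ph1e e s M‖ = 1 := by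
  have h : (s : ℂ) * Real.pi * I * (M / 4 + 1 / 2 - (3 + 4 * e) / (4 * M)) =
      ((s * Real.pi * (M / 4 + 1 / 2 - (3 + 4 * e) / (4 * M)) : ℝ) : ℂ) * I := by
    push_cast
    ring
  rw [ph1e, h, norm_mul, norm_pow, norm_neg, norm_one, one_pow, one_mul,
    Complex.norm_exp_ofReal_mul_I]

theorem ph3e_norm (e : ℝ) (s : ℤ) (M : ℕ) : ‖ph3e e s M‖ = 1 := by
  have h : (s : ℂ) * Real.pi * I * (M / 4 + 1 / 2 - (1 + 4 * e) / (4 * M)) =
      ((s * Real.pi * (M / 4 + 1 / 2 - (1 + 4 * e) / (4 * M)) : ℝ) : ℂ) * I := by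
    push_cast
    ring
  rw [ph3e, h, norm_mul, norm_pow, norm_neg, norm_one, one_pow, one_mul,
    Complex.norm_exp_ofReal_mul_I]

end Pool.Agent.S5
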