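import Pool.Agent.H63.VC.Cross
import Pool.Agent.H63.VC.EndB
import Pool.Agent.H63.VC.Riem
import Pool.Agent.H63.VC.SlowL
import Pool.Agent.H63.VC.SlowU
import Pool.Agent.H63.VC11.Brac11
import Pool.Agent.H63.VC12.Path12
import Pool.Agent.H63.VC4.Checks
import Pool.Agent.H63.VC4.GeoDefs
import Pool.Agent.H63.VC4.KBN
import Pool.Agent.H63.VC4.UpperN
import Pool.Agent.H63.VC6.LocU
import Pool.Agent.H63.VC6.SlotU
import Pool.Agent.S4.Root

/-!
# The connection coefficients of the slot polynomials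
-/

set_option autoImplicit false

namespace Pool.Agent.S5

open Pool.Agent.H63.VC hiding ext
open Pool.Agent.H63.VC3 Pool.Agent.H63.VC7 Complex

/-- `2 sin (π x / M)`. -/
noncomputable def sz (M : ℕ) (x : ℂ) : ℂ := 2 * Complex.sin (Real.pi * x / M)

/-- `2 cos (2 π x / M)`. -/
noncomputable def xz (M : ℕ) (x : ℂ) : ℂ := 2 * Complex.cos (2 * Real.pi * x / M)

/-- The polynomial of a slot with `t` factors and the offset `b`. -/
noncomputable def phz (M : ℕ) (b : ℂ) (t : ℕ) (x : ℂ) : ℂ :=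
  ∏ i ∈ Finset.range t, (x + xz M (b + i))

theorem phz_succ (M : ℕ) (b : ℂ) (t : ℕ) (x : ℂ) :
    phz M b (t + 1) x = phz M b t x * (x + xz M (b + t)) := Finset.prod_range_succ _ _

theorem phz_add (M : ℕ) (b : ℂ) (t u : ℕ) (x : ℂ) :
    phz M b (t + u) x = phz M b t x * phz M (b + t) u x := by
  rw [phz, Finset.prod_range_add, ← phz]
  congr 1
  refine Finset.prod_congr rfl fun i _ => ?_
  push_cast
  rw [add_assoc]

theorem sz_mul (M : ℕ) (a b : ℂ) : sz M a * sz M b = xz M ((a - b) / 2) - xz M ((a + b) / 2) := by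
  have h1 : (2 : ℂ) * Real.pi * ((a - b) / 2) / M = Real.pi * a / M - Real.pi * b / M := by ring
  have h2 : (2 : ℂ) * Real.pi * ((a + b) / 2) / M = Real.pi * a / M + Real.pi * b / M := by ring
  rw [sz, sz, xz, xz, h1, h2, Complex.cos_sub, Complex.cos_add]
  ring

theorem xz_sub (M : ℕ) (a b : ℂ) : xz M a - xz M b = sz M (b - a) * sz M (b + a) := by
  rw [sz_mul]
  have e1 : (b - a - (b + a)) / 2 = -a := by ring
  have e2 : (b - a + (b + a)) / 2 = b := by ring
  rw [e1, e2]
  congr 1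
  rw [xz, xz, mul_neg, neg_div, Complex.cos_neg]

theorem sz_nat (M m : ℕ) : sz M m = (sg M m : ℂ) := by
  rw [sz, sg]
  push_cast
  ring

theorem S_succ' (M k : ℕ) : (S M (k + 1) : ℂ) = (S M k : ℂ) * sz M ((k : ℂ) + 1) := by
  rw [S_succ, ← Nat.cast_succ, sz_nat]
  push_cast
  ring

/-- The three term identity of the `q`-binomial coefficients. -/
theorem sz_three (M : ℕ) (i j A : ℂ) :
    sz M i * sz M (A + i - 1) + sz M j * sz M (A + 2 * i + j - 1) =
      sz M (i + j) * sz M (A + i + j - 1) := by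
  rw [sz_mul, sz_mul, sz_mul]
  have e1 : (i + (A + i - 1)) / 2 = -(j - (A + 2 * i + j - 1)) / 2 := by ring
  have e2 : (i - (A + i - 1)) / 2 = (i + j - (A + i + j - 1)) / 2 := by ring
  have e3 : (j + (A + 2 * i + j - 1)) / 2 = (i + j + (A + i + j - 1)) / 2 := by ring
  have e4 : xz M (-(j - (A + 2 * i + j - 1)) / 2) = xz M ((j - (A + 2 * i + j - 1)) / 2) := by
    rw [xz, xz, neg_div, mul_neg, neg_div, Complex.cos_neg]
  rw [e1, e2, e3, e4]
  ring

/-- The connection coefficients. -/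
noncomputable def cn (M : ℕ) (g e : ℂ) (d i : ℕ) : ℂ :=
  (S M d : ℂ) / ((S M i : ℂ) * (S M (d - i) : ℂ)) *
    ∏ j ∈ Finset.range (d - i), (sz M (e - g - j) * sz M (g + e + i + j))

theorem cn_self {M d : ℕ} (h : d < M) (g e : ℂ) : cn M g e d d = 1 := by
  have h1 : (S M d : ℂ) ≠ 0 := by exact_mod_cast (S_pos h).ne'
  rw [cn, Nat.sub_self, Finset.range_zero, Finset.prod_empty, mul_one, S_zero, Complex.ofReal_one,
    mul_one, div_self h1]

theorem cn_zero {M d : ℕ} (h : d < M) (g e : ℂ) :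
    cn M g e d 0 = ∏ j ∈ Finset.range d, (sz M (e - g - j) * sz M (g + e + j)) := by
  have h1 : (S M d : ℂ) ≠ 0 := by exact_mod_cast (S_pos h).ne'
  rw [cn, Nat.sub_zero, S_zero, Complex.ofReal_one, one_mul, div_self h1, one_mul]
  refine Finset.prod_congr rfl fun j _ => ?_
  rw [Nat.cast_zero, add_zero]

theorem cn_step {M i j : ℕ} (h : i + j + 2 < M) (g e : ℂ) :
    cn M g e (i + j + 2) (i + 1) = cn M g e (i + j + 1) i +
      cn M g e (i + j + 1) (i + 1) * (xz M (g + (i + j + 1 : ℕ)) - xz M (e + (i + 1 : ℕ))) := by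
  have e1 : i + j + 2 - (i + 1) = j + 1 := by omega
  have e2 : i + j + 1 - i = j + 1 := by omega
  have e3 : i + j + 1 - (i + 1) = j := by omega
  rw [cn, cn, cn, e1, e2, e3, xz_sub]
  set Q : ℂ := ∏ r ∈ Finset.range j, (sz M (e - g - r) * sz M (g + e + (i + 1 : ℕ) + r)) with hQ
  have p1 : ∏ r ∈ Finset.range (j + 1), (sz M (e - g - r) * sz M (g + e + (i + 1 : ℕ) + r)) =
      Q * (sz M (e - g - j) * sz M (g + e + (i + 1 : ℕ) + j)) := Finset.prod_range_succ _ _
  have p2 : ∏ r ∈ Finset.range (j + 1), (sz M (e - g - r) * sz M (g + e + (i : ℕ) + r)) =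
      Q * (sz M (e - g - j) * sz M (g + e + i)) := by
    rw [Finset.prod_mul_distrib, Finset.prod_range_succ, Finset.prod_range_succ' (fun r : ℕ =>
      sz M (g + e + (i : ℕ) + r)), hQ, Finset.prod_mul_distrib]
    have : ∏ r ∈ Finset.range j, sz M (g + e + (i : ℕ) + ((r + 1 : ℕ) : ℂ)) =
        ∏ r ∈ Finset.range j, sz M (g + e + (i + 1 : ℕ) + r) := by
      refine Finset.prod_congr rfl fun r _ => ?_
      congr 1
      push_cast
      ring
    rw [this, Nat.cast_zero, add_zero]
    ring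
  rw [p1, p2]
  have h3 := sz_three M ((i : ℂ) + 1) ((j : ℂ) + 1) (g + e)
  have q1 : g + e + ((i : ℂ) + 1) - 1 = g + e + i := by ring
  have q2 : g + e + 2 * ((i : ℂ) + 1) + ((j : ℂ) + 1) - 1 =
      e + ((i + 1 : ℕ) : ℂ) + (g + ((i + j + 1 : ℕ) : ℂ)) := by
    push_cast
    ring
  have q3 : (i : ℂ) + 1 + ((j : ℂ) + 1) = ((i + j + 1 : ℕ) : ℂ) + 1 := by
    push_cast
    ring
  have q4 : g + e + ((i : ℂ) + 1) + ((j : ℂ) + 1) - 1 = g + e + ((i + 1 : ℕ) : ℂ) + j := by
    push_cast
    ring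
  have q5 : e + ((i + 1 : ℕ) : ℂ) - (g + ((i + j + 1 : ℕ) : ℂ)) = e - g - j := by
    push_cast
    ring
  rw [q1, q2, q3, q4] at h3
  rw [q5]
  have s1 := S_succ' M (i + j + 1)
  have s2 := S_succ' M i
  have s3 := S_succ' M j
  have n1 : (S M i : ℂ) ≠ 0 := by exact_mod_cast (S_pos (show i < M by omega)).ne'
  have n2 : (S M j : ℂ) ≠ 0 := by exact_mod_cast (S_pos (show j < M by omega)).ne'
  have n3 : (S M (i + 1) : ℂ) ≠ 0 := by exact_mod_cast (S_pos (show i + 1 < M by omega)).ne'
  have n4 : (S M (j + 1) : ℂ) ≠ 0 := by exact_mod_cast (S_pos (show j + 1 < M by omega)).ne'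
  rw [s2] at n3
  rw [s3] at n4
  have n5 := right_ne_zero_of_mul n3
  have n6 := right_ne_zero_of_mul n4
  rw [show i + j + 2 = i + j + 1 + 1 by ring, s1, s2, s3]
  field_simp
  linear_combination (-(S M (i + j + 1) : ℂ) * Q * sz M (e - g - j)) * h3

/-- The connection formula. -/
theorem phz_conn {M : ℕ} (g e x : ℂ) : ∀ d : ℕ, d < M →
    phz M g d x = ∑ i ∈ Finset.range (d + 1), cn M g e d i * phz M e i x := by
  intro d
  induction d with
  | zero =>
    intro h
    rw [zero_add, Finset.sum_range_one, cn_self h]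
    simp [phz]
  | succ d ih =>
    intro h
    have h1 : ∀ i : ℕ, (x + xz M (g + d)) * phz M e i x =
        phz M e (i + 1) x + (xz M (g + d) - xz M (e + i)) * phz M e i x := by
      intro i
      rw [phz_succ]
      ring
    have h2 : phz M g (d + 1) x = ∑ i ∈ Finset.range (d + 1), cn M g e d i * phz M e (i + 1) x +
        ∑ i ∈ Finset.range (d + 1),
          cn M g e d i * (xz M (g + d) - xz M (e + i)) * phz M e i x := by
      rw [phz_succ, ih (by omega), ← Finset.sum_add_distrib, Finset.sum_mul]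
      refine Finset.sum_congr rfl fun i _ => ?_
      have := h1 i
      linear_combination (cn M g e d i) * this
    rw [h2, Finset.sum_range_succ (fun i => cn M g e d i * phz M e (i + 1) x),
      Finset.sum_range_succ' (fun i => cn M g e d i * (xz M (g + d) - xz M (e + i)) * phz M e i x),
      Finset.sum_range_succ (fun i => cn M g e (d + 1) i * phz M e i x),
      Finset.sum_range_succ' (fun i => cn M g e (d + 1) i * phz M e i x)]
    have h3 : ∑ i ∈ Finset.range d, cn M g e (d + 1) (i + 1) * phz M e (i + 1) x =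
        ∑ i ∈ Finset.range d, cn M g e d i * phz M e (i + 1) x +
        ∑ i ∈ Finset.range d, cn M g e d (i + 1) * (xz M (g + d) - xz M (e + (i + 1 : ℕ))) *
          phz M e (i + 1) x := by
      rw [← Finset.sum_add_distrib]
      refine Finset.sum_congr rfl fun i hi => ?_
      have hi' := Finset.mem_range.1 hi
      obtain ⟨j, rfl⟩ : ∃ j, d = i + j + 1 := ⟨d - i - 1, by omega⟩
      rw [show i + j + 1 + 1 = i + j + 2 by ring, cn_step (by omega)]
      ring
    rw [h3, cn_self h, cn_self (show d < M by omega)]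
    have h4 : cn M g e (d + 1) 0 = cn M g e d 0 * (xz M (g + d) - xz M (e + (0 : ℕ))) := by
      rw [cn_zero h, cn_zero (show d < M by omega), Finset.prod_range_succ, xz_sub, Nat.cast_zero,
        add_zero]
      congr 2
      · congr 1
        ring
      · congr 1
        ring
    rw [h4]
    ring

end Pool.Agent.S5
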