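import Pool.Agent.S5.N.NDef
import Pool.Agent.S5.N.Conn

/-!
# The two expansions of a mixed edge
-/

set_option autoImplicit false

namespace Pool.Agent.S5

open Pool.Agent.H63.VC hiding ext
open Pool.Agent.H63.VC3 Pool.Agent.H63.VC7 Pool.Agent.S4 Complex

/-! ### The slots as polynomials -/

theorem cos_pair (M : ℕ) (v c : ℂ) :
    4 * (cos (Real.pi * (v + c / M)) * cos (Real.pi * (v - c / M))) =
      2 * cos (2 * Real.pi * v) + xz M c := by
  have h1 : (Real.pi : ℂ) * (v + c / M) = Real.pi * v + Real.pi * c / M := by ring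
  have h2 : (Real.pi : ℂ) * (v - c / M) = Real.pi * v - Real.pi * c / M := by ring
  have h3 : (2 : ℂ) * Real.pi * v = 2 * (Real.pi * v) := by ring
  have h4 : (2 : ℂ) * Real.pi * c / M = 2 * (Real.pi * c / M) := by ring
  rw [xz, h1, h2, h3, h4, Complex.cos_add, Complex.cos_sub, Complex.cos_two_mul,
    Complex.cos_two_mul]
  have h5 := Complex.sin_sq_add_cos_sq (Real.pi * v)
  have h6 := Complex.sin_sq_add_cos_sq (Real.pi * c / M)
  generalize Complex.cos (Real.pi * v) = x at *
  generalize Complex.sin (Real.pi * v) = y at *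
  generalize Complex.cos (Real.pi * c / M) = z at *
  generalize Complex.sin (Real.pi * c / M) = w at *
  linear_combination (-4 * w ^ 2) * h5 + 4 * (x ^ 2 - 1) * h6

theorem q4_eq (M d t : ℕ) (v : ℂ) :
    q4 M d t v = 1 / M * phz M (((d : ℂ) + 1) / 2) t (2 * cos (2 * Real.pi * v)) := by
  rw [q4, phz]
  congr 1
  refine Finset.prod_congr rfl fun i _ => ?_
  rw [cos_pair]
  congr 2
  ring

theorem Wd_sq (M d : ℕ) (v : ℂ) :
    Wd M d v ^ 2 = phz M ((1 - (d : ℂ)) / 2) d (2 * cos (2 * Real.pi * v)) := by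
  have h1 : Wd M d v = ∏ j ∈ Finset.range d,
      (2 * cos (Real.pi * (v - (((j : ℂ) + (1 - d) / 2)) / M))) := by
    rw [Wd, ← Finset.prod_range_reflect]
    refine Finset.prod_congr rfl fun j hj => ?_
    have hj' := Finset.mem_range.1 hj
    congr 3
    have : ((d - 1 - j : ℕ) : ℂ) = d - 1 - j := by
      rw [Nat.cast_sub (by omega), Nat.cast_sub (by omega)]
      push_cast
      ring
    rw [this]
    ring
  have h2 : Wd M d v = ∏ j ∈ Finset.range d,
      (2 * cos (Real.pi * (v + (((j : ℂ) + (1 - d) / 2)) / M))) := by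
    rw [Wd]
    refine Finset.prod_congr rfl fun j hj => ?_
    congr 3
    ring
  rw [pow_two]
  nth_rewrite 1 [h2]
  rw [h1, ← Finset.prod_mul_distrib, phz]
  refine Finset.prod_congr rfl fun j _ => ?_
  have := cos_pair M v ((j : ℂ) + (1 - d) / 2)
  have e : (1 - (d : ℂ)) / 2 + j = (j : ℂ) + (1 - d) / 2 := by ring
  rw [e, ← this]
  ring

/-! ### Products of sines -/

theorem S_ne {M k : ℕ} (h : k < M) : (S M k : ℂ) ≠ 0 := by exact_mod_cast (S_pos h).ne'

theorem prod_up {M a : ℕ} (ha : a < M) (p : ℕ) :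
    ∏ j ∈ Finset.range p, sz M ((a : ℂ) + 1 + j) = (S M (a + p) : ℂ) / (S M a : ℂ) := by
  induction p with
  | zero => rw [Finset.prod_range_zero, add_zero, div_self (S_ne ha)]
  | succ p ih =>
    rw [Finset.prod_range_succ, ih, ← add_assoc, S_succ']
    push_cast
    have e : (a : ℂ) + 1 + p = a + p + 1 := by ring
    rw [e]
    ring

theorem prod_down {M a : ℕ} (ha : a < M) {p : ℕ} (hp : p ≤ a) :
    ∏ j ∈ Finset.range p, sz M ((a : ℂ) - j) = (S M a : ℂ) / (S M (a - p) : ℂ) := by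
  induction p with
  | zero => rw [Finset.prod_range_zero, Nat.sub_zero, div_self (S_ne ha)]
  | succ p ih =>
    rw [Finset.prod_range_succ, ih (by omega)]
    obtain ⟨k, hk⟩ : ∃ k, a = k + (p + 1) := ⟨a - (p + 1), by omega⟩
    have e1 : a - p = k + 1 := by omega
    have e2 : a - (p + 1) = k := by omega
    have e3 : (a : ℂ) - p = k + 1 := by
      rw [hk]
      push_cast
      ring
    have h0 := S_ne (M := M) (k := k + 1) (by omega)
    have h1 := S_ne (M := M) (k := k) (by omega)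
    rw [e1, e2, e3, S_succ']
    rw [S_succ'] at h0
    have h2 := right_ne_zero_of_mul h0
    field_simp

theorem cn_high {M d : ℕ} (g : ℂ) {c t : ℕ} (h : t + d < c) : cn M g (g + d) c t = 0 := by
  rw [cn]
  have : ∏ j ∈ Finset.range (c - t), (sz M (g + d - g - j) * sz M (g + (g + d) + t + j)) = 0 := by
    refine Finset.prod_eq_zero (i := d) (Finset.mem_range.2 (by omega)) ?_
    have : g + (d : ℂ) - g - d = 0 := by ring
    rw [this, sz, mul_zero, zero_div, Complex.sin_zero, mul_zero, zero_mul]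
  rw [this, mul_zero]

theorem S_inv {M k l : ℕ} (h : k + l + 1 = M) : (S M k : ℂ) = M / (S M l : ℂ) := by
  have h1 := S_mul (M := M) (k := k) (by omega)
  have h2 : M - 1 - k = l := by omega
  rw [h2] at h1
  rw [eq_div_iff (S_ne (by omega))]
  exact_mod_cast h1

theorem w5_one {n h M t : ℕ} (hn : 2 ≤ n) (hh : 1 ≤ h) (h2 : 2 * h ≤ n) (ht : t + n ≤ M + 1) :
    (w5 n h true false M (M + 1 - n - t) : ℂ) = (M : ℂ) ^ 4 /
      ((S M (t + n - 2) : ℂ) * (S M t : ℂ) * (S M (t + n - h - 1) : ℂ) ^ 2) := by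
  rw [w5]
  simp only [Bool.false_eq_true, if_false, if_true]
  push_cast
  rw [S_inv (M := M) (k := M + 1 - n - t) (l := t + n - 2) (by omega),
    S_inv (M := M) (k := M + 1 - n - t + n - 2) (l := t) (by omega),
    S_inv (M := M) (k := M + 1 - n - t + h - 1) (l := t + n - h - 1) (by omega)]
  have h3 := S_ne (M := M) (k := t + n - 2) (by omega)
  have h4 := S_ne (M := M) (k := t) (by omega)
  have h5 := S_ne (M := M) (k := t + n - h - 1) (by omega)
  field_simp

theorem w5_two {n h M t : ℕ} (hn : 2 ≤ n) (hh : 1 ≤ h) (h2 : 2 * h ≤ n) (ht : t + n ≤ M + 1) :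
    (w5 n h true true M (M + 1 - n - t) : ℂ) = (M : ℂ) ^ 4 /
      ((S M (t + n - 2) : ℂ) * (S M t : ℂ) * (S M (t + h - 1) : ℂ) ^ 2) := by
  rw [w5]
  simp only [if_true]
  push_cast
  rw [S_inv (M := M) (k := M + 1 - n - t) (l := t + n - 2) (by omega),
    S_inv (M := M) (k := M + 1 - n - t + n - 2) (l := t) (by omega),
    S_inv (M := M) (k := M + 1 - n - t + (n - h) - 1) (l := t + h - 1) (by omega)]
  have h3 := S_ne (M := M) (k := t + n - 2) (by omega)
  have h4 := S_ne (M := M) (k := t) (by omega)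
  have h5 := S_ne (M := M) (k := t + h - 1) (by omega)
  field_simp

/-- The coefficients of the two expansions agree. -/
theorem coef_eq {n h M c t : ℕ} (hn : 2 ≤ n) (hh : 1 ≤ h) (h2 : 2 * h ≤ n) (htc : t ≤ c)
    (hc : c + n ≤ M + 1) (hd : c ≤ t + (n - 2 * h)) :
    (w5 n h true false M (M + 1 - n - t) : ℂ) *
      cn M ((1 - ((n - 2 * h : ℕ) : ℂ)) / 2) (((n : ℂ) - 1) / 2 + t) (n - 2 * h) (c - t) =
    (w5 n h true true M (M + 1 - n - c) : ℂ) *
      cn M ((h : ℂ) - 1 / 2) ((h : ℂ) - 1 / 2 + ((n - 2 * h : ℕ) : ℂ)) c t := by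
  obtain ⟨p, rfl⟩ := Nat.exists_eq_add_of_le htc
  obtain ⟨q, hq⟩ : ∃ q, n - 2 * h = p + q := ⟨n - 2 * h - p, by omega⟩
  have hnq : n = 2 * h + p + q := by omega
  have e1 : t + p - t = p := by omega
  have e2 : n - 2 * h - p = q := by omega
  rw [w5_one hn hh h2 (by omega), w5_two hn hh h2 hc, cn, cn, e1, e2]
  have hnc : (n : ℂ) = 2 * h + p + q := by
    rw [hnq]
    push_cast
    ring
  have hdc : ((n - 2 * h : ℕ) : ℂ) = p + q := by
    rw [hq]
    push_cast
    ring
  have p1 : ∏ j ∈ Finset.range q, (sz M (((n : ℂ) - 1) / 2 + t - (1 - ((n - 2 * h : ℕ) : ℂ)) / 2 -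
      j) * sz M ((1 - ((n - 2 * h : ℕ) : ℂ)) / 2 + (((n : ℂ) - 1) / 2 + t) + p + j)) =
      (S M (t + n - h - 1) : ℂ) ^ 2 / (S M (t + p + h - 1) : ℂ) ^ 2 := by
    rw [Finset.prod_mul_distrib]
    have a1 : ∏ j ∈ Finset.range q, sz M (((n : ℂ) - 1) / 2 + t -
        (1 - ((n - 2 * h : ℕ) : ℂ)) / 2 - j) =
        (S M (t + n - h - 1) : ℂ) / (S M (t + n - h - 1 - q) : ℂ) := by
      rw [← prod_down (M := M) (a := t + n - h - 1) (p := q) (by omega) (by omega)]
      refine Finset.prod_congr rfl fun j _ => ?_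
      congr 2
      rw [hdc, Nat.cast_sub (by omega), Nat.cast_sub (by omega)]
      push_cast
      rw [hnc]
      ring
    have a2 : ∏ j ∈ Finset.range q, sz M ((1 - ((n - 2 * h : ℕ) : ℂ)) / 2 +
        (((n : ℂ) - 1) / 2 + t) + p + j) =
        (S M (t + p + h - 1 + q) : ℂ) / (S M (t + p + h - 1) : ℂ) := by
      rw [← prod_up (M := M) (a := t + p + h - 1) (by omega)]
      refine Finset.prod_congr rfl fun j _ => ?_
      congr 1
      rw [hdc, Nat.cast_sub (by omega)]
      push_cast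
      rw [hnc]
      ring
    have a3 : t + n - h - 1 - q = t + p + h - 1 := by omega
    have a4 : t + p + h - 1 + q = t + n - h - 1 := by omega
    rw [a1, a2, a3, a4, div_mul_div_comm, ← pow_two, ← pow_two]
  have p2 : ∏ j ∈ Finset.range p, (sz M ((h : ℂ) - 1 / 2 + ((n - 2 * h : ℕ) : ℂ) -
      ((h : ℂ) - 1 / 2) - j) * sz M ((h : ℂ) - 1 / 2 + ((h : ℂ) - 1 / 2 + ((n - 2 * h : ℕ) : ℂ)) +
        t + j)) =
      (S M (n - 2 * h) : ℂ) / (S M q : ℂ) * ((S M (t + p + n - 2) : ℂ) / (S M (t + n - 2) : ℂ)) := by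
    rw [Finset.prod_mul_distrib]
    have a1 : ∏ j ∈ Finset.range p, sz M ((h : ℂ) - 1 / 2 + ((n - 2 * h : ℕ) : ℂ) -
        ((h : ℂ) - 1 / 2) - j) = (S M (n - 2 * h) : ℂ) / (S M (n - 2 * h - p) : ℂ) := by
      rw [← prod_down (M := M) (a := n - 2 * h) (p := p) (by omega) (by omega)]
      refine Finset.prod_congr rfl fun j _ => ?_
      congr 2
      ring
    have a2 : ∏ j ∈ Finset.range p, sz M ((h : ℂ) - 1 / 2 +
        ((h : ℂ) - 1 / 2 + ((n - 2 * h : ℕ) : ℂ)) + t + j) =
        (S M (t + n - 2 + p) : ℂ) / (S M (t + n - 2) : ℂ) := by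
      rw [← prod_up (M := M) (a := t + n - 2) (by omega)]
      refine Finset.prod_congr rfl fun j _ => ?_
      congr 1
      rw [hdc, Nat.cast_sub (by omega)]
      push_cast
      rw [hnc]
      ring
    have a4 : t + n - 2 + p = t + p + n - 2 := by omega
    rw [a1, a2, a4, e2]
  rw [p1, p2]
  have n1 := S_ne (M := M) (k := t + n - 2) (by omega)
  have n2 := S_ne (M := M) (k := t) (by omega)
  have n3 := S_ne (M := M) (k := t + n - h - 1) (by omega)
  have n4 := S_ne (M := M) (k := t + p + n - 2) (by omega)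
  have n5 := S_ne (M := M) (k := t + p) (by omega)
  have n6 := S_ne (M := M) (k := t + p + h - 1) (by omega)
  have n7 := S_ne (M := M) (k := p) (by omega)
  have n8 := S_ne (M := M) (k := q) (by omega)
  field_simp

/-- The core of the conversion of an edge. -/
theorem conv_core {n h M : ℕ} (hn : 2 ≤ n) (hh : 1 ≤ h) (h2 : 2 * h ≤ n) (hM : n ≤ M + 1)
    (a b : ℕ → ℂ) (ha : ∀ c, M + 1 < c + n → a c = 0) :
    ∑ t ∈ Finset.range (M + 2 - n), (w5 n h true false M (M + 1 - n - t) : ℂ) *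
      (∑ i ∈ Finset.range (n - 2 * h + 1),
        cn M ((1 - ((n - 2 * h : ℕ) : ℂ)) / 2) (((n : ℂ) - 1) / 2 + t) (n - 2 * h) i *
          a (t + i)) * b t =
    ∑ c ∈ Finset.range (M + 2 - n), (w5 n h true true M (M + 1 - n - c) : ℂ) * a c *
      ∑ t ∈ Finset.range (c + 1),
        cn M ((h : ℂ) - 1 / 2) ((h : ℂ) - 1 / 2 + ((n - 2 * h : ℕ) : ℂ)) c t * b t := by
  set d := n - 2 * h with hd
  have h1 : ∀ t ∈ Finset.range (M + 2 - n), (w5 n h true false M (M + 1 - n - t) : ℂ) *
      (∑ i ∈ Finset.range (d + 1),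
        cn M ((1 - (d : ℂ)) / 2) (((n : ℂ) - 1) / 2 + t) d i * a (t + i)) * b t =
      ∑ c ∈ Finset.range (M + 2 - n), if t ≤ c then (w5 n h true true M (M + 1 - n - c) : ℂ) *
        a c * (cn M ((h : ℂ) - 1 / 2) ((h : ℂ) - 1 / 2 + (d : ℂ)) c t * b t) else 0 := by
    intro t ht
    have ht' := Finset.mem_range.1 ht
    set G : ℕ → ℂ := fun c => if t ≤ c ∧ c ≤ t + d then
      cn M ((1 - (d : ℂ)) / 2) (((n : ℂ) - 1) / 2 + t) d (c - t) * a c else 0 with hG
    have g1 : ∑ i ∈ Finset.range (d + 1),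
        cn M ((1 - (d : ℂ)) / 2) (((n : ℂ) - 1) / 2 + t) d i * a (t + i) =
        ∑ c ∈ Finset.range (M + 2 - n), G c := by
      have s1 : ∑ i ∈ Finset.range (d + 1),
          cn M ((1 - (d : ℂ)) / 2) (((n : ℂ) - 1) / 2 + t) d i * a (t + i) =
          ∑ c ∈ Finset.Ico t (t + (d + 1)), G c := by
        rw [Finset.sum_Ico_eq_sum_range]
        have : t + (d + 1) - t = d + 1 := by omega
        rw [this]
        refine Finset.sum_congr rfl fun i hi => ?_
        have hi' := Finset.mem_range.1 hi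
        simp only [hG]
        rw [if_pos ⟨by omega, by omega⟩, Nat.add_sub_cancel_left]
      have s2 : ∑ c ∈ Finset.Ico t (t + (d + 1)), G c =
          ∑ c ∈ Finset.range (M + 2 - n + (t + (d + 1))), G c := by
        refine Finset.sum_subset (fun c hc => ?_) fun c _ hc => ?_
        · have := Finset.mem_Ico.1 hc
          exact Finset.mem_range.2 (by omega)
        · simp only [hG]
          rw [if_neg]
          intro h3
          exact hc (Finset.mem_Ico.2 ⟨h3.1, by omega⟩)
      have s3 : ∑ c ∈ Finset.range (M + 2 - n), G c =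
          ∑ c ∈ Finset.range (M + 2 - n + (t + (d + 1))), G c := by
        refine Finset.sum_subset (Finset.range_mono (by omega)) fun c _ hc => ?_
        have hc' : ¬ c < M + 2 - n := fun h3 => hc (Finset.mem_range.2 h3)
        simp only [hG]
        rw [ha c (by omega), mul_zero, ite_self]
      rw [s1, s2, s3]
    rw [g1, Finset.mul_sum, Finset.sum_mul]
    refine Finset.sum_congr rfl fun c hc => ?_
    have hc' := Finset.mem_range.1 hc
    simp only [hG]
    by_cases htc : t ≤ c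
    · rw [if_pos htc]
      by_cases hcd : c ≤ t + d
      · rw [if_pos ⟨htc, hcd⟩]
        have := coef_eq hn hh h2 htc (show c + n ≤ M + 1 by omega) hcd
        rw [← hd] at this
        linear_combination (a c * b t) * this
      · rw [if_neg (fun h3 => hcd h3.2), cn_high _ (by omega)]
        ring
    · rw [if_neg (fun h3 => htc h3.1), if_neg htc]
      ring
  rw [Finset.sum_congr rfl h1, Finset.sum_comm]
  refine Finset.sum_congr rfl fun c hc => ?_
  have hc' := Finset.mem_range.1 hc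
  rw [Finset.mul_sum]
  symm
  have h3 : ∀ t ∈ Finset.range (c + 1), (w5 n h true true M (M + 1 - n - c) : ℂ) * a c *
      (cn M ((h : ℂ) - 1 / 2) ((h : ℂ) - 1 / 2 + (d : ℂ)) c t * b t) =
      if t ≤ c then (w5 n h true true M (M + 1 - n - c) : ℂ) *
        a c * (cn M ((h : ℂ) - 1 / 2) ((h : ℂ) - 1 / 2 + (d : ℂ)) c t * b t) else 0 := by
    intro t ht
    rw [if_pos (Nat.lt_succ_iff.1 (Finset.mem_range.1 ht))]
  rw [Finset.sum_congr rfl h3]
  refine Finset.sum_subset (Finset.range_mono (by omega)) fun t _ ht => ?_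
  rw [if_neg]
  intro h4
  exact ht (Finset.mem_range.2 (by omega))

end Pool.Agent.S5
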