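import Pool.Agent.S5.N.Bai

/-!
# Nodes of antiparallel strands: the sums in the variable `u = M (v + 1/2)`
-/

namespace Pool.Agent.S5

open Pool.Agent.H63.VC hiding ext
open Pool.Agent.H63.VC3 Pool.Agent.H63.VC7 Pool.Agent.S3 Pool.Agent.S4 Complex Filter Topology

/-- The centered product of `d` factors. -/
noncomputable def Dw (M d : ℕ) (u : ℂ) : ℂ := ∏ j ∈ Finset.range d, fs M (u + j + 1 / 2 - d / 2)

/-- The quotient of the centered products of `n - 2` and of `n - 2 h` factors. -/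
noncomputable def Yw (M : ℕ) (a : ℂ) (k : ℕ) (u : ℂ) : ℂ :=
  ∏ i ∈ Finset.range k, (fs M (u + a + i) * fs M (u - a - i))

theorem Dw_diff (M d : ℕ) : Differentiable ℂ (Dw M d) := by
  unfold Dw
  refine Differentiable.fun_finsetProd fun j _ => ?_
  exact (fs_diff M).comp (by fun_prop)

theorem Yw_diff (M : ℕ) (a : ℂ) (k : ℕ) : Differentiable ℂ (Yw M a k) := by
  unfold Yw
  refine Differentiable.fun_finsetProd fun j _ => ?_
  exact ((fs_diff M).comp (by fun_prop)).mul ((fs_diff M).comp (by fun_prop))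

theorem Wd_Dw {M : ℕ} (hM : 0 < M) (d : ℕ) (v : ℂ) : Wd M d v = Dw M d (M * (v + 1 / 2)) := by
  rw [Wd, Dw]
  refine Finset.prod_congr rfl fun j _ => ?_
  rw [cos_fs hM]
  congr 1
  ring

theorem Wd_Aw {M : ℕ} (hM : 0 < M) {n : ℕ} (hn : 2 ≤ n) (v : ℂ) :
    Wd M (n - 2) v = Aw M n (M * (v + 1 / 2)) := by
  rw [Wd_Dw hM, Dw, Aw]
  refine Finset.prod_congr rfl fun j _ => ?_
  congr 1
  rw [be, Nat.cast_sub hn]
  push_cast
  ring

theorem q4_pt {M : ℕ} (hM : 0 < M) {n : ℕ} (hn : 2 ≤ n) (t : ℕ) (v : ℂ) :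
    q4 M (n - 2) t v = 1 / M * pt M n t (M * (v + 1 / 2)) := by
  rw [q4, pt]
  congr 1
  refine Finset.prod_congr rfl fun i _ => ?_
  have h1 := cos_fs hM v ((i : ℂ) + (((n - 2 : ℕ) : ℂ) + 1) / 2)
  have h2 := cos_fs' hM v ((i : ℂ) + (((n - 2 : ℕ) : ℂ) + 1) / 2)
  have e1 : (M : ℂ) * (v + 1 / 2) + ((i : ℂ) + (((n - 2 : ℕ) : ℂ) + 1) / 2) =
      M * (v + 1 / 2) + be n + i := by
    rw [be, Nat.cast_sub hn]
    push_cast
    ring
  have e2 : (M : ℂ) * (v + 1 / 2) - ((i : ℂ) + (((n - 2 : ℕ) : ℂ) + 1) / 2) =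
      M * (v + 1 / 2) - be n - i := by
    rw [be, Nat.cast_sub hn]
    push_cast
    ring
  rw [e1] at h1
  rw [e2] at h2
  rw [← h1, ← h2]
  ring

theorem Aw_split {M n h : ℕ} (hh : 1 ≤ h) (hn : 2 * h ≤ n) (u : ℂ) :
    Aw M n u = Dw M (n - 2 * h) u * Yw M (((n - 2 * h : ℕ) + 1 : ℂ) / 2) (h - 1) u := by
  obtain ⟨k, rfl⟩ := Nat.exists_eq_add_of_le' hh
  obtain ⟨d, rfl⟩ := Nat.exists_eq_add_of_le hn
  have e1 : 2 * (k + 1) + d - 2 = k + d + k := by omega
  have e2 : 2 * (k + 1) + d - 2 * (k + 1) = d := by omega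
  have e3 : k + 1 - 1 = k := by omega
  rw [Aw, e1, e2, e3, Finset.prod_range_add, Finset.prod_range_add, Dw, Yw,
    Finset.prod_mul_distrib]
  have k1 : ∏ j ∈ Finset.range k, fs M (u - be (2 * (k + 1) + d) + 1 + j) =
      ∏ i ∈ Finset.range k, fs M (u - ((d : ℂ) + 1) / 2 - i) := by
    rw [← Finset.prod_range_reflect]
    refine Finset.prod_congr rfl fun i hi => ?_
    have := Finset.mem_range.1 hi
    congr 1
    rw [be, Nat.cast_sub (by omega), Nat.cast_sub (by omega)]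
    push_cast
    ring
  have k2 : ∏ j ∈ Finset.range d, fs M (u - be (2 * (k + 1) + d) + 1 + ((k + j : ℕ) : ℂ)) =
      ∏ j ∈ Finset.range d, fs M (u + j + 1 / 2 - d / 2) := by
    refine Finset.prod_congr rfl fun j _ => ?_
    congr 1
    rw [be]
    push_cast
    ring
  have k3 : ∏ j ∈ Finset.range k, fs M (u - be (2 * (k + 1) + d) + 1 + ((k + d + j : ℕ) : ℂ)) =
      ∏ i ∈ Finset.range k, fs M (u + ((d : ℂ) + 1) / 2 + i) := by
    refine Finset.prod_congr rfl fun j _ => ?_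
    congr 1
    rw [be]
    push_cast
    ring
  rw [k1, k2, k3]
  ring

theorem Dw_refl {M : ℕ} (hM : 0 < M) (d : ℕ) (u : ℂ) : Dw M d (M - u) = Dw M d u := by
  rw [Dw, Dw, ← Finset.prod_range_reflect]
  refine Finset.prod_congr rfl fun j hj => ?_
  have hj' := Finset.mem_range.1 hj
  rw [← fs_refl hM]
  congr 1
  rw [Nat.cast_sub (by omega), Nat.cast_sub (by omega)]
  push_cast
  ring

theorem Yw_refl {M : ℕ} (hM : 0 < M) (a : ℂ) (k : ℕ) (u : ℂ) : Yw M a k (M - u) = Yw M a k u := by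
  rw [Yw, Yw]
  refine Finset.prod_congr rfl fun i _ => ?_
  have e1 : (M : ℂ) - u + a + i = M - (u - a - i) := by ring
  have e2 : (M : ℂ) - u - a - i = M - (u + a + i) := by ring
  rw [e1, e2, fs_refl hM, fs_refl hM, mul_comm]

theorem Dw_shift (M d : ℕ) (u : ℂ) :
    Dw M d (u + 1) * fs M (u + 1 - ((d : ℂ) + 1) / 2) = Dw M d u * fs M (u + ((d : ℂ) + 1) / 2) := by
  have h1 : Dw M d (u + 1) * fs M (u + 1 - ((d : ℂ) + 1) / 2) =
      ∏ j ∈ Finset.range (d + 1), fs M (u + j + 1 / 2 - d / 2) := by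
    rw [Finset.prod_range_succ', Dw]
    congr 1
    · refine Finset.prod_congr rfl fun j _ => ?_
      congr 1
      push_cast
      ring
    · congr 1
      push_cast
      ring
  rw [h1, Finset.prod_range_succ, Dw]
  congr 2
  ring

theorem Yw_shift (M : ℕ) (a : ℂ) (k : ℕ) (u : ℂ) :
    Yw M a k (u + 1) * (fs M (u + 1 - a - k) * fs M (u + a)) =
      Yw M a k u * (fs M (u + a + k) * fs M (u - a + 1)) := by
  induction k with
  | zero =>
    rw [Yw, Yw]
    simp only [Finset.range_zero, Finset.prod_empty, one_mul, Nat.cast_zero, sub_zero, add_zero]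
    rw [mul_comm, show u + 1 - a = u - a + 1 by ring]
  | succ k ih =>
    have h1 : Yw M a (k + 1) (u + 1) = Yw M a k (u + 1) *
        (fs M (u + 1 + a + k) * fs M (u + 1 - a - k)) := Finset.prod_range_succ _ _
    have h2 : Yw M a (k + 1) u = Yw M a k u * (fs M (u + a + k) * fs M (u - a - k)) :=
      Finset.prod_range_succ _ _
    have e1 : u + 1 - a - ((k + 1 : ℕ) : ℂ) = u - a - k := by
      push_cast
      ring
    have e2 : u + a + ((k + 1 : ℕ) : ℂ) = u + 1 + a + k := by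
      push_cast
      ring
    rw [h1, h2, e1, e2]
    linear_combination (fs M (u + 1 + a + k) * fs M (u - a - k)) * ih

/-- The weight of the second slot. -/
noncomputable def BB (M n h : ℕ) (σ : ℤ) (u : ℂ) : ℂ :=
  if σ = -1 then Yw M (((n - 2 * h : ℕ) + 1 : ℂ) / 2) (h - 1) u
  else Aw M n u * Dw M (n - 2 * h) u ^ σ.toNat

theorem BB_diff (M n h : ℕ) (σ : ℤ) : Differentiable ℂ (BB M n h σ) := by
  unfold BB
  split_ifs
  · exact Yw_diff _ _ _
  · exact (Aw_diff M n).mul ((Dw_diff M _).pow _)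

theorem BB_zero (M n h : ℕ) : BB M n h 0 = Aw M n := by
  funext u
  rw [BB, if_neg (by norm_num)]
  simp

theorem BB_refl {M : ℕ} (hM : 0 < M) {n : ℕ} (hn : 2 ≤ n) (h : ℕ) (σ : ℤ) (u : ℂ) :
    BB M n h σ (M - u) = BB M n h σ u := by
  rw [BB, BB, Yw_refl hM, Aw_refl hM hn, Dw_refl hM]

/-- The parameter of a node with one half twist. -/
def cnB (n h : ℕ) (σ : ℤ) : ℕ := if σ = -1 then h else n - h

theorem BB_shift {M n h : ℕ} (hh : 1 ≤ h) (hn : 2 * h ≤ n) {σ : ℤ} (hσ : σ = 1 ∨ σ = -1) (u : ℂ) :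
    BB M n h σ (u + 1) * (fs M (u + 1 - be n) * fs M (u + 1 - ((cnB n h σ : ℂ) - be n))) =
      BB M n h σ u * (fs M (u + be n) * fs M (u + ((cnB n h σ : ℂ) - be n))) := by
  rcases hσ with rfl | rfl
  · have h1 := Aw_shift (M := M) (show 2 ≤ n by omega) u
    have h2 := Dw_shift M (n - 2 * h) u
    have e : (cnB n h 1 : ℂ) - be n = (((n - 2 * h : ℕ) : ℂ) + 1) / 2 := by
      rw [cnB, if_neg (by norm_num), be, Nat.cast_sub (by omega), Nat.cast_sub hn]
      push_cast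
      ring
    rw [e, BB, BB, if_neg (by norm_num), if_neg (by norm_num)]
    simp only [Int.toNat_one, pow_one]
    linear_combination (Dw M (n - 2 * h) (u + 1) *
      fs M (u + 1 - (((n - 2 * h : ℕ) : ℂ) + 1) / 2)) * h1 + (Aw M n u * fs M (u + be n)) * h2
  · have h1 := Yw_shift M ((((n - 2 * h : ℕ) : ℂ) + 1) / 2) (h - 1) u
    have e1 : u + 1 - ((((n - 2 * h : ℕ) : ℂ) + 1) / 2) - ((h - 1 : ℕ) : ℂ) = u + 1 - be n := by
      rw [be, Nat.cast_sub hn, Nat.cast_sub hh]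
      push_cast
      ring
    have e2 : u + ((((n - 2 * h : ℕ) : ℂ) + 1) / 2) + ((h - 1 : ℕ) : ℂ) = u + be n := by
      rw [be, Nat.cast_sub hn, Nat.cast_sub hh]
      push_cast
      ring
    have e3 : u + 1 - ((cnB n h (-1) : ℂ) - be n) = u + (((n - 2 * h : ℕ) : ℂ) + 1) / 2 := by
      rw [cnB, if_pos rfl, be, Nat.cast_sub hn]
      push_cast
      ring
    have e4 : u + ((cnB n h (-1) : ℂ) - be n) = u - ((((n - 2 * h : ℕ) : ℂ) + 1) / 2) + 1 := by
      rw [cnB, if_pos rfl, be, Nat.cast_sub hn]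
      push_cast
      ring
    rw [e1, e2] at h1
    rw [e3, e4, BB, BB, if_pos rfl, if_pos rfl]
    exact h1

theorem Dw_be {M n h : ℕ} (hh : 1 ≤ h) (hn : 2 * h ≤ n) :
    (S M (h - 1) : ℂ) * Dw M (n - 2 * h) (be n) = (S M (n - h - 1) : ℂ) := by
  have h1 := S_prod_from M (h - 1) (n - 2 * h)
  have e1 : h - 1 + (n - 2 * h) = n - h - 1 := by omega
  rw [e1] at h1
  rw [← h1, Dw]
  congr 1
  refine Finset.prod_congr rfl fun j _ => ?_
  congr 1
  rw [be, Nat.cast_sub hn, Nat.cast_sub hh]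
  push_cast
  ring

theorem BB_be {M n h : ℕ} (hM : n ≤ M) (hh : 1 ≤ h) (hn : 2 * h ≤ n) {σ : ℤ}
    (hσ : σ = 1 ∨ σ = -1) : BB M n h σ (be n) = (S M (n - 2) : ℂ) *
      ((S M (cnB n h σ - 1) : ℂ) / (S M (n - cnB n h σ - 1) : ℂ)) := by
  have s1 : (S M (h - 1) : ℂ) ≠ 0 := by exact_mod_cast (S_pos (by omega : h - 1 < M)).ne'
  have s2 : (S M (n - h - 1) : ℂ) ≠ 0 := by
    exact_mod_cast (S_pos (by omega : n - h - 1 < M)).ne'
  have h1 := Dw_be (M := M) hh hn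
  rcases hσ with rfl | rfl
  · have e1 : cnB n h 1 = n - h := by rw [cnB, if_neg (by norm_num)]
    have e2 : n - (n - h) - 1 = h - 1 := by omega
    rw [e1, e2, BB, if_neg (by norm_num), Aw_be]
    simp only [Int.toNat_one, pow_one]
    rw [← h1]
    field_simp
  · have e1 : cnB n h (-1) = h := by rw [cnB, if_pos rfl]
    have h2 := Aw_split (M := M) hh hn (be n)
    rw [Aw_be] at h2
    rw [e1, BB, if_pos rfl, h2, ← h1]
    have hD : Dw M (n - 2 * h) (be n) ≠ 0 := by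
      intro h0
      rw [h0, mul_zero] at h1
      exact s2 h1.symm
    field_simp

theorem Dw_lat {M n h : ℕ} (hh : 1 ≤ h) (hn : 2 * h ≤ n) (hM : n ≤ M + 1) {X : ℕ}
    (hX : X < M + 2 - n) : Dw M (n - 2 * h) ((X : ℂ) + be n) ≠ 0 := by
  rw [Dw]
  refine Finset.prod_ne_zero_iff.2 fun j hj => ?_
  have hj' := Finset.mem_range.1 hj
  have e : (X : ℂ) + be n + j + 1 / 2 - ((n - 2 * h : ℕ) : ℂ) / 2 = ((X + j + h : ℕ) : ℂ) := by
    rw [be, Nat.cast_sub hn]
    push_cast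
    ring
  rw [e]
  exact fs_ne (by omega) (by omega)

theorem NA_FB {M n h : ℕ} (hM : 0 < M) (hh : 1 ≤ h) (hn : 2 * h ≤ n) (r : ℝ) {σ : ℤ}
    (hσ : σ = 0 ∨ σ = 1 ∨ σ = -1) (k l : ℕ) {v : ℂ}
    (hv : Dw M (n - 2 * h) (M * (v + 1 / 2)) ≠ 0) :
    NA r n (n - 2 * h) M σ k l v = 1 / M ^ 2 *
      FB r M n (BB M n h σ) (M + 1 - n - k) (M + 1 - n - l) (M * (v + 1 / 2)) := by
  have hM' : (M : ℂ) ≠ 0 := by exact_mod_cast hM.ne'
  have hn2 : 2 ≤ n := by omega
  have h1 : exp (2 * Real.pi * I * r * M * v ^ 2) = Eg r M (M * (v + 1 / 2)) := by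
    rw [Eg]
    congr 1
    field_simp
    ring
  have h2 : Wd M (n - 2) v ^ 2 * Wd M (n - 2 * h) v ^ σ =
      Aw M n (M * (v + 1 / 2)) * BB M n h σ (M * (v + 1 / 2)) := by
    rw [Wd_Aw hM hn2, Wd_Dw hM, BB]
    rcases hσ with rfl | rfl | rfl
    · rw [if_neg (by norm_num)]
      simp
      ring
    · rw [if_neg (by norm_num)]
      simp
      ring
    · rw [if_pos rfl, zpow_neg, zpow_one, Aw_split hh hn]
      field_simp
  rw [NA, FB, h1, h2, sin_fs hM, q4_pt hM hn2, q4_pt hM hn2]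
  ring

/-- The factor of a node as a sum in the variable `u`. -/
theorem DA_SL {M n h : ℕ} (hM : 0 < M) (hh : 1 ≤ h) (hn : 2 * h ≤ n) (hnM : n ≤ M + 1) (r : ℝ)
    {σ : ℤ} (hσ : σ = 0 ∨ σ = 1 ∨ σ = -1) (k l : ℕ) :
    DA r n (n - 2 * h) M σ k l =
      1 / M * SL M n (FB r M n (BB M n h σ) (M + 1 - n - k) (M + 1 - n - l)) := by
  have hM' : (M : ℂ) ≠ 0 := by exact_mod_cast hM.ne'
  rw [DA, SL, Finset.mul_sum]
  refine Finset.sum_congr rfl fun X hX => ?_
  have hX' := Finset.mem_range.1 hX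
  set x : ℂ := ((vl n M X : ℝ) : ℂ) with hx
  have e1 : (M : ℂ) * (x + 1 / 2) = (X : ℂ) + be n := by
    rw [hx, vl, ← bt_be]
    push_cast
    field_simp
    ring
  have hc : ContinuousAt (fun v : ℂ => Dw M (n - 2 * h) (M * (v + 1 / 2))) x :=
    ((Dw_diff M _).continuous.comp (by fun_prop)).continuousAt
  have hne : Dw M (n - 2 * h) (M * (x + 1 / 2)) ≠ 0 := by
    rw [e1]
    exact Dw_lat hh hn hnM hX'
  have hev : NA r n (n - 2 * h) M σ k l =ᶠ[𝓝 x] fun v => 1 / M ^ 2 *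
      FB r M n (BB M n h σ) (M + 1 - n - k) (M + 1 - n - l) (M * (v + 1 / 2)) := by
    filter_upwards [hc.eventually_ne hne] with v hv
    exact NA_FB hM hh hn r hσ k l hv
  rw [hev.deriv_eq, deriv_const_mul_field]
  have hF := FB_diff r M n (BB_diff M n h σ) (M + 1 - n - k) (M + 1 - n - l)
  have hd : HasDerivAt (fun v : ℂ => FB r M n (BB M n h σ) (M + 1 - n - k) (M + 1 - n - l)
      (M * (v + 1 / 2)))
      (deriv (FB r M n (BB M n h σ) (M + 1 - n - k) (M + 1 - n - l)) (M * (x + 1 / 2)) * M) x := by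
    have h1 : HasDerivAt (fun v : ℂ => (M : ℂ) * (v + 1 / 2)) M x := by
      have := ((hasDerivAt_id x).add_const (1 / 2 : ℂ)).const_mul (M : ℂ)
      simpa using this
    exact HasDerivAt.comp x (hF _).hasDerivAt h1
  rw [hd.deriv, e1]
  field_simp

end Pool.Agent.S5
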