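import Pool.Agent.H63.VC.Cross
import Pool.Agent.H63.VC11.Brac11
import Pool.Agent.H63.VC12.Path12
import Pool.Agent.H63.VC4.Checks
import Pool.Agent.S4.Root
import Pool.Agent.S5.X.KDef

/-!
# Nodes of the chains for `SU(n)`: definitions

The label of a missing slot of a node with antiparallel strands is `M + 1 - n`.
-/

namespace Pool.Agent.S5

open Pool.Agent.H63.VC hiding ext
open Pool.Agent.H63.VC3 Pool.Agent.H63.VC7 Pool.Agent.S3 Pool.Agent.S4 Complex

/-- The position of the label `k`. -/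
noncomputable def yN (n M k : ℕ) : ℂ := ((k : ℂ) + n / 2) / M - 1 / 2

/-- The function whose derivatives are summed at a node of antiparallel strands. -/
noncomputable def NA (r : ℝ) (n d M : ℕ) (σ : ℤ) (k l : ℕ) (v : ℂ) : ℂ :=
  exp (2 * Real.pi * I * r * M * v ^ 2) * (2 * sin (2 * Real.pi * v)) *
    (Wd M (n - 2) v ^ 2 * Wd M d v ^ σ) *
      (q4 M (n - 2) (M + 1 - n - k) v * q4 M (n - 2) (M + 1 - n - l) v)

/-- The factor of a node of antiparallel strands. -/
noncomputable def DA (r : ℝ) (n d M : ℕ) (σ : ℤ) (k l : ℕ) : ℂ :=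
  ∑ X ∈ Finset.range (M + 2 - n), deriv (NA r n d M σ k l) ((vl n M X : ℝ) : ℂ)

/-- The closed kernel (one half twist), shifted by `e`. -/
noncomputable def kHe (e : ℂ) (s : ℤ) (M : ℕ) (z b : ℂ) : ℂ :=
  exp (-(s * Real.pi * I * (M * (z + 1 / 2) * (b + 1 / 2) - (1 + e) * (z + b)))) *
    (exp (-LL M (M * (z + 1 / 2) - 1 - e)) * exp (-LL M (M * (b + 1 / 2) - 1 - e))) *
      rS M (M * (z + b) - 1)

/-- The unimodular constant of a node with one half twist. -/
noncomputable def ph1e (e : ℝ) (s : ℤ) (M : ℕ) : ℂ :=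
  (-1) ^ (M + 1) * exp (s * Real.pi * I * (M / 4 + 1 / 2 - (3 + 4 * e) / (4 * M)))

/-- The unimodular constant of a node with three half twists. -/
noncomputable def ph3e (e : ℝ) (s : ℤ) (M : ℕ) : ℂ :=
  (-1) ^ (M + 1) * exp (s * Real.pi * I * (M / 4 + 1 / 2 - (1 + 4 * e) / (4 * M)))

end Pool.Agent.S5
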