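import Pool.Agent.S5.N.Conv

/-!
# The conversion of a mixed edge
-/

set_option autoImplicit false

namespace Pool.Agent.S5

open Pool.Agent.H63.VC hiding ext
open Pool.Agent.H63.VC3 Pool.Agent.H63.VC7 Pool.Agent.S4 Complex

theorem q4_diff (M d t : ℕ) : Differentiable ℂ (q4 M d t) := by
  unfold q4
  fun_prop

theorem Wd_diff (M d : ℕ) : Differentiable ℂ (Wd M d) := by
  unfold Wd
  fun_prop

theorem phz_diff (M : ℕ) (b : ℂ) (t : ℕ) :
    Differentiable ℂ (fun v => phz M b t (2 * cos (2 * Real.pi * v))) := by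
  unfold phz
  fun_prop

/-- The slots with more than `M + 1 - n` factors vanish doubly on the lattice. -/
theorem q4_high {n M c X : ℕ} (hn : 2 ≤ n) (hX : X < M + 2 - n) (hc : M + 1 < c + n) {f : ℂ → ℂ}
    (hf : Differentiable ℂ f) :
    deriv (fun v => f v * q4 M (n - 2) c v) ((vl n M X : ℝ) : ℂ) = 0 := by
  set x : ℂ := ((vl n M X : ℝ) : ℂ) with hx
  have hM : (M : ℂ) ≠ 0 := by exact_mod_cast (by omega : M ≠ 0)
  have hxe : x = ((X : ℂ) + ((n : ℂ) - 1) / 2) / M - 1 / 2 := by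
    rw [hx, vl, bt]
    push_cast
    ring
  have hn2 : ((n - 2 : ℕ) : ℂ) = n - 2 := by
    rw [Nat.cast_sub hn]
    push_cast
    ring
  set A : ℂ → ℂ := fun v => ∏ i ∈ Finset.range c,
    (2 * cos (Real.pi * (v + ((i : ℂ) + (((n - 2 : ℕ) : ℂ) + 1) / 2) / M))) with hA
  set B : ℂ → ℂ := fun v => ∏ i ∈ Finset.range c,
    (2 * cos (Real.pi * (v - ((i : ℂ) + (((n - 2 : ℕ) : ℂ) + 1) / 2) / M))) with hB
  have hAd : Differentiable ℂ A := by
    rw [hA]
    fun_prop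
  have hBd : Differentiable ℂ B := by
    rw [hB]
    fun_prop
  have hA0 : A x = 0 := by
    refine Finset.prod_eq_zero (i := M + 1 - n - X) (Finset.mem_range.2 (by omega)) ?_
    have h1 : (Real.pi : ℂ) * (x + (((M + 1 - n - X : ℕ) : ℂ) + (((n - 2 : ℕ) : ℂ) + 1) / 2) / M) =
        Real.pi / 2 := by
      rw [hxe, hn2, Nat.cast_sub (by omega), Nat.cast_sub (by omega)]
      push_cast
      field_simp
      ring
    rw [h1, Complex.cos_pi_div_two, mul_zero]
  have hB0 : B x = 0 := by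
    refine Finset.prod_eq_zero (i := X) (Finset.mem_range.2 (by omega)) ?_
    have h1 : (Real.pi : ℂ) * (x - ((X : ℂ) + (((n - 2 : ℕ) : ℂ) + 1) / 2) / M) =
        -(Real.pi / 2) := by
      rw [hxe, hn2]
      field_simp
      ring
    rw [h1, Complex.cos_neg, Complex.cos_pi_div_two, mul_zero]
  have hq : (fun v => f v * q4 M (n - 2) c v) = fun v => (f v * (1 / M)) * (A v * B v) := by
    funext v
    rw [q4, hA, hB]
    simp only
    rw [← Finset.prod_mul_distrib, mul_assoc]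
    congr 2
    refine Finset.prod_congr rfl fun i _ => ?_
    ring
  rw [hq]
  have h1 := ((hf x).hasDerivAt.mul_const (1 / (M : ℂ))).mul
    ((hAd x).hasDerivAt.mul (hBd x).hasDerivAt)
  have h2 := h1.deriv
  simp only [Pi.mul_apply] at h2
  have h3 : (fun v => f v * (1 / (M : ℂ))) * (A * B) = fun v => (f v * (1 / M)) * (A v * B v) := rfl
  rw [h3] at h2
  rw [h2, hA0, hB0]
  ring

theorem sum_deriv_comb {ι : Type*} (s : Finset ι) (c : ι → ℂ) (F : ι → ℂ → ℂ)
    (hF : ∀ i, Differentiable ℂ (F i)) (pts : Finset ℕ) (x : ℕ → ℂ) :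
    ∑ X ∈ pts, deriv (fun v => ∑ i ∈ s, c i * F i v) (x X) =
      ∑ i ∈ s, c i * ∑ X ∈ pts, deriv (F i) (x X) := by
  simp only [Finset.mul_sum]
  rw [Finset.sum_comm]
  refine Finset.sum_congr rfl fun X _ => ?_
  rw [deriv_fun_sum fun i _ => ((hF i) _).const_mul (c i)]
  refine Finset.sum_congr rfl fun i _ => ?_
  rw [deriv_const_mul _ ((hF i) _)]

/-- The conversion of a mixed edge. -/
theorem edge_conv {n h M : ℕ} (hn : 2 ≤ n) (hh : 1 ≤ h) (h2 : 2 * h ≤ n) (hM : n ≤ M + 1)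
    (f g : ℂ → ℂ) (hf : Differentiable ℂ f) (hg : Differentiable ℂ g) :
    ∑ k ∈ Finset.range (M + 2 - n), (w5 n h true false M k : ℂ) *
      ((∑ X ∈ Finset.range (M + 2 - n), deriv (fun v => f v * Wd M (n - 2 * h) v ^ 2 *
          q4 M (n - 2) (M + 1 - n - k) v) ((vl n M X : ℝ) : ℂ)) *
        ∑ Y ∈ Finset.range M, deriv (fun v => g v * q4 M (2 * (n - h) - 2) (M + 1 - n - k) v)
          ((vl 2 M Y : ℝ) : ℂ)) =
    ∑ k ∈ Finset.range (M + 2 - n), (w5 n h true true M k : ℂ) *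
      ((∑ X ∈ Finset.range (M + 2 - n), deriv (fun v => f v * q4 M (n - 2) (M + 1 - n - k) v)
          ((vl n M X : ℝ) : ℂ)) *
        ∑ Y ∈ Finset.range M, deriv (fun v => g v * q4 M (2 * h - 2) (M + 1 - n - k) v)
          ((vl 2 M Y : ℝ) : ℂ)) := by
  have hn2 : ((n - 2 : ℕ) : ℂ) = n - 2 := by
    rw [Nat.cast_sub hn]
    push_cast
    ring
  set a : ℕ → ℂ := fun c => ∑ X ∈ Finset.range (M + 2 - n),
    deriv (fun v => f v * q4 M (n - 2) c v) ((vl n M X : ℝ) : ℂ) with ha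
  set b : ℕ → ℂ := fun t => ∑ Y ∈ Finset.range M,
    deriv (fun v => g v * q4 M (2 * (n - h) - 2) t v) ((vl 2 M Y : ℝ) : ℂ) with hb
  have hq1 : ∀ (t : ℕ) (v : ℂ), f v * Wd M (n - 2 * h) v ^ 2 * q4 M (n - 2) t v =
      ∑ i ∈ Finset.range (n - 2 * h + 1),
        cn M ((1 - ((n - 2 * h : ℕ) : ℂ)) / 2) (((n : ℂ) - 1) / 2 + t) (n - 2 * h) i *
          (f v * q4 M (n - 2) (t + i) v) := by
    intro t v
    have e : (((n - 2 : ℕ) : ℂ) + 1) / 2 = ((n : ℂ) - 1) / 2 := by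
      rw [hn2]
      ring
    rw [Wd_sq, q4_eq, e, phz_conn _ (((n : ℂ) - 1) / 2 + t) _ (n - 2 * h) (by omega),
      Finset.mul_sum, Finset.sum_mul]
    refine Finset.sum_congr rfl fun i _ => ?_
    rw [q4_eq, e, phz_add]
    ring
  have hq2 : ∀ (c : ℕ), c < M → ∀ (v : ℂ), g v * q4 M (2 * h - 2) c v =
      ∑ t ∈ Finset.range (c + 1),
        cn M ((h : ℂ) - 1 / 2) ((h : ℂ) - 1 / 2 + ((n - 2 * h : ℕ) : ℂ)) c t *
          (g v * q4 M (2 * (n - h) - 2) t v) := by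
    intro c hc v
    have e1 : (((2 * h - 2 : ℕ) : ℂ) + 1) / 2 = (h : ℂ) - 1 / 2 := by
      rw [Nat.cast_sub (by omega)]
      push_cast
      ring
    have e2 : (((2 * (n - h) - 2 : ℕ) : ℂ) + 1) / 2 =
        (h : ℂ) - 1 / 2 + ((n - 2 * h : ℕ) : ℂ) := by
      rw [Nat.cast_sub (by omega), Nat.cast_mul, Nat.cast_sub (by omega), Nat.cast_sub (by omega)]
      push_cast
      ring
    rw [q4_eq, e1, phz_conn _ ((h : ℂ) - 1 / 2 + ((n - 2 * h : ℕ) : ℂ)) _ c hc, Finset.mul_sum,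
      Finset.mul_sum]
    refine Finset.sum_congr rfl fun t _ => ?_
    rw [q4_eq, e2]
    ring
  have hdf : ∀ t : ℕ, Differentiable ℂ (fun v => f v * q4 M (n - 2) t v) := fun t =>
    hf.mul (q4_diff _ _ _)
  have hdg : ∀ t : ℕ, Differentiable ℂ (fun v => g v * q4 M (2 * (n - h) - 2) t v) := fun t =>
    hg.mul (q4_diff _ _ _)
  have core := conv_core hn hh h2 hM a b fun c hc => by
    refine Finset.sum_eq_zero fun X hX => ?_
    exact q4_high hn (Finset.mem_range.1 hX) hc hf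
  have r : ∀ F : ℕ → ℂ, ∑ k ∈ Finset.range (M + 2 - n), F k =
      ∑ t ∈ Finset.range (M + 2 - n), F (M + 1 - n - t) := by
    intro F
    rw [← Finset.sum_range_reflect]
    refine Finset.sum_congr rfl fun t _ => ?_
    congr 1
    omega
  rw [r, r (fun k => (w5 n h true true M k : ℂ) *
      ((∑ X ∈ Finset.range (M + 2 - n), deriv (fun v => f v * q4 M (n - 2) (M + 1 - n - k) v)
          ((vl n M X : ℝ) : ℂ)) *
        ∑ Y ∈ Finset.range M, deriv (fun v => g v * q4 M (2 * h - 2) (M + 1 - n - k) v)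
          ((vl 2 M Y : ℝ) : ℂ)))]
  have s1 : ∀ t ∈ Finset.range (M + 2 - n), (w5 n h true false M (M + 1 - n - t) : ℂ) *
      ((∑ X ∈ Finset.range (M + 2 - n), deriv (fun v => f v * Wd M (n - 2 * h) v ^ 2 *
          q4 M (n - 2) (M + 1 - n - (M + 1 - n - t)) v) ((vl n M X : ℝ) : ℂ)) *
        ∑ Y ∈ Finset.range M,
          deriv (fun v => g v * q4 M (2 * (n - h) - 2) (M + 1 - n - (M + 1 - n - t)) v)
            ((vl 2 M Y : ℝ) : ℂ)) =
      (w5 n h true false M (M + 1 - n - t) : ℂ) *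
      (∑ i ∈ Finset.range (n - 2 * h + 1),
        cn M ((1 - ((n - 2 * h : ℕ) : ℂ)) / 2) (((n : ℂ) - 1) / 2 + t) (n - 2 * h) i *
          a (t + i)) * b t := by
    intro t ht
    have ht' := Finset.mem_range.1 ht
    have e : M + 1 - n - (M + 1 - n - t) = t := by omega
    rw [e]
    simp only [hq1 t]
    rw [sum_deriv_comb _ _ _ (fun i => hdf (t + i)) _ (fun X => ((vl n M X : ℝ) : ℂ)), mul_assoc]
  have s2 : ∀ c ∈ Finset.range (M + 2 - n), (w5 n h true true M (M + 1 - n - c) : ℂ) *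
      ((∑ X ∈ Finset.range (M + 2 - n),
          deriv (fun v => f v * q4 M (n - 2) (M + 1 - n - (M + 1 - n - c)) v)
            ((vl n M X : ℝ) : ℂ)) *
        ∑ Y ∈ Finset.range M,
          deriv (fun v => g v * q4 M (2 * h - 2) (M + 1 - n - (M + 1 - n - c)) v)
            ((vl 2 M Y : ℝ) : ℂ)) =
      (w5 n h true true M (M + 1 - n - c) : ℂ) * a c *
      ∑ t ∈ Finset.range (c + 1),
        cn M ((h : ℂ) - 1 / 2) ((h : ℂ) - 1 / 2 + ((n - 2 * h : ℕ) : ℂ)) c t * b t := by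
    intro c hc
    have hc' := Finset.mem_range.1 hc
    have e : M + 1 - n - (M + 1 - n - c) = c := by omega
    rw [e]
    simp only [hq2 c (by omega)]
    rw [sum_deriv_comb _ _ _ hdg _ (fun X => ((vl 2 M X : ℝ) : ℂ)), mul_assoc]
  rw [Finset.sum_congr rfl s1, Finset.sum_congr rfl s2]
  exact core

end Pool.Agent.S5
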