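import Pool.Agent.S5.N.Fs

/-!
# Nodes of antiparallel strands: no half twist and one half twist
-/

namespace Pool.Agent.S5

open Pool.Agent.H63.VC hiding ext
open Pool.Agent.H63.VC3 Pool.Agent.H63.VC7 Pool.Agent.S3 Pool.Agent.S4 Complex Filter Topology

/-- The Gaussian factor. -/
noncomputable def Eg (r : ℂ) (M : ℕ) (u : ℂ) : ℂ :=
  exp (2 * Real.pi * I * r * M * (u / M - 1 / 2) ^ 2)

theorem Eg_diff (r : ℂ) (M : ℕ) : Differentiable ℂ (Eg r M) := by
  unfold Eg
  fun_prop

/-- The function at a node, with the weight `B`. -/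
noncomputable def FB (r : ℂ) (M n : ℕ) (B : ℂ → ℂ) (t t' : ℕ) (u : ℂ) : ℂ :=
  Eg r M u * (-fs M (2 * u)) * (Aw M n u * B u) * (pt M n t u * pt M n t' u)

theorem FB_diff (r : ℂ) (M n : ℕ) {B : ℂ → ℂ} (hB : Differentiable ℂ B) (t t' : ℕ) :
    Differentiable ℂ (FB r M n B t t') := by
  unfold FB
  exact (((Eg_diff r M).mul ((fs_diff M).comp (by fun_prop)).neg).mul
    ((Aw_diff M n).mul hB)).mul ((pt_diff M n t).mul (pt_diff M n t'))

theorem FB_comm (r : ℂ) (M n : ℕ) (B : ℂ → ℂ) (t t' : ℕ) :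
    FB r M n B t t' = FB r M n B t' t := by
  funext u
  rw [FB, FB, mul_comm (pt M n t u)]

theorem SL_congr {M n : ℕ} {H H' : ℂ → ℂ}
    (h : ∀ X ∈ Finset.range (M + 2 - n), deriv H ((X : ℂ) + be n) = deriv H' ((X : ℂ) + be n)) :
    SL M n H = SL M n H' := Finset.sum_congr rfl h

theorem SL_mul (M n : ℕ) (c : ℂ) (H : ℂ → ℂ) : SL M n (fun u => c * H u) = c * SL M n H := by
  rw [SL, SL, Finset.mul_sum]
  exact Finset.sum_congr rfl fun X _ => by rw [deriv_const_mul_field]

theorem SL_add {M n : ℕ} {H H' : ℂ → ℂ} (h : Differentiable ℂ H) (h' : Differentiable ℂ H') :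
    SL M n (fun u => H u + H' u) = SL M n H + SL M n H' := by
  rw [SL, SL, SL, ← Finset.sum_add_distrib]
  exact Finset.sum_congr rfl fun X _ => by rw [deriv_fun_add (h _) (h' _)]

/-! ### The base value -/

theorem fs_deriv_zero (M : ℕ) : deriv (fs M) 0 = 2 * Real.pi / M := by
  have h : HasDerivAt (fs M) (2 * (cos (Real.pi * 0 / M) * (Real.pi * 1 / M))) 0 := by
    unfold fs
    exact (((hasDerivAt_id (0 : ℂ)).const_mul (Real.pi : ℂ)).div_const (M : ℂ)).csin.const_mul 2
  rw [h.deriv]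
  simp
  ring

theorem deriv_single {f g : ℂ → ℂ} {x : ℂ} (hf : DifferentiableAt ℂ f x)
    (hg : DifferentiableAt ℂ g x) (h1 : f x = 0) :
    deriv (fun y => f y * g y) x = deriv f x * g x := by
  rw [deriv_fun_mul hf hg, h1, zero_mul, add_zero]

theorem S_prod (M k : ℕ) : ∏ i ∈ Finset.range k, fs M ((i : ℂ) + 1) = (S M k : ℂ) := by
  induction k with
  | zero => simp [S_zero']
  | succ k ih =>
    rw [Finset.prod_range_succ, ih, S_succ]
    push_cast
    congr 1
    have := fs_nat M (k + 1)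
    push_cast at this
    exact this

theorem S_prod_from (M a k : ℕ) :
    (S M a : ℂ) * ∏ i ∈ Finset.range k, fs M ((a : ℂ) + 1 + i) = (S M (a + k) : ℂ) := by
  rw [← S_prod, ← S_prod, Finset.prod_range_add]
  congr 1
  refine Finset.prod_congr rfl fun i _ => ?_
  congr 1
  push_cast
  ring

theorem Aw_be {M n : ℕ} : Aw M n (be n) = (S M (n - 2) : ℂ) := by
  rw [Aw, ← S_prod]
  refine Finset.prod_congr rfl fun j _ => ?_
  congr 1
  ring

theorem Eg_refl (r : ℂ) {M : ℕ} (hM : 0 < M) (u : ℂ) : Eg r M (M - u) = Eg r M u := by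
  have hM' : (M : ℂ) ≠ 0 := by exact_mod_cast hM.ne'
  rw [Eg, Eg]
  congr 1
  field_simp
  ring

theorem pt_refl {M : ℕ} (hM : 0 < M) (n t : ℕ) (u : ℂ) : pt M n t (M - u) = pt M n t u := by
  rw [pt, pt]
  refine Finset.prod_congr rfl fun i _ => ?_
  have e1 : (M : ℂ) - u + be n + i = M - (u - be n - i) := by ring
  have e2 : (M : ℂ) - u - be n - i = M - (u + be n + i) := by ring
  rw [e1, e2, fs_refl hM, fs_refl hM, mul_comm]

theorem Aw_refl {M : ℕ} (hM : 0 < M) {n : ℕ} (hn : 2 ≤ n) (u : ℂ) :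
    Aw M n (M - u) = Aw M n u := by
  rw [Aw, Aw, ← Finset.prod_range_reflect]
  refine Finset.prod_congr rfl fun j hj => ?_
  have hj' := Finset.mem_range.1 hj
  rw [← fs_refl hM]
  congr 1
  rw [be, Nat.cast_sub (by omega), Nat.cast_sub (by omega), Nat.cast_sub hn]
  push_cast
  ring

theorem FB_refl (r : ℂ) {M : ℕ} (hM : 0 < M) {n : ℕ} (hn : 2 ≤ n) {B : ℂ → ℂ}
    (hB : ∀ u, B (M - u) = B u) (t t' : ℕ) (u : ℂ) :
    FB r M n B t t' (M - u) = -FB r M n B t t' u := by
  have h1 : fs M (2 * (M - u)) = -fs M (2 * u) := by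
    have e : (2 : ℂ) * (M - u) = (M - 2 * u) + M := by ring
    rw [e, fs_add_M hM, fs_refl hM]
  rw [FB, FB, Eg_refl r hM, pt_refl hM, pt_refl hM, Aw_refl hM hn, hB, h1]
  ring

theorem deriv_refl {F : ℂ → ℂ} {c : ℂ} (h : ∀ u, F (c - u) = -F u) (u : ℂ) :
    deriv F (c - u) = deriv F u := by
  have h1 : deriv (fun x => F (c - x)) u = -deriv F (c - u) := deriv_comp_const_sub F c u
  have h2 : (fun x => F (c - x)) = fun x => -F x := funext h
  rw [h2] at h1
  have h3 : deriv (fun x => -F x) u = -deriv F u := deriv.neg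
  rw [h3] at h1
  exact (neg_injective h1).symm

/-- The value for the largest `t`. -/
theorem base_val (r : ℂ) {M n L : ℕ} (hn : 2 ≤ n) (hL : 1 ≤ L) (hM : M + 1 = n + L) {B : ℂ → ℂ}
    (hB : Differentiable ℂ B) (hBr : ∀ u, B (M - u) = B u) {w : ℂ}
    (hw : B (be n) = (S M (n - 2) : ℂ) * w) :
    SL M n (FB r M n B L 0) = (-1) ^ L * (4 * Real.pi * M) * (w * Eg r M (be n)) := by
  have hM0 : 0 < M := by omega
  have hM' : (M : ℂ) ≠ 0 := by exact_mod_cast hM0.ne'
  obtain ⟨K, rfl⟩ := Nat.exists_eq_add_of_le' hL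
  -- the points in the middle
  have hmid : ∀ X ∈ Finset.range (M + 2 - n), X ≠ 0 → X ≠ K + 1 →
      deriv (FB r M n B (K + 1) 0) ((X : ℂ) + be n) = 0 := by
    intro X hX h1 h2
    have hX' := Finset.mem_range.1 hX
    have hXL : X < K + 1 := by omega
    have e : FB r M n B (K + 1) 0 = fun u =>
        (∏ i ∈ Finset.range (K + 1), fs M (u - be n - i)) *
        ((∏ i ∈ Finset.range (K + 1), fs M (u + be n + i)) *
          (Eg r M u * (-fs M (2 * u)) * (Aw M n u * B u) * pt M n 0 u)) := by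
      funext u
      rw [FB, pt, Finset.prod_mul_distrib]
      ring
    rw [e]
    refine deriv_double ?_ ?_ ?_ ?_
    · refine DifferentiableAt.fun_finsetProd fun i _ => ?_
      exact ((fs_diff M).comp (by fun_prop)) _
    · refine DifferentiableAt.mul ?_ ?_
      · refine DifferentiableAt.fun_finsetProd fun i _ => ?_
        exact ((fs_diff M).comp (by fun_prop)) _
      · exact ((((Eg_diff r M).mul ((fs_diff M).comp (by fun_prop)).neg).mul
          ((Aw_diff M n).mul hB)).mul (pt_diff M n 0)) _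
    · refine Finset.prod_eq_zero (Finset.mem_range.2 hXL) ?_
      rw [show (X : ℂ) + be n - be n - X = 0 by ring, fs_zero]
    · refine mul_eq_zero_of_left ?_ _
      refine Finset.prod_eq_zero (i := K + 1 - X) (Finset.mem_range.2 (by omega)) ?_
      have : (X : ℂ) + be n + be n + ((K + 1 - X : ℕ) : ℂ) = M := by
        have hM2 : (M : ℂ) + 1 = n + (K + 1) := by exact_mod_cast hM
        rw [be, Nat.cast_sub (by omega)]
        push_cast
        linear_combination -hM2
      rw [this, fs_M hM0]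
  -- the reflection
  have hsym : deriv (FB r M n B (K + 1) 0) (((K + 1 : ℕ) : ℂ) + be n) =
      deriv (FB r M n B (K + 1) 0) (be n) := by
    rw [← deriv_refl (fun u => FB_refl r hM0 hn hBr (K + 1) 0 u) (be n)]
    congr 1
    have hM2 : (M : ℂ) + 1 = n + (K + 1) := by exact_mod_cast hM
    rw [be]
    push_cast
    linear_combination -hM2
  -- the value
  have hval : deriv (FB r M n B (K + 1) 0) (be n) =
      (-1) ^ (K + 1) * (2 * Real.pi * M) * (w * Eg r M (be n)) := by
    have e : FB r M n B (K + 1) 0 = fun u => fs M (u - be n) *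
        ((∏ i ∈ Finset.range K, fs M (u - be n - ((i + 1 : ℕ) : ℂ))) *
        ((∏ i ∈ Finset.range (K + 1), fs M (u + be n + i)) *
          (Eg r M u * (-fs M (2 * u)) * (Aw M n u * B u) * pt M n 0 u))) := by
      funext u
      rw [FB, pt, Finset.prod_mul_distrib, Finset.prod_range_succ' (fun i : ℕ =>
        fs M (u - be n - i))]
      simp only [Nat.cast_zero, sub_zero]
      ring
    have hd : deriv (fun u => fs M (u - be n)) (be n) = 2 * Real.pi / M := by
      rw [deriv_comp_sub_const, sub_self, fs_deriv_zero]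
    have k1 : ∏ i ∈ Finset.range K, fs M (be n - be n - ((i + 1 : ℕ) : ℂ)) =
        (-1) ^ K * (S M K : ℂ) := by
      rw [← S_prod]
      have : ∀ K : ℕ, ∏ i ∈ Finset.range K, fs M (be n - be n - ((i + 1 : ℕ) : ℂ)) =
          (-1) ^ K * ∏ i ∈ Finset.range K, fs M ((i : ℂ) + 1) := by
        intro K
        induction K with
        | zero => simp
        | succ K ih =>
          rw [Finset.prod_range_succ, ih, Finset.prod_range_succ,
            show be n - be n - ((K + 1 : ℕ) : ℂ) = -((K : ℂ) + 1) by push_cast; ring, fs_neg]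
          ring
      exact this K
    have k2 : (S M (n - 2) : ℂ) * ∏ i ∈ Finset.range (K + 1), fs M (be n + be n + i) = M := by
      have h := S_prod_from M (n - 2) (K + 1)
      have h2 : n - 2 + (K + 1) = M - 1 := by omega
      rw [h2, S_full M hM0] at h
      push_cast at h
      rw [← h]
      congr 1
      refine Finset.prod_congr rfl fun i _ => ?_
      congr 1
      rw [be, Nat.cast_sub hn]
      push_cast
      ring
    have k3 : fs M (2 * be n) = (sg M (n - 1) : ℂ) := by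
      rw [← fs_nat]
      congr 1
      rw [be, Nat.cast_sub (by omega)]
      push_cast
      ring
    have k4 : (S M (n - 1) : ℂ) = S M (n - 2) * sg M (n - 1) := by
      have : n - 1 = (n - 2) + 1 := by omega
      rw [this, S_succ]
      push_cast
      rfl
    have k5 : (S M (n - 1) : ℂ) * S M K = M := by
      have h := S_mul (M := M) (k := n - 1) (by omega)
      have h2 : M - 1 - (n - 1) = K := by omega
      rw [h2] at h
      exact_mod_cast h
    rw [e, deriv_single ?_ ?_ ?_, hd, k1, Aw_be, hw, k3, pt, Finset.range_zero, Finset.prod_empty]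
    · have hk : (S M (n - 2) : ℂ) * (sg M (n - 1) : ℂ) * S M K = M := by rw [← k4, k5]
      set p2 := ∏ i ∈ Finset.range (K + 1), fs M (be n + be n + i)
      have e3 : 2 * (Real.pi : ℂ) / M * ((-1) ^ K * (S M K : ℂ) * (p2 * (Eg r M (be n) *
          -(sg M (n - 1) : ℂ) * ((S M (n - 2) : ℂ) * ((S M (n - 2) : ℂ) * w)) * 1))) =
          2 * (Real.pi : ℂ) / M * ((-1) ^ (K + 1) * (w * Eg r M (be n)) *
            (((S M (n - 2) : ℂ) * p2) * ((S M (n - 2) : ℂ) * (sg M (n - 1) : ℂ) * S M K))) := by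
        rw [pow_succ]
        ring
      rw [e3, k2, hk]
      field_simp
    · exact ((fs_diff M).comp (by fun_prop)) _
    · refine DifferentiableAt.mul ?_ (DifferentiableAt.mul ?_ ?_)
      · refine DifferentiableAt.fun_finsetProd fun i _ => ?_
        exact ((fs_diff M).comp (by fun_prop)) _
      · refine DifferentiableAt.fun_finsetProd fun i _ => ?_
        exact ((fs_diff M).comp (by fun_prop)) _
      · exact ((((Eg_diff r M).mul ((fs_diff M).comp (by fun_prop)).neg).mul
          ((Aw_diff M n).mul hB)).mul (pt_diff M n 0)) _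
    · rw [sub_self, fs_zero]
  have hr : M + 2 - n = K + 2 := by omega
  rw [SL, hr, Finset.sum_range_succ, hsym, Finset.sum_range_succ']
  rw [Finset.sum_eq_zero, Nat.cast_zero, zero_add, zero_add, hval]
  · ring
  · intro X hX
    have := Finset.mem_range.1 hX
    exact hmid (X + 1) (Finset.mem_range.2 (by omega)) (by omega) (by omega)

/-! ### No half twist -/

theorem fs_core0 (M : ℕ) (u a b : ℂ) :
    fs M (u + a) * fs M (u + b) - fs M (u - a) * fs M (u - b) = fs M (2 * u) * fs M (a + b) := by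
  have e1 : (Real.pi : ℂ) * (u + a) / M = Real.pi * u / M + Real.pi * a / M := by ring
  have e2 : (Real.pi : ℂ) * (u + b) / M = Real.pi * u / M + Real.pi * b / M := by ring
  have e3 : (Real.pi : ℂ) * (u - a) / M = Real.pi * u / M - Real.pi * a / M := by ring
  have e4 : (Real.pi : ℂ) * (u - b) / M = Real.pi * u / M - Real.pi * b / M := by ring
  have e5 : (Real.pi : ℂ) * (2 * u) / M = 2 * (Real.pi * u / M) := by ring
  have e6 : (Real.pi : ℂ) * (a + b) / M = Real.pi * a / M + Real.pi * b / M := by ring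
  simp only [fs, e1, e2, e3, e4, e5, e6, sin_add, sin_sub, sin_two_mul]
  ring

theorem SL_zero_mul {M n : ℕ} (hM : 0 < M) (hn : 2 ≤ n) (hnM : n ≤ M + 1) (t t' : ℕ) :
    fs M ((n : ℂ) - 1 + t + t') * SL M n (FB 0 M n (Aw M n) t t') = 0 := by
  rw [← SL_mul]
  refine SL_tele hnM (P := fun u => -(Qt M n t u * Qt M n t' u)) ?_ ?_ ?_ ?_
  · intro X _
    exact (((Qt_diff M n t).mul (Qt_diff M n t')).neg) _
  · intro X _
    refine Filter.Eventually.of_forall fun u => ?_
    have h := fs_core0 M u (be n + t) (be n + t')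
    have e1 : u + (be n + t) = u + be n + t := by ring
    have e2 : u + (be n + t') = u + be n + t' := by ring
    have e3 : u - (be n + t) = u - be n - t := by ring
    have e4 : u - (be n + t') = u - be n - t' := by ring
    have e5 : be n + t + (be n + t') = (n : ℂ) - 1 + t + t' := by
      rw [be]
      ring
    rw [e1, e2, e3, e4, e5] at h
    have h0 : Eg 0 M u = 1 := by simp [Eg]
    rw [Qt_shift hn, Qt_shift hn, Qt, Qt, FB, h0]
    linear_combination (Aw M n u * pt M n t u * (Aw M n u * pt M n t' u)) * h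
  · have : (fun u => -(Qt M n t u * Qt M n t' u)) = fun u => (-Qt M n t u) * Qt M n t' u := by
      funext u
      ring
    rw [this]
    exact deriv_double ((Qt_diff M n t).neg _) (Qt_diff M n t' _) (by rw [Qt_bot, neg_zero])
      (Qt_bot M n t')
  · have : (fun u => -(Qt M n t u * Qt M n t' u)) = fun u => (-Qt M n t u) * Qt M n t' u := by
      funext u
      ring
    rw [this]
    exact deriv_double ((Qt_diff M n t).neg _) (Qt_diff M n t' _) (by rw [Qt_top hM hn, neg_zero])
      (Qt_top hM hn t')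

theorem fs_step (M : ℕ) (u a b : ℂ) :
    fs M (u + a) * fs M (u - a) = fs M (u + b) * fs M (u - b) + fs M (b + a) * fs M (b - a) := by
  have e1 : (Real.pi : ℂ) * (u + a) / M = Real.pi * u / M + Real.pi * a / M := by ring
  have e2 : (Real.pi : ℂ) * (u + b) / M = Real.pi * u / M + Real.pi * b / M := by ring
  have e3 : (Real.pi : ℂ) * (u - a) / M = Real.pi * u / M - Real.pi * a / M := by ring
  have e4 : (Real.pi : ℂ) * (u - b) / M = Real.pi * u / M - Real.pi * b / M := by ring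
  have e5 : (Real.pi : ℂ) * (b + a) / M = Real.pi * b / M + Real.pi * a / M := by ring
  have e6 : (Real.pi : ℂ) * (b - a) / M = Real.pi * b / M - Real.pi * a / M := by ring
  have h1 := sin_sq_add_cos_sq ((Real.pi : ℂ) * u / M)
  have h2 := sin_sq_add_cos_sq ((Real.pi : ℂ) * a / M)
  have h3 := sin_sq_add_cos_sq ((Real.pi : ℂ) * b / M)
  simp only [fs, e1, e2, e3, e4, e5, e6, sin_add, sin_sub]
  linear_combination
    (4 * sin ((Real.pi : ℂ) * b / M) ^ 2 - 4 * sin ((Real.pi : ℂ) * a / M) ^ 2) * h1 +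
    (4 * sin ((Real.pi : ℂ) * u / M) ^ 2 - 4 * sin ((Real.pi : ℂ) * b / M) ^ 2) * h2 +
    (4 * sin ((Real.pi : ℂ) * a / M) ^ 2 - 4 * sin ((Real.pi : ℂ) * u / M) ^ 2) * h3

theorem fs_ne' {M k : ℕ} (h1 : 1 ≤ k) (h2 : k < 2 * M) (h3 : k ≠ M) : fs M (k : ℂ) ≠ 0 := by
  rcases Nat.lt_or_gt_of_ne h3 with h | h
  · exact fs_ne h1 h
  · obtain ⟨j, rfl⟩ := Nat.exists_eq_add_of_le h.le
    have := fs_add_M (M := M) (by omega) (j : ℂ)
    rw [add_comm] at this
    push_cast
    rw [this]
    exact neg_ne_zero.2 (fs_ne (by omega) (by omega))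

theorem SL0_zero {M n : ℕ} (hM : 0 < M) (hn : 2 ≤ n) (hnM : n ≤ M + 1) {t t' : ℕ}
    (h : n - 1 + t + t' ≠ M) (h' : n - 1 + t + t' < 2 * M) :
    SL M n (FB 0 M n (Aw M n) t t') = 0 := by
  have h1 := SL_zero_mul hM hn hnM t t'
  have h2 : (n : ℂ) - 1 + t + t' = ((n - 1 + t + t' : ℕ) : ℂ) := by
    rw [Nat.cast_add, Nat.cast_add, Nat.cast_sub (by omega)]
    push_cast
    rfl
  rw [h2] at h1
  exact (mul_eq_zero.1 h1).resolve_left (fs_ne' (by omega) h' h)

theorem SL0_top {M n L : ℕ} (hn : 2 ≤ n) (hL : 1 ≤ L) (hM : M + 1 = n + L) :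
    ∀ t' t : ℕ, t + t' = L →
      SL M n (FB 0 M n (Aw M n) t t') = (-1) ^ L * (4 * Real.pi * M) := by
  have hM0 : 0 < M := by omega
  intro t'
  induction t' with
  | zero =>
    intro t ht
    rw [add_zero] at ht
    rw [ht, base_val 0 hn hL hM (Aw_diff M n) (Aw_refl hM0 hn) (w := 1)]
    · have h0 : Eg 0 M (be n) = 1 := by simp [Eg]
      rw [h0]
      ring
    · rw [Aw_be, mul_one]
  | succ t' ih =>
    intro t ht
    rw [← ih (t + 1) (by omega)]
    have e : FB 0 M n (Aw M n) (t + 1) t' = fun u => FB 0 M n (Aw M n) t (t' + 1) u +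
        (fs M (be n + t' + (be n + t)) * fs M (be n + t' - (be n + t))) *
          FB 0 M n (Aw M n) t t' u := by
      funext u
      rw [FB, FB, FB, pt_succ, pt_succ]
      have h := fs_step M u (be n + t) (be n + t')
      have e1 : u + (be n + t) = u + be n + t := by ring
      have e2 : u + (be n + t') = u + be n + t' := by ring
      have e3 : u - (be n + t) = u - be n - t := by ring
      have e4 : u - (be n + t') = u - be n - t' := by ring
      rw [e1, e2, e3, e4] at h
      rw [h]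
      ring
    rw [e, SL_add (FB_diff 0 M n (Aw_diff M n) t (t' + 1))
      ((FB_diff 0 M n (Aw_diff M n) t t').const_mul _), SL_mul,
      SL0_zero (t := t) (t' := t') hM0 hn (by omega) (by omega) (by omega), mul_zero, add_zero]

/-- No half twist. -/
theorem SL0_val {M n L : ℕ} (hn : 2 ≤ n) (hL : 1 ≤ L) (hM : M + 1 = n + L) {t t' : ℕ}
    (ht : t ≤ L) (ht' : t' ≤ L) : SL M n (FB 0 M n (Aw M n) t t') =
      if t + t' = L then (-1) ^ L * (4 * (Real.pi : ℂ) * M) else 0 := by
  split_ifs with h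
  · exact SL0_top hn hL hM t' t h
  · exact SL0_zero (by omega) hn (by omega) (by omega) (by omega)

/-! ### One half twist -/

/-- The root of unity. -/
noncomputable def ze (M : ℕ) (x : ℂ) : ℂ := exp (Real.pi * I * x / M)

theorem ze_add (M : ℕ) (x y : ℂ) : ze M (x + y) = ze M x * ze M y := by
  rw [ze, ze, ze, ← exp_add]
  congr 1
  ring

theorem ze_neg (M : ℕ) (x : ℂ) : ze M (-x) = (ze M x)⁻¹ := by
  rw [ze, ze, ← exp_neg]
  congr 1
  ring

theorem ze_ne (M : ℕ) (x : ℂ) : ze M x ≠ 0 := exp_ne_zero _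

theorem fs_ze (M : ℕ) (x : ℂ) : fs M x = -I * (ze M x - (ze M x)⁻¹) := by
  rw [← ze_neg, ze, ze, fs, sin]
  have e1 : -((Real.pi : ℂ) * x / M) * I = Real.pi * I * -x / M := by ring
  have e2 : ((Real.pi : ℂ) * x / M) * I = Real.pi * I * x / M := by ring
  rw [e1, e2]
  ring

theorem fs_core1 (M : ℕ) (u a b c : ℂ) :
    ze M u * (fs M (u + a) * fs M (u + b) * fs M (u + c)) +
      (ze M u)⁻¹ * (fs M (u - a) * fs M (u - b) * fs M (u - c)) =
    fs M (2 * u) * (ze M (a + b + c) * (fs M (u + a) * fs M (u - a)) +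
      ze M a * (fs M (a + b) * fs M (a + c))) := by
  have h1 : (2 : ℂ) * u = u + u := by ring
  simp only [fs_ze, h1, sub_eq_add_neg, ze_add, ze_neg]
  have k1 := ze_ne M u
  have k2 := ze_ne M a
  have k3 := ze_ne M b
  have k4 := ze_ne M c
  generalize ze M u = x at *
  generalize ze M a = p at *
  generalize ze M b = q at *
  generalize ze M c = s at *
  field_simp
  ring_nf

/-- The Gaussian factor of the telescoping function. -/
noncomputable def Gg (M : ℕ) (u : ℂ) : ℂ := exp (Real.pi * I * M * ((u - 1 / 2) / M - 1 / 2) ^ 2)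

theorem Gg_diff (M : ℕ) : Differentiable ℂ (Gg M) := by
  unfold Gg
  fun_prop

theorem Gg_eq {M : ℕ} (hM : 0 < M) (u : ℂ) :
    Gg M u = I * exp (Real.pi * I / (4 * M)) * Eg (1 / 2) M u * (ze M u)⁻¹ := by
  have hM' : (M : ℂ) ≠ 0 := by exact_mod_cast hM.ne'
  have hI : I * exp (Real.pi * I / (4 * M)) = exp (Real.pi * I / 2 + Real.pi * I / (4 * M)) := by
    rw [exp_add, show (Real.pi : ℂ) * I / 2 = Real.pi / 2 * I by ring, exp_pi_div_two_mul_I]
  rw [← ze_neg, ze, Gg, Eg, hI, ← exp_add, ← exp_add]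
  congr 1
  field_simp
  ring

theorem Gg_succ {M : ℕ} (hM : 0 < M) (u : ℂ) :
    Gg M (u + 1) = -(I * exp (Real.pi * I / (4 * M)) * Eg (1 / 2) M u * ze M u) := by
  have hM' : (M : ℂ) ≠ 0 := by exact_mod_cast hM.ne'
  have hI : -I * exp (Real.pi * I / (4 * M)) =
      exp (-(Real.pi * I / 2) + Real.pi * I / (4 * M)) := by
    rw [exp_add, exp_neg, show (Real.pi : ℂ) * I / 2 = Real.pi / 2 * I by ring,
      exp_pi_div_two_mul_I, inv_I]
  rw [← neg_mul, ← neg_mul, ← neg_mul, hI, ze, Gg, Eg, ← exp_add, ← exp_add]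
  congr 1
  field_simp
  ring

/-- The telescoping function for one half twist. -/
noncomputable def QB (M n : ℕ) (B : ℂ → ℂ) (c : ℂ) (t : ℕ) (u : ℂ) : ℂ :=
  B u * pt M n t u * (fs M (u - be n - t) * fs M (u - c))

theorem QB_diff (M n : ℕ) {B : ℂ → ℂ} (hB : Differentiable ℂ B) (c : ℂ) (t : ℕ) :
    Differentiable ℂ (QB M n B c t) := by
  unfold QB
  exact (hB.mul (pt_diff M n t)).mul (((fs_diff M).comp (by fun_prop)).mul
    ((fs_diff M).comp (by fun_prop)))

theorem QB_shift {M n : ℕ} {B : ℂ → ℂ} {c : ℂ}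
    (hB : ∀ u, B (u + 1) * (fs M (u + 1 - be n) * fs M (u + 1 - c)) =
      B u * (fs M (u + be n) * fs M (u + c))) (t : ℕ) (u : ℂ) :
    QB M n B c t (u + 1) = B u * pt M n t u * (fs M (u + be n + t) * fs M (u + c)) := by
  induction t with
  | zero =>
    have h := hB u
    rw [QB, pt, pt]
    simp only [Finset.range_zero, Finset.prod_empty, mul_one, Nat.cast_zero, sub_zero, add_zero]
    exact h
  | succ t ih =>
    have h1 : QB M n B c (t + 1) (u + 1) = QB M n B c t (u + 1) *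
        (fs M (u + 1 + be n + t) * fs M (u + 1 - be n - ((t + 1 : ℕ) : ℂ))) := by
      rw [QB, QB, pt_succ]
      ring
    rw [h1, ih, pt_succ]
    have e1 : u + 1 + be n + t = u + be n + ((t + 1 : ℕ) : ℂ) := by
      push_cast
      ring
    have e2 : u + 1 - be n - ((t + 1 : ℕ) : ℂ) = u - be n - t := by
      push_cast
      ring
    rw [e1, e2]
    ring

theorem QB_bot (M n : ℕ) (B : ℂ → ℂ) (c : ℂ) (t : ℕ) : QB M n B c t (be n) = 0 := by
  rw [QB]
  cases t with
  | zero =>
    have : be n - be n - ((0 : ℕ) : ℂ) = 0 := by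
      push_cast
      ring
    rw [this, fs_zero]
    ring
  | succ t =>
    have h : pt M n (t + 1) (be n) = 0 := by
      rw [pt]
      refine Finset.prod_eq_zero (Finset.mem_range.2 (Nat.succ_pos t)) ?_
      have : be n - be n - ((0 : ℕ) : ℂ) = 0 := by
        push_cast
        ring
      rw [this, fs_zero, mul_zero]
    rw [h]
    ring

theorem QB_top {M n : ℕ} (hM : 0 < M) {B : ℂ → ℂ} {c : ℂ}
    (hB : ∀ u, B (u + 1) * (fs M (u + 1 - be n) * fs M (u + 1 - c)) =
      B u * (fs M (u + be n) * fs M (u + c))) (t : ℕ) : QB M n B c t (M - be n + 1) = 0 := by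
  rw [QB_shift hB]
  cases t with
  | zero =>
    have : (M : ℂ) - be n + be n + ((0 : ℕ) : ℂ) = M := by
      push_cast
      ring
    rw [this, fs_M hM]
    ring
  | succ t =>
    have h : pt M n (t + 1) (M - be n) = 0 := by
      rw [pt]
      refine Finset.prod_eq_zero (Finset.mem_range.2 (Nat.succ_pos t)) ?_
      have : (M : ℂ) - be n + be n + ((0 : ℕ) : ℂ) = M := by
        push_cast
        ring
      rw [this, fs_M hM, zero_mul]
    rw [h]
    ring

/-- The recurrence for one half twist. -/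
theorem SL_one_rec {M n : ℕ} (hM : 0 < M) (hn : 2 ≤ n) (hnM : n ≤ M + 1) {B : ℂ → ℂ} {c : ℂ}
    (hBd : Differentiable ℂ B)
    (hB : ∀ u, B (u + 1) * (fs M (u + 1 - be n) * fs M (u + 1 - c)) =
      B u * (fs M (u + be n) * fs M (u + c))) (t t' : ℕ) :
    ze M (be n + t + (be n + t') + c) * SL M n (FB (1 / 2) M n B (t + 1) t') +
      ze M (be n + t) * (fs M ((n : ℂ) - 1 + t + t') * fs M (be n + t + c)) *
        SL M n (FB (1 / 2) M n B t t') = 0 := by
  rw [← SL_mul, ← SL_mul, ← SL_add ((FB_diff _ M n hBd _ _).const_mul _)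
    ((FB_diff _ M n hBd _ _).const_mul _)]
  have hc : I * exp (Real.pi * I / (4 * M)) ≠ 0 := mul_ne_zero I_ne_zero (exp_ne_zero _)
  refine (mul_eq_zero.1 ?_).resolve_left hc
  rw [← SL_mul]
  refine SL_tele hnM (P := fun u => (Gg M u * Qt M n t u) * QB M n B c t' u) ?_ ?_ ?_ ?_
  · intro X _
    exact (((Gg_diff M).mul (Qt_diff M n t)).mul (QB_diff M n hBd c t')) _
  · intro X _
    refine Filter.Eventually.of_forall fun u => ?_
    have h := fs_core1 M u (be n + t) (be n + t') c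
    have e1 : u + (be n + t) = u + be n + t := by ring
    have e2 : u + (be n + t') = u + be n + t' := by ring
    have e3 : u - (be n + t) = u - be n - t := by ring
    have e4 : u - (be n + t') = u - be n - t' := by ring
    have e5 : be n + t + (be n + t') = (n : ℂ) - 1 + t + t' := by
      rw [be]
      ring
    rw [e1, e2, e3, e4, e5] at h
    have e6 : be n + t + (be n + t') + c = (n : ℂ) - 1 + t + t' + c := by rw [e5]
    rw [Qt_shift hn, QB_shift hB, Qt, QB, FB, FB, pt_succ, Gg_succ hM, Gg_eq hM, e6]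
    linear_combination (-(I * exp (Real.pi * I / (4 * M))) * Eg (1 / 2) M u * (Aw M n u * B u) *
      (pt M n t u * pt M n t' u)) * (-h)
  · exact deriv_double (((Gg_diff M).mul (Qt_diff M n t)) _) (QB_diff M n hBd c t' _)
      (by rw [Qt_bot, mul_zero]) (QB_bot M n B c t')
  · exact deriv_double (((Gg_diff M).mul (Qt_diff M n t)) _) (QB_diff M n hBd c t' _)
      (by rw [Qt_top hM hn, mul_zero]) (QB_top hM hB t')

/-- The values for one half twist, up to a constant. -/
noncomputable def RR (M n c t t' : ℕ) : ℂ :=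
  (-1) ^ (t + t') * ze M (-((c : ℂ) * (t + t') + t * t')) *
    ((S M (t + c - 1) : ℂ) * (S M (t' + c - 1) : ℂ) * (S M (t + t' + n - 2) : ℂ))

theorem RR_comm (M n c t t' : ℕ) : RR M n c t t' = RR M n c t' t := by
  rw [RR, RR, add_comm t t', mul_comm (S M (t + c - 1) : ℂ), add_comm (t : ℂ), mul_comm (t : ℂ)]

theorem RR_succ {M n c : ℕ} (hn : 2 ≤ n) (hc : 1 ≤ c) (t t' : ℕ) :
    RR M n c (t + 1) t' = -(ze M (-((c : ℂ) + t')) * (fs M ((n : ℂ) - 1 + t + t') *
      fs M ((t : ℂ) + c))) * RR M n c t t' := by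
  obtain ⟨c, rfl⟩ := Nat.exists_eq_add_of_le' hc
  obtain ⟨n, rfl⟩ := Nat.exists_eq_add_of_le' hn
  have e1 : t + 1 + (c + 1) - 1 = t + (c + 1) - 1 + 1 := by omega
  have e2 : t + 1 + t' + (n + 2) - 2 = t + t' + (n + 2) - 2 + 1 := by omega
  have e3 : (((n + 2 : ℕ) : ℂ) - 1 + t + t') = ((t + t' + (n + 2) - 2 + 1 : ℕ) : ℂ) := by
    have : t + t' + (n + 2) - 2 + 1 = t + t' + n + 1 := by omega
    rw [this]
    push_cast
    ring
  have e4 : (t : ℂ) + ((c + 1 : ℕ) : ℂ) = ((t + (c + 1) - 1 + 1 : ℕ) : ℂ) := by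
    have : t + (c + 1) - 1 + 1 = t + (c + 1) := by omega
    rw [this]
    push_cast
    ring
  have e5 : -(((c + 1 : ℕ) : ℂ) * (((t + 1 : ℕ) : ℂ) + t') + ((t + 1 : ℕ) : ℂ) * t') =
      -(((c + 1 : ℕ) : ℂ) + t') + -(((c + 1 : ℕ) : ℂ) * (t + t') + t * t') := by
    push_cast
    ring
  rw [RR, RR, e1, e2, e3, e4, e5, fs_nat, fs_nat, S_succ, S_succ, ze_add]
  have e6 : t + 1 + t' = t + t' + 1 := by ring
  rw [e6, pow_succ]
  push_cast
  ring

theorem SL1_ratio {M n : ℕ} (hM : 0 < M) (hn : 2 ≤ n) (hnM : n ≤ M + 1) {B : ℂ → ℂ} {c : ℕ}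
    (hc : 1 ≤ c) (hBd : Differentiable ℂ B)
    (hB : ∀ u, B (u + 1) * (fs M (u + 1 - be n) * fs M (u + 1 - (c - be n))) =
      B u * (fs M (u + be n) * fs M (u + (c - be n)))) (t t' : ℕ) :
    SL M n (FB (1 / 2) M n B t t') * RR M n c 0 0 =
      SL M n (FB (1 / 2) M n B 0 0) * RR M n c t t' := by
  have hstep : ∀ t t', SL M n (FB (1 / 2) M n B (t + 1) t') =
      -(ze M (-((c : ℂ) + t')) * (fs M ((n : ℂ) - 1 + t + t') * fs M ((t : ℂ) + c))) *
        SL M n (FB (1 / 2) M n B t t') := by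
    intro t t'
    have h := SL_one_rec hM hn hnM hBd hB t t'
    have e1 : be n + t + (be n + t') + ((c : ℂ) - be n) = (be n + t) + (c + t') := by ring
    have e2 : be n + t + ((c : ℂ) - be n) = t + c := by ring
    rw [e1, e2, ze_add] at h
    rw [ze_neg]
    have k1 := ze_ne M (be n + t)
    have k2 := ze_ne M ((c : ℂ) + t')
    have h' : ze M ((c : ℂ) + t') * SL M n (FB (1 / 2) M n B (t + 1) t') +
        (fs M ((n : ℂ) - 1 + t + t') * fs M ((t : ℂ) + c)) * SL M n (FB (1 / 2) M n B t t') = 0 := by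
      refine mul_left_cancel₀ k1 ?_
      linear_combination h
    refine mul_left_cancel₀ k2 ?_
    have e3 : ze M ((c : ℂ) + t') * (-((ze M ((c : ℂ) + t'))⁻¹ * (fs M ((n : ℂ) - 1 + t + t') *
        fs M ((t : ℂ) + c))) * SL M n (FB (1 / 2) M n B t t')) = -((fs M ((n : ℂ) - 1 + t + t') *
        fs M ((t : ℂ) + c)) * SL M n (FB (1 / 2) M n B t t')) * (ze M ((c : ℂ) + t') *
          (ze M ((c : ℂ) + t'))⁻¹) := by ring
    rw [e3, mul_inv_cancel₀ k2, mul_one]
    linear_combination h'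
  have h0 : ∀ t, SL M n (FB (1 / 2) M n B t 0) * RR M n c 0 0 =
      SL M n (FB (1 / 2) M n B 0 0) * RR M n c t 0 := by
    intro t
    induction t with
    | zero => rfl
    | succ t ih =>
      rw [hstep, RR_succ hn hc, mul_assoc, ih]
      ring
  induction t with
  | zero =>
    have := h0 t'
    rw [FB_comm, RR_comm M n c 0 t']
    exact this
  | succ t ih =>
    rw [hstep, RR_succ hn hc, mul_assoc, ih]
    ring

/-- One half twist. -/
theorem SL1_val {M n L : ℕ} (hn : 2 ≤ n) (hL : 1 ≤ L) (hM : M + 1 = n + L) {B : ℂ → ℂ} {c : ℕ}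
    (hc : 1 ≤ c) (hcn : c < n) (hBd : Differentiable ℂ B) (hBr : ∀ u, B (M - u) = B u)
    (hB : ∀ u, B (u + 1) * (fs M (u + 1 - be n) * fs M (u + 1 - (c - be n))) =
      B u * (fs M (u + be n) * fs M (u + (c - be n))))
    (hw : B (be n) = (S M (n - 2) : ℂ) * ((S M (c - 1) : ℂ) / (S M (n - c - 1) : ℂ))) (t t' : ℕ) :
    SL M n (FB (1 / 2) M n B t t') =
      4 * Real.pi / M * Eg (1 / 2) M (be n) * ze M (c * L) * RR M n c t t' := by
  have hM0 : 0 < M := by omega
  have hM' : (M : ℂ) ≠ 0 := by exact_mod_cast hM0.ne'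
  have h1 := SL1_ratio hM0 hn (by omega) hc hBd hB t t'
  have h2 := SL1_ratio hM0 hn (by omega) hc hBd hB L 0
  have h3 := base_val (1 / 2) hn hL hM hBd hBr hw
  have s1 : (S M (c - 1) : ℂ) ≠ 0 := by exact_mod_cast (S_pos (by omega : c - 1 < M)).ne'
  have s2 : (S M (n - 2) : ℂ) ≠ 0 := by exact_mod_cast (S_pos (by omega : n - 2 < M)).ne'
  have s3 : (S M (n - c - 1) : ℂ) ≠ 0 := by
    exact_mod_cast (S_pos (by omega : n - c - 1 < M)).ne'
  have s4 : (S M (L + c - 1) : ℂ) ≠ 0 := by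
    exact_mod_cast (S_pos (by omega : L + c - 1 < M)).ne'
  have r0 : RR M n c 0 0 ≠ 0 := by
    rw [RR]
    refine mul_ne_zero (mul_ne_zero (by simp) (ze_ne _ _)) ?_
    simp only [zero_add]
    exact mul_ne_zero (mul_ne_zero s1 s1) s2
  have rL : RR M n c L 0 = (-1) ^ L * (ze M (c * L))⁻¹ *
      ((S M (L + c - 1) : ℂ) * (S M (c - 1) : ℂ) * M) := by
    rw [RR, ← ze_neg]
    have e1 : -((c : ℂ) * (L + ((0 : ℕ) : ℂ)) + L * ((0 : ℕ) : ℂ)) = -(c * L) := by
      push_cast
      ring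
    have e2 : L + 0 + n - 2 = M - 1 := by omega
    rw [e1, e2, S_full M hM0, add_zero, zero_add]
    push_cast
    ring
  have hk : (S M (n - c - 1) : ℂ) * (S M (L + c - 1) : ℂ) = M := by
    have h := S_mul (M := M) (k := n - c - 1) (by omega)
    have h2 : M - 1 - (n - c - 1) = L + c - 1 := by omega
    rw [h2] at h
    exact_mod_cast h
  have hL2 : ((-1 : ℂ)) ^ L ≠ 0 := pow_ne_zero _ (by norm_num)
  have hz := ze_ne M ((c : ℂ) * L)
  have e0 : SL M n (FB (1 / 2) M n B 0 0) =
      4 * Real.pi / M * Eg (1 / 2) M (be n) * ze M (c * L) * RR M n c 0 0 := by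
    rw [h3, rL] at h2
    refine mul_right_cancel₀ (b := (-1) ^ L * (ze M (c * L))⁻¹ *
      ((S M (L + c - 1) : ℂ) * (S M (c - 1) : ℂ) * M)) ?_ ?_
    · exact mul_ne_zero (mul_ne_zero hL2 (inv_ne_zero hz)) (mul_ne_zero (mul_ne_zero s4 s1) hM')
    rw [← h2]
    have e1 : 4 * (Real.pi : ℂ) / M * Eg (1 / 2) M (be n) * ze M (c * L) * RR M n c 0 0 *
        ((-1) ^ L * (ze M (c * L))⁻¹ * ((S M (L + c - 1) : ℂ) * (S M (c - 1) : ℂ) * M)) =
        4 * (Real.pi : ℂ) * Eg (1 / 2) M (be n) * RR M n c 0 0 * (-1) ^ L * (S M (c - 1) : ℂ) *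
          (S M (L + c - 1) : ℂ) := by
      field_simp
    rw [e1]
    have e2 : (S M (L + c - 1) : ℂ) = M / (S M (n - c - 1) : ℂ) := by
      rw [eq_div_iff s3, mul_comm]
      exact hk
    rw [e2]
    ring
  rw [e0] at h1
  refine mul_right_cancel₀ r0 ?_
  rw [h1]
  ring

end Pool.Agent.S5
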