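import Pool.Agent.S5.N.Def
import Pool.Agent.S4.D.Ex

/-!
# Nodes of antiparallel strands: the variable `u = M (v + 1/2)`, telescoping functions
-/

namespace Pool.Agent.S5

open Pool.Agent.H63.VC hiding ext
open Pool.Agent.H63.VC3 Pool.Agent.H63.VC7 Pool.Agent.S3 Pool.Agent.S4 Complex Filter Topology

/-- `2 sin (π z / M)`. -/
noncomputable def fs (M : ℕ) (z : ℂ) : ℂ := 2 * sin (Real.pi * z / M)

theorem fs_nat (M k : ℕ) : fs M k = (sg M k : ℂ) := by
  rw [fs, sg]
  push_cast
  rfl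

theorem fs_neg (M : ℕ) (z : ℂ) : fs M (-z) = -fs M z := by
  rw [fs, fs, mul_neg, neg_div, sin_neg]
  ring

theorem fs_zero (M : ℕ) : fs M 0 = 0 := by simp [fs]

theorem fs_add_M {M : ℕ} (hM : 0 < M) (z : ℂ) : fs M (z + M) = -fs M z := by
  have hM' : (M : ℂ) ≠ 0 := by exact_mod_cast hM.ne'
  have e : (Real.pi : ℂ) * (z + M) / M = Real.pi * z / M + Real.pi := by
    field_simp
  rw [fs, fs, e, sin_add_pi]
  ring

theorem fs_M {M : ℕ} (hM : 0 < M) : fs M M = 0 := by
  have := fs_add_M hM 0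
  rwa [zero_add, fs_zero, neg_zero] at this

theorem fs_refl {M : ℕ} (hM : 0 < M) (z : ℂ) : fs M (M - z) = fs M z := by
  have := fs_add_M hM (-z)
  rw [fs_neg, neg_neg] at this
  rw [← this]
  congr 1
  ring

theorem fs_diff (M : ℕ) : Differentiable ℂ (fs M) := by
  unfold fs
  fun_prop

theorem fs_ne {M k : ℕ} (h1 : 1 ≤ k) (h2 : k < M) : fs M (k : ℂ) ≠ 0 := by
  rw [fs_nat]
  exact_mod_cast (sg_pos h1 h2).ne'

theorem S_zero' (M : ℕ) : S M 0 = 1 := by simp [S]

theorem cos_fs {M : ℕ} (hM : 0 < M) (v x : ℂ) :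
    2 * cos (Real.pi * (v + x / M)) = fs M (M * (v + 1 / 2) + x) := by
  have hM' : (M : ℂ) ≠ 0 := by exact_mod_cast hM.ne'
  have e : (Real.pi : ℂ) * (M * (v + 1 / 2) + x) / M = Real.pi * (v + x / M) + Real.pi / 2 := by
    field_simp
    ring
  rw [fs, e, sin_add_pi_div_two]

theorem cos_fs' {M : ℕ} (hM : 0 < M) (v x : ℂ) :
    2 * cos (Real.pi * (v - x / M)) = fs M (M * (v + 1 / 2) - x) := by
  have := cos_fs hM v (-x)
  rw [neg_div, ← sub_eq_add_neg, ← sub_eq_add_neg] at this
  exact this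

theorem sin_fs {M : ℕ} (hM : 0 < M) (v : ℂ) :
    2 * sin (2 * Real.pi * v) = -fs M (2 * (M * (v + 1 / 2))) := by
  have hM' : (M : ℂ) ≠ 0 := by exact_mod_cast hM.ne'
  have e : (Real.pi : ℂ) * (2 * (M * (v + 1 / 2))) / M = 2 * Real.pi * v + Real.pi := by
    field_simp
  rw [fs, e, sin_add_pi]
  ring

/-- `β = (n - 1) / 2`. -/
noncomputable def be (n : ℕ) : ℂ := ((n : ℂ) - 1) / 2

theorem bt_be (n : ℕ) : ((bt n : ℝ) : ℂ) = be n := by
  rw [bt, be]
  push_cast
  ring

/-- The centered product of `n - 2` factors. -/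
noncomputable def Aw (M n : ℕ) (u : ℂ) : ℂ := ∏ j ∈ Finset.range (n - 2), fs M (u - be n + 1 + j)

/-- The product of the factors of a slot. -/
noncomputable def pt (M n t : ℕ) (u : ℂ) : ℂ :=
  ∏ i ∈ Finset.range t, (fs M (u + be n + i) * fs M (u - be n - i))

theorem pt_succ (M n t : ℕ) (u : ℂ) :
    pt M n (t + 1) u = pt M n t u * (fs M (u + be n + t) * fs M (u - be n - t)) :=
  Finset.prod_range_succ _ _

/-- The telescoping function of a slot. -/
noncomputable def Qt (M n t : ℕ) (u : ℂ) : ℂ := Aw M n u * pt M n t u * fs M (u - be n - t)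

theorem Aw_diff (M n : ℕ) : Differentiable ℂ (Aw M n) := by
  unfold Aw
  refine Differentiable.fun_finsetProd fun j _ => ?_
  exact (fs_diff M).comp (by fun_prop)

theorem pt_diff (M n t : ℕ) : Differentiable ℂ (pt M n t) := by
  unfold pt
  refine Differentiable.fun_finsetProd fun j _ => ?_
  exact ((fs_diff M).comp (by fun_prop)).mul ((fs_diff M).comp (by fun_prop))

theorem Qt_diff (M n t : ℕ) : Differentiable ℂ (Qt M n t) := by
  unfold Qt
  exact ((Aw_diff M n).mul (pt_diff M n t)).mul ((fs_diff M).comp (by fun_prop))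

theorem Aw_shift {M n : ℕ} (hn : 2 ≤ n) (u : ℂ) :
    Aw M n (u + 1) * fs M (u + 1 - be n) = Aw M n u * fs M (u + be n) := by
  have h1 : Aw M n (u + 1) * fs M (u + 1 - be n) =
      ∏ j ∈ Finset.range (n - 2 + 1), fs M (u - be n + 1 + j) := by
    rw [Finset.prod_range_succ', Aw]
    congr 1
    · refine Finset.prod_congr rfl fun j _ => ?_
      congr 1
      push_cast
      ring
    · congr 1
      push_cast
      ring
  rw [h1, Finset.prod_range_succ, Aw]
  congr 2
  rw [be, Nat.cast_sub hn]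
  push_cast
  ring

theorem Qt_shift {M n : ℕ} (hn : 2 ≤ n) (t : ℕ) (u : ℂ) :
    Qt M n t (u + 1) = Aw M n u * pt M n t u * fs M (u + be n + t) := by
  induction t with
  | zero =>
    have h := Aw_shift (M := M) hn u
    rw [Qt, pt, pt]
    simp only [Finset.range_zero, Finset.prod_empty, mul_one, Nat.cast_zero, sub_zero, add_zero]
    exact h
  | succ t ih =>
    have h1 : Qt M n (t + 1) (u + 1) = Qt M n t (u + 1) *
        (fs M (u + 1 + be n + t) * fs M (u + 1 - be n - ((t + 1 : ℕ) : ℂ))) := by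
      rw [Qt, Qt, pt_succ]
      ring
    rw [h1, ih, pt_succ]
    have e1 : u + 1 + be n + t = u + be n + ((t + 1 : ℕ) : ℂ) := by
      push_cast
      ring
    have e2 : u + 1 - be n - ((t + 1 : ℕ) : ℂ) = u - be n - t := by
      push_cast
      ring
    rw [e1, e2]
    ring

theorem Qt_bot (M n t : ℕ) : Qt M n t (be n) = 0 := by
  rw [Qt]
  cases t with
  | zero =>
    have : be n - be n - ((0 : ℕ) : ℂ) = 0 := by
      push_cast
      ring
    rw [this, fs_zero, mul_zero]
  | succ t =>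
    have h : pt M n (t + 1) (be n) = 0 := by
      rw [pt]
      refine Finset.prod_eq_zero (Finset.mem_range.2 (Nat.succ_pos t)) ?_
      have : be n - be n - ((0 : ℕ) : ℂ) = 0 := by
        push_cast
        ring
      rw [this, fs_zero, mul_zero]
    rw [h]
    ring

theorem Qt_top {M n : ℕ} (hM : 0 < M) (hn : 2 ≤ n) (t : ℕ) : Qt M n t (M - be n + 1) = 0 := by
  rw [Qt_shift hn]
  cases t with
  | zero =>
    have : (M : ℂ) - be n + be n + ((0 : ℕ) : ℂ) = M := by
      push_cast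
      ring
    rw [this, fs_M hM, mul_zero]
  | succ t =>
    have h : pt M n (t + 1) (M - be n) = 0 := by
      rw [pt]
      refine Finset.prod_eq_zero (Finset.mem_range.2 (Nat.succ_pos t)) ?_
      have : (M : ℂ) - be n + be n + ((0 : ℕ) : ℂ) = M := by
        push_cast
        ring
      rw [this, fs_M hM, zero_mul]
    rw [h]
    ring

/-- A product of two functions vanishing at a point has derivative zero there. -/
theorem deriv_double {f g : ℂ → ℂ} {x : ℂ} (hf : DifferentiableAt ℂ f x)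
    (hg : DifferentiableAt ℂ g x) (h1 : f x = 0) (h2 : g x = 0) :
    deriv (fun y => f y * g y) x = 0 := by
  rw [deriv_fun_mul hf hg, h1, h2]
  ring

/-- The sum of the derivatives over the lattice. -/
noncomputable def SL (M n : ℕ) (H : ℂ → ℂ) : ℂ :=
  ∑ X ∈ Finset.range (M + 2 - n), deriv H ((X : ℂ) + be n)

/-- Telescoping. -/
theorem SL_tele {M n : ℕ} (hn : n ≤ M + 1) {H P : ℂ → ℂ}
    (hP : ∀ X ∈ Finset.range (M + 3 - n), DifferentiableAt ℂ P ((X : ℂ) + be n))
    (h : ∀ X ∈ Finset.range (M + 2 - n), ∀ᶠ u in 𝓝 ((X : ℂ) + be n), H u = P (u + 1) - P u)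
    (h0 : deriv P (be n) = 0) (h1 : deriv P (M - be n + 1) = 0) : SL M n H = 0 := by
  have h2 : ∀ X ∈ Finset.range (M + 2 - n), deriv H ((X : ℂ) + be n) =
      deriv P (((X + 1 : ℕ) : ℂ) + be n) - deriv P ((X : ℂ) + be n) := by
    intro X hX
    have hX' := Finset.mem_range.1 hX
    rw [Filter.EventuallyEq.deriv_eq (h X hX)]
    have e1 : (X : ℂ) + be n + 1 = ((X + 1 : ℕ) : ℂ) + be n := by
      push_cast
      ring
    have hd : DifferentiableAt ℂ P ((X : ℂ) + be n + 1) := by
      rw [e1]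
      exact hP (X + 1) (Finset.mem_range.2 (by omega))
    have hd' : DifferentiableAt ℂ (fun u => P (u + 1)) ((X : ℂ) + be n) :=
      DifferentiableAt.comp (g := P) (f := fun u : ℂ => u + 1) _ hd (by fun_prop)
    rw [deriv_fun_sub hd' (hP X (Finset.mem_range.2 (by omega))), deriv_comp_add_const, e1]
  rw [SL, Finset.sum_congr rfl h2,
    Finset.sum_range_sub (fun X => deriv P ((X : ℂ) + be n)) (M + 2 - n)]
  have e2 : ((M + 2 - n : ℕ) : ℂ) + be n = M - be n + 1 := by
    rw [be, Nat.cast_sub (by omega)]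
    push_cast
    ring
  rw [e2, h1, Nat.cast_zero, zero_add, h0, sub_zero]

end Pool.Agent.S5
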