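import Pool.Agent.S5.N.Path

/-!
# The parity of the twist regions with antiparallel strands
-/

set_option autoImplicit false

namespace Pool.Agent.S5

open Pool.Agent.H63.VC7 Pool.Agent.S4

variable {m : ℕ}

/-- No two adjacent twist regions have parallel strands. -/
theorem okl_adj : ∀ (m : ℕ) (s : ℤ) (P : Fin (m + 1) → Bool) (b : Fin (m + 1) → ℤ)
    (_ : OkL s (List.ofFn fun i => (P i, b i))) (j : Fin m),
    ¬ (P j.castSucc = true ∧ P j.succ = true)
  | 0, _, _, _, _, j => j.elim0
  | m + 1, s, P, b, h, j => by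
    rw [List.ofFn_succ] at h
    have hrec : ∃ s', OkL s' (List.ofFn fun i : Fin (m + 1) => (P i.succ, b i.succ)) := by
      cases hP : P 0 with
      | false => rw [hP] at h; exact ⟨0, h.2⟩
      | true => rw [hP] at h; exact ⟨_, h.2.2⟩
    obtain ⟨s', h'⟩ := hrec
    refine Fin.cases ?_ (fun j' => ?_) j
    · rintro ⟨h1, h2⟩
      have h0 : P 0 = true := h1
      rw [h0] at h
      refine h.2.1 (b 1) (List.ofFn fun i : Fin m => (P i.succ.succ, b i.succ.succ)) ?_
      rw [List.ofFn_succ]
      have h3 : P (Fin.succ 0) = true := h2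
      rw [h3]
      rfl
    · have := okl_adj m s' (fun i => P i.succ) (fun i => b i.succ) h' j'
      simpa only [Fin.castSucc_succ] using this

/-- The sign of a twist region with parallel strands, otherwise `0`. -/
def sb (P : ℕ → Bool) (b : ℕ → ℤ) (i : ℕ) : ℤ := if P i then (b i).sign else 0

theorem okl_at : ∀ (m : ℕ) (s : ℤ) (P : ℕ → Bool) (b : ℕ → ℤ)
    (_ : OkL s (List.ofFn fun i : Fin (m + 1) => (P i, b i))) (_ : P (m + 1) = false)
    (i : ℕ) (_ : i ≤ m) (_ : P i = false),
    2 ∣ b i - (if i = 0 then s else sb P b (i - 1)) - sb P b (i + 1)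
  | 0, s, P, b, h, he, i, hi, hPi => by
    obtain rfl : i = 0 := by omega
    rw [List.ofFn_succ, List.ofFn_zero] at h
    have h0 : P ((0 : Fin 1) : ℕ) = false := hPi
    rw [h0] at h
    have h1 := h.1
    rw [if_pos rfl, sb, he]
    simpa [hs] using h1
  | m + 1, s, P, b, h, he, i, hi, hPi => by
    rw [List.ofFn_succ] at h
    cases i with
    | zero =>
      have h0 : P ((0 : Fin (m + 1 + 1)) : ℕ) = false := hPi
      rw [h0] at h
      have h1 := h.1
      rw [List.ofFn_succ] at h1
      have h2 : hs ((P ((0 : Fin (m + 1)).succ : ℕ), b ((0 : Fin (m + 1)).succ : ℕ)) ::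
          List.ofFn fun i : Fin m => (P (i.succ.succ : ℕ), b (i.succ.succ : ℕ))) = sb P b 1 := by
        have e : ((0 : Fin (m + 1)).succ : ℕ) = 1 := rfl
        rw [e, sb]
        cases P 1 <;> rfl
      rw [h2] at h1
      rw [if_pos rfl]
      exact h1
    | succ i =>
      have hrec : OkL (sb P b 0) (List.ofFn fun j : Fin (m + 1) =>
          ((fun i => P (i + 1)) (j : ℕ), (fun i => b (i + 1)) (j : ℕ))) := by
        have e : (List.ofFn fun j : Fin (m + 1) =>
            ((fun i => P (i + 1)) (j : ℕ), (fun i => b (i + 1)) (j : ℕ))) =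
            List.ofFn fun j : Fin (m + 1) => (P (j.succ : ℕ), b (j.succ : ℕ)) := rfl
        rw [e, sb]
        cases hP : P 0 with
        | false =>
          have h0 : P ((0 : Fin (m + 1 + 1)) : ℕ) = false := hP
          rw [h0] at h
          exact h.2
        | true =>
          have h0 : P ((0 : Fin (m + 1 + 1)) : ℕ) = true := hP
          rw [h0] at h
          exact h.2.2
      have h3 := okl_at m (sb P b 0) (fun i => P (i + 1)) (fun i => b (i + 1)) hrec he i
        (by omega) hPi
      rw [if_neg (by omega), Nat.add_sub_cancel]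
      cases i with
      | zero => exact h3
      | succ i => exact h3

theorem okl_ne : ∀ (m : ℕ) (s : ℤ) (P : ℕ → Bool) (b : ℕ → ℤ)
    (_ : OkL s (List.ofFn fun i : Fin (m + 1) => (P i, b i))) (i : ℕ) (_ : i ≤ m)
    (_ : P i = true), b i ≠ 0
  | m, s, P, b, h, 0, hi, hPi => by
    rw [List.ofFn_succ] at h
    have h0 : P ((0 : Fin (m + 1)) : ℕ) = true := hPi
    rw [h0] at h
    exact h.1
  | 0, s, P, b, h, i + 1, hi, hPi => by omega
  | m + 1, s, P, b, h, i + 1, hi, hPi => by
    rw [List.ofFn_succ] at h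
    have hrec : ∃ s', OkL s' (List.ofFn fun j : Fin (m + 1) =>
        ((fun i => P (i + 1)) (j : ℕ), (fun i => b (i + 1)) (j : ℕ))) := by
      cases hP : P 0 with
      | false =>
        have h0 : P ((0 : Fin (m + 1 + 1)) : ℕ) = false := hP
        rw [h0] at h
        exact ⟨_, h.2⟩
      | true =>
        have h0 : P ((0 : Fin (m + 1 + 1)) : ℕ) = true := hP
        rw [h0] at h
        exact ⟨_, h.2.2⟩
    obtain ⟨s', h'⟩ := hrec
    exact okl_ne m s' (fun i => P (i + 1)) (fun i => b (i + 1)) h' i (by omega) hPi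

/-- The indicator of the edge of a slot. -/
def gc (q : Fin m → Bool) (p : ℕ) : ℕ :=
  if h : 1 ≤ p ∧ p ≤ m then (if q ⟨p - 1, by omega⟩ then 1 else 0) else 0

theorem card_ie (q : Fin m → Bool) (i : Fin (m + 1)) :
    ((ie i).filter fun j => q j).card = gc q i + gc q ((i : ℕ) + 1) := by
  have h1 : (ie i).filter (fun j => q j) =
      (Finset.univ.filter fun j : Fin m => j.succ = i ∧ q j = true) ∪
      (Finset.univ.filter fun j : Fin m => j.castSucc = i ∧ q j = true) := by
    ext j
    rw [Finset.mem_filter, mem_ie, Finset.mem_union, Finset.mem_filter, Finset.mem_filter]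
    simp only [Finset.mem_univ, true_and]
    tauto
  have h2 : Disjoint (Finset.univ.filter fun j : Fin m => j.succ = i ∧ q j = true)
      (Finset.univ.filter fun j : Fin m => j.castSucc = i ∧ q j = true) := by
    rw [Finset.disjoint_filter]
    intro j _ h3 h4
    have h5 := congrArg Fin.val (h3.1.trans h4.1.symm)
    rw [Fin.val_succ, Fin.val_castSucc] at h5
    omega
  rw [h1, Finset.card_union_of_disjoint h2]
  congr 1
  · rw [gc]
    by_cases h : 1 ≤ (i : ℕ) ∧ (i : ℕ) ≤ m
    · rw [dif_pos h]
      by_cases hq : q ⟨(i : ℕ) - 1, by omega⟩ = true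
      · rw [if_pos hq, Finset.card_eq_one]
        refine ⟨⟨(i : ℕ) - 1, by omega⟩, ?_⟩
        ext j
        simp only [Finset.mem_filter, Finset.mem_univ, true_and, Finset.mem_singleton]
        constructor
        · rintro ⟨h3, _⟩
          have := congrArg Fin.val h3
          rw [Fin.val_succ] at this
          exact Fin.ext (by simp only; omega)
        · rintro rfl
          exact ⟨Fin.ext (by rw [Fin.val_succ]; simp only; omega), hq⟩
      · rw [if_neg hq, Finset.card_eq_zero, Finset.filter_eq_empty_iff]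
        rintro j _ ⟨h3, h4⟩
        have := congrArg Fin.val h3
        rw [Fin.val_succ] at this
        have h5 : j = ⟨(i : ℕ) - 1, by omega⟩ := Fin.ext (by simp only; omega)
        rw [h5] at h4
        exact hq h4
    · rw [dif_neg h, Finset.card_eq_zero, Finset.filter_eq_empty_iff]
      rintro j _ ⟨h3, _⟩
      have h4 := congrArg Fin.val h3
      rw [Fin.val_succ] at h4
      have := j.2
      omega
  · rw [gc]
    by_cases h : 1 ≤ (i : ℕ) + 1 ∧ (i : ℕ) + 1 ≤ m
    · rw [dif_pos h]
      by_cases hq : q ⟨(i : ℕ) + 1 - 1, by omega⟩ = true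
      · rw [if_pos hq, Finset.card_eq_one]
        refine ⟨⟨(i : ℕ) + 1 - 1, by omega⟩, ?_⟩
        ext j
        simp only [Finset.mem_filter, Finset.mem_univ, true_and, Finset.mem_singleton]
        constructor
        · rintro ⟨h3, _⟩
          have := congrArg Fin.val h3
          rw [Fin.val_castSucc] at this
          exact Fin.ext (by simp only; omega)
        · rintro rfl
          exact ⟨Fin.ext (by rw [Fin.val_castSucc]; simp only; omega), hq⟩
      · rw [if_neg hq, Finset.card_eq_zero, Finset.filter_eq_empty_iff]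
        rintro j _ ⟨h3, h4⟩
        have := congrArg Fin.val h3
        rw [Fin.val_castSucc] at this
        have h5 : j = ⟨(i : ℕ) + 1 - 1, by omega⟩ := Fin.ext (by simp only; omega)
        rw [h5] at h4
        exact hq h4
    · rw [dif_neg h, Finset.card_eq_zero, Finset.filter_eq_empty_iff]
      rintro j _ ⟨h3, _⟩
      have h4 := congrArg Fin.val h3
      rw [Fin.val_castSucc] at h4
      have := j.2
      omega

theorem gc_la (P : Fin (m + 1) → Bool) (p : ℕ) :
    gc (la P) p = if p % 2 = 0 then gc (et P) p else 0 := by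
  rw [gc, gc]
  by_cases h : 1 ≤ p ∧ p ≤ m
  · rw [dif_pos h, dif_pos h]
    have e : la P ⟨p - 1, by omega⟩ = (et P ⟨p - 1, by omega⟩ && decide ((p - 1) % 2 = 1)) := rfl
    rw [e]
    by_cases hp : p % 2 = 0
    · rw [if_pos hp, decide_eq_true (show (p - 1) % 2 = 1 by omega), Bool.and_true]
    · rw [if_neg hp, decide_eq_false (show ¬ (p - 1) % 2 = 1 by omega), Bool.and_false]
      simp
  · rw [dif_neg h, dif_neg h, ite_self]

theorem gc_le (q : Fin m → Bool) (p : ℕ) : gc q p ≤ 1 := by
  rw [gc]
  split_ifs <;> omega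

/-- The exponent of a node of antiparallel strands. -/
theorem sg5_eq (P : Fin (m + 1) → Bool) (i : Fin (m + 1)) : sg5 P i =
    if (i : ℕ) % 2 = 0 then (gc (et P) ((i : ℕ) + 1) : ℤ) - gc (et P) i
    else (gc (et P) i : ℤ) - gc (et P) ((i : ℕ) + 1) := by
  rw [sg5, sn, cc5, card_ie, card_ie, gc_la, gc_la]
  by_cases h : (i : ℕ) % 2 = 0
  · rw [if_pos h, if_pos h, if_neg (by omega)]
    push_cast
    ring
  · rw [if_neg h, if_neg h, if_pos (by omega)]
    push_cast
    ring

/-- The parity of the twist regions of antiparallel strands. -/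
theorem okl_par (P : Fin (m + 1) → Bool) (b : Fin (m + 1) → ℤ)
    (hP : OkL 0 (List.ofFn fun i => (P i, b i))) {i : Fin (m + 1)} (hPi : P i = false) :
    2 ∣ b i - (gc (et P) i : ℤ) - (gc (et P) ((i : ℕ) + 1) : ℤ) := by
  set P' : ℕ → Bool := fun j => if h : j < m + 1 then P ⟨j, h⟩ else false with hP'
  set b' : ℕ → ℤ := fun j => if h : j < m + 1 then b ⟨j, h⟩ else 0 with hb'
  have e1 : ∀ j : Fin (m + 1), P' j = P j := fun j => by
    simp only [hP']
    rw [dif_pos j.2]
  have e2 : ∀ j : Fin (m + 1), b' j = b j := fun j => by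
    simp only [hb']
    rw [dif_pos j.2]
  have hP2 : OkL 0 (List.ofFn fun i : Fin (m + 1) => (P' i, b' i)) := by
    simp only [e1, e2]
    exact hP
  have hend : P' (m + 1) = false := by
    simp only [hP']
    rw [dif_neg (lt_irrefl _)]
  have hi : (i : ℕ) ≤ m := by
    have := i.2
    omega
  have hPi' : P' (i : ℕ) = false := by rw [e1, hPi]
  have h1 := okl_at m 0 P' b' hP2 hend i hi hPi'
  rw [e2] at h1
  have hsgn : ∀ z : ℤ, z ≠ 0 → 2 ∣ z.sign - 1 := by
    intro z hz
    rcases lt_or_gt_of_ne hz with h | h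
    · rw [Int.sign_eq_neg_one_of_neg h]
      norm_num
    · rw [Int.sign_eq_one_of_pos h]
      norm_num
  have hl : 2 ∣ (if (i : ℕ) = 0 then (0 : ℤ) else sb P' b' ((i : ℕ) - 1)) -
      (gc (et P) i : ℤ) := by
    rw [gc]
    by_cases h0 : (i : ℕ) = 0
    · rw [if_pos h0, dif_neg (by omega)]
      norm_num
    · rw [if_neg h0, dif_pos (by omega), sb]
      have h3 : et P ⟨(i : ℕ) - 1, by omega⟩ = P' ((i : ℕ) - 1) := by
        have f1 : (⟨(i : ℕ) - 1, by omega⟩ : Fin m).castSucc =
            (⟨(i : ℕ) - 1, by omega⟩ : Fin (m + 1)) := rfl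
        have f2 : (⟨(i : ℕ) - 1, by omega⟩ : Fin m).succ = i :=
          Fin.ext (by rw [Fin.val_succ]; simp only; omega)
        rw [et, f1, f2, hPi, Bool.or_false]
        simp only [hP']
        rw [dif_pos]
      rw [h3]
      cases h4 : P' ((i : ℕ) - 1) with
      | false => simp
      | true =>
        simp only [if_true, Nat.cast_one]
        exact hsgn _ (okl_ne m 0 P' b' hP2 _ (by omega) h4)
  have hr : 2 ∣ sb P' b' ((i : ℕ) + 1) - (gc (et P) ((i : ℕ) + 1) : ℤ) := by
    rw [gc]
    by_cases h0 : (i : ℕ) = m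
    · rw [dif_neg (by omega), sb]
      have : P' ((i : ℕ) + 1) = false := by rw [h0]; exact hend
      rw [this]
      simp
    · rw [dif_pos (by omega), sb]
      have h3 : et P ⟨(i : ℕ) + 1 - 1, by omega⟩ = P' ((i : ℕ) + 1) := by
        have f1 : (⟨(i : ℕ) + 1 - 1, by omega⟩ : Fin m).castSucc = i :=
          Fin.ext (by rw [Fin.val_castSucc]; simp only; omega)
        have f2 : (⟨(i : ℕ) + 1 - 1, by omega⟩ : Fin m).succ =
            (⟨(i : ℕ) + 1, by omega⟩ : Fin (m + 1)) :=
          Fin.ext (by rw [Fin.val_succ]; simp only; omega)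
        rw [et, f1, f2, hPi, Bool.false_or]
        simp only [hP']
        rw [dif_pos]
      rw [h3]
      cases h4 : P' ((i : ℕ) + 1) with
      | false => simp
      | true =>
        simp only [if_true, Nat.cast_one]
        exact hsgn _ (okl_ne m 0 P' b' hP2 _ (by omega) h4)
  omega

/-- The exponent of a node of antiparallel strands with an even number of half twists. -/
theorem sg5_even (P : Fin (m + 1) → Bool) (b : Fin (m + 1) → ℤ)
    (hP : OkL 0 (List.ofFn fun i => (P i, b i))) {i : Fin (m + 1)} (hPi : P i = false)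
    (hb : 2 ∣ b i) : sg5 P i = 0 := by
  have h1 := okl_par P b hP hPi
  have h2 := gc_le (et P) (i : ℕ)
  have h3 := gc_le (et P) ((i : ℕ) + 1)
  rw [sg5_eq]
  split_ifs <;> omega

/-- The exponent of a node of antiparallel strands with an odd number of half twists. -/
theorem sg5_odd (P : Fin (m + 1) → Bool) (b : Fin (m + 1) → ℤ)
    (hP : OkL 0 (List.ofFn fun i => (P i, b i))) {i : Fin (m + 1)} (hPi : P i = false)
    (hb : ¬ 2 ∣ b i) : sg5 P i = 1 ∨ sg5 P i = -1 := by
  have h1 := okl_par P b hP hPi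
  have h2 := gc_le (et P) (i : ℕ)
  have h3 := gc_le (et P) ((i : ℕ) + 1)
  rw [sg5_eq]
  split_ifs <;> omega

end Pool.Agent.S5
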