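import Pool.Agent.S5.N.J5
import Pool.Agent.S5.N.Def

/-!
# The sum at the root of unity in terms of the nodes with two slots
-/

set_option autoImplicit false

namespace Pool.Agent.S5

open Pool.Agent.H63.VC hiding ext
open Pool.Agent.H63.VC3 Pool.Agent.H63.VC7 Pool.Agent.S4 Complex

variable {m : ℕ}

/-- The label of the slot `p` (`p = i`: the left slot of the node `i`, `p = i + 1`: the right one);
the label of a missing slot is `d`. -/
def keN (d : ℕ) (k : Fin m → ℕ) (p : ℕ) : ℕ :=
  if h : 1 ≤ p ∧ p ≤ m then k ⟨p - 1, by omega⟩ else d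

/-- The value of a slot. -/
noncomputable def gx (F : Fin m → ℂ) (p : ℕ) : ℂ :=
  if h : 1 ≤ p ∧ p ≤ m then F ⟨p - 1, by omega⟩ else 1

theorem prod_ie (F : Fin m → ℂ) (i : Fin (m + 1)) :
    ∏ j ∈ ie i, F j = gx F i * gx F ((i : ℕ) + 1) := by
  have h1 : ie i = (Finset.univ.filter fun j : Fin m => j.succ = i) ∪
      (Finset.univ.filter fun j : Fin m => j.castSucc = i) := by
    ext j
    rw [mem_ie, Finset.mem_union, Finset.mem_filter, Finset.mem_filter]
    simp only [Finset.mem_univ, true_and]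
    exact Or.comm
  have h2 : Disjoint (Finset.univ.filter fun j : Fin m => j.succ = i)
      (Finset.univ.filter fun j : Fin m => j.castSucc = i) := by
    rw [Finset.disjoint_filter]
    intro j _ h3 h4
    have := h3.trans h4.symm
    have h5 := congrArg Fin.val this
    rw [Fin.val_succ, Fin.val_castSucc] at h5
    omega
  rw [h1, Finset.prod_union h2]
  congr 1
  · rw [gx]
    by_cases h : 1 ≤ (i : ℕ) ∧ (i : ℕ) ≤ m
    · rw [dif_pos h]
      have : (Finset.univ.filter fun j : Fin m => j.succ = i) = {⟨(i : ℕ) - 1, by omega⟩} := by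
        ext j
        simp only [Finset.mem_filter, Finset.mem_univ, true_and, Finset.mem_singleton,
          Fin.ext_iff, Fin.val_succ]
        omega
      rw [this, Finset.prod_singleton]
    · rw [dif_neg h]
      have : (Finset.univ.filter fun j : Fin m => j.succ = i) = ∅ := by
        rw [Finset.filter_eq_empty_iff]
        intro j _ h3
        have h4 := congrArg Fin.val h3
        rw [Fin.val_succ] at h4
        have := j.2
        omega
      rw [this, Finset.prod_empty]
  · rw [gx]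
    by_cases h : 1 ≤ (i : ℕ) + 1 ∧ (i : ℕ) + 1 ≤ m
    · rw [dif_pos h]
      have : (Finset.univ.filter fun j : Fin m => j.castSucc = i) =
          {⟨(i : ℕ) + 1 - 1, by omega⟩} := by
        ext j
        simp only [Finset.mem_filter, Finset.mem_univ, true_and, Finset.mem_singleton,
          Fin.ext_iff, Fin.val_castSucc]
        omega
      rw [this, Finset.prod_singleton]
    · rw [dif_neg h]
      have : (Finset.univ.filter fun j : Fin m => j.castSucc = i) = ∅ := by
        rw [Finset.filter_eq_empty_iff]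
        intro j _ h3
        have h4 := congrArg Fin.val h3
        rw [Fin.val_castSucc] at h4
        have := j.2
        omega
      rw [this, Finset.prod_empty]

/-- The factor of a missing slot. -/
noncomputable def cM (m M p : ℕ) : ℂ := if 1 ≤ p ∧ p ≤ m then 1 else M

theorem q4_zero (M d : ℕ) (v : ℂ) : q4 M d 0 v = 1 / M := by
  rw [q4, Finset.range_zero, Finset.prod_empty, mul_one]

theorem gx_slot {M : ℕ} (hM : 0 < M) (L : ℕ) (d : ℕ → ℕ) (k : Fin m → ℕ) (v : ℂ) (p : ℕ) :
    gx (fun j : Fin m => q4 M (d (j : ℕ)) (L - k j) v) p =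
      cM m M p * q4 M (d (p - 1)) (L - keN L k p) v := by
  rw [gx, cM, keN]
  by_cases h : 1 ≤ p ∧ p ≤ m
  · rw [dif_pos h, if_pos h, dif_pos h, one_mul]
  · rw [dif_neg h, if_neg h, dif_neg h, Nat.sub_self, q4_zero]
    have h0 : (M : ℂ) ≠ 0 := by exact_mod_cast hM.ne'
    field_simp

theorem cM_mul (hm : 1 ≤ m) (M : ℕ) (i : Fin (m + 1)) :
    cM m M i * cM m M ((i : ℕ) + 1) = if i = 0 ∨ i = Fin.last m then (M : ℂ) else 1 := by
  have hi := i.2
  rw [cM, cM]
  by_cases h0 : i = 0
  · subst h0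
    rw [Fin.val_zero, if_neg (by omega), if_pos (by omega), if_pos (Or.inl rfl), mul_one]
  · by_cases h1 : i = Fin.last m
    · subst h1
      rw [Fin.val_last, if_pos (by omega), if_neg (by omega), if_pos (Or.inr rfl), one_mul]
    · have h3 : (i : ℕ) ≠ 0 := fun h => h0 (Fin.ext h)
      have h4 : (i : ℕ) ≠ m := fun h => h1 (Fin.ext (by rw [Fin.val_last]; exact h))
      rw [if_pos (by omega), if_pos (by omega), if_neg (not_or.2 ⟨h0, h1⟩), one_mul]

/-- The exponent of a node of antiparallel strands. -/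
def sg5 (P : Fin (m + 1) → Bool) (i : Fin (m + 1)) : ℤ := (sn P i : ℤ) - 2 * (cc5 (la P) i : ℤ)

theorem cc5_le (P : Fin (m + 1) → Bool) (i : Fin (m + 1)) : 2 * cc5 (la P) i ≤ sn P i + 1 := by
  have h1 : cc5 (la P) i ≤ 1 := by
    rw [cc5, Finset.card_le_one]
    intro j hj j' hj'
    rw [Finset.mem_filter, la, Bool.and_eq_true, decide_eq_true_eq] at hj hj'
    exact ie_parity hj.1 hj'.1 (hj.2.2.trans hj'.2.2.symm)
  have h2 : cc5 (la P) i ≤ sn P i := by
    rw [cc5, sn]
    refine Finset.card_le_card fun j hj => ?_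
    rw [Finset.mem_filter, la, Bool.and_eq_true] at hj
    exact Finset.mem_filter.2 ⟨hj.1, hj.2.1⟩
  omega

theorem qc_eq (M k : ℕ) (v : ℂ) : qc M k v = q4 M 0 (M - 1 - k) v := by
  rw [qc, q4]
  congr 1
  refine Finset.prod_congr rfl fun i _ => ?_
  rw [Nat.cast_zero, zero_add]

theorem Wd_zero (M : ℕ) (v : ℂ) : Wd M 0 v = 1 := by
  rw [Wd, Finset.range_zero, Finset.prod_empty]

theorem Wd_slot {M : ℕ} (hM : 0 < M) (a t : ℕ) (v : ℂ) :
    Wd M (2 * a) v * q4 M (2 * a) t v = q4 M 0 (a + t) v := by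
  have h0 : (M : ℂ) ≠ 0 := by exact_mod_cast hM.ne'
  have h1 := Wd_split hM 0 a v
  rw [zero_add, Wd_zero, mul_one] at h1
  have e : (((2 * a : ℕ) : ℂ) + 1) / 2 = ((0 : ℕ) + 1) / 2 + a := by
    push_cast
    ring
  rw [h1, q4_eq M 0 a, q4_eq M (2 * a) t, q4_eq M 0 (a + t), phz_add, e]
  field_simp

/-- The slot of a node of parallel strands. -/
theorem Wd_qc {M L a k : ℕ} (hM : 0 < M) (hk : k ≤ L) (hL : L + a + 1 ≤ M) (v : ℂ) :
    Wd M (2 * a) v * q4 M (2 * a) (L - k) v = qc M (M - 1 - L - a + k) v := by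
  rw [Wd_slot hM, qc_eq]
  congr 1
  omega

theorem keN_le {L : ℕ} {k : Fin m → ℕ} (hk : ∀ j, k j ≤ L) (p : ℕ) : keN L k p ≤ L := by
  rw [keN]
  split_ifs with h
  · exact hk _
  · exact le_rfl

/-- The factor of a node of antiparallel strands. -/
theorem DG5_false (hm : 1 ≤ m) {n h M : ℕ} (hM : 0 < M) (hh : 1 ≤ h) (h2 : 2 * h ≤ n) (r : ℝ)
    (P : Fin (m + 1) → Bool) (k : Fin m → ℕ) (i : Fin (m + 1)) :
    DG5 r n h M false (sn P i + 1 - 2 * cc5 (la P) i) (la P) (ie i) k =
      (if i = 0 ∨ i = Fin.last m then (M : ℂ) else 1) *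
        DA r n (n - 2 * h) M (sg5 P i) (keN (M + 1 - n) k i) (keN (M + 1 - n) k ((i : ℕ) + 1)) := by
  rw [DG5, DA, Finset.mul_sum]
  refine Finset.sum_congr rfl fun X _ => ?_
  have h1 : NT5 r n h M false (sn P i + 1 - 2 * cc5 (la P) i) (la P) (ie i) k = fun v =>
      (if i = 0 ∨ i = Fin.last m then (M : ℂ) else 1) * NA r n (n - 2 * h) M (sg5 P i)
        (keN (M + 1 - n) k i) (keN (M + 1 - n) k ((i : ℕ) + 1)) v := by
    funext v
    have e1 : ∏ j ∈ ie i, q4 M (dd5 n h false (la P j)) (M + 1 - n - k j) v =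
        ∏ j ∈ ie i, q4 M (n - 2) (M + 1 - n - k j) v := rfl
    rw [NT5, NA, e1, prod_ie, gx_slot hM (M + 1 - n) (fun _ => n - 2),
      gx_slot hM (M + 1 - n) (fun _ => n - 2), ← cM_mul hm M i]
    simp only [Bool.false_eq_true, if_false]
    rw [pr5_zpow hM hh h2]
    have e2 : ((sn P i + 1 - 2 * cc5 (la P) i : ℕ) : ℤ) - 1 = sg5 P i := by
      rw [sg5, Nat.cast_sub (cc5_le P i)]
      push_cast
      ring
    rw [e2]
    ring
  rw [h1, deriv_const_mul_field]
  rfl

/-- The factor of a node of parallel strands. -/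
theorem DG5_true (hm : 1 ≤ m) {n h M : ℕ} (hn : 2 ≤ n) (hM : n ≤ M) (hh : 1 ≤ h)
    (h2 : 2 * h ≤ n) (r : ℝ) (P : Fin (m + 1) → Bool) (e : ℕ) {k : Fin m → ℕ}
    (hk : ∀ j, k j ≤ M + 1 - n) (i : Fin (m + 1)) (hP : P i = true) :
    DG5 r n h M true e (la P) (ie i) k =
      (if i = 0 ∨ i = Fin.last m then (M : ℂ) else 1) *
        D2 r M (keN (M + 1 - n) k i + (if (i : ℕ) % 2 = 0 then n - h else h) - 1)
          (keN (M + 1 - n) k ((i : ℕ) + 1) + (if (i : ℕ) % 2 = 0 then h else n - h) - 1) := by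
  have hM0 : 0 < M := by omega
  have e0 : M + 2 - nn n true = M := by
    show M + 2 - 2 = M
    omega
  rw [DG5, D2, DG, Finset.mul_sum, e0]
  refine Finset.sum_congr rfl fun X _ => ?_
  have h1 : NT5 r n h M true e (la P) (ie i) k = fun v =>
      (if i = 0 ∨ i = Fin.last m then (M : ℂ) else 1) *
        NT r M Finset.univ ![keN (M + 1 - n) k i + (if (i : ℕ) % 2 = 0 then n - h else h) - 1,
          keN (M + 1 - n) k ((i : ℕ) + 1) + (if (i : ℕ) % 2 = 0 then h else n - h) - 1] v := by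
    funext v
    have e1 : ∏ j ∈ ie i, q4 M (dd5 n h true (la P j)) (M + 1 - n - k j) v =
        ∏ j ∈ ie i, q4 M (if (j : ℕ) % 2 = 1 then 2 * h - 2 else 2 * (n - h) - 2)
          (M + 1 - n - k j) v := by
      refine Finset.prod_congr rfl fun j hj => ?_
      have h3 : et P j = true := by
        rw [mem_ie] at hj
        rw [et]
        rcases hj with h4 | h4
        · rw [h4, hP, Bool.true_or]
        · rw [h4, hP, Bool.or_true]
      rw [la, h3, Bool.true_and, dd5]
      simp only [if_true, decide_eq_true_eq]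
    have f1 := keN_le hk (i : ℕ)
    have f2 := keN_le hk ((i : ℕ) + 1)
    have e2 : cM m M i * cM m M ((i : ℕ) + 1) = _ := cM_mul hm M i
    rw [NT5, NT, e1, prod_ie,
      gx_slot hM0 (M + 1 - n) (fun j => if j % 2 = 1 then 2 * h - 2 else 2 * (n - h) - 2),
      gx_slot hM0 (M + 1 - n) (fun j => if j % 2 = 1 then 2 * h - 2 else 2 * (n - h) - 2), ← e2,
      Fin.prod_univ_two, Nat.add_sub_cancel]
    simp only [if_true, Matrix.cons_val_zero, Matrix.cons_val_one]
    set x := keN (M + 1 - n) k (i : ℕ) with hx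
    set y := keN (M + 1 - n) k ((i : ℕ) + 1) with hy
    have a1 : 2 * h - 2 = 2 * (h - 1) := by omega
    have a2 : 2 * (n - h) - 2 = 2 * (n - h - 1) := by omega
    have b1 : ∀ z, z ≤ M + 1 - n → Wd M (2 * h - 2) v * q4 M (2 * h - 2) (M + 1 - n - z) v =
        qc M (z + (n - h) - 1) v := by
      intro z hz
      rw [a1, Wd_qc hM0 hz (by omega)]
      congr 1
      omega
    have b2 : ∀ z, z ≤ M + 1 - n → Wd M (2 * (n - h) - 2) v *
        q4 M (2 * (n - h) - 2) (M + 1 - n - z) v = qc M (z + h - 1) v := by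
      intro z hz
      rw [a2, Wd_qc hM0 hz (by omega)]
      congr 1
      omega
    by_cases hp : (i : ℕ) % 2 = 0
    · by_cases hi0 : (i : ℕ) = 0
      · -- the missing left slot
        have hx1 : x = M + 1 - n := by
          rw [hx, keN, dif_neg (by omega)]
        have c1 : Wd M (2 * h - 2) v = M * qc M (x + (n - h) - 1) v := by
          have := b1 x f1
          rw [hx1, Nat.sub_self, q4_zero] at this
          rw [hx1, ← this]
          have h0 : (M : ℂ) ≠ 0 := by exact_mod_cast hM0.ne'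
          field_simp
        have c2 : q4 M (if ((i : ℕ) - 1) % 2 = 1 then 2 * h - 2 else 2 * (n - h) - 2)
            (M + 1 - n - x) v = 1 / M := by
          rw [hx1, Nat.sub_self, q4_zero]
        rw [if_neg (show ¬ (i : ℕ) % 2 = 1 by omega), c2, c1, if_pos hp, if_pos hp, ← b2 y f2]
        have h0 : (M : ℂ) ≠ 0 := by exact_mod_cast hM0.ne'
        field_simp
      · rw [if_neg (show ¬ (i : ℕ) % 2 = 1 by omega),
          if_pos (show ((i : ℕ) - 1) % 2 = 1 by omega), if_pos hp, if_pos hp, ← b1 x f1, ← b2 y f2]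
        ring
    · rw [if_pos (show (i : ℕ) % 2 = 1 by omega),
        if_neg (show ¬ ((i : ℕ) - 1) % 2 = 1 by omega), if_neg hp, if_neg hp, ← b1 y f2, ← b2 x f1]
      ring
  rw [h1, deriv_const_mul_field]
  rfl

/-- The factor of a node with two slots. -/
noncomputable def N5 (r : ℝ) (n h M : ℕ) (P : Fin (m + 1) → Bool) (i : Fin (m + 1)) (x y : ℕ) : ℂ :=
  if P i then D2 r M (x + (if (i : ℕ) % 2 = 0 then n - h else h) - 1)
    (y + (if (i : ℕ) % 2 = 0 then h else n - h) - 1)
  else DA r n (n - 2 * h) M (sg5 P i) x y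

/-- The sum at the root of unity in terms of the nodes with two slots. -/
theorem JG4_path (hm : 1 ≤ m) {n h M : ℕ} (hn : 2 ≤ n) (hh : 1 ≤ h) (h2 : 2 * h ≤ n) (hM : n ≤ M)
    (P : Fin (m + 1) → Bool) (r : Fin (m + 1) → ℝ) (hadj : ∀ j : Fin m,
      ¬ (P j.castSucc = true ∧ P j.succ = true)) :
    JG4 P r n h M = (M : ℂ) ^ 2 *
      ∑ k ∈ Fintype.piFinset (fun _ : Fin m => Finset.range (M + 2 - n)),
        (∏ j, (w5 n h (et P j) (la P j) M (k j) : ℂ)) *
          ∏ i, N5 (r i) n h M P i (keN (M + 1 - n) k i) (keN (M + 1 - n) k ((i : ℕ) + 1)) := by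
  rw [JG4_eq_JG5 hn hh h2 (by omega) P r hadj, JG5, Finset.mul_sum]
  refine Finset.sum_congr rfl fun k hk => ?_
  rw [Fintype.mem_piFinset] at hk
  have hk' : ∀ j, k j ≤ M + 1 - n := fun j => by
    have := Finset.mem_range.1 (hk j)
    omega
  have h3 : ∀ i, DG5 (r i) n h M (P i) (sn P i + 1 - 2 * cc5 (la P) i) (la P) (ie i) k =
      (if i = 0 ∨ i = Fin.last m then (M : ℂ) else 1) *
        N5 (r i) n h M P i (keN (M + 1 - n) k i) (keN (M + 1 - n) k ((i : ℕ) + 1)) := by
    intro i
    rw [N5]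
    cases hP : P i with
    | true =>
      simp only [if_true]
      exact DG5_true hm hn hM hh h2 (r i) P _ hk' i hP
    | false =>
      simp only [Bool.false_eq_true, if_false]
      exact DG5_false hm (by omega) hh h2 (r i) P k i
  have h4 : ∏ i : Fin (m + 1), (if i = 0 ∨ i = Fin.last m then (M : ℂ) else 1) = (M : ℂ) ^ 2 := by
    rw [Finset.prod_ite, Finset.prod_const_one, mul_one, Finset.prod_const]
    congr 1
    have : (Finset.univ.filter fun i : Fin (m + 1) => i = 0 ∨ i = Fin.last m) =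
        {0, Fin.last m} := by
      ext i
      simp
    rw [this, Finset.card_pair]
    intro h5
    have := congrArg Fin.val h5
    rw [Fin.val_zero, Fin.val_last] at this
    omega
  simp only [h3]
  rw [Finset.prod_mul_distrib, h4]
  ring

end Pool.Agent.S5
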