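import Pool.Agent.H25.RK.DGI
import Pool.Agent.H63.GO.MTaylor
import Pool.Agent.H63.VC.Cross
import Pool.Agent.H63.VC11.Brac11
import Pool.Agent.H63.VC12.Path12
import Pool.Agent.H63.VC4.Checks
import Pool.Agent.H63.VC4.GaussN
import Pool.Agent.H63.VC4.LaplaceN
import Pool.Agent.S3.Asm.Def
import Pool.Agent.S4.G.Lat
import Pool.Agent.S5.X.KDef

/-!
# Nodes of antiparallel strands with an integration variable: definitions

The variable is scaled such that the contours pass between the lattice points of the sum and the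
other ones. The index of an edge is `κ = k + (n - 2)`, its variable is `yM M κ`.
-/

set_option autoImplicit false

namespace Pool.Agent.S5

open Pool.Agent.H63.VC hiding ext
open Pool.Agent.H63.VC3 Pool.Agent.H63.VC7 Pool.Agent.S3 Pool.Agent.S4 Complex

/-- The scaling of the integration variable. -/
noncomputable def lamN (n M : ℕ) : ℂ := 1 - ((n : ℂ) - 2) / M

/-- The shift of the variables of the edges at nodes of antiparallel strands. -/
noncomputable def sN (n M : ℕ) : ℂ := ((n : ℂ) - 2) / 2 / M

/-- The kernel of a node of antiparallel strands with an integration variable. -/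
noncomputable def kVA (r : ℝ) (n h M : ℕ) (σ : ℤ) (v a b : ℂ) : ℂ :=
  lamN n M * (exp (2 * Real.pi * I * r * M * (lamN n M * v) ^ 2) *
    (2 * sin (2 * Real.pi * (lamN n M * v))) * Wd M (n - 2 * h) (lamN n M * v) ^ σ *
      om n M (lamN n M * v)) *
    (qS M (a - sN n M) (lamN n M * v) * qS M (b - sN n M) (lamN n M * v))

/-- The term of the lattice point `X` of a node of antiparallel strands at an edge with small
index `κ`. -/
noncomputable def latA (r : ℝ) (n h M : ℕ) (σ : ℤ) (κ X : ℕ) (b : ℂ) : ℂ :=
  if κ < M ∧ X + (n - 2) ≤ κ then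
    2 * (exp (2 * Real.pi * I * r * M * ((vl n M X : ℝ) : ℂ) ^ 2) *
      (2 * sin (2 * Real.pi * ((vl n M X : ℝ) : ℂ))) * Wd M (n - 2 * h) ((vl n M X : ℝ) : ℂ) ^ σ) *
      (ql4 n h false M κ X * qS M (b - sN n M) ((vl n M X : ℝ) : ℂ))
  else 0

end Pool.Agent.S5
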