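import Pool.Agent.S5.S.K2
import Pool.Agent.S5.N.VDef
import Pool.Agent.S5.N.Cl1
import Pool.Agent.S5.N.Path
import Pool.Agent.S5.N.Par

/-!
# The kernels for `SU(n)` on a mixed chain

The index of an edge is `κ = k + (n - 2)`, its variable is `yM M κ`, the first index is `n - 2`.
-/

set_option autoImplicit false

namespace Pool.Agent.S5

open Complex Filter Topology MeasureTheory
open Pool.Agent.S3 (Rf fe rS qS wr fdom gl ql Ctr)
open Pool.Agent.S4 (nn et)
open Pool.Agent.H63.VC3 (LL ff Cc om yk vl)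

variable {m : ℕ}

/-- The shifts of the labels at a node of parallel strands, left and right slot. -/
def siL (n h i : ℕ) : ℕ := if i % 2 = 0 then h - 1 else n - 1 - h

def siR (n h i : ℕ) : ℕ := if i % 2 = 0 then n - 1 - h else h - 1

/-- The shifts of the slots, times `M`. -/
noncomputable def shL (n h : ℕ) (P : Bool) (i : ℕ) : ℝ :=
  if P then (siL n h i : ℝ) else ((n : ℝ) - 2) / 2

noncomputable def shR (n h : ℕ) (P : Bool) (i : ℕ) : ℝ :=
  if P then (siR n h i : ℝ) else ((n : ℝ) - 2) / 2

/-- The shift of the own variable of a node `zn`: the shift of the slot of the Bailey step. -/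
noncomputable def shZ (n h : ℕ) (P fl : Bool) (i : ℕ) : ℝ := if fl then shR n h P i else shL n h P i

/-- The parameter of the closed kernels. -/
noncomputable def eI (n h : ℕ) (P : Bool) (σ : ℤ) : ℝ := if P then 0 else esN n h σ

/-- The kernels of the nodes without integration variable. -/
noncomputable def kNe (e : ℝ) (c : ℤ) (ty : Ty) (fl : Bool) (M : ℕ) (z a b : ℂ) : ℂ :=
  match ty with
  | .cl => kC c.sign M a b
  | .zn => if |c| = 3 then
      (if fl then kB c.sign M b z * kHe e c.sign M z a else kB c.sign M a z * kHe e c.sign M z b)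
    else (if fl then kB c.sign M b z * kC c.sign M z a else kB c.sign M a z * kC c.sign M z b)
  | .vn => 0

/-- The kernel of the node `i`. -/
noncomputable def kI (C : Ch m) (P : Fin (m + 1) → Bool) (n h : ℕ) (i : Fin (m + 1)) (M : ℕ)
    (z a b : ℂ) : ℂ :=
  if C.ty i = Ty.vn then
    (if P i then kV ((C.c i : ℝ) / 2) M z (a - (siL n h i : ℕ) / M) (b - (siR n h i : ℕ) / M)
      else kVA ((C.c i : ℝ) / 2) n h M (sg5 P i) z a b)
  else kNe (eI n h (P i) (sg5 P i)) (C.c i) (C.ty i) (C.fl i) M (z - (shZ n h (P i) (C.fl i) i : ℝ) / M)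
    (a - (shL n h (P i) i : ℝ) / M) (b - (shR n h (P i) i : ℝ) / M)

/-- The kernel of the node `i` at an edge with small index and a lattice point. -/
noncomputable def latI (C : Ch m) (P : Fin (m + 1) → Bool) (n h : ℕ) (i : Fin (m + 1)) (sd : Bool)
    (M κ X : ℕ) (b : ℂ) : ℂ :=
  if P i then gl ((C.c i : ℝ) / 2) M X * (ql M (κ - (if sd then siR n h i else siL n h i)) X *
    qS M (b - ((if sd then siL n h i else siR n h i : ℕ) : ℂ) / M) (vl 2 M X : ℝ))
  else latA ((C.c i : ℝ) / 2) n h M (sg5 P i) κ X b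

/-- The factor of the node `i`. -/
noncomputable def gI (C : Ch m) (P : Fin (m + 1) → Bool) (n h : ℕ) (i : Fin (m + 1)) (M κ κ' : ℕ) : ℂ :=
  match C.ty i with
  | .cl => kI C P n h i M 0 (yM M κ) (yM M κ')
  | .zn => ∑ l ∈ Finset.Ico (n - 2) M, kI C P n h i M (yM M l) (yM M κ) (yM M κ')
  | .vn => N5 ((C.c i : ℝ) / 2) n h M P i (κ - (n - 2)) (κ' - (n - 2))

/-- The shifts of the labels in the weight of an edge; `e` is true for the edges between nodes of
different types, `l` for the second expansion. -/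
def tw1 (n h : ℕ) (l : Bool) : ℕ := if l then h - 1 else n - 1 - h

def tw2 (n h : ℕ) (e l : Bool) : ℕ := if e then tw1 n h l else h - 1

/-- The weight of an edge. -/
noncomputable def wI (n h : ℕ) (e l : Bool) (M : ℕ) (y : ℂ) : ℂ :=
  exp (LL M (M * (y + 1 / 2) - 1)) * exp (LL M (M * (y + 1 / 2) - 1 - (n - 2 : ℕ))) *
    (exp (LL M (M * (y + 1 / 2) - 1 - (tw1 n h l : ℕ))) *
      exp (LL M (M * (y + 1 / 2) - 1 - (tw2 n h e l : ℕ))))

/-- The kernels for `SU(n)`. -/
noncomputable def krN (C : Ch m) (P : Fin (m + 1) → Bool) (n h : ℕ) : Krn C where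
  h0 := n - 2
  sh := 0
  w := fun j M y => wI n h (et P j) (la P j) M y
  k := fun i M z a b => kI C P n h i M z a b
  lat := fun i sd M κ X b => latI C P n h i sd M κ X b
  g := fun i M κ κ' => gI C P n h i M κ κ'
  sg := fun i M => if C.ty i = Ty.vn then (-1) ^ (M + nn n (P i) + 1) else 1
  cv := -(4 * Real.pi * I)
  ew := fun _ => 2
  ek := fun i => eN (C.c i) (C.ty i)

end Pool.Agent.S5
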