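import Pool.Agent.S5.N.Step

/-!
# The sum at the root of unity with both expansions of the mixed edges
-/

set_option autoImplicit false

namespace Pool.Agent.S5

open Pool.Agent.H63.VC hiding ext
open Pool.Agent.H63.VC3 Pool.Agent.H63.VC7 Pool.Agent.S4 Complex

variable {m : ℕ}

theorem Wd_split {M : ℕ} (hM : 0 < M) (d e : ℕ) (v : ℂ) :
    Wd M (d + 2 * e) v = M * q4 M d e v * Wd M d v := by
  have h0 : (M : ℂ) ≠ 0 := by exact_mod_cast hM.ne'
  have h1 : d + 2 * e = e + (d + e) := by ring
  have h2 : Wd M (d + 2 * e) v = (∏ i ∈ Finset.range e,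
      (2 * cos (Real.pi * (v - ((i : ℂ) + (d + 1) / 2) / M)))) * (Wd M d v *
      ∏ i ∈ Finset.range e, (2 * cos (Real.pi * (v + ((i : ℂ) + (d + 1) / 2) / M)))) := by
    rw [Wd, h1, Finset.prod_range_add, Finset.prod_range_add]
    congr 1
    · rw [← Finset.prod_range_reflect]
      refine Finset.prod_congr rfl fun j hj => ?_
      have hj' := Finset.mem_range.1 hj
      congr 3
      rw [Nat.cast_sub (by omega), Nat.cast_sub (by omega)]
      push_cast
      ring
    · congr 1
      · rw [Wd]
        refine Finset.prod_congr rfl fun j _ => ?_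
        congr 3
        push_cast
        ring
      · refine Finset.prod_congr rfl fun j _ => ?_
        congr 3
        push_cast
        ring
  have h3 : (M : ℂ) * q4 M d e v = (∏ i ∈ Finset.range e,
      (2 * cos (Real.pi * (v - ((i : ℂ) + (d + 1) / 2) / M)))) *
      ∏ i ∈ Finset.range e, (2 * cos (Real.pi * (v + ((i : ℂ) + (d + 1) / 2) / M))) := by
    rw [q4, ← mul_assoc, mul_one_div_cancel h0, one_mul, ← Finset.prod_mul_distrib]
    refine Finset.prod_congr rfl fun i _ => ?_
    ring
  rw [h2, h3]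
  ring

theorem Wd_split' {n h M : ℕ} (hM : 0 < M) (hh : 1 ≤ h) (h2 : 2 * h ≤ n) (v : ℂ) :
    Wd M (n - 2) v = M * q4 M (n - 2 * h) (h - 1) v * Wd M (n - 2 * h) v := by
  rw [← Wd_split hM]
  congr 1
  omega

/-- The factor of a node of antiparallel strands in the first form. -/
theorem pr5_eq {n h M : ℕ} (hM : 0 < M) (hh : 1 ≤ h) (h2 : 2 * h ≤ n) (s : ℕ) (v : ℂ) :
    pr5 n h M (s + 1) v = Wd M (n - 2) v ^ 2 * Wd M (n - 2 * h) v ^ s := by
  have h1 := Wd_split' hM hh h2 v
  rw [pr5, pow_succ, pow_two]
  nth_rewrite 3 [h1]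
  ring

/-- The factor of a node of antiparallel strands with an integral exponent. -/
theorem pr5_zpow {n h M : ℕ} (hM : 0 < M) (hh : 1 ≤ h) (h2 : 2 * h ≤ n) (e : ℕ) (v : ℂ) :
    pr5 n h M e v = Wd M (n - 2) v ^ 2 * Wd M (n - 2 * h) v ^ ((e : ℤ) - 1) := by
  have h1 := Wd_split' hM hh h2 v
  by_cases h0 : Wd M (n - 2 * h) v = 0
  · have h3 : Wd M (n - 2) v = 0 := by rw [h1, h0, mul_zero]
    rw [pr5, h3]
    ring
  · rw [pr5, zpow_sub₀ h0, zpow_natCast, zpow_one, pow_two]
    nth_rewrite 3 [h1]
    field_simp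

theorem JG5_zero {n h M : ℕ} (hM : 0 < M) (hh : 1 ≤ h) (h2 : 2 * h ≤ n)
    (P : Fin (m + 1) → Bool) (r : Fin (m + 1) → ℝ) :
    JG5 P r n h M (fun _ => false) = JG4 P r n h M := by
  rw [JG5, JG4]
  refine Finset.sum_congr rfl fun k _ => ?_
  congr 1
  refine Finset.prod_congr rfl fun i _ => ?_
  have hc : cc5 (fun _ : Fin m => false) i = 0 := by
    simp [cc5]
  rw [hc, Nat.mul_zero, Nat.sub_zero]
  have h3 : NT5 (r i) n h M (P i) (sn P i + 1) (fun _ => false) (ie i) k =
      NT4 (r i) n h M (P i) (sn P i) (ie i) k := by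
    funext v
    rw [NT5, NT4, pre]
    have h4 : (if P i = true then Wd M (2 * h - 2) v * Wd M (2 * (n - h) - 2) v else
        pr5 n h M (sn P i + 1) v) = if P i = true then Wd M (2 * h - 2) v *
          Wd M (2 * (n - h) - 2) v else Wd M (n - 2) v ^ 2 * Wd M (n - 2 * h) v ^ sn P i := by
      rw [pr5_eq hM hh h2]
    have h5 : dd5 n h (P i) false = dd n h (P i) := by cases P i <;> rfl
    rw [h4, h5]
  rw [DG5, DG4, h3]

/-- One step of the conversion. -/
theorem JG5_step {n h M : ℕ} (hn : 2 ≤ n) (hh : 1 ≤ h) (h2 : 2 * h ≤ n) (hM : n ≤ M + 1)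
    (P : Fin (m + 1) → Bool) (r : Fin (m + 1) → ℝ) (lam : Fin m → Bool) (j0 : Fin m)
    {iA iP : Fin (m + 1)} (hA : P iA = false) (hP : P iP = true) (hiA : j0 ∈ ie iA)
    (hiP : j0 ∈ ie iP) (hc : 2 * (cc5 (Function.update lam j0 false) iA + 1) ≤ sn P iA + 1) :
    JG5 P r n h M (Function.update lam j0 false) = JG5 P r n h M (Function.update lam j0 true) := by
  have hne : iA ≠ iP := by
    intro h
    rw [h, hP] at hA
    exact absurd hA (by simp)
  have hends : ∀ i, j0 ∈ ie i → i = iA ∨ i = iP := by
    intro i hi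
    rw [mem_ie] at hi hiA hiP
    rcases hi with h1 | h1 <;> rcases hiA with h3 | h3 <;> rcases hiP with h4 | h4
    · exact Or.inl (h1.symm.trans h3)
    · exact Or.inl (h1.symm.trans h3)
    · exact Or.inr (h1.symm.trans h4)
    · exact absurd (h3.symm.trans h4) hne
    · exact absurd (h3.symm.trans h4) hne
    · exact Or.inr (h1.symm.trans h4)
    · exact Or.inl (h1.symm.trans h3)
    · exact Or.inl (h1.symm.trans h3)
  have het : et P j0 = true := by
    rw [mem_ie] at hiP
    rw [et]
    rcases hiP with h4 | h4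
    · rw [h4, hP, Bool.true_or]
    · rw [h4, hP, Bool.or_true]
  have hcc : ∀ b i, j0 ∉ ie i → cc5 (Function.update lam j0 b) i = cc5 lam i := by
    intro b i hi
    rw [cc5, cc5]
    congr 1
    refine Finset.filter_congr fun j hj => ?_
    rw [Function.update_of_ne]
    rintro rfl
    exact hi hj
  have hcc2 : ∀ i, j0 ∈ ie i → cc5 (Function.update lam j0 true) i =
      cc5 (Function.update lam j0 false) i + 1 := by
    intro i hi
    rw [cc5, cc5]
    have h1 : ((ie i).filter fun j => Function.update lam j0 true j = true) =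
        insert j0 ((ie i).filter fun j => Function.update lam j0 false j = true) := by
      ext j
      rw [Finset.mem_filter, Finset.mem_insert, Finset.mem_filter]
      by_cases hj : j = j0
      · subst hj
        simp [hi]
      · rw [Function.update_of_ne hj, Function.update_of_ne hj]
        simp [hj]
    rw [h1, Finset.card_insert_of_notMem]
    rw [Finset.mem_filter, Function.update_self]
    simp
  obtain ⟨e, he⟩ : ∃ e, sn P iA + 1 - 2 * cc5 (Function.update lam j0 false) iA = e + 2 :=
    ⟨sn P iA + 1 - 2 * cc5 (Function.update lam j0 false) iA - 2, by omega⟩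
  have he' : sn P iA + 1 - 2 * cc5 (Function.update lam j0 true) iA = e := by
    rw [hcc2 iA hiA]
    omega
  rw [JG5, JG5]
  refine sum_pi_congr _ _ _ j0 fun k _ => ?_
  have hw : ∀ b x, (∏ j, (w5 n h (et P j) (Function.update lam j0 b j) M
      (Function.update k j0 x j) : ℂ)) = (w5 n h true b M x : ℂ) *
        ∏ j ∈ Finset.univ.erase j0, (w5 n h (et P j) (lam j) M (k j) : ℂ) := by
    intro b x
    rw [← Finset.mul_prod_erase Finset.univ _ (Finset.mem_univ j0), Function.update_self,
      Function.update_self, het]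
    congr 1
    refine Finset.prod_congr rfl fun j hj => ?_
    rw [Function.update_of_ne (Finset.ne_of_mem_erase hj),
      Function.update_of_ne (Finset.ne_of_mem_erase hj)]
  have hD : ∀ b x, (∏ i, DG5 (r i) n h M (P i)
      (sn P i + 1 - 2 * cc5 (Function.update lam j0 b) i) (Function.update lam j0 b) (ie i)
        (Function.update k j0 x)) =
      (DG5 (r iA) n h M (P iA) (sn P iA + 1 - 2 * cc5 (Function.update lam j0 b) iA)
        (Function.update lam j0 b) (ie iA) (Function.update k j0 x) *
      DG5 (r iP) n h M (P iP) (sn P iP + 1 - 2 * cc5 (Function.update lam j0 b) iP)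
        (Function.update lam j0 b) (ie iP) (Function.update k j0 x)) *
      ∏ i ∈ (Finset.univ.erase iA).erase iP, DG5 (r i) n h M (P i)
        (sn P i + 1 - 2 * cc5 lam i) lam (ie i) k := by
    intro b x
    rw [← Finset.mul_prod_erase Finset.univ _ (Finset.mem_univ iA),
      ← Finset.mul_prod_erase (Finset.univ.erase iA) _
        (Finset.mem_erase.2 ⟨hne.symm, Finset.mem_univ iP⟩), mul_assoc]
    congr 2
    refine Finset.prod_congr rfl fun i hi => ?_
    have hi1 := Finset.mem_erase.1 hi
    have hi2 := Finset.mem_erase.1 hi1.2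
    have hi3 : j0 ∉ ie i := fun h3 => (hends i h3).elim hi2.1 hi1.1
    rw [hcc b i hi3]
    refine DG5_congr _ _ _ _ _ _ _ _ _ _ _ (fun j hj => ?_) fun j hj => ?_
    · rw [Function.update_of_ne]
      rintro rfl
      exact hi3 hj
    · rw [Function.update_of_ne]
      rintro rfl
      exact hi3 hj
  have key := edge_sum hn hh h2 hM (r iA) (r iP) e
    (sn P iP + 1 - 2 * cc5 (Function.update lam j0 false) iP)
    (sn P iP + 1 - 2 * cc5 (Function.update lam j0 true) iP) hiA hiP lam k
  have hx : ∀ b x, (∏ j, (w5 n h (et P j) (Function.update lam j0 b j) M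
      (Function.update k j0 x j) : ℂ)) * (∏ i, DG5 (r i) n h M (P i)
      (sn P i + 1 - 2 * cc5 (Function.update lam j0 b) i) (Function.update lam j0 b) (ie i)
        (Function.update k j0 x)) =
      ((∏ j ∈ Finset.univ.erase j0, (w5 n h (et P j) (lam j) M (k j) : ℂ)) *
        ∏ i ∈ (Finset.univ.erase iA).erase iP, DG5 (r i) n h M (P i)
        (sn P i + 1 - 2 * cc5 lam i) lam (ie i) k) *
      ((w5 n h true b M x : ℂ) *
      (DG5 (r iA) n h M (P iA) (sn P iA + 1 - 2 * cc5 (Function.update lam j0 b) iA)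
        (Function.update lam j0 b) (ie iA) (Function.update k j0 x) *
      DG5 (r iP) n h M (P iP) (sn P iP + 1 - 2 * cc5 (Function.update lam j0 b) iP)
        (Function.update lam j0 b) (ie iP) (Function.update k j0 x))) := by
    intro b x
    rw [hw, hD]
    ring
  simp only [hx, ← Finset.mul_sum]
  congr 1
  rw [hA, hP, he, he']
  exact key

theorem et_mixed {P : Fin (m + 1) → Bool} (hadj : ∀ j : Fin m, ¬ (P j.castSucc = true ∧
    P j.succ = true)) {j : Fin m} (hj : et P j = true) :
    ∃ iA iP : Fin (m + 1), P iA = false ∧ P iP = true ∧ j ∈ ie iA ∧ j ∈ ie iP := by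
  have h1 := hadj j
  rw [et, Bool.or_eq_true] at hj
  rcases hj with h3 | h3
  · refine ⟨j.succ, j.castSucc, ?_, h3, (mem_ie _ _).2 (Or.inr rfl), (mem_ie _ _).2 (Or.inl rfl)⟩
    by_contra h4
    exact h1 ⟨h3, by simpa using h4⟩
  · refine ⟨j.castSucc, j.succ, ?_, h3, (mem_ie _ _).2 (Or.inl rfl), (mem_ie _ _).2 (Or.inr rfl)⟩
    by_contra h4
    exact h1 ⟨by simpa using h4, h3⟩

/-- Two different edges at a node have different parity. -/
theorem ie_parity {i : Fin (m + 1)} {j j' : Fin m} (hj : j ∈ ie i) (hj' : j' ∈ ie i)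
    (h : (j : ℕ) % 2 = (j' : ℕ) % 2) : j = j' := by
  rw [mem_ie] at hj hj'
  have h1 : (j : ℕ) = i ∨ (j : ℕ) + 1 = i := by
    rcases hj with h3 | h3
    · left
      rw [← h3]
      rfl
    · right
      rw [← h3]
      rfl
  have h2 : (j' : ℕ) = i ∨ (j' : ℕ) + 1 = i := by
    rcases hj' with h3 | h3
    · left
      rw [← h3]
      rfl
    · right
      rw [← h3]
      rfl
  apply Fin.ext
  omega

/-- The sum at the root of unity with the second expansion for the mixed edges of odd number. -/
theorem JG4_eq_JG5 {n h M : ℕ} (hn : 2 ≤ n) (hh : 1 ≤ h) (h2 : 2 * h ≤ n) (hM : n ≤ M + 1)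
    (P : Fin (m + 1) → Bool) (r : Fin (m + 1) → ℝ) (hadj : ∀ j : Fin m,
      ¬ (P j.castSucc = true ∧ P j.succ = true)) :
    JG4 P r n h M = JG5 P r n h M (la P) := by
  have h1 : ∀ s : Finset (Fin m), (∀ j ∈ s, la P j = true) →
      JG5 P r n h M (fun j => decide (j ∈ s)) = JG4 P r n h M := by
    intro s
    induction s using Finset.induction_on with
    | empty =>
      intro _
      rw [← JG5_zero (by omega) hh h2 P r]
      congr 1
    | insert j0 s hj0 ih =>
      intro hs
      rw [← ih fun j hj => hs j (Finset.mem_insert_of_mem hj)]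
      have h3 : (fun j => decide (j ∈ insert j0 s)) =
          Function.update (fun j => decide (j ∈ s)) j0 true := by
        funext j
        by_cases hj : j = j0
        · rw [hj, Function.update_self]
          simp
        · rw [Function.update_of_ne hj]
          simp [hj]
      have h4 : (fun j => decide (j ∈ s)) =
          Function.update (fun j => decide (j ∈ s)) j0 false := by
        funext j
        by_cases hj : j = j0
        · rw [hj, Function.update_self]
          simp [hj0]
        · rw [Function.update_of_ne hj]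
      have h5 := hs j0 (Finset.mem_insert_self _ _)
      rw [la, Bool.and_eq_true, decide_eq_true_eq] at h5
      obtain ⟨iA, iP, hA, hP, hiA, hiP⟩ := et_mixed hadj h5.1
      rw [h3]
      nth_rewrite 2 [h4]
      refine (JG5_step hn hh h2 hM P r _ j0 hA hP hiA hiP ?_).symm
      have h6 : cc5 (Function.update (fun j => decide (j ∈ s)) j0 false) iA = 0 := by
        rw [cc5, Finset.card_eq_zero, Finset.filter_eq_empty_iff]
        intro j hj h7
        rw [← h4] at h7
        have h8 := hs j (Finset.mem_insert_of_mem (of_decide_eq_true h7))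
        rw [la, Bool.and_eq_true, decide_eq_true_eq] at h8
        have h9 := ie_parity hj hiA (h8.2.trans h5.2.symm)
        rw [h9] at h7
        exact hj0 (of_decide_eq_true h7)
      have h7 : 1 ≤ sn P iA := by
        rw [sn, Nat.one_le_iff_ne_zero, ← Nat.pos_iff_ne_zero, Finset.card_pos]
        exact ⟨j0, Finset.mem_filter.2 ⟨hiA, h5.1⟩⟩
      rw [h6]
      omega
  have h3 := h1 (Finset.univ.filter fun j => la P j = true) fun j hj => (Finset.mem_filter.1 hj).2
  rw [← h3]
  congr 1
  funext j
  simp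

end Pool.Agent.S5
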