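import Pool.Agent.S5.N.Bri

/-!
# `SU(n)`: from the asymptotics of the sum of the kernels to the asymptotics of the state sum
-/

set_option autoImplicit false

namespace Pool.Agent.S5

open Complex Filter Topology
open Pool.Agent.S4 (et nn JG4 OkL)

variable {m : ℕ}

/-- The contribution of the constant of a node to the potential. -/
noncomputable def kap (c : ℤ) (ty : Ty) : ℂ :=
  match ty with
  | .cl => -(c.sign * Real.pi * I / 2)
  | .zn => if |c| = 3 then c.sign * Real.pi * I / 4 else -(c.sign * Real.pi * I / 2)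
  | .vn => 0

/-- The number of the factors `M` of the constant of a node. -/
noncomputable def tap (c : ℤ) (ty : Ty) : ℝ :=
  match ty with
  | .cl => 0
  | .zn => if |c| = 3 then 1 else 0
  | .vn => 0

private theorem neg_pow_sq (a : ℕ) : (-1 : ℂ) ^ a * (-1) ^ a = 1 := by
  rw [← pow_add, ← two_mul, pow_mul]
  norm_num

private theorem tend_inv (x y : ℂ) : Tendsto (fun M : ℕ => exp (x - y / M)) atTop (𝓝 (exp x)) := by
  have h1 : Tendsto (fun M : ℕ => y / (M : ℂ)) atTop (𝓝 0) := tendsto_const_div_atTop_nhds_zero_nat y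
  have h2 := h1.const_sub x
  rw [sub_zero] at h2
  exact (continuous_exp.tendsto _).comp h2

/-- The constants of the nodes. -/
private theorem cst_lim (C : Ch m) (P : Fin (m + 1) → Bool) (n h : ℕ) (i : Fin (m + 1)) :
    ∃ u : ℕ → ℂ, ∃ U : ℂ, U ≠ 0 ∧ Tendsto u atTop (𝓝 U) ∧ ∀ M : ℕ, 1 ≤ M →
      (-1 : ℂ) ^ (M + nn n (P i) + 1) * cst C P n h i M = (krN C P n h).sg i M *
        exp (M * kap (C.c i) (C.ty i)) * u M * (((M : ℝ) ^ tap (C.c i) (C.ty i) : ℝ) : ℂ) := by
  have h4 : (4 * (Real.pi : ℂ)) ≠ 0 := mul_ne_zero (by norm_num) (by exact_mod_cast Real.pi_ne_zero)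
  have hsg : ∀ M : ℕ, (krN C P n h).sg i M =
      if C.ty i = Ty.vn then (-1) ^ (M + nn n (P i) + 1) else 1 := fun M => rfl
  rcases h1 : C.ty i with _ | _ | _
  · refine ⟨fun M => exp ((C.c i).sign * Real.pi * I - ((C.c i).sign * Real.pi * I / 2) / M) *
      (4 * Real.pi), exp ((C.c i).sign * Real.pi * I) * (4 * Real.pi),
      mul_ne_zero (exp_ne_zero _) h4, (tend_inv _ _).mul_const _, fun M hM => ?_⟩
    have hMc : (M : ℂ) ≠ 0 := by
      have : (0 : ℝ) < M := by exact_mod_cast hM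
      exact_mod_cast this.ne'
    rw [hsg, if_neg (by rw [h1]; exact fun h => Ty.noConfusion h)]
    have e1 : cst C P n h i M = (-1) ^ nn n (P i) * ph2 (C.c i).sign M * (4 * Real.pi) := by
      unfold cst
      rw [h1]
    rw [e1]
    unfold ph2
    have e2 : (-1 : ℂ) ^ (M + nn n (P i) + 1) * ((-1) ^ nn n (P i) * ((-1) ^ (M + 1) *
        exp ((C.c i).sign * Real.pi * I * (1 - M / 2 - 1 / (2 * M)))) * (4 * Real.pi)) =
        ((-1 : ℂ) ^ (M + nn n (P i) + 1) * (-1) ^ (M + nn n (P i) + 1)) *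
        (exp ((C.c i).sign * Real.pi * I * (1 - M / 2 - 1 / (2 * M))) * (4 * Real.pi)) := by
      have : (-1 : ℂ) ^ (M + nn n (P i) + 1) = (-1) ^ nn n (P i) * (-1) ^ (M + 1) := by
        rw [← pow_add]
        congr 1
        omega
      rw [this]
      ring
    rw [e2, neg_pow_sq]
    show _ = 1 * exp (M * -((C.c i).sign * Real.pi * I / 2)) *
      (exp ((C.c i).sign * Real.pi * I - ((C.c i).sign * Real.pi * I / 2) / M) * (4 * Real.pi)) *
        (((M : ℝ) ^ (0 : ℝ) : ℝ) : ℂ)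
    rw [Real.rpow_zero, ofReal_one, mul_one, one_mul, one_mul]
    have e5 : exp (M * -((C.c i).sign * Real.pi * I / 2)) *
        exp ((C.c i).sign * Real.pi * I - ((C.c i).sign * Real.pi * I / 2) / M) =
        exp ((C.c i).sign * Real.pi * I * (1 - M / 2 - 1 / (2 * M))) := by
      rw [← Complex.exp_add]
      congr 1
      field_simp
      ring
    rw [← e5]
    ring
  · by_cases h3 : |C.c i| = 3
    · refine ⟨fun M => exp ((C.c i).sign * Real.pi * I / 2 - ((C.c i).sign * Real.pi * I *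
        (1 + 4 * eI n h (P i) (sg5 P i)) / 4) / M) * (4 * Real.pi),
        exp ((C.c i).sign * Real.pi * I / 2) * (4 * Real.pi),
        mul_ne_zero (exp_ne_zero _) h4, (tend_inv _ _).mul_const _, fun M hM => ?_⟩
      have hMc : (M : ℂ) ≠ 0 := by
        have : (0 : ℝ) < M := by exact_mod_cast hM
        exact_mod_cast this.ne'
      rw [hsg, if_neg (by rw [h1]; exact fun h => Ty.noConfusion h)]
      have e1 : cst C P n h i M = (-1) ^ nn n (P i) *
          ph3e (eI n h (P i) (sg5 P i)) (C.c i).sign M * (4 * Real.pi * M) := by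
        unfold cst
        rw [h1]
        simp only [if_pos h3]
      rw [e1]
      unfold ph3e
      have e2 : (-1 : ℂ) ^ (M + nn n (P i) + 1) * ((-1) ^ nn n (P i) * ((-1) ^ (M + 1) *
          exp ((C.c i).sign * Real.pi * I * (M / 4 + 1 / 2 - (1 + 4 * eI n h (P i) (sg5 P i)) /
            (4 * M)))) * (4 * Real.pi * M)) =
          ((-1 : ℂ) ^ (M + nn n (P i) + 1) * (-1) ^ (M + nn n (P i) + 1)) *
          (exp ((C.c i).sign * Real.pi * I * (M / 4 + 1 / 2 - (1 + 4 * eI n h (P i) (sg5 P i)) /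
            (4 * M))) * (4 * Real.pi * M)) := by
        have : (-1 : ℂ) ^ (M + nn n (P i) + 1) = (-1) ^ nn n (P i) * (-1) ^ (M + 1) := by
          rw [← pow_add]
          congr 1
          omega
        rw [this]
        ring
      rw [e2, neg_pow_sq]
      have e3 : kap (C.c i) Ty.zn = (C.c i).sign * Real.pi * I / 4 := if_pos h3
      have e4 : tap (C.c i) Ty.zn = 1 := if_pos h3
      rw [e3, e4, Real.rpow_one, one_mul, one_mul, ofReal_natCast]
      have e5 : exp (M * ((C.c i).sign * Real.pi * I / 4)) *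
          exp ((C.c i).sign * Real.pi * I / 2 - ((C.c i).sign * Real.pi * I *
            (1 + 4 * eI n h (P i) (sg5 P i)) / 4) / M) =
          exp ((C.c i).sign * Real.pi * I * (M / 4 + 1 / 2 - (1 + 4 * eI n h (P i) (sg5 P i)) /
            (4 * M))) := by
        rw [← Complex.exp_add]
        congr 1
        field_simp
        ring
      rw [← e5]
      ring
    · refine ⟨fun M => exp ((C.c i).sign * Real.pi * I) * (4 * Real.pi),
        exp ((C.c i).sign * Real.pi * I) * (4 * Real.pi),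
        mul_ne_zero (exp_ne_zero _) h4, tendsto_const_nhds, fun M hM => ?_⟩
      have hMc : (M : ℂ) ≠ 0 := by
        have : (0 : ℝ) < M := by exact_mod_cast hM
        exact_mod_cast this.ne'
      rw [hsg, if_neg (by rw [h1]; exact fun h => Ty.noConfusion h)]
      have e1 : cst C P n h i M = (-1) ^ nn n (P i) * ph4 (C.c i).sign M * (4 * Real.pi) := by
        unfold cst
        rw [h1]
        simp only [if_neg h3]
      rw [e1]
      unfold ph4
      have e2 : (-1 : ℂ) ^ (M + nn n (P i) + 1) * ((-1) ^ nn n (P i) * ((-1) ^ (M + 1) *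
          exp ((C.c i).sign * Real.pi * I * (1 - M / 2))) * (4 * Real.pi)) =
          ((-1 : ℂ) ^ (M + nn n (P i) + 1) * (-1) ^ (M + nn n (P i) + 1)) *
          (exp ((C.c i).sign * Real.pi * I * (1 - M / 2)) * (4 * Real.pi)) := by
        have : (-1 : ℂ) ^ (M + nn n (P i) + 1) = (-1) ^ nn n (P i) * (-1) ^ (M + 1) := by
          rw [← pow_add]
          congr 1
          omega
        rw [this]
        ring
      rw [e2, neg_pow_sq]
      have e3 : kap (C.c i) Ty.zn = -((C.c i).sign * Real.pi * I / 2) := if_neg h3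
      have e4 : tap (C.c i) Ty.zn = 0 := if_neg h3
      rw [e3, e4, Real.rpow_zero, one_mul, one_mul, ofReal_one, mul_one]
      have e5 : exp (M * -((C.c i).sign * Real.pi * I / 2)) * exp ((C.c i).sign * Real.pi * I) =
          exp ((C.c i).sign * Real.pi * I * (1 - M / 2)) := by
        rw [← Complex.exp_add]
        congr 1
        ring
      rw [← e5]
      ring
  · refine ⟨fun _ => 1, 1, one_ne_zero, tendsto_const_nhds, fun M hM => ?_⟩
    rw [hsg, if_pos h1]
    have e1 : cst C P n h i M = 1 := by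
      unfold cst
      rw [h1]
    have e3 : kap (C.c i) Ty.vn = 0 := rfl
    have e4 : tap (C.c i) Ty.vn = 0 := rfl
    rw [e1, e3, e4, Real.rpow_zero, mul_zero, Complex.exp_zero, ofReal_one]
    ring

/-- The exponents of `M` of the nodes. -/
private theorem exp_node {C : Ch m} (i : Fin (m + 1)) :
    eN (C.c i) (C.ty i) + (if C.ty i = Ty.zn then (1 / 2 : ℝ) else 0) +
      (if C.ty i = Ty.vn then (3 / 2 : ℝ) else 0) + tap (C.c i) (C.ty i) = -1 / 2 := by
  rcases h1 : C.ty i with _ | _ | _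
  · rw [if_neg (fun h => Ty.noConfusion h), if_neg (fun h => Ty.noConfusion h)]
    show (-1 / 2 : ℝ) + 0 + 0 + 0 = -1 / 2
    norm_num
  · rw [if_pos rfl, if_neg (fun h => Ty.noConfusion h)]
    show (if |C.c i| = 3 then (-2 : ℝ) else -1) + 1 / 2 + 0 + (if |C.c i| = 3 then (1 : ℝ) else 0) =
      -1 / 2
    split_ifs <;> norm_num
  · rw [if_neg (fun h => Ty.noConfusion h), if_pos rfl]
    show (-2 : ℝ) + 0 + 3 / 2 + 0 = -1 / 2
    norm_num

private theorem eJ_krN (C : Ch m) (P : Fin (m + 1) → Bool) (n h : ℕ) :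
    (krN C P n h).eJ + 2 + ∑ i, tap (C.c i) (C.ty i) = 3 / 2 * ((m : ℝ) + 1) + m / 2 := by
  have h1 : (krN C P n h).eJ = (∑ _j : Fin m, (2 : ℝ)) + (∑ i, eN (C.c i) (C.ty i)) +
      (m + C.nz : ℝ) / 2 + 3 / 2 * (C.nv : ℝ) := rfl
  have h2 : (C.nz : ℝ) / 2 = ∑ i, (if C.ty i = Ty.zn then (1 / 2 : ℝ) else 0) := by
    unfold Ch.nz
    rw [← Finset.sum_filter, Finset.sum_const, nsmul_eq_mul]
    ring
  have h3 : 3 / 2 * (C.nv : ℝ) = ∑ i, (if C.ty i = Ty.vn then (3 / 2 : ℝ) else 0) := by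
    unfold Ch.nv
    rw [← Finset.sum_filter, Finset.sum_const, nsmul_eq_mul]
    ring
  have h4 : (∑ i, eN (C.c i) (C.ty i)) + (∑ i, (if C.ty i = Ty.zn then (1 / 2 : ℝ) else 0)) +
      (∑ i, (if C.ty i = Ty.vn then (3 / 2 : ℝ) else 0)) + (∑ i, tap (C.c i) (C.ty i)) =
      ∑ _i : Fin (m + 1), (-1 / 2 : ℝ) := by
    rw [← Finset.sum_add_distrib, ← Finset.sum_add_distrib, ← Finset.sum_add_distrib]
    exact Finset.sum_congr rfl fun i _ => exp_node i
  rw [Finset.sum_const, Finset.card_univ, Fintype.card_fin, nsmul_eq_mul] at h4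
  rw [h1, Finset.sum_const, Finset.card_univ, Fintype.card_fin, nsmul_eq_mul]
  push_cast at h4 ⊢
  linarith

/-- **The hypothesis `hlim` of `stmtN_of_lim` from the asymptotics of the sum of the kernels.** -/
theorem hlim_of_krN {C : Ch m} (hC : C.OK) {P : Fin (m + 1) → Bool}
    (hP : OkL 0 (List.ofFn fun i => (P i, C.c i))) {n h : ℕ} (hh : 1 ≤ h) (hn : 2 * h ≤ n)
    {W : ℂ} (hJ : ∃ A : ℂ, A ≠ 0 ∧ Tendsto (fun M : ℕ => (∏ i, (krN C P n h).sg i M) *
      (krN C P n h).J M / ((((M : ℝ) ^ (krN C P n h).eJ : ℝ) : ℂ) * exp (M * W))) atTop (𝓝 A)) :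
    ∃ κ0 : ℂ, κ0 ≠ 0 ∧
      Tendsto (fun M : ℕ => (∏ i : Fin (m + 1), (-1 : ℂ) ^ (M + nn n (P i) + 1)) *
        JG4 P (fun i => (C.c i : ℝ) / 2) n h M /
        ((((M : ℝ) ^ (3 / 2 * ((m : ℝ) + 1) + m / 2) : ℝ) : ℂ) *
          exp (M * (W + ∑ i, kap (C.c i) (C.ty i))))) atTop (𝓝 κ0) := by
  obtain ⟨A, hA, hJ⟩ := hJ
  choose u U hU hu hc using cst_lim C P n h
  refine ⟨A * ∏ i, U i, mul_ne_zero hA (Finset.prod_ne_zero_iff.2 fun i _ => hU i), ?_⟩
  have h1 : Tendsto (fun M : ℕ => ∏ i, u i M) atTop (𝓝 (∏ i, U i)) :=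
    tendsto_finsetProd _ fun i _ => hu i
  refine (hJ.mul h1).congr' ?_
  filter_upwards [Filter.eventually_ge_atTop n, Filter.eventually_ge_atTop 1] with M hM hM1
  have hM0 : (0 : ℝ) < M := by exact_mod_cast hM1
  have hMc : (M : ℂ) ≠ 0 := by exact_mod_cast hM0.ne'
  rw [JG4_krN hC hP hh hn hM, ← eJ_krN C P n h]
  have e1 : (∏ i : Fin (m + 1), (-1 : ℂ) ^ (M + nn n (P i) + 1)) * (∏ i, cst C P n h i M) =
      (∏ i, (krN C P n h).sg i M) * exp (M * ∑ i, kap (C.c i) (C.ty i)) * (∏ i, u i M) *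
        (((M : ℝ) ^ (∑ i, tap (C.c i) (C.ty i)) : ℝ) : ℂ) := by
    rw [← Finset.prod_mul_distrib, Finset.prod_congr rfl fun i _ => hc i M hM1,
      Finset.prod_mul_distrib, Finset.prod_mul_distrib, Finset.prod_mul_distrib, ← Complex.exp_sum,
      ← Finset.mul_sum, Real.rpow_sum_of_pos hM0]
    push_cast
    rfl
  have e2 : (((M : ℝ) ^ ((krN C P n h).eJ + 2 + ∑ i, tap (C.c i) (C.ty i)) : ℝ) : ℂ) =
      (((M : ℝ) ^ (krN C P n h).eJ : ℝ) : ℂ) * (M : ℂ) ^ 2 *
        (((M : ℝ) ^ (∑ i, tap (C.c i) (C.ty i)) : ℝ) : ℂ) := by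
    rw [Real.rpow_add hM0, Real.rpow_add hM0]
    have : (M : ℝ) ^ (2 : ℝ) = (M : ℝ) ^ 2 := by
      rw [show (2 : ℝ) = ((2 : ℕ) : ℝ) by norm_num, Real.rpow_natCast]
    rw [this]
    push_cast
    rfl
  have e3 : exp (M * (W + ∑ i, kap (C.c i) (C.ty i))) =
      exp (M * W) * exp (M * ∑ i, kap (C.c i) (C.ty i)) := by
    rw [mul_add, Complex.exp_add]
  have e4 : (∏ i : Fin (m + 1), (-1 : ℂ) ^ (M + nn n (P i) + 1)) * ((M : ℂ) ^ 2 *
      (∏ i, cst C P n h i M) * (krN C P n h).J M) =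
      ((∏ i : Fin (m + 1), (-1 : ℂ) ^ (M + nn n (P i) + 1)) * (∏ i, cst C P n h i M)) *
        ((M : ℂ) ^ 2 * (krN C P n h).J M) := by ring
  rw [e4, e1, e2, e3]
  have n1 : (((M : ℝ) ^ (krN C P n h).eJ : ℝ) : ℂ) ≠ 0 := by
    exact_mod_cast (Real.rpow_pos_of_pos hM0 _).ne'
  have n2 : (((M : ℝ) ^ (∑ i, tap (C.c i) (C.ty i)) : ℝ) : ℂ) ≠ 0 := by
    exact_mod_cast (Real.rpow_pos_of_pos hM0 _).ne'
  have n3 := exp_ne_zero (M * W)
  have n4 := exp_ne_zero (M * ∑ i, kap (C.c i) (C.ty i))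
  field_simp

end Pool.Agent.S5
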