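import Pool.Agent.S5.N.VnOK
import Pool.Agent.S5.N.LimN
import Pool.Agent.S5.S.FinS

/-!
# `SU(n)`: the asymptotics of the state sum of a mixed chain
-/

set_option autoImplicit false

namespace Pool.Agent.S5

open Complex Filter Topology
open Pool.Agent.S4 (nn JG4 OkL)

variable {m : ℕ}

/-- **The hypothesis `hlim` of `stmtN_of_lim`**, for all chains which satisfy the inequality. -/
theorem hlimN {C : Ch m} {K : Cn m} {e0 : ℝ} (hC : C.OK) (hK : Cn.OK C K) (hI : Inq C K e0)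
    (hR : Rg C K) (hcr : Crt C K) :
    ∀ n h : ℕ, 2 ≤ n → 1 ≤ h → 2 * h ≤ n → ∀ P : Fin (m + 1) → Bool,
      OkL 0 (List.ofFn fun i => (P i, C.c i)) → ∃ κ0 : ℂ, κ0 ≠ 0 ∧
      Tendsto (fun M : ℕ => (∏ i : Fin (m + 1), (-1 : ℂ) ^ (M + nn n (P i) + 1)) *
        JG4 P (fun i => (C.c i : ℝ) / 2) n h M /
        ((((M : ℝ) ^ (3 / 2 * ((m : ℝ) + 1) + m / 2) : ℝ) : ℂ) *
          exp (M * (C.W K.oc K.yc + ∑ i, kap (C.c i) (C.ty i))))) atTop (𝓝 κ0) := by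
  intro n h _ hh hn P hP
  exact hlim_of_krN hC hP hh hn (Krn.fin hC hK hI hR hcr (krN C P n h) (krN_ok C P hh hn)
    (krN_lm C P hh hn hC hK hR))

end Pool.Agent.S5
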