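import Pool.Agent.S5.N.OkC

/-!
# `SU(n)`: the kernels near the critical point
-/

set_option autoImplicit false

namespace Pool.Agent.S5

open Complex Filter Topology
open Pool.Agent.S3 (Rf fe rS qS wr fdom)
open Pool.Agent.S4 (et)
open Pool.Agent.H63.VC3 (LL ff Cc om yk)

variable {α : Type*} {l : Filter α} {M : α → ℕ}

/-- A function with the growth of a potential: `f` is about `A M ^ e exp (M p)`. -/
def LtM (l : Filter α) (M : α → ℕ) (f p : α → ℂ) (e : ℝ) (A : ℂ) : Prop :=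
  Tendsto (fun x => f x * exp (-(M x * p x)) / (((M x : ℝ) ^ e : ℝ) : ℂ)) l (𝓝 A)

theorem LtM.mul (hM : Tendsto M l atTop) {f g p q : α → ℂ} {e e' : ℝ} {A B : ℂ}
    (h1 : LtM l M f p e A) (h2 : LtM l M g q e' B) :
    LtM l M (fun x => f x * g x) (fun x => p x + q x) (e + e') (A * B) := by
  refine (Tendsto.mul h1 h2).congr' ?_
  filter_upwards [hM.eventually (eventually_ge_atTop 1)] with x hx
  have h3 : (0 : ℝ) < (M x : ℝ) := by exact_mod_cast hx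
  rw [Real.rpow_add h3, ofReal_mul, mul_add, neg_add, Complex.exp_add]
  rw [div_mul_div_comm]
  congr 1
  ring

theorem LtM.inv (hM : Tendsto M l atTop) {f p : α → ℂ} {e : ℝ} {A : ℂ} (hA : A ≠ 0)
    (h1 : LtM l M f p e A) : LtM l M (fun x => (f x)⁻¹) (fun x => -p x) (-e) A⁻¹ := by
  refine (Tendsto.inv₀ h1 hA).congr' ?_
  filter_upwards [hM.eventually (eventually_ge_atTop 1)] with x hx
  have h3 : (0 : ℝ) < (M x : ℝ) := by exact_mod_cast hx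
  rw [Real.rpow_neg h3.le, mul_neg, neg_neg, Complex.exp_neg]
  push_cast
  have h4 := exp_ne_zero (M x * p x)
  rw [div_inv_eq_mul, inv_div]
  rw [div_eq_mul_inv, mul_inv, inv_inv]
  ring

/-- The potential at a close point. -/
theorem LtM.shift {E : Type*} [NormedAddCommGroup E] [NormedSpace ℂ E]
    {P : E → ℂ} {p0 : E} (hP : AnalyticAt ℂ P p0) {x x' : α → E}
    (hx : Tendsto x l (𝓝 p0)) (hx' : Tendsto x' l (𝓝 p0)) (v : E)
    (hv : ∀ᶠ t in l, (M t : ℂ) • (x t - x' t) = v) {f : α → ℂ} {e : ℝ} {A : ℂ} (hA : A ≠ 0)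
    (h1 : LtM l M f (fun t => P (x' t)) e A) : ∃ B : ℂ, B ≠ 0 ∧ LtM l M f (fun t => P (x t)) e B := by
  have hs : HasStrictFDerivAt P (fderiv ℂ P p0) p0 := hP.hasStrictFDerivAt
  have h2 : Tendsto (fun t => (x t, x' t)) l (𝓝 (p0, p0)) := hx.prodMk_nhds hx'
  have h3 := hs.isLittleO.comp_tendsto h2
  have h4 : (fun t => (M t : ℂ) * (P (x t) - P (x' t)) - fderiv ℂ P p0 v) =o[l]
      (fun _ => (1 : ℂ)) := by
    have h5 : (fun t => (M t : ℂ) * (P (x t) - P (x' t) - fderiv ℂ P p0 (x t - x' t))) =o[l]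
        (fun t => (M t : ℂ) * ‖x t - x' t‖) :=
      (Asymptotics.isBigO_refl _ _).mul_isLittleO (by
        refine h3.trans_isBigO ?_
        apply Asymptotics.IsBigO.of_bound 1
        filter_upwards with t
        simp)
    have h6 : (fun t => (M t : ℂ) * (‖x t - x' t‖ : ℂ)) =O[l] (fun _ => (1 : ℂ)) := by
      apply Asymptotics.IsBigO.of_bound ‖v‖
      filter_upwards [hv] with t ht
      rw [norm_one, mul_one, ← ht, norm_smul, norm_mul]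
      simp
    refine (h5.trans_isBigO h6).congr' ?_ EventuallyEq.rfl
    filter_upwards [hv] with t ht
    rw [← ht, map_smul, smul_eq_mul]
    ring
  have h5 := ((Asymptotics.isLittleO_one_iff ℂ).mp h4).add_const (fderiv ℂ P p0 v)
  simp only [sub_add_cancel, zero_add] at h5
  have h6 := (continuous_exp.tendsto _).comp h5.neg
  refine ⟨A * exp (-(fderiv ℂ P p0 v)), mul_ne_zero hA (exp_ne_zero _), ?_⟩
  refine (Tendsto.mul h1 h6).congr fun t => ?_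
  simp only [Function.comp_apply]
  rw [div_mul_eq_mul_div, mul_assoc, ← Complex.exp_add]
  congr 3
  ring

/-! ### The functions of one variable -/

theorem lt_rS (hM : Tendsto M l atTop) (c : ℂ) {ζ : α → ℂ} {ζ0 : ℂ} (hζ : Tendsto ζ l (𝓝 ζ0))
    (h : fdom ζ0) (hre : |ζ0.re| < 1) : ∃ A : ℂ, A ≠ 0 ∧
    LtM l M (fun x => rS (M x) (M x * ζ x + c)) (fun x => -fe (ζ x)) (-1 / 2) A :=
  lm_rS hM c hζ h hre

/-- `exp (-LL)` at a shifted argument. -/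
theorem lt_LLi (hM : Tendsto M l atTop) (t : ℝ) {y : α → ℂ} {y0 : ℂ} (hy : Tendsto y l (𝓝 y0))
    (h0 : |y0.re| < 1 / 2) : ∃ A : ℂ, A ≠ 0 ∧
    LtM l M (fun x => exp (-LL (M x) (M x * (y x + 1 / 2) - 1 - t))) (fun x => -ff (y x + 1 / 2))
      (-1 / 2) A := by
  rw [abs_lt] at h0
  have hre0 : (y0 + 1 / 2).re = y0.re + 1 / 2 := by simp
  have hζ : Tendsto (fun x => y x + 1 / 2) l (𝓝 (y0 + 1 / 2)) := hy.add_const _
  obtain ⟨A, hA, h⟩ := lt_rS hM ((-1 - t : ℝ) : ℂ) hζ (Or.inr ⟨by rw [hre0]; linarith, by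
    rw [hre0]; linarith⟩) (by rw [hre0, abs_lt]; constructor <;> linarith)
  refine ⟨A, hA, Tendsto.congr' ?_ h⟩
  have e1 : ∀ᶠ x in l, 0 < (y x + 1 / 2).re ∧ (y x + 1 / 2).re < 1 := by
    have h2 := (continuous_re.tendsto _).comp hζ
    have h3 : 0 < (y0 + 1 / 2).re := by rw [hre0]; linarith
    have h4 : (y0 + 1 / 2).re < 1 := by rw [hre0]; linarith
    filter_upwards [h2.eventually (lt_mem_nhds h3), h2.eventually (gt_mem_nhds h4)] with x h5 h6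
    exact ⟨h5, h6⟩
  have e2 : ∀ᶠ x in l, -1 / 2 ≤ M x * (y x + 1 / 2).re - 1 - t := by
    have h2 : Tendsto (fun x => (y x + 1 / 2).re) l (𝓝 (y0 + 1 / 2).re) :=
      (continuous_re.tendsto _).comp hζ
    have h3 : 0 < (y0 + 1 / 2).re := by rw [hre0]; linarith
    have h5 : Tendsto (fun x => (M x : ℝ)) l atTop := tendsto_natCast_atTop_atTop.comp hM
    have h4 : Tendsto (fun x => (M x : ℝ) * (y x + 1 / 2).re) l atTop := h5.atTop_mul_pos h3 h2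
    filter_upwards [h4.eventually (eventually_ge_atTop (1 + t))] with x hx
    linarith
  filter_upwards [e1, e2] with x h1 h2
  have e3 : (M x : ℂ) * (y x + 1 / 2) + ((-1 - t : ℝ) : ℂ) = M x * (y x + 1 / 2) - 1 - t := by
    push_cast
    ring
  have e4 : rS (M x) (M x * (y x + 1 / 2) - 1 - t) = exp (-LL (M x) (M x * (y x + 1 / 2) - 1 - t)) := by
    unfold rS
    rw [if_pos]
    rw [sub_re, sub_re, ← ofReal_natCast, re_ofReal_mul, one_re, ofReal_re]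
    exact h2
  rw [e3, e4, Pool.Agent.S3.fe_eq_ff h1.1 h1.2]

/-- `exp LL` at a shifted argument. -/
theorem lt_LL (hM : Tendsto M l atTop) (t : ℝ) {y : α → ℂ} {y0 : ℂ} (hy : Tendsto y l (𝓝 y0))
    (h0 : |y0.re| < 1 / 2) : ∃ A : ℂ, A ≠ 0 ∧
    LtM l M (fun x => exp (LL (M x) (M x * (y x + 1 / 2) - 1 - t))) (fun x => ff (y x + 1 / 2))
      (1 / 2) A := by
  obtain ⟨A, hA, h⟩ := lt_LLi hM t hy h0
  refine ⟨A⁻¹, inv_ne_zero hA, ?_⟩
  have h1 := LtM.inv hM hA h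
  unfold LtM at h1 ⊢
  simp only [neg_neg, Complex.exp_neg, inv_inv] at h1 ⊢
  rw [show -(-1 / 2 : ℝ) = 1 / 2 by norm_num] at h1
  exact h1

/-- The weights. -/
theorem lt_wI (hM : Tendsto M l atTop) (n h : ℕ) (e b : Bool) {y : α → ℂ} {y0 : ℂ}
    (hy : Tendsto y l (𝓝 y0)) (h0 : |y0.re| < 1 / 2) : ∃ A : ℂ, A ≠ 0 ∧
    LtM l M (fun x => wI n h e b (M x) (y x)) (fun x => 4 * ff (y x + 1 / 2)) 2 A := by
  obtain ⟨A1, n1, k1⟩ := lt_LL hM 0 hy h0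
  obtain ⟨A2, n2, k2⟩ := lt_LL hM (n - 2 : ℕ) hy h0
  obtain ⟨A3, n3, k3⟩ := lt_LL hM (tw1 n h b : ℕ) hy h0
  obtain ⟨A4, n4, k4⟩ := lt_LL hM (tw2 n h e b : ℕ) hy h0
  refine ⟨A1 * A2 * (A3 * A4), mul_ne_zero (mul_ne_zero n1 n2) (mul_ne_zero n3 n4), ?_⟩
  have h5 := LtM.mul hM (LtM.mul hM k1 k2) (LtM.mul hM k3 k4)
  rw [show (1 / 2 + 1 / 2 + (1 / 2 + 1 / 2) : ℝ) = 2 by norm_num] at h5
  refine Tendsto.congr (fun x => ?_) h5
  unfold wI
  simp only [ofReal_zero, sub_zero, ofReal_natCast]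
  congr 2
  ring_nf

/-- The closed kernel with one half twist. -/
theorem lt_kHe (e : ℝ) (s : ℤ) (hM : Tendsto M l atTop) {z b : α → ℂ} {z0 b0 : ℂ}
    (hz : Tendsto z l (𝓝 z0)) (hb : Tendsto b l (𝓝 b0)) (h : fdom (z0 + b0))
    (hre : |(z0 + b0).re| < 1) (h1 : |z0.re| < 1 / 2) (h2 : |b0.re| < 1 / 2) : ∃ A : ℂ, A ≠ 0 ∧
    LtM l M (fun x => kHe e s (M x) (z x) (b x)) (fun x => pH s (z x) (b x)) (-3 / 2) A := by
  obtain ⟨A, hA, h3⟩ := lt_rS hM (-1) (hz.add hb) h hre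
  obtain ⟨B, hB, h4⟩ := lt_LLi hM e hz h1
  obtain ⟨D, hD, h5⟩ := lt_LLi hM e hb h2
  have h6 : LtM l M (fun x => exp (-(s * Real.pi * I * (M x * (z x + 1 / 2) * (b x + 1 / 2) -
      (1 + e) * (z x + b x))))) (fun x => qH s (z x) (b x)) 0
      (exp (s * Real.pi * I * ((1 + e) * (z0 + b0)))) := by
    have h7 : Tendsto (fun x => exp (s * Real.pi * I * ((1 + e) * (z x + b x)))) l
        (𝓝 (exp (s * Real.pi * I * ((1 + e) * (z0 + b0))))) :=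
      (continuous_exp.tendsto _).comp (((hz.add hb).const_mul (1 + e : ℂ)).const_mul
        (s * Real.pi * I : ℂ))
    refine h7.congr fun x => ?_
    rw [Real.rpow_zero, ofReal_one, div_one, ← Complex.exp_add]
    congr 1
    unfold qH
    ring
  refine ⟨exp (s * Real.pi * I * ((1 + e) * (z0 + b0))) * (B * D) * A,
    mul_ne_zero (mul_ne_zero (exp_ne_zero _) (mul_ne_zero hB hD)) hA, ?_⟩
  have h8 := LtM.mul hM (LtM.mul hM h6 (LtM.mul hM h4 h5)) h3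
  rw [show (0 + (-1 / 2 + -1 / 2) + -1 / 2 : ℝ) = -3 / 2 by norm_num] at h8
  refine Tendsto.congr (fun x => ?_) h8
  have e0 : (M x : ℂ) * (z x + b x) + -1 = M x * (z x + b x) - 1 := by ring
  have e1 : qH s (z x) (b x) + (-ff (z x + 1 / 2) + -ff (b x + 1 / 2)) + -fe (z x + b x) =
      pH s (z x) (b x) := by
    unfold pH
    ring
  unfold kHe
  beta_reduce
  rw [e0, e1]

/-! ### Analyticity of the potentials -/

private theorem LmC_half_re (z : ℂ) : (z + 1 / 2).re = z.re + 1 / 2 := by simp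

private theorem LmC_fe {E : Type*} [NormedAddCommGroup E] [NormedSpace ℂ E] {f : E → ℂ} {p : E}
    (hf : AnalyticAt ℂ f p) (h : fdom (f p)) : AnalyticAt ℂ (fun q => fe (f q)) p :=
  (Pool.Agent.S3.fe_an h).comp hf

private theorem LmC_ff {E : Type*} [NormedAddCommGroup E] [NormedSpace ℂ E] {f : E → ℂ} {p : E}
    (hf : AnalyticAt ℂ f p) (h : |(f p).re| < 1 / 2) :
    AnalyticAt ℂ (fun q => ff (f q + 1 / 2)) p := by
  rw [abs_lt] at h
  have h1 : AnalyticAt ℂ ff (f p + 1 / 2) :=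
    Pool.Agent.S3.Pot_ff_an (by rw [LmC_half_re]; linarith) (by rw [LmC_half_re]; linarith)
  exact AnalyticAt.comp (f := fun q => f q + 1 / 2) h1 (hf.add analyticAt_const)

theorem an_pB {E : Type*} [NormedAddCommGroup E] [NormedSpace ℂ E] {f g : E → ℂ} {p : E}
    (s : ℤ) (hf : AnalyticAt ℂ f p) (hg : AnalyticAt ℂ g p) (h : fdom (f p - g p)) :
    AnalyticAt ℂ (fun q => pB s (f q) (g q)) p := by
  unfold pB qB
  exact (analyticAt_const.mul ((((hf.add hg).pow 2).div_const).sub ((hf.sub hg).div_const))).sub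
    (LmC_fe (hf.sub hg) h)

theorem an_pC {E : Type*} [NormedAddCommGroup E] [NormedSpace ℂ E] {f g : E → ℂ} {p : E}
    (s : ℤ) (hf : AnalyticAt ℂ f p) (hg : AnalyticAt ℂ g p) (h : fdom (f p + g p)) :
    AnalyticAt ℂ (fun q => pC s (f q) (g q)) p := by
  unfold pC qC
  exact (analyticAt_const.mul ((((hf.sub hg).pow 2).div_const).add
    (((analyticAt_const.sub hf).sub hg).div_const))).sub (LmC_fe (hf.add hg) h)

theorem an_pH {E : Type*} [NormedAddCommGroup E] [NormedSpace ℂ E] {f g : E → ℂ} {p : E}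
    (s : ℤ) (hf : AnalyticAt ℂ f p) (hg : AnalyticAt ℂ g p) (h : fdom (f p + g p))
    (h1 : |(f p).re| < 1 / 2) (h2 : |(g p).re| < 1 / 2) :
    AnalyticAt ℂ (fun q => pH s (f q) (g q)) p := by
  unfold pH qH
  exact ((((analyticAt_const.mul ((hf.add analyticAt_const).mul
    (hg.add analyticAt_const))).neg).sub (LmC_ff hf h1)).sub (LmC_ff hg h2)).sub
    (LmC_fe (hf.add hg) h)

theorem an_pV {E : Type*} [NormedAddCommGroup E] [NormedSpace ℂ E] {f g k : E → ℂ} {p : E}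
    (r : ℝ) (hf : AnalyticAt ℂ f p) (hg : AnalyticAt ℂ g p) (hk : AnalyticAt ℂ k p)
    (h1 : fdom (g p - f p)) (h2 : fdom (g p + f p)) (h3 : fdom (k p - f p))
    (h4 : fdom (k p + f p)) : AnalyticAt ℂ (fun q => pV r (f q) (g q) (k q)) p := by
  unfold pV wr
  exact (((((analyticAt_const.mul ((analyticAt_const.mul (hf.pow 2)).add hf))).sub
    (LmC_fe (hg.sub hf) h1)).sub (LmC_fe (hg.add hf) h2)).sub (LmC_fe (hk.sub hf) h3)).sub
    (LmC_fe (hk.add hf) h4)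

/-! ### The nodes -/

variable {m : ℕ}

private theorem tend_sh (hM : Tendsto M l atTop) {z : α → ℂ} {z0 : ℂ} (hz : Tendsto z l (𝓝 z0)) (s : ℂ) :
    Tendsto (fun x => z x - s / M x) l (𝓝 z0) := by
  have h1 : Tendsto (fun x => s / (M x : ℂ)) l (𝓝 0) :=
    (tendsto_const_div_atTop_nhds_zero_nat s).comp hM
  have h2 := hz.sub h1
  rwa [sub_zero] at h2

private theorem sh_v (hM : Tendsto M l atTop) (z : α → ℂ) (s : ℂ) :
    ∀ᶠ x in l, (M x : ℂ) * (z x - (z x - s / M x)) = s := by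
  filter_upwards [hM.eventually (eventually_ge_atTop 1)] with x hx
  have hMc : (M x : ℂ) ≠ 0 := by
    have : (0 : ℝ) < M x := by exact_mod_cast hx
    exact_mod_cast this.ne'
  field_simp
  ring

/-- The limit of a kernel at shifted arguments. -/
private theorem lt_sh2 (hM : Tendsto M l atTop) {P : ℂ → ℂ → ℂ} {f : α → ℂ} {a b : α → ℂ} {a0 b0 : ℂ}
    (ha : Tendsto a l (𝓝 a0)) (hb : Tendsto b l (𝓝 b0)) (s t : ℂ)
    (hP : AnalyticAt ℂ (fun q : ℂ × ℂ => P q.1 q.2) (a0, b0)) {e : ℝ} {A : ℂ} (hA : A ≠ 0)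
    (h1 : LtM l M f (fun x => P (a x - s / M x) (b x - t / M x)) e A) :
    ∃ B : ℂ, B ≠ 0 ∧ LtM l M f (fun x => P (a x) (b x)) e B := by
  refine LtM.shift (P := fun q : ℂ × ℂ => P q.1 q.2) (p0 := (a0, b0)) hP
    (x := fun x => (a x, b x)) (x' := fun x => (a x - s / M x, b x - t / M x))
    (ha.prodMk_nhds hb) ((tend_sh hM ha s).prodMk_nhds (tend_sh hM hb t)) (s, t) ?_ hA h1
  filter_upwards [sh_v hM a s, sh_v hM b t] with x h2 h3
  show ((M x : ℂ) * (a x - (a x - s / M x)), (M x : ℂ) * (b x - (b x - t / M x))) = (s, t)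
  rw [h2, h3]

theorem lt_kC_sh (s : ℤ) (hM : Tendsto M l atTop) {a b : α → ℂ} {a0 b0 : ℂ}
    (ha : Tendsto a l (𝓝 a0)) (hb : Tendsto b l (𝓝 b0)) (h : fdom (a0 + b0))
    (hre : |(a0 + b0).re| < 1) (u v : ℂ) : ∃ A : ℂ, A ≠ 0 ∧
    LtM l M (fun x => kC s (M x) (a x - u / M x) (b x - v / M x)) (fun x => pC s (a x) (b x))
      (-1 / 2) A := by
  obtain ⟨A, hA, h1⟩ := lm_kC s hM (tend_sh hM ha u) (tend_sh hM hb v) h hre
  exact lt_sh2 hM ha hb u v (P := fun a b => pC s a b)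
    (an_pC s (f := fun q : ℂ × ℂ => q.1) (g := fun q => q.2) analyticAt_fst analyticAt_snd h) hA h1

theorem lt_kB_sh (s : ℤ) (hM : Tendsto M l atTop) {a b : α → ℂ} {a0 b0 : ℂ}
    (ha : Tendsto a l (𝓝 a0)) (hb : Tendsto b l (𝓝 b0)) (h : fdom (a0 - b0))
    (hre : |(a0 - b0).re| < 1) (u v : ℂ) : ∃ A : ℂ, A ≠ 0 ∧
    LtM l M (fun x => kB s (M x) (a x - u / M x) (b x - v / M x)) (fun x => pB s (a x) (b x))
      (-1 / 2) A := by
  obtain ⟨A, hA, h1⟩ := lm_kB s hM (tend_sh hM ha u) (tend_sh hM hb v) h hre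
  exact lt_sh2 hM ha hb u v (P := fun a b => pB s a b)
    (an_pB s (f := fun q : ℂ × ℂ => q.1) (g := fun q => q.2) analyticAt_fst analyticAt_snd h) hA h1

theorem lt_kHe_sh (e : ℝ) (s : ℤ) (hM : Tendsto M l atTop) {a b : α → ℂ} {a0 b0 : ℂ}
    (ha : Tendsto a l (𝓝 a0)) (hb : Tendsto b l (𝓝 b0)) (h : fdom (a0 + b0))
    (hre : |(a0 + b0).re| < 1) (h1 : |a0.re| < 1 / 2) (h2 : |b0.re| < 1 / 2) (u v : ℂ) :
    ∃ A : ℂ, A ≠ 0 ∧
    LtM l M (fun x => kHe e s (M x) (a x - u / M x) (b x - v / M x)) (fun x => pH s (a x) (b x))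
      (-3 / 2) A := by
  obtain ⟨A, hA, h3⟩ := lt_kHe e s hM (tend_sh hM ha u) (tend_sh hM hb v) h hre h1 h2
  exact lt_sh2 hM ha hb u v (P := fun a b => pH s a b)
    (an_pH s (f := fun q : ℂ × ℂ => q.1) (g := fun q => q.2) analyticAt_fst analyticAt_snd h h1 h2)
    hA h3

private theorem LmC_ye {C : Ch m} {K : Cn m} (hK : Cn.OK C K) {n : ℕ} (h : 0 < n ∧ n ≤ m) :
    |(ye K.yc n).re| < 1 / 2 := by
  unfold ye
  rw [dif_pos h, abs_lt]
  have h1 := hK.y0 ⟨n - 1, by omega⟩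
  exact ⟨by linarith, hK.y1 _⟩

private theorem LmC_yt_re {C : Ch m} {K : Cn m} (hC : C.OK) (hK : Cn.OK C K) {i : Fin (m + 1)}
    (hi : C.ty i = Ty.zn) : |(yt (C.fl i) (ye K.yc i) (ye K.yc (i + 1))).re| < 1 / 2 := by
  have hm := hC.m1
  have hi2 := i.2
  cases hfl : C.fl i
  · show |(ye K.yc (i + 1)).re| < 1 / 2
    refine LmC_ye hK ⟨Nat.succ_pos _, ?_⟩
    by_contra h1
    have h2 : i = Fin.last m := Fin.ext (by
      rw [Fin.val_last]
      omega)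
    rw [h2] at hi hfl
    rw [hC.zr hi] at hfl
    exact Bool.noConfusion hfl
  · show |(ye K.yc i).re| < 1 / 2
    refine LmC_ye hK ⟨?_, by omega⟩
    by_contra h1
    have h2 : i = 0 := Fin.ext (by
      rw [Fin.val_zero]
      omega)
    rw [h2] at hi hfl
    rw [hC.zl hi] at hfl
    exact Bool.noConfusion hfl

theorem krN_lm_w (C : Ch m) (P : Fin (m + 1) → Bool) (n h : ℕ) {K : Cn m} (hK : Cn.OK C K)
    (j : Fin m) : ∃ A : ℂ, A ≠ 0 ∧ Tendsto (fun p : ℕ × ℂ => (krN C P n h).w j p.1 p.2 *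
    exp (-(p.1 * (4 * ff (p.2 + 1 / 2)))) / (((p.1 : ℝ) ^ (krN C P n h).ew j : ℝ) : ℂ))
    (atTop ×ˢ 𝓝 (K.yc j)) (𝓝 A) := by
  have h0 := hK.y0 j
  exact lt_wI (l := atTop ×ˢ 𝓝 (K.yc j)) (M := fun p : ℕ × ℂ => p.1) tendsto_fst n h (et P j)
    (la P j) (y := fun p : ℕ × ℂ => p.2) tendsto_snd (abs_lt.2 ⟨by linarith, hK.y1 j⟩)

theorem krN_lm_c (C : Ch m) (P : Fin (m + 1) → Bool) (n h : ℕ) {K : Cn m} (hC : C.OK)
    (hK : Cn.OK C K) (hR : Rg C K) (i : Fin (m + 1)) (hi : C.ty i ≠ Ty.vn) : ∃ A : ℂ, A ≠ 0 ∧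
    Tendsto (fun p : ℕ × (ℂ × ℂ × ℂ) => (krN C P n h).sg i p.1 *
    (krN C P n h).k i p.1 p.2.1 p.2.2.1 p.2.2.2 * exp (-(p.1 * C.pn i p.2.1 p.2.2.1 p.2.2.2)) /
      (((p.1 : ℝ) ^ (krN C P n h).ek i : ℝ) : ℂ))
    (atTop ×ˢ 𝓝 (if C.ty i = Ty.cl then 0 else K.oc i, ye K.yc i, ye K.yc (i + 1))) (𝓝 A) := by
  show ∃ A : ℂ, A ≠ 0 ∧ Tendsto (fun p : ℕ × (ℂ × ℂ × ℂ) =>
    (if C.ty i = Ty.vn then (-1) ^ (p.1 + Pool.Agent.S4.nn n (P i) + 1) else 1 : ℂ) *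
    kI C P n h i p.1 p.2.1 p.2.2.1 p.2.2.2 *
      exp (-(p.1 * pN (C.c i) (C.ty i) (C.fl i) p.2.1 p.2.2.1 p.2.2.2)) /
      (((p.1 : ℝ) ^ eN (C.c i) (C.ty i) : ℝ) : ℂ))
    (atTop ×ˢ 𝓝 (if C.ty i = Ty.cl then 0 else K.oc i, ye K.yc i, ye K.yc (i + 1))) (𝓝 A)
  obtain ⟨l, hl⟩ : ∃ l : Filter (ℕ × (ℂ × ℂ × ℂ)), l =
    atTop ×ˢ 𝓝 (if C.ty i = Ty.cl then 0 else K.oc i, ye K.yc i, ye K.yc (i + 1)) := ⟨_, rfl⟩
  rw [← hl]
  have tM : Tendsto (fun p : ℕ × (ℂ × ℂ × ℂ) => p.1) l atTop := by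
    rw [hl]
    exact tendsto_fst
  have t2 : Tendsto (fun p : ℕ × (ℂ × ℂ × ℂ) => p.2) l
      (𝓝 (if C.ty i = Ty.cl then 0 else K.oc i, ye K.yc i, ye K.yc (i + 1))) := by
    rw [hl]
    exact tendsto_snd
  have tz : Tendsto (fun p : ℕ × (ℂ × ℂ × ℂ) => p.2.1) l
      (𝓝 (if C.ty i = Ty.cl then 0 else K.oc i)) :=
    (continuous_fst.tendsto _).comp t2
  have ta : Tendsto (fun p : ℕ × (ℂ × ℂ × ℂ) => p.2.2.1) l (𝓝 (ye K.yc i)) :=
    ((continuous_fst.comp continuous_snd).tendsto _).comp t2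
  have tb : Tendsto (fun p : ℕ × (ℂ × ℂ × ℂ) => p.2.2.2) l (𝓝 (ye K.yc (i + 1))) :=
    ((continuous_snd.comp continuous_snd).tendsto _).comp t2
  simp only [if_neg hi, one_mul]
  rcases h1 : C.ty i with _ | _ | _
  · obtain ⟨A, hA, h4⟩ := lt_kC_sh (C.c i).sign tM ta tb (hR.cl i h1).1 (hR.cl i h1).2
      (shL n h (P i) i : ℝ) (shR n h (P i) i : ℝ)
    refine ⟨A, hA, Tendsto.congr (fun p => ?_) h4⟩
    have e1 : kI C P n h i p.1 p.2.1 p.2.2.1 p.2.2.2 = kC (C.c i).sign p.1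
        (p.2.2.1 - (shL n h (P i) i : ℝ) / p.1) (p.2.2.2 - (shR n h (P i) i : ℝ) / p.1) := by
      unfold kI
      rw [if_neg hi, h1]
      rfl
    rw [e1]
    rfl
  · have hz1 : ¬ C.ty i = Ty.cl := by rw [h1]; exact fun h => Ty.noConfusion h
    rw [if_neg hz1] at tz
    obtain ⟨hr1, hr2, hr3, hr4⟩ := hR.zn i h1
    have tys : Tendsto (fun p : ℕ × (ℂ × ℂ × ℂ) => ys (C.fl i) p.2.2.1 p.2.2.2) l
        (𝓝 (ys (C.fl i) (ye K.yc i) (ye K.yc (i + 1)))) := by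
      unfold ys
      split_ifs
      · exact tb
      · exact ta
    have tyt : Tendsto (fun p : ℕ × (ℂ × ℂ × ℂ) => yt (C.fl i) p.2.2.1 p.2.2.2) l
        (𝓝 (yt (C.fl i) (ye K.yc i) (ye K.yc (i + 1)))) := by
      unfold yt
      split_ifs
      · exact ta
      · exact tb
    obtain ⟨A, hA, hB⟩ := lt_kB_sh (C.c i).sign tM tys tz hr1 hr2 (shZ n h (P i) (C.fl i) i : ℝ)
      (shZ n h (P i) (C.fl i) i : ℝ)
    have ez : ∀ p : ℕ × (ℂ × ℂ × ℂ), kI C P n h i p.1 p.2.1 p.2.2.1 p.2.2.2 =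
        if |C.c i| = 3 then
          kB (C.c i).sign p.1 (ys (C.fl i) p.2.2.1 p.2.2.2 - (shZ n h (P i) (C.fl i) i : ℝ) / p.1)
            (p.2.1 - (shZ n h (P i) (C.fl i) i : ℝ) / p.1) *
          kHe (eI n h (P i) (sg5 P i)) (C.c i).sign p.1
            (p.2.1 - (shZ n h (P i) (C.fl i) i : ℝ) / p.1)
            (yt (C.fl i) p.2.2.1 p.2.2.2 - (shT n h (P i) (C.fl i) i : ℝ) / p.1)
        else kB (C.c i).sign p.1 (ys (C.fl i) p.2.2.1 p.2.2.2 - (shZ n h (P i) (C.fl i) i : ℝ) / p.1)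
            (p.2.1 - (shZ n h (P i) (C.fl i) i : ℝ) / p.1) *
          kC (C.c i).sign p.1 (p.2.1 - (shZ n h (P i) (C.fl i) i : ℝ) / p.1)
            (yt (C.fl i) p.2.2.1 p.2.2.2 - (shT n h (P i) (C.fl i) i : ℝ) / p.1) := by
      intro p
      unfold kI
      rw [if_neg hi, h1]
      unfold kNe ys yt shZ shT
      cases C.fl i <;> rfl
    have ep : ∀ p : ℕ × (ℂ × ℂ × ℂ), pN (C.c i) Ty.zn (C.fl i) p.2.1 p.2.2.1 p.2.2.2 =
        if |C.c i| = 3 then pB (C.c i).sign (ys (C.fl i) p.2.2.1 p.2.2.2) p.2.1 +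
          pH (C.c i).sign p.2.1 (yt (C.fl i) p.2.2.1 p.2.2.2)
        else pB (C.c i).sign (ys (C.fl i) p.2.2.1 p.2.2.2) p.2.1 +
          pC (C.c i).sign p.2.1 (yt (C.fl i) p.2.2.1 p.2.2.2) := by
      intro p
      unfold pN ys yt
      cases C.fl i <;> rfl
    by_cases h3 : |C.c i| = 3
    · obtain ⟨B, hB0, hH⟩ := lt_kHe_sh (eI n h (P i) (sg5 P i)) (C.c i).sign tM tz tyt hr3 hr4
        ((hK.z1 i h1).trans (hK.z2 i)) (LmC_yt_re hC hK h1) (shZ n h (P i) (C.fl i) i : ℝ)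
        (shT n h (P i) (C.fl i) i : ℝ)
      have h4 := LtM.mul tM hB hH
      rw [show (-1 / 2 + -3 / 2 : ℝ) = -2 by norm_num] at h4
      refine ⟨A * B, mul_ne_zero hA hB0, Tendsto.congr (fun p => ?_) h4⟩
      rw [ez, ep, if_pos h3, if_pos h3]
      show _ = _ / (((p.1 : ℝ) ^ (if |C.c i| = 3 then (-2 : ℝ) else -1) : ℝ) : ℂ)
      rw [if_pos h3]
    · obtain ⟨B, hB0, hH⟩ := lt_kC_sh (C.c i).sign tM tz tyt hr3 hr4
        (shZ n h (P i) (C.fl i) i : ℝ) (shT n h (P i) (C.fl i) i : ℝ)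
      have h4 := LtM.mul tM hB hH
      rw [show (-1 / 2 + -1 / 2 : ℝ) = -1 by norm_num] at h4
      refine ⟨A * B, mul_ne_zero hA hB0, Tendsto.congr (fun p => ?_) h4⟩
      rw [ez, ep, if_neg h3, if_neg h3]
      show _ = _ / (((p.1 : ℝ) ^ (if |C.c i| = 3 then (-2 : ℝ) else -1) : ℝ) : ℂ)
      rw [if_neg h3]
  · exact absurd h1 hi

end Pool.Agent.S5
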