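import Pool.Agent.H63.VC.Cross
import Pool.Agent.H63.VC.EndB
import Pool.Agent.H63.VC.Riem
import Pool.Agent.H63.VC.SlowL
import Pool.Agent.H63.VC.SlowU
import Pool.Agent.H63.VC11.Brac11
import Pool.Agent.H63.VC12.Path12
import Pool.Agent.H63.VC4.Checks
import Pool.Agent.H63.VC4.GeoDefs
import Pool.Agent.H63.VC4.KBN
import Pool.Agent.H63.VC4.UpperN
import Pool.Agent.H63.VC6.LocU
import Pool.Agent.H63.VC6.SlotU
import Pool.Agent.S4.Root

/-!
# `SU(n)`: the sums with two expansions of the mixed edges
-/

set_option autoImplicit false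

namespace Pool.Agent.S5

open Pool.Agent.H63.VC hiding ext
open Pool.Agent.H63.VC3 Pool.Agent.H63.VC7 Pool.Agent.S4 Complex

variable {m : ℕ}

/-- The factor of a node of antiparallel strands; `e = 1 + σ`. -/
noncomputable def pr5 (n h M e : ℕ) (v : ℂ) : ℂ :=
  Wd M (n - 2) v * (M * q4 M (n - 2 * h) (h - 1) v) * Wd M (n - 2 * h) v ^ e

/-- The number of the factors in the denominator of a slot; `l` is true for the second expansion. -/
def dd5 (n h : ℕ) (P l : Bool) : ℕ := if P then (if l then 2 * h - 2 else 2 * (n - h) - 2) else n - 2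

/-- The function whose derivatives are summed at a node; `lam j` is true if the second expansion is
used for the edge `j`. -/
noncomputable def NT5 (r : ℝ) (n h M : ℕ) (P : Bool) (e : ℕ) (lam : Fin m → Bool)
    (A : Finset (Fin m)) (k : Fin m → ℕ) (v : ℂ) : ℂ :=
  exp (2 * Real.pi * I * r * M * v ^ 2) * (2 * sin (2 * Real.pi * v)) *
    (if P then Wd M (2 * h - 2) v * Wd M (2 * (n - h) - 2) v else pr5 n h M e v) *
    ∏ j ∈ A, q4 M (dd5 n h P (lam j)) (M + 1 - n - k j) v

/-- The factor of a node. -/
noncomputable def DG5 (r : ℝ) (n h M : ℕ) (P : Bool) (e : ℕ) (lam : Fin m → Bool)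
    (A : Finset (Fin m)) (k : Fin m → ℕ) : ℂ :=
  ∑ X ∈ Finset.range (M + 2 - nn n P),
    deriv (NT5 r n h M P e lam A k) ((vl (nn n P) M X : ℝ) : ℂ)

/-- The weight of an edge; `e` is true for the edges between nodes of different types, `l` for the
second expansion. -/
noncomputable def w5 (n h : ℕ) (e l : Bool) (M k : ℕ) : ℝ :=
  S M k * S M (k + n - 2) * S M (k + (if l then n - h else h) - 1) *
    S M (k + (if e then (if l then n - h else h) else n - h) - 1)

/-- The number of the adjacent edges with the second expansion. -/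
def cc5 (lam : Fin m → Bool) (i : Fin (m + 1)) : ℕ := ((ie i).filter fun j => lam j).card

/-- The sum at the root of unity with the expansions `lam`. -/
noncomputable def JG5 (P : Fin (m + 1) → Bool) (r : Fin (m + 1) → ℝ) (n h M : ℕ)
    (lam : Fin m → Bool) : ℂ :=
  ∑ k ∈ Fintype.piFinset (fun _ : Fin m => Finset.range (M + 2 - n)),
    (∏ j, (w5 n h (et P j) (lam j) M (k j) : ℂ)) *
      ∏ i, DG5 (r i) n h M (P i) (sn P i + 1 - 2 * cc5 lam i) lam (ie i) k

/-- The expansions: the second one for the mixed edges with an odd number. -/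
def la (P : Fin (m + 1) → Bool) (j : Fin m) : Bool := et P j && decide ((j : ℕ) % 2 = 1)

end Pool.Agent.S5
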