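import Pool.Agent.S5.N.BdN

/-!
# `SU(n)`: the nodes without integration variable
-/

set_option autoImplicit false

namespace Pool.Agent.S5

open Complex Filter Topology
open Pool.Agent.S3 (Rf fe rS qS wr fdom)
open Pool.Agent.S4 (et)
open Pool.Agent.H63.VC3 (LL ff Cc om yk)

variable {m : ℕ}

private theorem kI_cl {C : Ch m} {P : Fin (m + 1) → Bool} {n h : ℕ} {i : Fin (m + 1)}
    (hi : C.ty i = Ty.cl) (M : ℕ) (z a b : ℂ) : kI C P n h i M z a b =
    kC (C.c i).sign M (a - (shL n h (P i) i : ℝ) / M) (b - (shR n h (P i) i : ℝ) / M) := by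
  unfold kI
  rw [if_neg (by rw [hi]; exact fun h => Ty.noConfusion h), hi]
  rfl

private theorem kNe_zn (e : ℝ) (c : ℤ) (fl : Bool) (M : ℕ) (z a b : ℂ) :
    kNe e c Ty.zn fl M z a b = if |c| = 3 then kB c.sign M (ys fl a b) z * kHe e c.sign M z (yt fl a b)
      else kB c.sign M (ys fl a b) z * kC c.sign M z (yt fl a b) := by
  unfold ys yt
  cases fl <;> rfl

private theorem gN_zn (c : ℤ) (fl : Bool) (z a b : ℂ) :
    gN c Ty.zn fl z a b = if |c| = 3 then gB c.sign (ys fl a b) z + gH c.sign z (yt fl a b)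
      else gB c.sign (ys fl a b) z + gC c.sign z (yt fl a b) := by
  unfold ys yt
  cases fl <;> rfl

private theorem kI_zn {C : Ch m} {P : Fin (m + 1) → Bool} {n h : ℕ} {i : Fin (m + 1)}
    (hi : C.ty i = Ty.zn) (M : ℕ) (z a b : ℂ) : kI C P n h i M z a b =
    kNe (eI n h (P i) (sg5 P i)) (C.c i) Ty.zn (C.fl i) M (z - (shZ n h (P i) (C.fl i) i : ℝ) / M)
    (a - (shL n h (P i) i : ℝ) / M) (b - (shR n h (P i) i : ℝ) / M) := by
  unfold kI
  rw [if_neg (by rw [hi]; exact fun h => Ty.noConfusion h), hi]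

private theorem ys_mem {S : Set ℂ} {fl : Bool} {a b : ℂ} (ha : a ∈ S) (hb : b ∈ S) :
    ys fl a b ∈ S := by
  unfold ys
  split_ifs
  · exact hb
  · exact ha

private theorem yt_mem {S : Set ℂ} {fl : Bool} {a b : ℂ} (ha : a ∈ S) (hb : b ∈ S) :
    yt fl a b ∈ S := by
  unfold yt
  split_ifs
  · exact ha
  · exact hb

private theorem mulB {x y : ℂ} {M p q : ℕ} {A B f g : ℝ} (hA : 0 < A)
    (hx : ‖x‖ ≤ A * (M : ℝ) ^ p * Real.exp (M * f)) (hy : ‖y‖ ≤ B * (M : ℝ) ^ q * Real.exp (M * g)) :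
    ‖x * y‖ ≤ A * B * (M : ℝ) ^ (p + q) * Real.exp (M * (f + g)) := by
  rw [norm_mul]
  refine (mul_le_mul hx hy (norm_nonneg _) (by positivity)).trans (le_of_eq ?_)
  rw [mul_add, Real.exp_add, pow_add]
  ring

/-- The other slot. -/
noncomputable def shT (n h : ℕ) (P fl : Bool) (i : ℕ) : ℝ := if fl then shL n h P i else shR n h P i

theorem shT_bd {n h : ℕ} (hh : 1 ≤ h) (hn : 2 * h ≤ n) (P fl : Bool) (i : ℕ) :
    0 ≤ shT n h P fl i ∧ shT n h P fl i ≤ (n - 2 : ℕ) := by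
  unfold shT
  split_ifs
  · exact shL_bd hh hn P i
  · exact shR_bd hh hn P i

theorem eT_bd {n h : ℕ} (hh : 1 ≤ h) (hn : 2 * h ≤ n) (P fl : Bool) {σ : ℤ} (hσ : |σ| ≤ 1) (i : ℕ) :
    0 ≤ shT n h P fl i + eI n h P σ ∧ shT n h P fl i + eI n h P σ ≤ (n - 2 : ℕ) := by
  unfold shT
  split_ifs
  · exact eL_bd hh hn P hσ i
  · exact eR_bd hh hn P hσ i

theorem shLR {n h : ℕ} (hh : 1 ≤ h) (hn : 2 * h ≤ n) (P : Bool) (i : ℕ) :
    shL n h P i + shR n h P i = (n - 2 : ℕ) := by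
  have h2 : ((n - 2 : ℕ) : ℝ) = (n : ℝ) - 2 := by
    rw [Nat.cast_sub (by omega)]
    norm_num
  unfold shL shR
  split_ifs
  · rw [← Nat.cast_add]
    congr 1
    unfold siL siR
    split_ifs <;> omega
  · rw [h2]
    ring

theorem shZT {n h : ℕ} (hh : 1 ≤ h) (hn : 2 * h ≤ n) (P fl : Bool) (i : ℕ) :
    shZ n h P fl i + shT n h P fl i = (n - 2 : ℕ) := by
  have := shLR hh hn P i
  unfold shZ shT
  split_ifs
  · linarith only [this]
  · linarith only [this]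

private theorem ys_sh (n h : ℕ) (P fl : Bool) (i M : ℕ) (a b : ℂ) :
    ys fl (a - (shL n h P i : ℝ) / M) (b - (shR n h P i : ℝ) / M) =
      ys fl a b - (shZ n h P fl i : ℝ) / M := by
  unfold ys shZ
  split_ifs <;> rfl

private theorem yt_sh (n h : ℕ) (P fl : Bool) (i M : ℕ) (a b : ℂ) :
    yt fl (a - (shL n h P i : ℝ) / M) (b - (shR n h P i : ℝ) / M) =
      yt fl a b - (shT n h P fl i : ℝ) / M := by
  unfold yt shT
  split_ifs <;> rfl

/-- The arguments of `LL` are in the domain. -/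
private theorem LL_dom {n M : ℕ} (hM : 1 ≤ M) {d : ℝ} {z : ℂ} (hz : z ∈ Dm M (n - 2) d) {s e : ℝ}
    (h0 : 0 ≤ s + e) (h1 : s + e ≤ (n - 2 : ℕ)) :
    1 / 2 ≤ M * ((z - (s : ℂ) / M).re + 1 / 2) - e ∧ M * ((z - (s : ℂ) / M).re + 1 / 2) - e ≤ M := by
  have hM0 : (0 : ℝ) < M := by exact_mod_cast hM
  obtain ⟨h2, h3, -⟩ := Dm_bd hM hz
  have hre : (M : ℝ) * ((z - (s : ℂ) / M).re + 1 / 2) = M * (z.re + 1 / 2) - s := by
    rw [sub_re, Complex.div_natCast_re, ofReal_re]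
    field_simp
    ring
  rw [hre]
  constructor <;> linarith

/-- The bounds of the kernels. -/
theorem kI_bd {C : Ch m} (P : Fin (m + 1) → Bool) {n h : ℕ} (hh : 1 ≤ h) (hn : 2 * h ≤ n)
    {i : Fin (m + 1)} (hi : C.ty i ≠ Ty.vn) (d : ℝ) : ∃ A : ℝ, 0 < A ∧ ∃ p : ℕ, ∀ᶠ M : ℕ in atTop,
    ∀ z a b : ℂ, (C.ty i = Ty.zn → z ∈ Dm M (n - 2) d) → a ∈ Dm M (n - 2) d → b ∈ Dm M (n - 2) d →
    ‖kI C P n h i M z a b‖ ≤ A * (M : ℝ) ^ p * Real.exp (M * C.gn i z a b) := by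
  obtain ⟨sL0, sL1⟩ := shL_bd hh hn (P i) i
  obtain ⟨sR0, sR1⟩ := shR_bd hh hn (P i) i
  obtain ⟨sZ0, sZ1⟩ := shZ_bd hh hn (P i) (C.fl i) i
  obtain ⟨sT0, sT1⟩ := shT_bd hh hn (P i) (C.fl i) i
  have aL : |shL n h (P i) i| ≤ (n - 2 : ℕ) := by rwa [abs_of_nonneg sL0]
  have aR : |shR n h (P i) i| ≤ (n - 2 : ℕ) := by rwa [abs_of_nonneg sR0]
  have aZ : |shZ n h (P i) (C.fl i) i| ≤ (n - 2 : ℕ) := by rwa [abs_of_nonneg sZ0]
  obtain ⟨B, hB, q, hs⟩ := gN_sh (C.c i) (C.ty i) (C.fl i) (1 / 2 + d) (n - 2 : ℕ)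
  rcases h1 : C.ty i with _ | _ | _
  · obtain ⟨A, hA, p, hp⟩ := bd_kC (C.c i).sign d
    refine ⟨A * B, mul_pos hA hB, p + q, (eventually_ge_atTop 1).mono fun M hM z a b _ ha hb => ?_⟩
    obtain ⟨-, -, -, -, na, -⟩ := Dm_bd hM ha
    obtain ⟨-, -, -, -, nb, -⟩ := Dm_bd hM hb
    have hd0 : (0 : ℝ) ≤ 1 / 2 + d := (norm_nonneg _).trans na
    have h2 := hp M hM _ (Dm_sh hM ha sL0 sL1) _ (Dm_sh hM hb sR0 sR1)
    have h3 := hs M hM 0 a b 0 (a - (shL n h (P i) i : ℝ) / M) (b - (shR n h (P i) i : ℝ) / M)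
      (by rw [norm_zero]; exact hd0) na nb (by
        rw [sub_zero, mul_zero, norm_zero]
        exact Nat.cast_nonneg _) (sh_close hM a aL) (sh_close hM b aR)
    rw [h1] at h3
    rw [kI_cl h1]
    unfold Ch.gn
    rw [h1]
    calc _ ≤ A * (M : ℝ) ^ p * Real.exp (M * gC (C.c i).sign (a - (shL n h (P i) i : ℝ) / M)
          (b - (shR n h (P i) i : ℝ) / M)) := h2
      _ ≤ A * (M : ℝ) ^ p * (B * (M : ℝ) ^ q * Real.exp (M * gN (C.c i) Ty.cl (C.fl i) 0 a b)) :=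
          mul_le_mul_of_nonneg_left h3 (by positivity)
      _ = A * B * (M : ℝ) ^ (p + q) * Real.exp (M * gN (C.c i) Ty.cl (C.fl i) z a b) := by
          rw [pow_add]
          show _ = A * B * ((M : ℝ) ^ p * (M : ℝ) ^ q) * Real.exp (M * gN (C.c i) Ty.cl (C.fl i) 0 a b)
          ring
  · have hσ := sg5_abs P i
    obtain ⟨eZ0, eZ1⟩ := eZ_bd hh hn (P i) (C.fl i) hσ i
    obtain ⟨eT0, eT1⟩ := eT_bd hh hn (P i) (C.fl i) hσ i
    -- the bound by the growth rate at the shifted arguments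
    obtain ⟨A, hA, p, hp⟩ : ∃ A : ℝ, 0 < A ∧ ∃ p : ℕ, ∀ M : ℕ, 1 ≤ M → ∀ z a b : ℂ,
        z ∈ Dm M (n - 2) d → a ∈ Dm M (n - 2) d → b ∈ Dm M (n - 2) d →
        ‖kI C P n h i M z a b‖ ≤ A * (M : ℝ) ^ p * Real.exp (M * gN (C.c i) Ty.zn (C.fl i)
          (z - (shZ n h (P i) (C.fl i) i : ℝ) / M) (a - (shL n h (P i) i : ℝ) / M)
            (b - (shR n h (P i) i : ℝ) / M)) := by
      obtain ⟨A, hA, p, hp⟩ := bd_kB (C.c i).sign d
      by_cases h3 : |C.c i| = 3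
      · obtain ⟨A', hA', p', hp'⟩ := bd_kHe (eI n h (P i) (sg5 P i)) (C.c i).sign d
        refine ⟨A * A', mul_pos hA hA', p + p', fun M hM z a b hz ha hb => ?_⟩
        rw [kI_zn h1, kNe_zn, gN_zn, if_pos h3, if_pos h3, ys_sh, yt_sh]
        have hyt := yt_mem (fl := C.fl i) ha hb
        obtain ⟨z1, z2⟩ := LL_dom hM hz eZ0 eZ1
        obtain ⟨t1, t2⟩ := LL_dom hM hyt eT0 eT1
        exact mulB hA (hp M hM _ (Dm_sh hM (ys_mem ha hb) sZ0 sZ1) _ (Dm_sh hM hz sZ0 sZ1))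
          (hp' M hM _ (Dm_sh hM hz sZ0 sZ1) _ (Dm_sh hM hyt sT0 sT1) z1 z2 t1 t2)
      · obtain ⟨A', hA', p', hp'⟩ := bd_kC (C.c i).sign d
        refine ⟨A * A', mul_pos hA hA', p + p', fun M hM z a b hz ha hb => ?_⟩
        rw [kI_zn h1, kNe_zn, gN_zn, if_neg h3, if_neg h3, ys_sh, yt_sh]
        exact mulB hA (hp M hM _ (Dm_sh hM (ys_mem ha hb) sZ0 sZ1) _ (Dm_sh hM hz sZ0 sZ1))
          (hp' M hM _ (Dm_sh hM hz sZ0 sZ1) _ (Dm_sh hM (yt_mem ha hb) sT0 sT1))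
    refine ⟨A * B, mul_pos hA hB, p + q, (eventually_ge_atTop 1).mono fun M hM z a b hz ha hb => ?_⟩
    have hz := hz rfl
    obtain ⟨-, -, -, -, nz, -⟩ := Dm_bd hM hz
    obtain ⟨-, -, -, -, na, -⟩ := Dm_bd hM ha
    obtain ⟨-, -, -, -, nb, -⟩ := Dm_bd hM hb
    have h3 := hs M hM z a b (z - (shZ n h (P i) (C.fl i) i : ℝ) / M)
      (a - (shL n h (P i) i : ℝ) / M) (b - (shR n h (P i) i : ℝ) / M)
      nz na nb (sh_close hM z aZ) (sh_close hM a aL) (sh_close hM b aR)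
    rw [h1] at h3
    unfold Ch.gn
    rw [h1]
    calc _ ≤ A * (M : ℝ) ^ p * Real.exp (M * gN (C.c i) Ty.zn (C.fl i)
          (z - (shZ n h (P i) (C.fl i) i : ℝ) / M) (a - (shL n h (P i) i : ℝ) / M)
            (b - (shR n h (P i) i : ℝ) / M)) := hp M hM z a b hz ha hb
      _ ≤ A * (M : ℝ) ^ p * (B * (M : ℝ) ^ q * Real.exp (M * gN (C.c i) Ty.zn (C.fl i) z a b)) :=
          mul_le_mul_of_nonneg_left h3 (by positivity)
      _ = _ := by
          rw [pow_add]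
          ring
  · exact absurd h1 hi

/-! ### Supports -/

private theorem sum_neg {M k k' n : ℕ} (hM : 0 < M) (hn : 2 ≤ n) {s t : ℝ}
    (hst : s + t = (n - 2 : ℕ)) (h : k + k' + 1 < M) :
    rS M (M * ((yM M k - (s : ℂ) / M) + (yM M k' - (t : ℂ) / M)) - 1) = 0 := by
  have hMc : (M : ℂ) ≠ 0 := by exact_mod_cast hM.ne'
  have hst' : (s : ℂ) + t = ((n - 2 : ℕ) : ℂ) := by exact_mod_cast congrArg (fun x : ℝ => (x : ℂ)) hst
  have e : (M : ℂ) * ((yM M k - (s : ℂ) / M) + (yM M k' - (t : ℂ) / M)) - 1 =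
      -((M - (k + k' + 1) + (n - 2) : ℕ) : ℂ) := by
    unfold yM
    push_cast [Nat.cast_sub h.le]
    field_simp
    linear_combination (-2) * hst'
  rw [e]
  exact rS_neg_nat (by omega) hM

private theorem dif_neg {M k l : ℕ} (hM : 0 < M) {s : ℝ} (h : k < l) :
    rS M (M * ((yM M k - (s : ℂ) / M) - (yM M l - (s : ℂ) / M))) = 0 := by
  have hMc : (M : ℂ) ≠ 0 := by exact_mod_cast hM.ne'
  have e : (M : ℂ) * ((yM M k - (s : ℂ) / M) - (yM M l - (s : ℂ) / M)) = -((l - k : ℕ) : ℂ) := by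
    unfold yM
    rw [Nat.cast_sub h.le]
    field_simp
    ring
  rw [e]
  exact rS_neg_nat (by omega) hM

theorem kI_z_cl {C : Ch m} (P : Fin (m + 1) → Bool) {n h : ℕ} (hh : 1 ≤ h) (hn : 2 * h ≤ n)
    {i : Fin (m + 1)} (hi : C.ty i = Ty.cl) (M k k' : ℕ) (_hk : k < M) (h1 : k + k' + 1 < M) (z : ℂ) :
    kI C P n h i M z (yM M k) (yM M k') = 0 := by
  rw [kI_cl hi]
  unfold kC
  rw [sum_neg (by omega) (by omega) (shLR hh hn (P i) i) h1, mul_zero]

theorem kI_z_zn {C : Ch m} (P : Fin (m + 1) → Bool) {n h : ℕ} (hh : 1 ≤ h) (hn : 2 * h ≤ n)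
    {i : Fin (m + 1)} (hi : C.ty i = Ty.zn) (M l k : ℕ) (_hl : l < M) (b : ℂ) :
    (k < l → kI C P n h i M (yM M l) (if C.fl i then b else yM M k) (if C.fl i then yM M k else b) = 0) ∧
    (l + k + 1 < M →
      kI C P n h i M (yM M l) (if C.fl i then yM M k else b) (if C.fl i then b else yM M k) = 0) := by
  have hM : 0 < M := by omega
  constructor
  · intro h1
    rw [kI_zn hi, kNe_zn, ys_sh]
    have e1 : ys (C.fl i) (if C.fl i then b else yM M k) (if C.fl i then yM M k else b) = yM M k := by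
      unfold ys
      split_ifs <;> rfl
    rw [e1]
    unfold kB
    rw [dif_neg hM h1, mul_zero, zero_mul, zero_mul, ite_self]
  · intro h1
    rw [kI_zn hi, kNe_zn, yt_sh]
    have e1 : yt (C.fl i) (if C.fl i then yM M k else b) (if C.fl i then b else yM M k) = yM M k := by
      unfold yt
      split_ifs <;> rfl
    rw [e1]
    unfold kHe kC
    rw [sum_neg hM (by omega) (shZT hh hn (P i) (C.fl i) i) h1]
    simp only [mul_zero, ite_self]

/-! ### Differentiability -/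

variable {E : Type} [NormedAddCommGroup E] [NormedSpace ℂ E]

private theorem rS_df' {M : ℕ} (hM : 2 ≤ M) {f : E → ℂ} {p : E} (hf : DifferentiableAt ℂ f p)
    (h0 : -(M : ℝ) - 1 < (f p).re) (h1 : (f p).re < M) :
    DifferentiableAt ℂ (fun x => rS M (f x)) p :=
  DifferentiableAt.comp (g := rS M) (f := f) p
    (Pool.Agent.S3.rS_differentiableAt (by omega) h0 h1) hf

private theorem LL_df' {M : ℕ} (hM : 2 ≤ M) {f : E → ℂ} {p : E} (hf : DifferentiableAt ℂ f p)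
    (h0 : -1 < (f p).re) (h1 : (f p).re < M) :
    DifferentiableAt ℂ (fun x => LL M (f x)) p :=
  DifferentiableAt.comp (g := LL M) (f := f) p
    (Pool.Agent.H63.VC3.LL_differentiableAt M (by omega) _ h0 h1) hf

private theorem re_half' (M : ℕ) (a : ℂ) (e : ℝ) :
    ((M : ℂ) * (a + 1 / 2) - 1 - e).re = M * (a.re + 1 / 2) - 1 - e := by
  rw [sub_re, sub_re, ← ofReal_natCast, re_ofReal_mul, add_re, one_re, ofReal_re]
  norm_num

private theorem kB_df' {M : ℕ} (hM : 2 ≤ M) (s : ℤ) {d : ℝ} {f g : E → ℂ} {p : E}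
    (hf : DifferentiableAt ℂ f p) (hg : DifferentiableAt ℂ g p) (h1 : f p ∈ Dm M 0 d)
    (h2 : g p ∈ Dm M 0 d) : DifferentiableAt ℂ (fun x => kB s M (f x) (g x)) p := by
  have hM0 : (0 : ℝ) < M := by exact_mod_cast (by omega : 0 < M)
  obtain ⟨a1, a2, -⟩ := Dm_bd (by omega) h1
  obtain ⟨a3, a4, -⟩ := Dm_bd (by omega) h2
  rw [Nat.cast_zero, zero_add] at a1 a3
  have hre : ((M : ℂ) * (f p - g p)).re = M * (f p).re - M * (g p).re := by
    rw [← ofReal_natCast, re_ofReal_mul, sub_re]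
    ring
  unfold kB
  apply DifferentiableAt.mul
  · apply DifferentiableAt.cexp
    fun_prop
  · apply rS_df' hM (by fun_prop)
    · rw [hre]; linarith only [a4, a1]
    · rw [hre]; linarith only [a3, a2]

private theorem kHe_df {M : ℕ} (hM : 2 ≤ M) (e : ℝ) (s : ℤ) {d : ℝ} {f g : E → ℂ} {p : E}
    (hf : DifferentiableAt ℂ f p) (hg : DifferentiableAt ℂ g p) (h1 : f p ∈ Dm M 0 d)
    (h2 : g p ∈ Dm M 0 d) (f1 : 1 / 2 ≤ M * ((f p).re + 1 / 2) - e)
    (f2 : M * ((f p).re + 1 / 2) - e ≤ M) (g1 : 1 / 2 ≤ M * ((g p).re + 1 / 2) - e)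
    (g2 : M * ((g p).re + 1 / 2) - e ≤ M) :
    DifferentiableAt ℂ (fun x => kHe e s M (f x) (g x)) p := by
  have hM0 : (0 : ℝ) < M := by exact_mod_cast (by omega : 0 < M)
  obtain ⟨a1, a2, -⟩ := Dm_bd (by omega) h1
  obtain ⟨a3, a4, -⟩ := Dm_bd (by omega) h2
  rw [Nat.cast_zero, zero_add] at a1 a3
  have hre : ((M : ℂ) * (f p + g p) - 1).re = M * (f p).re + M * (g p).re - 1 := by
    rw [sub_re, ← ofReal_natCast, re_ofReal_mul, add_re, one_re]
    ring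
  unfold kHe
  apply DifferentiableAt.mul
  · apply DifferentiableAt.mul
    · apply DifferentiableAt.cexp
      fun_prop
    · apply DifferentiableAt.mul
      · apply DifferentiableAt.cexp
        apply DifferentiableAt.neg
        apply LL_df' hM (by fun_prop)
        · rw [re_half']; linarith only [f1]
        · rw [re_half']; linarith only [f2]
      · apply DifferentiableAt.cexp
        apply DifferentiableAt.neg
        apply LL_df' hM (by fun_prop)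
        · rw [re_half']; linarith only [g1]
        · rw [re_half']; linarith only [g2]
  · apply rS_df' hM (by fun_prop)
    · rw [hre]; linarith only [a3, a1]
    · rw [hre]; linarith only [a4, a2]

theorem kI_df_c {C : Ch m} (P : Fin (m + 1) → Bool) {n h : ℕ} (hh : 1 ≤ h) (hn : 2 * h ≤ n)
    {i : Fin (m + 1)} (hi : C.ty i ≠ Ty.vn) {M : ℕ} (hM : 2 ≤ M) {d : ℝ} {z a b : ℂ}
    (hz : C.ty i = Ty.zn → z ∈ Dm M (n - 2) d) (ha : a ∈ Dm M (n - 2) d) (hb : b ∈ Dm M (n - 2) d) :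
    DifferentiableAt ℂ (fun p : ℂ × ℂ × ℂ => kI C P n h i M p.1 p.2.1 p.2.2) (z, a, b) := by
  have hM1 : 1 ≤ M := by omega
  obtain ⟨sL0, sL1⟩ := shL_bd hh hn (P i) i
  obtain ⟨sR0, sR1⟩ := shR_bd hh hn (P i) i
  obtain ⟨sZ0, sZ1⟩ := shZ_bd hh hn (P i) (C.fl i) i
  obtain ⟨sT0, sT1⟩ := shT_bd hh hn (P i) (C.fl i) i
  have d0 : DifferentiableAt ℂ (fun p : ℂ × ℂ × ℂ => p.1) (z, a, b) := differentiableAt_fst
  have d1 : DifferentiableAt ℂ (fun p : ℂ × ℂ × ℂ => p.2.1) (z, a, b) :=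
    differentiableAt_fst.comp _ differentiableAt_snd
  have d2 : DifferentiableAt ℂ (fun p : ℂ × ℂ × ℂ => p.2.2) (z, a, b) :=
    differentiableAt_snd.comp _ differentiableAt_snd
  rcases h1 : C.ty i with _ | _ | _
  · have h2 : (fun p : ℂ × ℂ × ℂ => kI C P n h i M p.1 p.2.1 p.2.2) = fun p : ℂ × ℂ × ℂ =>
        kN (C.c i) Ty.cl (C.fl i) M p.1 (p.2.1 - (shL n h (P i) i : ℝ) / M)
          (p.2.2 - (shR n h (P i) i : ℝ) / M) := by
      funext p
      rw [kI_cl h1]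
      rfl
    rw [h2]
    exact kN_df hM (C.c i) Ty.cl (C.fl i) (f := fun p : ℂ × ℂ × ℂ => p.1)
      (g := fun p : ℂ × ℂ × ℂ => p.2.1 - (shL n h (P i) i : ℝ) / M)
      (h := fun p : ℂ × ℂ × ℂ => p.2.2 - (shR n h (P i) i : ℝ) / M) (p := (z, a, b))
      d0 (d1.sub_const _) (d2.sub_const _) (Dm_sh hM1 ha sL0 sL1) (Dm_sh hM1 hb sR0 sR1)
      (fun h => Ty.noConfusion h) (fun h => Ty.noConfusion h)
  · have hz := hz h1
    by_cases h3 : |C.c i| = 3
    · have hσ := sg5_abs P i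
      obtain ⟨eZ0, eZ1⟩ := eZ_bd hh hn (P i) (C.fl i) hσ i
      obtain ⟨eT0, eT1⟩ := eT_bd hh hn (P i) (C.fl i) hσ i
      have h2 : (fun p : ℂ × ℂ × ℂ => kI C P n h i M p.1 p.2.1 p.2.2) = fun p : ℂ × ℂ × ℂ =>
          kB (C.c i).sign M (ys (C.fl i) p.2.1 p.2.2 - (shZ n h (P i) (C.fl i) i : ℝ) / M)
            (p.1 - (shZ n h (P i) (C.fl i) i : ℝ) / M) *
          kHe (eI n h (P i) (sg5 P i)) (C.c i).sign M (p.1 - (shZ n h (P i) (C.fl i) i : ℝ) / M)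
            (yt (C.fl i) p.2.1 p.2.2 - (shT n h (P i) (C.fl i) i : ℝ) / M) := by
        funext p
        rw [kI_zn h1, kNe_zn, if_pos h3, ys_sh, yt_sh]
      rw [h2]
      have dys : DifferentiableAt ℂ (fun p : ℂ × ℂ × ℂ => ys (C.fl i) p.2.1 p.2.2) (z, a, b) := by
        unfold ys
        split_ifs
        · exact d2
        · exact d1
      have dyt : DifferentiableAt ℂ (fun p : ℂ × ℂ × ℂ => yt (C.fl i) p.2.1 p.2.2) (z, a, b) := by
        unfold yt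
        split_ifs
        · exact d1
        · exact d2
      have hyt := yt_mem (fl := C.fl i) ha hb
      obtain ⟨z1, z2⟩ := LL_dom hM1 hz eZ0 eZ1
      obtain ⟨t1, t2⟩ := LL_dom hM1 hyt eT0 eT1
      exact (kB_df' hM (C.c i).sign
        (f := fun p : ℂ × ℂ × ℂ => ys (C.fl i) p.2.1 p.2.2 - (shZ n h (P i) (C.fl i) i : ℝ) / M)
        (g := fun p : ℂ × ℂ × ℂ => p.1 - (shZ n h (P i) (C.fl i) i : ℝ) / M)
        (dys.sub_const _) (d0.sub_const _) (Dm_sh hM1 (ys_mem ha hb) sZ0 sZ1)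
        (Dm_sh hM1 hz sZ0 sZ1)).mul (kHe_df hM _ (C.c i).sign
        (f := fun p : ℂ × ℂ × ℂ => p.1 - (shZ n h (P i) (C.fl i) i : ℝ) / M)
        (g := fun p : ℂ × ℂ × ℂ => yt (C.fl i) p.2.1 p.2.2 - (shT n h (P i) (C.fl i) i : ℝ) / M)
        (d0.sub_const _) (dyt.sub_const _) (Dm_sh hM1 hz sZ0 sZ1) (Dm_sh hM1 hyt sT0 sT1)
        z1 z2 t1 t2)
    · have h2 : (fun p : ℂ × ℂ × ℂ => kI C P n h i M p.1 p.2.1 p.2.2) = fun p : ℂ × ℂ × ℂ =>
          kN (C.c i) Ty.zn (C.fl i) M (p.1 - (shZ n h (P i) (C.fl i) i : ℝ) / M)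
            (p.2.1 - (shL n h (P i) i : ℝ) / M) (p.2.2 - (shR n h (P i) i : ℝ) / M) := by
        funext p
        rw [kI_zn h1]
        unfold kNe kN
        simp only [if_neg h3]
      rw [h2]
      exact kN_df hM (C.c i) Ty.zn (C.fl i)
        (f := fun p : ℂ × ℂ × ℂ => p.1 - (shZ n h (P i) (C.fl i) i : ℝ) / M)
        (g := fun p : ℂ × ℂ × ℂ => p.2.1 - (shL n h (P i) i : ℝ) / M)
        (h := fun p : ℂ × ℂ × ℂ => p.2.2 - (shR n h (P i) i : ℝ) / M) (p := (z, a, b))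
        (d0.sub_const _) (d1.sub_const _) (d2.sub_const _) (Dm_sh hM1 ha sL0 sL1)
        (Dm_sh hM1 hb sR0 sR1) (fun _ => Dm_sh hM1 hz sZ0 sZ1) (fun h => Ty.noConfusion h)
  · exact absurd h1 hi

theorem wI_df {n h : ℕ} (hh : 1 ≤ h) (hn : 2 * h ≤ n) (e l : Bool) {M : ℕ} (hM : 2 ≤ M) {d : ℝ}
    {y : ℂ} (hy : y ∈ Dm M (n - 2) d) : DifferentiableAt ℂ (wI n h e l M) y := by
  obtain ⟨y1, y2, -⟩ := Dm_bd (by omega) hy
  have key : ∀ t : ℕ, t ≤ n - 2 →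
      DifferentiableAt ℂ (fun y : ℂ => exp (LL M (M * (y + 1 / 2) - 1 - (t : ℕ)))) y := by
    intro t ht
    have ht' : (t : ℝ) ≤ (n - 2 : ℕ) := by exact_mod_cast ht
    have hre := re_half' M y (t : ℝ)
    rw [ofReal_natCast] at hre
    apply DifferentiableAt.cexp
    apply LL_df' hM (by fun_prop)
    · rw [hre]; linarith only [ht', y1]
    · rw [hre]; linarith only [y2]
  have k0 := key 0 (Nat.zero_le _)
  simp only [Nat.cast_zero, sub_zero] at k0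
  unfold wI
  exact (k0.mul (key (n - 2) le_rfl)).mul ((key (tw1 n h l) (by unfold tw1; split_ifs <;> omega)).mul
    (key (tw2 n h e l) (by unfold tw2 tw1; split_ifs <;> omega)))

end Pool.Agent.S5
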