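import Pool.Agent.S5.N.LmC
import Pool.Agent.S5.N.LimN

/-!
# `SU(n)`: the properties of the kernels, from those of the nodes with integration variables
-/

set_option autoImplicit false

namespace Pool.Agent.S5

open Complex Filter Topology MeasureTheory
open Pool.Agent.S3 (Rf fe rS qS wr fdom gl ql Ctr)
open Pool.Agent.S4 (et nn JG4 OkL)
open Pool.Agent.H63.VC3 (LL ff Cc om yk vl)

variable {m : ℕ}

/-- The properties of the nodes with integration variables. -/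
structure VnOK (C : Ch m) (P : Fin (m + 1) → Bool) (n h : ℕ) (i : Fin (m + 1)) : Prop where
  v_bd : ∀ d κ B : ℝ, 0 < κ → ∃ A : ℝ, 0 < A ∧ ∃ p : ℕ, ∀ᶠ M : ℕ in atTop,
    ∀ v a b : ℂ, 0 < v.im → v.im ≤ B → |v.re| ≤ 1 / 2 → κ * (1 / 2 - |v.re|) ≤ v.im →
    a ∈ Dm M (n - 2) d → b ∈ Dm M (n - 2) d →
    ‖kI C P n h i M v a b‖ ≤ A * (M : ℝ) ^ p * Real.exp (M * C.gn i v a b)
  lat_bd : ∀ d : ℝ, ∃ A : ℝ, 0 < A ∧ ∃ p : ℕ, ∀ᶠ M : ℕ in atTop,
    ∀ (sd : Bool) (κ X : ℕ), n - 2 ≤ κ → κ < kq M → ∀ b ∈ Dm M (n - 2) d,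
      latI C P n h i sd M κ X b = 0 ∨
      ∃ v : ℝ, v ≤ 1 / 2 ∧ -(yR M κ) - ((0 : ℕ) : ℝ) / M ≤ v ∧
        ‖latI C P n h i sd M κ X b‖ ≤ A * (M : ℝ) ^ p *
        Real.exp (M * C.gn i v (if sd then b else yM M κ) (if sd then yM M κ else b))
  k_df : ∀ d : ℝ, ∀ᶠ M : ℕ in atTop, ∀ z a b : ℂ, 0 < z.im → |z.re| ≤ 1 / 2 →
    a ∈ Dm M (n - 2) d → b ∈ Dm M (n - 2) d →
    DifferentiableAt ℂ (fun p : ℂ × ℂ × ℂ => kI C P n h i M p.1 p.2.1 p.2.2) (z, a, b)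
  lat_df : ∀ d : ℝ, ∀ᶠ M : ℕ in atTop, ∀ (sd : Bool) (κ X : ℕ), X < M →
    ∀ b ∈ Dm M (n - 2) d, DifferentiableAt ℂ (latI C P n h i sd M κ X) b
  g_vn : ∀ᶠ M : ℕ in atTop, ∀ k k' : ℕ, n - 2 ≤ k → n - 2 ≤ k' → k < M → k' < M →
    ∀ γ γ' : ℝ → ℂ, Ctr γ γ' → (∀ x, |(γ x).re| ≤ 1 / 2) →
    Integrable (fun x => kI C P n h i M (γ x) (yM M k) (yM M k') * γ' x) ∧
    gI C P n h i M k k' = -(4 * Real.pi * I) * M ^ 2 *
      ∫ x, kI C P n h i M (γ x) (yM M k) (yM M k') * γ' x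
  g_lat : ∀ᶠ M : ℕ in atTop, ∀ k k' : ℕ, n - 2 ≤ k → n - 2 ≤ k' → k < kq M → k' < M →
    gI C P n h i M k k' = ∑ X ∈ Finset.range M, latI C P n h i false M k X (yM M k') ∧
    gI C P n h i M k' k = ∑ X ∈ Finset.range M, latI C P n h i true M k X (yM M k')
  g_two : ∀ᶠ M : ℕ in atTop, ∀ k k' : ℕ, n - 2 ≤ k → n - 2 ≤ k' → k < kq M → k' < kq M →
    gI C P n h i M k k' = 0

private theorem OkN_ty (t : Ty) : t = Ty.cl ∨ t = Ty.zn ∨ t = Ty.vn := by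
  cases t
  · exact Or.inl rfl
  · exact Or.inr (Or.inl rfl)
  · exact Or.inr (Or.inr rfl)

/-- **The properties of the kernels.** -/
theorem krN_ok_of (C : Ch m) (P : Fin (m + 1) → Bool) {n h : ℕ} (hh : 1 ≤ h) (hn : 2 * h ≤ n)
    (hv : ∀ i, C.ty i = Ty.vn → VnOK C P n h i) : (krN C P n h).OK where
  cv := by
    show -(4 * (Real.pi : ℂ) * I) ≠ 0
    have h1 : (Real.pi : ℂ) ≠ 0 := by exact_mod_cast Real.pi_ne_zero
    exact neg_ne_zero.2 (mul_ne_zero (mul_ne_zero (by norm_num) h1) I_ne_zero)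
  sg := by
    intro i M
    show ‖(if C.ty i = Ty.vn then (-1) ^ (M + nn n (P i) + 1) else 1 : ℂ)‖ = 1
    split_ifs
    · rw [norm_pow, norm_neg, norm_one, one_pow]
    · exact norm_one
  w_bd := by
    intro j d
    obtain ⟨A, hA, p, hp⟩ := bd_wI hh hn (et P j) (la P j) d
    exact ⟨A, hA, p, (eventually_ge_atTop 1).mono fun M hM y hy => hp M hM y hy⟩
  k_bd := fun _ hi d => kI_bd P hh hn hi d
  v_bd := fun i hi d κ B hκ => (hv i hi).v_bd d κ B hκ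
  lat_bd := fun i hi d => (hv i hi).lat_bd d
  z_cl := fun _ hi M k k' hk _ h1 z => kI_z_cl P hh hn hi M k k' hk h1 z
  z_zn := fun _ hi M l k hl _ b => kI_z_zn P hh hn hi M l k hl b
  w_df := fun _ _ => (eventually_ge_atTop 2).mono fun _ hM _ hy => wI_df hh hn _ _ hM hy
  k_df := by
    intro i d
    rcases OkN_ty (C.ty i) with hi | hi | hi
    · exact (eventually_ge_atTop 2).mono fun M hM z a b hz _ ha hb =>
        kI_df_c P hh hn (by rw [hi]; exact fun h => Ty.noConfusion h) hM hz ha hb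
    · exact (eventually_ge_atTop 2).mono fun M hM z a b hz _ ha hb =>
        kI_df_c P hh hn (by rw [hi]; exact fun h => Ty.noConfusion h) hM hz ha hb
    · exact ((hv i hi).k_df d).mono fun M hM z a b _ hz ha hb =>
        hM z a b (hz hi).1 (hz hi).2 ha hb
  lat_df := fun i hi d => (hv i hi).lat_df d
  g_cl := by
    intro i hi
    refine Eventually.of_forall fun M k k' _ _ _ _ => ?_
    show gI C P n h i M k k' = _
    unfold gI
    rw [hi]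
    rfl
  g_zn := by
    intro i hi
    refine Eventually.of_forall fun M k k' _ _ _ _ => ?_
    show gI C P n h i M k k' = _
    unfold gI
    rw [hi]
    rfl
  g_vn := fun i hi => (hv i hi).g_vn
  g_lat := fun i hi => (hv i hi).g_lat
  g_two := fun i hi => (hv i hi).g_two

/-- **The limits of the kernels.** -/
theorem krN_lm_of (C : Ch m) (P : Fin (m + 1) → Bool) (n h : ℕ) {K : Cn m} (hC : C.OK)
    (hK : Cn.OK C K) (hR : Rg C K) (hv : ∀ i, C.ty i = Ty.vn → ∃ A : ℂ, A ≠ 0 ∧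
      Tendsto (fun p : ℕ × (ℂ × ℂ × ℂ) => (krN C P n h).sg i p.1 *
      (krN C P n h).k i p.1 p.2.1 p.2.2.1 p.2.2.2 * exp (-(p.1 * C.pn i p.2.1 p.2.2.1 p.2.2.2)) /
        (((p.1 : ℝ) ^ (krN C P n h).ek i : ℝ) : ℂ))
      (atTop ×ˢ 𝓝 (if C.ty i = Ty.cl then 0 else K.oc i, ye K.yc i, ye K.yc (i + 1))) (𝓝 A)) :
    (krN C P n h).Lm K where
  w := krN_lm_w C P n h hK
  k := by
    intro i
    by_cases hi : C.ty i = Ty.vn
    · exact hv i hi
    · exact krN_lm_c C P n h hC hK hR i hi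

end Pool.Agent.S5
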