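import Pool.Agent.H25.RK.DGf
import Pool.Agent.S3.Ks1
import Pool.Agent.S5.S.Krn

/-!
# Shifts of order `1 / M` of the arguments of the growth functions
-/

set_option autoImplicit false

namespace Pool.Agent.S5

open Complex
open Pool.Agent.S3

private theorem sh_pos {C1 : ℝ} (h1 : ∀ M : ℕ, 1 ≤ M → ∀ (ζ : ℂ) (δ : ℝ), 0 ≤ δ →
    δ ≤ 1 / (2 * M) → |M * Rf (ζ - δ) - M * Rf ζ| ≤ C1 * (1 + Real.log M + |ζ.im|))
    (K : ℕ) : ∀ M : ℕ, 1 ≤ M → ∀ (ζ : ℂ) (δ : ℝ), 0 ≤ δ → δ ≤ 1 / (2 * M) →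
    |M * Rf (ζ - (K * δ : ℝ)) - M * Rf ζ| ≤ K * (C1 * (1 + Real.log M + |ζ.im|)) := by
  intro M hM ζ δ h0 hδ
  induction K with
  | zero => simp
  | succ K ih =>
    have h2 := h1 M hM (ζ - (K * δ : ℝ)) δ h0 hδ
    have e1 : ζ - (K * δ : ℝ) - δ = ζ - ((K + 1 : ℕ) * δ : ℝ) := by
      push_cast
      ring
    have e2 : (ζ - (K * δ : ℝ)).im = ζ.im := by
      rw [sub_im, ofReal_im, sub_zero]
    rw [e1, e2] at h2
    have h3 := abs_sub_le ((M : ℝ) * Rf (ζ - ((K + 1 : ℕ) * δ : ℝ)))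
      (M * Rf (ζ - (K * δ : ℝ))) (M * Rf ζ)
    push_cast at h3 h2 ih ⊢
    linarith

/-- The oscillation of `Rf` at the scale `1 / M`. -/
theorem Rf_sh (S : ℝ) : ∃ C : ℝ, 0 < C ∧ ∀ M : ℕ, 1 ≤ M → ∀ (ζ : ℂ) (s : ℝ), |s| ≤ S →
    |M * Rf (ζ - (s / M : ℝ)) - M * Rf ζ| ≤ C * (1 + Real.log M + |ζ.im|) := by
  obtain ⟨C1, hC1, h1⟩ := Rf_shift'
  set K : ℕ := ⌈2 * |S|⌉₊ + 1 with hK
  have hKS : 2 * |S| ≤ (K : ℝ) := by
    rw [hK]
    push_cast
    linarith [Nat.le_ceil (2 * |S|)]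
  have hK0 : (0 : ℝ) < K := by
    rw [hK]
    positivity
  refine ⟨K * C1, mul_pos hK0 hC1, fun M hM ζ s hs => ?_⟩
  have hM0 : (0 : ℝ) < M := by exact_mod_cast hM
  have hsS : |s| ≤ |S| := hs.trans (le_abs_self S)
  have hδ : |s| / M / K ≤ 1 / (2 * M) := by
    rw [div_div, div_le_div_iff₀ (by positivity) (by positivity)]
    nlinarith
  have hd0 : 0 ≤ |s| / M / K := by positivity
  have e : (K : ℝ) * (|s| / M / K) = |s| / M := by field_simp
  rcases le_total 0 s with h0 | h0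
  · have := sh_pos h1 K M hM ζ _ hd0 hδ
    rw [e, abs_of_nonneg h0] at this
    linarith
  · have := sh_pos h1 K M hM (ζ - (s / M : ℝ)) _ hd0 hδ
    have e1 : ζ - (s / M : ℝ) - (|s| / M : ℝ) = ζ := by
      rw [abs_of_nonpos h0]
      push_cast
      ring
    have e2 : (ζ - (s / M : ℝ)).im = ζ.im := by
      rw [sub_im, ofReal_im, sub_zero]
    rw [e, e1, e2, abs_sub_comm] at this
    linarith

/-! ### Imaginary shifts -/

private theorem Rf_im_half {a η1 η2 : ℝ} (h0 : 0 ≤ a) (h1 : a ≤ 1 / 2) :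
    |Rf ((a : ℂ) + η1 * I) - Rf ((a : ℂ) + η2 * I)| ≤ Real.pi * |η1 - η2| := by
  have key : ∀ x y : ℝ, |x| ≤ |y| →
      |Rf ((a : ℂ) + x * I) - Rf ((a : ℂ) + y * I)| ≤ Real.pi * |x - y| := by
    intro x y h
    have h2 := Rf_incr h h1
    have h3 := Rf_incr h h0
    have e1 := Rf_half x
    have e2 := Rf_half y
    have e3 := Rf_zero_line x
    have e4 := Rf_zero_line y
    have h4 : |y| - |x| ≤ |x - y| := by
      rw [abs_sub_comm]
      exact abs_sub_abs_le_abs_sub y x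
    have hpi := Real.pi_pos
    rw [e1, e2] at h2
    rw [e3, e4] at h3
    rw [abs_le]
    have h5 : Real.pi * (|y| - |x|) ≤ Real.pi * |x - y| := mul_le_mul_of_nonneg_left h4 hpi.le
    have h6 : 0 ≤ Real.pi * |x - y| := by positivity
    constructor <;> nlinarith
  rcases le_total |η1| |η2| with h | h
  · exact key η1 η2 h
  · rw [abs_sub_comm, abs_sub_comm η1]
    exact key η2 η1 h

private theorem Rf_im_one {a η1 η2 : ℝ} (h0 : 0 ≤ a) (h1 : a ≤ 1) :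
    |Rf ((a : ℂ) + η1 * I) - Rf ((a : ℂ) + η2 * I)| ≤ Real.pi * |η1 - η2| := by
  rcases le_total a (1 / 2) with h | h
  · exact Rf_im_half h0 h
  · have h2 := Rf_im_half (a := 1 - a) (η1 := η1) (η2 := η2) (by linarith) (by linarith)
    rw [Rf_one_sub_line, Rf_one_sub_line] at h2
    rw [show -Rf ((a : ℂ) + η1 * I) - -Rf ((a : ℂ) + η2 * I) =
      -(Rf ((a : ℂ) + η1 * I) - Rf ((a : ℂ) + η2 * I)) by ring, abs_neg] at h2
    exact h2

private theorem Rf_add_nat (k : ℕ) (a η : ℝ) : Rf (((a + k : ℝ) : ℂ) + η * I) =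
    Rf ((a : ℂ) + η * I) + k * (Real.pi * |η|) := by
  induction k with
  | zero => simp
  | succ k ih =>
    have e : ((a + (k + 1 : ℕ) : ℝ) : ℂ) + η * I = ((a + k : ℝ) : ℂ) + η * I + 1 := by
      push_cast
      ring
    rw [e, Rf_add_one, ih, line_im]
    push_cast
    ring

/-- `Rf` is Lipschitz on vertical lines. -/
theorem Rf_im_lip (K : ℕ) {a η1 η2 : ℝ} (h : |a| ≤ K) :
    |Rf ((a : ℂ) + η1 * I) - Rf ((a : ℂ) + η2 * I)| ≤ Real.pi * (2 * K + 1) * |η1 - η2| := by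
  have hpi := Real.pi_pos
  set b : ℝ := a + K with hb
  have hb0 : 0 ≤ b := by linarith [(abs_le.1 h).1]
  have hb1 : b ≤ 2 * K := by linarith [(abs_le.1 h).2]
  set k : ℕ := ⌊b⌋₊ with hk
  have hkb : (k : ℝ) ≤ b := Nat.floor_le hb0
  have hkb' : b < k + 1 := Nat.lt_floor_add_one b
  have h1 := Rf_im_one (a := b - k) (η1 := η1) (η2 := η2) (by linarith) (by linarith)
  have e : ∀ η : ℝ, Rf ((a : ℂ) + η * I) = Rf (((b - k : ℝ) : ℂ) + η * I) +
      k * (Real.pi * |η|) - K * (Real.pi * |η|) := by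
    intro η
    have h2 := Rf_add_nat K a η
    have h3 := Rf_add_nat k (b - k) η
    rw [sub_add_cancel] at h3
    rw [← hb] at h2
    linarith
  rw [e, e]
  have h4 : |(|η1| - |η2|)| ≤ |η1 - η2| := abs_abs_sub_abs_le_abs_sub η1 η2
  have e2 : Rf (((b - k : ℝ) : ℂ) + η1 * I) + k * (Real.pi * |η1|) - K * (Real.pi * |η1|) -
      (Rf (((b - k : ℝ) : ℂ) + η2 * I) + k * (Real.pi * |η2|) - K * (Real.pi * |η2|)) =
      (Rf (((b - k : ℝ) : ℂ) + η1 * I) - Rf (((b - k : ℝ) : ℂ) + η2 * I)) +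
        (k - K) * (Real.pi * (|η1| - |η2|)) := by ring
  rw [e2]
  refine (abs_add_le _ _).trans ?_
  rw [abs_mul, abs_mul, abs_of_pos hpi]
  have h5 : |(k : ℝ) - K| ≤ 2 * K := by
    rw [abs_le]
    constructor
    · linarith [Nat.cast_nonneg (α := ℝ) k]
    · linarith [Nat.cast_nonneg (α := ℝ) K]
  have h6 : |(k : ℝ) - K| * (Real.pi * |(|η1| - |η2|)|) ≤ 2 * K * (Real.pi * |η1 - η2|) := by
    gcongr
  linarith

/-- The oscillation of `Rf` at the scale `1 / M`, complex shifts. -/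
theorem Rf_shc (R S : ℝ) : ∃ C : ℝ, 0 < C ∧ ∀ M : ℕ, 1 ≤ M → ∀ ζ s : ℂ, |ζ.re| ≤ R → ‖s‖ ≤ S →
    |M * Rf (ζ - s / M) - M * Rf ζ| ≤ C * (1 + Real.log M + |ζ.im|) := by
  obtain ⟨C1, hC1, h1⟩ := Rf_sh S
  obtain ⟨K, hK⟩ := exists_nat_gt (|R| + |S|)
  have hpi := Real.pi_pos
  refine ⟨C1 + Real.pi * (2 * K + 1) * |S|, by positivity, fun M hM ζ s hζ hs => ?_⟩
  have hM0 : (0 : ℝ) < M := by exact_mod_cast hM
  have hM1 : (1 : ℝ) ≤ M := by exact_mod_cast hM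
  have hMc : (M : ℂ) ≠ 0 := by exact_mod_cast hM0.ne'
  have hlog := Real.log_nonneg hM1
  have hsr : |s.re| ≤ S := (abs_re_le_norm s).trans hs
  have hsi : |s.im| ≤ |S| := (abs_im_le_norm s).trans (hs.trans (le_abs_self S))
  have h2 := h1 M hM ζ s.re hsr
  set a : ℝ := ζ.re - s.re / M with ha
  have ha1 : |a| ≤ K := by
    have h3 : |s.re / M| ≤ |S| := by
      rw [abs_div, abs_of_pos hM0, div_le_iff₀ hM0]
      have := hsr.trans (le_abs_self S)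
      nlinarith [abs_nonneg S]
    have h4 := abs_sub ζ.re (s.re / M)
    have h5 := hζ.trans (le_abs_self R)
    rw [ha]
    linarith
  have h3 := Rf_im_lip K (η1 := ζ.im - s.im / M) (η2 := ζ.im) ha1
  have e1 : (a : ℂ) + ((ζ.im - s.im / M : ℝ) : ℂ) * I = ζ - s / M := by
    apply Complex.ext
    · rw [line_re, sub_re, div_natCast_re, ha]
    · rw [line_im, sub_im, div_natCast_im]
  have e2 : (a : ℂ) + (ζ.im : ℂ) * I = ζ - (s.re / M : ℝ) := by
    apply Complex.ext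
    · rw [line_re, sub_re, ofReal_re, ha]
    · rw [line_im, sub_im, ofReal_im, sub_zero]
  rw [e1, e2] at h3
  have e3 : |ζ.im - s.im / M - ζ.im| = |s.im| / M := by
    rw [sub_sub_cancel_left, abs_neg, abs_div, abs_of_pos hM0]
  rw [e3] at h3
  have h4 : |M * Rf (ζ - s / M) - M * Rf (ζ - (s.re / M : ℝ))| ≤ Real.pi * (2 * K + 1) * |S| := by
    rw [← mul_sub, abs_mul, abs_of_pos hM0]
    calc (M : ℝ) * |Rf (ζ - s / M) - Rf (ζ - (s.re / M : ℝ))| ≤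
        M * (Real.pi * (2 * K + 1) * (|s.im| / M)) := by gcongr
      _ = Real.pi * (2 * K + 1) * |s.im| := by field_simp
      _ ≤ _ := by gcongr
  have h5 := abs_sub_le (M * Rf (ζ - s / M)) (M * Rf (ζ - (s.re / M : ℝ))) (M * Rf ζ)
  have h6 : Real.pi * (2 * K + 1) * |S| * 1 ≤
      Real.pi * (2 * K + 1) * |S| * (1 + Real.log M + |ζ.im|) := by
    apply mul_le_mul_of_nonneg_left _ (by positivity)
    linarith [abs_nonneg ζ.im]
  linarith

end Pool.Agent.S5
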