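import Pool.Agent.S5.N.Edge

/-!
# The conversion of the edges in the sum at the root of unity
-/

set_option autoImplicit false

namespace Pool.Agent.S5

open Pool.Agent.H63.VC hiding ext
open Pool.Agent.H63.VC3 Pool.Agent.H63.VC7 Pool.Agent.S4 Complex

variable {m : ℕ}

/-! ### Sums over functions -/

theorem sum_update_avg {ι : Type*} [Fintype ι] [DecidableEq ι] (R : Finset ℕ)
    (F : (ι → ℕ) → ℂ) (j0 : ι) :
    ∑ k ∈ Fintype.piFinset (fun _ : ι => R), ∑ x ∈ R, F (Function.update k j0 x) =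
      (R.card : ℂ) * ∑ k ∈ Fintype.piFinset (fun _ : ι => R), F k := by
  have h1 : ∑ k ∈ Fintype.piFinset (fun _ : ι => R), ∑ _x ∈ R, F k =
      (R.card : ℂ) * ∑ k ∈ Fintype.piFinset (fun _ : ι => R), F k := by
    simp only [Finset.sum_const, nsmul_eq_mul, Finset.mul_sum]
  rw [← h1, ← Finset.sum_product', ← Finset.sum_product']
  refine Finset.sum_nbij' (fun p => (Function.update p.1 j0 p.2, p.1 j0))
    (fun p => (Function.update p.1 j0 p.2, p.1 j0)) ?_ ?_ ?_ ?_ ?_
  · intro p hp
    rw [Finset.mem_product, Fintype.mem_piFinset] at hp ⊢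
    refine ⟨fun i => ?_, hp.1 j0⟩
    show Function.update p.1 j0 p.2 i ∈ R
    by_cases hi : i = j0
    · rw [hi, Function.update_self]
      exact hp.2
    · rw [Function.update_of_ne hi]
      exact hp.1 i
  · intro p hp
    rw [Finset.mem_product, Fintype.mem_piFinset] at hp ⊢
    refine ⟨fun i => ?_, hp.1 j0⟩
    show Function.update p.1 j0 p.2 i ∈ R
    by_cases hi : i = j0
    · rw [hi, Function.update_self]
      exact hp.2
    · rw [Function.update_of_ne hi]
      exact hp.1 i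
  · intro p _
    ext
    · simp
    · simp
  · intro p _
    ext
    · simp
    · simp
  · intro p _
    rfl

theorem sum_pi_congr {ι : Type*} [Fintype ι] [DecidableEq ι] (R : Finset ℕ)
    (F G : (ι → ℕ) → ℂ) (j0 : ι) (h : ∀ k ∈ Fintype.piFinset (fun _ : ι => R),
      ∑ x ∈ R, F (Function.update k j0 x) = ∑ x ∈ R, G (Function.update k j0 x)) :
    ∑ k ∈ Fintype.piFinset (fun _ : ι => R), F k =
      ∑ k ∈ Fintype.piFinset (fun _ : ι => R), G k := by
  rcases R.eq_empty_or_nonempty with rfl | hR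
  · have : Nonempty ι := ⟨j0⟩
    have : Fintype.piFinset (fun _ : ι => (∅ : Finset ℕ)) = ∅ := Fintype.piFinset_empty
    rw [this, Finset.sum_empty, Finset.sum_empty]
  · have h0 : (R.card : ℂ) ≠ 0 := by exact_mod_cast (Finset.card_pos.2 hR).ne'
    refine mul_left_cancel₀ h0 ?_
    rw [← sum_update_avg, ← sum_update_avg]
    exact Finset.sum_congr rfl h

/-! ### The nodes -/

theorem mem_ie (i : Fin (m + 1)) (j : Fin m) : j ∈ ie i ↔ j.castSucc = i ∨ j.succ = i := by
  rw [ie, inc, Finset.mem_filter]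
  simp

theorem prod_update_node {A : Finset (Fin m)} {j0 : Fin m} (hj : j0 ∈ A) (d : Bool → ℕ)
    (lam : Fin m → Bool) (b : Bool) (k : Fin m → ℕ) (x M n : ℕ) (v : ℂ) :
    ∏ j ∈ A, q4 M (d (Function.update lam j0 b j)) (M + 1 - n - Function.update k j0 x j) v =
      (∏ j ∈ A.erase j0, q4 M (d (lam j)) (M + 1 - n - k j) v) * q4 M (d b) (M + 1 - n - x) v := by
  rw [← Finset.prod_erase_mul A _ hj, Function.update_self, Function.update_self]
  refine congrArg (fun t : ℂ => t * q4 M (d b) (M + 1 - n - x) v)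
    (Finset.prod_congr rfl fun j hj' => ?_)
  rw [Function.update_of_ne (Finset.ne_of_mem_erase hj'),
    Function.update_of_ne (Finset.ne_of_mem_erase hj')]

theorem DG5_congr (r : ℝ) (n h M : ℕ) (P : Bool) (e : ℕ) (lam lam' : Fin m → Bool)
    (A : Finset (Fin m)) (k k' : Fin m → ℕ) (h1 : ∀ j ∈ A, lam j = lam' j)
    (h2 : ∀ j ∈ A, k j = k' j) : DG5 r n h M P e lam A k = DG5 r n h M P e lam' A k' := by
  have : NT5 r n h M P e lam A k = NT5 r n h M P e lam' A k' := by
    funext v
    rw [NT5, NT5]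
    exact congrArg (fun t : ℂ => _ * t) (Finset.prod_congr rfl fun j hj => by rw [h1 j hj, h2 j hj])
  rw [DG5, DG5, this]

/-- The function of a node of antiparallel strands without one slot. -/
noncomputable def fA (r : ℝ) (n h M e : ℕ) (lam : Fin m → Bool) (A : Finset (Fin m))
    (k : Fin m → ℕ) (v : ℂ) : ℂ :=
  exp (2 * Real.pi * I * r * M * v ^ 2) * (2 * sin (2 * Real.pi * v)) * pr5 n h M e v *
    ∏ j ∈ A, q4 M (dd5 n h false (lam j)) (M + 1 - n - k j) v

/-- The function of a node of parallel strands without one slot. -/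
noncomputable def fP (r : ℝ) (n h M : ℕ) (lam : Fin m → Bool) (A : Finset (Fin m))
    (k : Fin m → ℕ) (v : ℂ) : ℂ :=
  exp (2 * Real.pi * I * r * M * v ^ 2) * (2 * sin (2 * Real.pi * v)) *
    (Wd M (2 * h - 2) v * Wd M (2 * (n - h) - 2) v) *
    ∏ j ∈ A, q4 M (dd5 n h true (lam j)) (M + 1 - n - k j) v

theorem pr5_diff (n h M e : ℕ) : Differentiable ℂ (pr5 n h M e) := by
  unfold pr5 Wd q4
  fun_prop

theorem fA_diff (r : ℝ) (n h M e : ℕ) (lam : Fin m → Bool) (A : Finset (Fin m))
    (k : Fin m → ℕ) : Differentiable ℂ (fA r n h M e lam A k) := by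
  unfold fA pr5 Wd q4
  fun_prop

theorem fP_diff (r : ℝ) (n h M : ℕ) (lam : Fin m → Bool) (A : Finset (Fin m))
    (k : Fin m → ℕ) : Differentiable ℂ (fP r n h M lam A k) := by
  unfold fP Wd q4
  fun_prop

theorem DG5_A (r : ℝ) (n h M e : ℕ) {A : Finset (Fin m)} {j0 : Fin m} (hj : j0 ∈ A)
    (lam : Fin m → Bool) (b : Bool) (k : Fin m → ℕ) (x : ℕ) :
    DG5 r n h M false e (Function.update lam j0 b) A (Function.update k j0 x) =
      ∑ X ∈ Finset.range (M + 2 - n), deriv (fun v => fA r n h M e lam (A.erase j0) k v *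
        q4 M (n - 2) (M + 1 - n - x) v) ((vl n M X : ℝ) : ℂ) := by
  rw [DG5]
  refine Finset.sum_congr rfl fun X _ => ?_
  congr 1
  funext v
  rw [NT5, fA, prod_update_node hj (fun l => dd5 n h false l)]
  simp only [Bool.false_eq_true, if_false]
  rw [← mul_assoc]
  rfl

theorem DG5_P (r : ℝ) (n h M e : ℕ) {A : Finset (Fin m)} {j0 : Fin m} (hj : j0 ∈ A)
    (lam : Fin m → Bool) (b : Bool) (k : Fin m → ℕ) (x : ℕ) :
    DG5 r n h M true e (Function.update lam j0 b) A (Function.update k j0 x) =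
      ∑ X ∈ Finset.range M, deriv (fun v => fP r n h M lam (A.erase j0) k v *
        q4 M (if b then 2 * h - 2 else 2 * (n - h) - 2) (M + 1 - n - x) v)
          ((vl 2 M X : ℝ) : ℂ) := by
  rw [DG5]
  refine Finset.sum_congr rfl fun X _ => ?_
  congr 1
  funext v
  rw [NT5, fP, prod_update_node hj (fun l => dd5 n h true l)]
  simp only [if_true]
  rw [← mul_assoc]
  rfl

theorem fA_two (r : ℝ) (n h M e : ℕ) (lam : Fin m → Bool) (A : Finset (Fin m))
    (k : Fin m → ℕ) (v : ℂ) : fA r n h M (e + 2) lam A k v =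
      fA r n h M e lam A k v * Wd M (n - 2 * h) v ^ 2 := by
  rw [fA, fA, pr5, pr5, pow_add]
  ring

/-- The sums over the label of a mixed edge. -/
theorem edge_sum {n h M : ℕ} (hn : 2 ≤ n) (hh : 1 ≤ h) (h2 : 2 * h ≤ n) (hM : n ≤ M + 1)
    (rA rP : ℝ) (e eP eP' : ℕ) {A B : Finset (Fin m)} {j0 : Fin m} (hA : j0 ∈ A) (hB : j0 ∈ B)
    (lam : Fin m → Bool) (k : Fin m → ℕ) :
    ∑ x ∈ Finset.range (M + 2 - n), (w5 n h true false M x : ℂ) *
      (DG5 rA n h M false (e + 2) (Function.update lam j0 false) A (Function.update k j0 x) *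
        DG5 rP n h M true eP (Function.update lam j0 false) B (Function.update k j0 x)) =
    ∑ x ∈ Finset.range (M + 2 - n), (w5 n h true true M x : ℂ) *
      (DG5 rA n h M false e (Function.update lam j0 true) A (Function.update k j0 x) *
        DG5 rP n h M true eP' (Function.update lam j0 true) B (Function.update k j0 x)) := by
  simp only [DG5_A _ _ _ _ _ hA, DG5_P _ _ _ _ _ hB, if_true, Bool.false_eq_true, if_false]
  have := edge_conv hn hh h2 hM (fA rA n h M e lam (A.erase j0) k) (fP rP n h M lam (B.erase j0) k)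
    (fA_diff _ _ _ _ _ _ _ _) (fP_diff _ _ _ _ _ _ _)
  simp only [← fA_two] at this
  exact this

end Pool.Agent.S5
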