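import Pool.Agent.S5.N.VDef
import Pool.Agent.S5.N.Conv2
import Pool.Agent.S4.G.CtrA
import Pool.Agent.S4.G.Int

/-!
# Nodes of antiparallel strands with an integration variable: integrals over contours
-/

set_option autoImplicit false

namespace Pool.Agent.S5

open Pool.Agent.H63.VC hiding ext
open Pool.Agent.H63.VC3 Pool.Agent.H63.VC7 Pool.Agent.S3 Pool.Agent.S4 Complex Filter Topology
open MeasureTheory

theorem lamN_eq {n M : ℕ} (hM : 0 < M) (hn : n ≤ M + 2) : (M : ℂ) * lamN n M = ((M + 2 - n : ℕ) : ℂ) := by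
  have hM' : (M : ℂ) ≠ 0 := by exact_mod_cast hM.ne'
  rw [lamN, Nat.cast_sub hn]
  push_cast
  field_simp
  ring

/-- The scaling as a real number. -/
theorem lamN_real (n M : ℕ) : lamN n M = ((1 - ((n : ℝ) - 2) / M : ℝ) : ℂ) := by
  rw [lamN]
  push_cast
  rfl

theorem lamN_pos {n M : ℕ} (hM : 0 < M) (hn : n ≤ M + 1) : 0 < 1 - ((n : ℝ) - 2) / M := by
  have hM0 : (0 : ℝ) < M := by exact_mod_cast hM
  have h1 : (n : ℝ) ≤ M + 1 := by exact_mod_cast hn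
  have : ((n : ℝ) - 2) / M < 1 := by
    rw [div_lt_one hM0]
    linarith
  linarith

theorem lamN_le {n M : ℕ} (hn : 2 ≤ n) : 1 - ((n : ℝ) - 2) / M ≤ 1 := by
  have h1 : (2 : ℝ) ≤ n := by exact_mod_cast hn
  have : 0 ≤ ((n : ℝ) - 2) / M := div_nonneg (by linarith) (Nat.cast_nonneg M)
  linarith

theorem lam_im (n M : ℕ) (v : ℂ) : (lamN n M * v).im = (1 - ((n : ℝ) - 2) / M) * v.im := by
  rw [lamN_real, im_ofReal_mul]

theorem lam_re (n M : ℕ) (v : ℂ) : (lamN n M * v).re = (1 - ((n : ℝ) - 2) / M) * v.re := by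
  rw [lamN_real, re_ofReal_mul]

theorem lam_re_le {n M : ℕ} (hM : 0 < M) (hn : 2 ≤ n) (hnM : n ≤ M + 1) {v : ℂ}
    (hv : |v.re| ≤ 1 / 2) : |(lamN n M * v).re| ≤ 1 / 2 := by
  have h1 := lamN_pos (n := n) hM hnM
  have h2 := lamN_le (M := M) hn
  rw [lam_re, abs_mul, abs_of_pos h1]
  calc (1 - ((n : ℝ) - 2) / M) * |v.re| ≤ 1 * |v.re| :=
        mul_le_mul_of_nonneg_right h2 (abs_nonneg _)
    _ ≤ 1 / 2 := by rw [one_mul]; exact hv

theorem vl_scale {n M : ℕ} (hM : 0 < M) (hn : n ≤ M + 1) (X : ℕ) :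
    lamN n M * ((vl 2 (M + 2 - n) X : ℝ) : ℂ) = ((vl n M X : ℝ) : ℂ) := by
  have hM' : (M : ℂ) ≠ 0 := by exact_mod_cast hM.ne'
  have h1 := lamN_eq (n := n) hM (by omega)
  have h2 : ((M + 2 - n : ℕ) : ℂ) ≠ 0 := by
    have : 0 < M + 2 - n := by omega
    exact_mod_cast this.ne'
  have h3 : lamN n M = ((M + 2 - n : ℕ) : ℂ) / M := by
    rw [← h1]
    field_simp
  rw [h3, vl, vl, bt, bt]
  push_cast
  have h4 : ((M + 2 - n : ℕ) : ℂ) = M + 2 - n := by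
    rw [Nat.cast_sub (by omega)]
    push_cast
    rfl
  rw [h4] at h2 ⊢
  field_simp
  ring

theorem ww_scale {n M : ℕ} (hM : 0 < M) (hn : n ≤ M + 1) (v : ℂ) :
    ww n M (lamN n M * v) = ww 2 (M + 2 - n) v := by
  have h1 := lamN_eq (n := n) hM (by omega)
  rw [ww, ww]
  congr 1
  have e1 : (M : ℂ) * (lamN n M * v + 1 / 2) = ((M + 2 - n : ℕ) : ℂ) * v + M / 2 := by
    rw [← h1]
    ring
  have h4 : ((M + 2 - n : ℕ) : ℂ) = M + 2 - n := by
    rw [Nat.cast_sub (by omega)]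
    push_cast
    rfl
  rw [e1, bt_be, bt_be, h4, be, be]
  push_cast
  ring

theorem om_scale {n M : ℕ} (hM : 0 < M) (hn : n ≤ M + 1) (v : ℂ) :
    om n M (lamN n M * v) = om 2 (M + 2 - n) v := by
  rw [om, om, ww_scale hM hn]

/-- `sin` does not vanish in the upper half plane. -/
theorem fs_up {M : ℕ} (hM : 0 < M) {z : ℂ} (hz : 0 < z.im) : fs M z ≠ 0 := by
  have hM0 : (0 : ℝ) < M := by exact_mod_cast hM
  rw [fs]
  refine mul_ne_zero two_ne_zero ?_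
  rw [sin_ne_zero_iff]
  intro k hk
  have h3 := congrArg Complex.im hk
  have e1 : ((Real.pi : ℂ) * z / M).im = Real.pi / M * z.im := by
    have : ((Real.pi : ℂ) * z / M) = ((Real.pi / M : ℝ) : ℂ) * z := by push_cast; ring
    rw [this, im_ofReal_mul]
  have e2 : ((k : ℂ) * Real.pi).im = 0 := by
    have : ((k : ℂ) * Real.pi) = ((k * Real.pi : ℝ) : ℂ) := by push_cast; ring
    rw [this, ofReal_im]
  rw [e1, e2] at h3
  have : 0 < Real.pi / M * z.im := by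
    have := Real.pi_pos
    positivity
  linarith

theorem Dw_up {M : ℕ} (hM : 0 < M) (d : ℕ) {u : ℂ} (hu : 0 < u.im) : Dw M d u ≠ 0 := by
  rw [Dw]
  refine Finset.prod_ne_zero_iff.2 fun j _ => ?_
  refine fs_up hM ?_
  have : (u + j + 1 / 2 - d / 2).im = u.im := by
    have e : u + j + 1 / 2 - d / 2 = u + (((j : ℝ) + 1 / 2 - d / 2 : ℝ) : ℂ) := by
      push_cast
      ring
    rw [e, add_im, ofReal_im, add_zero]
  rw [this]
  exact hu

theorem sN_yM {n M κ : ℕ} (hM : 0 < M) (hn : 2 ≤ n) (h0 : n - 2 ≤ κ) :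
    yM M κ - sN n M = yN n M (κ - (n - 2)) := by
  have hM' : (M : ℂ) ≠ 0 := by exact_mod_cast hM.ne'
  rw [yM, sN, yN, Nat.cast_sub h0, Nat.cast_sub hn]
  field_simp
  push_cast
  ring

/-- The interpolation of a slot with its centered product. -/
theorem qS_slot {n M κ : ℕ} (hn : 2 ≤ n) (h0 : n - 2 ≤ κ) (h1 : κ < M) {v : ℂ}
    (hv : |v.re| ≤ 1 / 2) :
    qS M (yM M κ - sN n M) v = Wd M (n - 2) v * q4 M (n - 2) (M + 1 - n - (κ - (n - 2))) v := by
  have hM : 0 < M := by omega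
  have hM' : (M : ℂ) ≠ 0 := by exact_mod_cast hM.ne'
  have h := Ws_sk4 (n := n) (h := 1) hn le_rfl (by omega) false h0 h1 (σ := .op v) hv
  have e1 : M + 1 - n - (κ - (n - 2)) = M - 1 - κ := by omega
  have e2 : ((yk 2 M κ : ℝ) : ℂ) - (dd n 1 false : ℂ) / (2 * M) = yM M κ - sN n M := by
    have : dd n 1 false = n - 2 := rfl
    rw [this, Pool.Agent.S3.yk_two, yM, sN, Nat.cast_sub hn]
    push_cast
    field_simp
  rw [e1, ← e2]
  exact h.symm

/-- The entire function of a node. -/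
noncomputable def GA (r : ℝ) (n h M : ℕ) (σ : ℤ) (k l : ℕ) (v : ℂ) : ℂ :=
  1 / M ^ 2 * FB r M n (BB M n h σ) (M + 1 - n - k) (M + 1 - n - l) (M * (v + 1 / 2))

theorem GA_diff (r : ℝ) (n h M : ℕ) (σ : ℤ) (k l : ℕ) : Differentiable ℂ (GA r n h M σ k l) := by
  unfold GA
  refine Differentiable.const_mul ?_ _
  exact (FB_diff r M n (BB_diff M n h σ) _ _).comp (by fun_prop)

theorem GA_odd (r : ℝ) {n h M : ℕ} (hM : 0 < M) (hn : 2 ≤ n) (σ : ℤ) (k l : ℕ) (v : ℂ) :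
    GA r n h M σ k l (-v) = -GA r n h M σ k l v := by
  have h := FB_refl (r : ℂ) hM hn (BB_refl hM hn h σ) (M + 1 - n - k) (M + 1 - n - l)
    (M * (v + 1 / 2))
  have e : (M : ℂ) - M * (v + 1 / 2) = M * (-v + 1 / 2) := by ring
  rw [e] at h
  rw [GA, GA, h]
  ring

theorem GA_NA (r : ℝ) {n h M : ℕ} (hM : 0 < M) (hh : 1 ≤ h) (hn : 2 * h ≤ n) {σ : ℤ}
    (hσ : σ = 0 ∨ σ = 1 ∨ σ = -1) (k l : ℕ) {v : ℂ} (hv : 0 < v.im) :
    GA r n h M σ k l v = NA r n (n - 2 * h) M σ k l v := by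
  rw [GA, NA_FB hM hh hn r hσ k l]
  refine Dw_up hM _ ?_
  have hM0 : (0 : ℝ) < M := by exact_mod_cast hM
  have : ((M : ℂ) * (v + 1 / 2)).im = M * v.im := by
    have e : (M : ℂ) * (v + 1 / 2) = ((M : ℝ) : ℂ) * v + ((M / 2 : ℝ) : ℂ) := by
      push_cast
      ring
    rw [e, add_im, im_ofReal_mul, ofReal_im, add_zero]
  rw [this]
  positivity

theorem DA_GA (r : ℝ) {n h M : ℕ} (hM : 0 < M) (hh : 1 ≤ h) (hn : 2 * h ≤ n) (hnM : n ≤ M + 1)
    {σ : ℤ} (hσ : σ = 0 ∨ σ = 1 ∨ σ = -1) (k l : ℕ) :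
    DA r n (n - 2 * h) M σ k l =
      ∑ X ∈ Finset.range (M + 2 - n), deriv (GA r n h M σ k l) ((vl n M X : ℝ) : ℂ) := by
  have hM' : (M : ℂ) ≠ 0 := by exact_mod_cast hM.ne'
  rw [DA]
  refine Finset.sum_congr rfl fun X hX => ?_
  have hX' := Finset.mem_range.1 hX
  set x : ℂ := ((vl n M X : ℝ) : ℂ) with hx
  have e1 : (M : ℂ) * (x + 1 / 2) = (X : ℂ) + be n := by
    rw [hx, vl, ← bt_be]
    push_cast
    field_simp
    ring
  have hc : ContinuousAt (fun v : ℂ => Dw M (n - 2 * h) (M * (v + 1 / 2))) x :=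
    ((Dw_diff M _).continuous.comp (by fun_prop)).continuousAt
  have hne : Dw M (n - 2 * h) (M * (x + 1 / 2)) ≠ 0 := by
    rw [e1]
    exact Dw_lat hh hn hnM hX'
  refine Filter.EventuallyEq.deriv_eq ?_
  filter_upwards [hc.eventually_ne hne] with v hv
  rw [GA, NA_FB hM hh hn r hσ k l hv]

/-- The factor of a node as an integral over a contour. -/
theorem DA_ctr (r : ℝ) {n h M : ℕ} (hh : 1 ≤ h) (hn : 2 * h ≤ n) (hnM : n ≤ M + 1) {σ : ℤ}
    (hσ : σ = 0 ∨ σ = 1 ∨ σ = -1) {κ κ' : ℕ} (h0 : n - 2 ≤ κ) (h0' : n - 2 ≤ κ') (h1 : κ < M)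
    (h1' : κ' < M) {γ γ' : ℝ → ℂ} (hγ : Ctr γ γ') (hre : ∀ x, |(γ x).re| ≤ 1 / 2) :
    Integrable (fun x => kVA r n h M σ (γ x) (yM M κ) (yM M κ') * γ' x) ∧
    DA r n (n - 2 * h) M σ (κ - (n - 2)) (κ' - (n - 2)) = -(4 * Real.pi * I) * M ^ 2 *
      ∫ x, kVA r n h M σ (γ x) (yM M κ) (yM M κ') * γ' x := by
  have hM : 0 < M := by omega
  have hn2 : 2 ≤ n := by omega
  have hM' : (M : ℂ) ≠ 0 := by exact_mod_cast hM.ne'
  have hM0 : (0 : ℝ) < M := by exact_mod_cast hM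
  have hlam := lamN_eq (n := n) hM (by omega)
  have hm : 0 < M + 2 - n := by omega
  have hm' : ((M + 2 - n : ℕ) : ℂ) ≠ 0 := by exact_mod_cast hm.ne'
  have hl0 : lamN n M ≠ 0 := by
    intro hc
    rw [hc, mul_zero] at hlam
    exact hm' hlam.symm
  set G : ℂ → ℂ := GA r n h M σ (κ - (n - 2)) (κ' - (n - 2)) with hG
  have hGd : Differentiable ℂ (fun v => G (lamN n M * v)) :=
    (GA_diff r n h M σ _ _).comp (by fun_prop)
  have hGo : ∀ v, (fun v => G (lamN n M * v)) (-v) = -(fun v => G (lamN n M * v)) v := by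
    intro v
    simp only
    rw [mul_neg, hG, GA_odd r hM hn2]
  obtain ⟨hi, hs⟩ := sum_ctr2 hGd hGo hm hγ
  have hval : ∀ x, lamN n M * (G (lamN n M * γ x) * om 2 (M + 2 - n) (γ x) * γ' x) =
      kVA r n h M σ (γ x) (yM M κ) (yM M κ') * γ' x := by
    intro x
    have him : 0 < (lamN n M * γ x).im := by
      rw [lam_im]
      exact mul_pos (lamN_pos hM hnM) (hγ.pos x)
    have hre' := lam_re_le hM hn2 hnM (hre x)
    rw [hG, GA_NA r hM hh hn hσ _ _ him, NA, kVA, qS_slot hn2 h0 h1 hre',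
      qS_slot hn2 h0' h1' hre', ← om_scale hM hnM]
    ring
  have hi' : Integrable (fun x => kVA r n h M σ (γ x) (yM M κ) (yM M κ') * γ' x) := by
    refine (hi.const_mul (lamN n M)).congr (Filter.Eventually.of_forall fun x => ?_)
    exact hval x
  refine ⟨hi', ?_⟩
  have hint : ∫ x, kVA r n h M σ (γ x) (yM M κ) (yM M κ') * γ' x =
      lamN n M * ∫ x, G (lamN n M * γ x) * om 2 (M + 2 - n) (γ x) * γ' x := by
    rw [← integral_const_mul]
    exact integral_congr_ae (Filter.Eventually.of_forall fun x => (hval x).symm)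
  have hsum : ∑ l ∈ Finset.Icc 0 (M + 2 - n - 1),
      deriv (fun v => G (lamN n M * v)) ((vl 2 (M + 2 - n) l : ℝ) : ℂ) =
      lamN n M * DA r n (n - 2 * h) M σ (κ - (n - 2)) (κ' - (n - 2)) := by
    rw [DA_GA r hM hh hn hnM hσ, Finset.mul_sum]
    have hs2 : Finset.Icc 0 (M + 2 - n - 1) = Finset.range (M + 2 - n) := by
      ext X
      simp only [Finset.mem_range, Finset.mem_Icc]
      omega
    rw [hs2]
    refine Finset.sum_congr rfl fun X _ => ?_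
    have hd : HasDerivAt (fun v => G (lamN n M * v))
        (deriv G (lamN n M * ((vl 2 (M + 2 - n) X : ℝ) : ℂ)) * lamN n M)
        ((vl 2 (M + 2 - n) X : ℝ) : ℂ) := by
      have h1 : HasDerivAt (fun v : ℂ => lamN n M * v) (lamN n M)
          ((vl 2 (M + 2 - n) X : ℝ) : ℂ) := by
        simpa using (hasDerivAt_id ((vl 2 (M + 2 - n) X : ℝ) : ℂ)).const_mul (lamN n M)
      have h2 : HasDerivAt G (deriv G (lamN n M * ((vl 2 (M + 2 - n) X : ℝ) : ℂ)))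
          (lamN n M * ((vl 2 (M + 2 - n) X : ℝ) : ℂ)) :=
        ((GA_diff r n h M σ (κ - (n - 2)) (κ' - (n - 2))) _).hasDerivAt
      exact h2.comp ((vl 2 (M + 2 - n) X : ℝ) : ℂ) h1
    rw [hd.deriv, vl_scale hM hnM, hG]
    ring
  rw [hsum] at hs
  refine mul_left_cancel₀ hl0 ?_
  rw [hs, hint, ← hlam]
  ring

end Pool.Agent.S5
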