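import Pool.Agent.S5.N.VA
import Pool.Agent.S5.S.Df

/-!
# Nodes of antiparallel strands with an integration variable: differentiability
-/

set_option autoImplicit false

namespace Pool.Agent.S5

open Pool.Agent.H63.VC hiding ext
open Pool.Agent.H63.VC3 Pool.Agent.H63.VC7 Pool.Agent.S4 Complex Filter Topology
open Pool.Agent.S3 (Rf fe rS qS wr fdom)

variable {E : Type} [NormedAddCommGroup E] [NormedSpace ℂ E]

theorem Wd_df (M d : ℕ) : Differentiable ℂ (Wd M d) := by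
  have : Wd M d = fun v => ∏ j ∈ Finset.range d,
      (2 * cos (Real.pi * (v + ((j : ℂ) + 1 / 2 - d / 2) / M))) := rfl
  rw [this]
  refine Differentiable.fun_finsetProd fun j _ => ?_
  fun_prop

theorem Wd_up {M : ℕ} (hM : 0 < M) (d : ℕ) {v : ℂ} (hv : 0 < v.im) : Wd M d v ≠ 0 := by
  rw [Wd_Dw hM]
  refine Dw_up hM _ ?_
  have hM0 : (0 : ℝ) < M := by exact_mod_cast hM
  have : ((M : ℂ) * (v + 1 / 2)).im = M * v.im := by
    have e : (M : ℂ) * (v + 1 / 2) = ((M : ℝ) : ℂ) * v + ((M / 2 : ℝ) : ℂ) := by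
      push_cast
      ring
    rw [e, add_im, im_ofReal_mul, ofReal_im, add_zero]
  rw [this]
  positivity

theorem sN_real (n M : ℕ) : sN n M = ((((n : ℝ) - 2) / 2 / M : ℝ) : ℂ) := by
  rw [sN]
  push_cast
  rfl

/-- The shifted variable of an edge. -/
theorem dm_sN {n M : ℕ} (hn : 2 ≤ n) {d : ℝ} {z : ℂ} (hz : z ∈ Dm M (n - 2) d) :
    z - sN n M ∈ Dm M 0 d := by
  obtain ⟨h1, h2, h3⟩ := hz
  have hn' : (2 : ℝ) ≤ n := by exact_mod_cast hn
  have hs : 0 ≤ ((n : ℝ) - 2) / 2 / M :=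
    div_nonneg (by linarith) (Nat.cast_nonneg M)
  have e1 : (z - sN n M).re = z.re - ((n : ℝ) - 2) / 2 / M := by
    rw [sN_real, sub_re, ofReal_re]
  have e2 : (z - sN n M).im = z.im := by
    rw [sN_real, sub_im, ofReal_im, sub_zero]
  refine ⟨?_, ?_, ?_⟩
  · rw [e1]
    unfold al yR at h1 ⊢
    rw [Nat.cast_sub hn] at h1
    have h4 : (((0 : ℕ) : ℝ) - 1 / 2 + 1) / M + ((n : ℝ) - 2) / 2 / M ≤
        (((n : ℝ) - ((2 : ℕ) : ℝ)) - 1 / 2 + 1) / M := by
      rw [← add_div]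
      refine div_le_div_of_nonneg_right ?_ (Nat.cast_nonneg M)
      push_cast
      linarith
    linarith
  · rw [e1]
    linarith
  · rw [e2]
    exact h3

theorem om_scale_df {n M : ℕ} (hn : 2 ≤ n) (hM : n ≤ M + 1) {f : E → ℂ} {p : E}
    (hf : DifferentiableAt ℂ f p) (h : 0 < (f p).im) :
    DifferentiableAt ℂ (fun x => om n M (lamN n M * f x)) p := by
  have e : (fun x => om n M (lamN n M * f x)) = fun x => om 2 (M + 2 - n) (f x) := by
    funext x
    rw [om_scale (by omega) hM]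
  rw [e]
  have h1 := Pool.Agent.H25.RK.ww_ne_one (M := M + 2 - n) (by omega) h
  have h2 : DifferentiableAt ℂ (fun x => Pool.Agent.H63.VC3.ww 2 (M + 2 - n) (f x)) p := by
    unfold Pool.Agent.H63.VC3.ww
    apply DifferentiableAt.cexp
    fun_prop
  unfold om
  have h3 : DifferentiableAt ℂ (fun x => (1 - Pool.Agent.H63.VC3.ww 2 (M + 2 - n) (f x)) ^ 2) p := by
    fun_prop
  have h4 : (1 - Pool.Agent.H63.VC3.ww 2 (M + 2 - n) (f p)) ^ 2 ≠ 0 :=
    pow_ne_zero 2 (sub_ne_zero.mpr (Ne.symm h1))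
  simp only [div_eq_mul_inv]
  exact h2.mul (DifferentiableAt.fun_inv
    (h := fun x => (1 - Pool.Agent.H63.VC3.ww 2 (M + 2 - n) (f x)) ^ 2) h3 h4)

/-- The kernel is differentiable. -/
theorem kVA_df (r : ℝ) {n h M : ℕ} (hn : 2 ≤ n) (hM : n ≤ M + 1) (hM2 : 2 ≤ M) (σ : ℤ) {d : ℝ}
    {f g g' : E → ℂ} {p : E} (hf : DifferentiableAt ℂ f p) (hg : DifferentiableAt ℂ g p)
    (hg' : DifferentiableAt ℂ g' p) (h1 : g p ∈ Dm M (n - 2) d) (h2 : g' p ∈ Dm M (n - 2) d)
    (h4 : 0 < (f p).im ∧ |(f p).re| ≤ 1 / 2) :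
    DifferentiableAt ℂ (fun x => kVA r n h M σ (f x) (g x) (g' x)) p := by
  have hM0 : 0 < M := by omega
  have hlf : DifferentiableAt ℂ (fun x => lamN n M * f x) p := hf.const_mul _
  have hlre : |(lamN n M * f p).re| ≤ 1 / 2 := lam_re_le hM0 hn hM h4.2
  have hlim : 0 < (lamN n M * f p).im := by
    rw [lam_im]
    exact mul_pos (lamN_pos hM0 hM) h4.1
  unfold kVA
  refine DifferentiableAt.mul (DifferentiableAt.const_mul ?_ _) (DifferentiableAt.mul ?_ ?_)
  · refine DifferentiableAt.mul (DifferentiableAt.mul (DifferentiableAt.mul ?_ ?_) ?_) ?_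
    · apply DifferentiableAt.cexp
      fun_prop
    · apply DifferentiableAt.mul
      · fun_prop
      · apply DifferentiableAt.csin
        fun_prop
    · have hw : DifferentiableAt ℂ (fun x => Wd M (n - 2 * h) (lamN n M * f x)) p :=
        DifferentiableAt.comp (g := Wd M (n - 2 * h)) (f := fun x => lamN n M * f x) p
          (Wd_df M _ _) hlf
      exact hw.zpow (Or.inl (Wd_up hM0 _ hlim))
    · exact om_scale_df hn hM hf h4.1
  · exact qS_df hM2 hlf (hg.sub_const _) (dm_sN hn h1) hlre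
  · exact qS_df hM2 hlf (hg'.sub_const _) (dm_sN hn h2) hlre

theorem vl_abs_le {n M X : ℕ} (hM0 : 0 < M) (hn : 2 ≤ n) (hX : X + n ≤ M + 1) :
    |((vl n M X : ℝ) : ℂ).re| ≤ 1 / 2 := by
  have hM0 : (0 : ℝ) < M := by exact_mod_cast hM0
  have hn' : (2 : ℝ) ≤ n := by exact_mod_cast hn
  rw [ofReal_re, vl, bt]
  have h1 : ((X : ℝ) + n) ≤ M + 1 := by exact_mod_cast hX
  have h2 : 0 ≤ ((X : ℝ) + ((n : ℝ) - 1) / 2) / M :=
    div_nonneg (by have := Nat.cast_nonneg (α := ℝ) X; linarith) hM0.le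
  have h3 : ((X : ℝ) + ((n : ℝ) - 1) / 2) / M ≤ 1 := by
    rw [div_le_one hM0]
    linarith
  rw [abs_le]
  constructor <;> linarith

/-- The terms of the lattice points are differentiable. -/
theorem latA_df (r : ℝ) {n h M : ℕ} (hn : 2 ≤ n) (hM2 : 2 ≤ M) (σ : ℤ) {d : ℝ}
    (κ X : ℕ) {b : ℂ} (hb : b ∈ Dm M (n - 2) d) :
    DifferentiableAt ℂ (latA r n h M σ κ X) b := by
  by_cases hc : κ < M ∧ X + (n - 2) ≤ κ
  · have hv := vl_abs_le (n := n) (M := M) (X := X) (by omega) hn (by omega)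
    have e : latA r n h M σ κ X = fun b =>
        2 * (exp (2 * Real.pi * I * r * M * ((vl n M X : ℝ) : ℂ) ^ 2) *
      (2 * sin (2 * Real.pi * ((vl n M X : ℝ) : ℂ))) * Wd M (n - 2 * h) ((vl n M X : ℝ) : ℂ) ^ σ) *
      (ql4 n h false M κ X * qS M (b - sN n M) ((vl n M X : ℝ) : ℂ)) := by
      funext b
      rw [latA, if_pos hc]
    rw [e]
    refine DifferentiableAt.const_mul (DifferentiableAt.const_mul ?_ _) _
    exact qS_df (f := fun _ : ℂ => ((vl n M X : ℝ) : ℂ)) (g := fun x : ℂ => x - sN n M) hM2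
      (differentiableAt_const _) (differentiableAt_id.sub_const _) (dm_sN hn hb) hv
  · have e : latA r n h M σ κ X = fun _ => 0 := by
      funext b
      rw [latA, if_neg hc]
    rw [e]
    exact differentiableAt_const _

end Pool.Agent.S5
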